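import Pool.Agent.SPI.St

set_option autoImplicit false

/-!
# SPI, Ana: analyticity
-/

open MeasureTheory Filter Topology Set
open scoped ENNReal NNReal RealInnerProductSpace ContDiff

namespace Pool.Agent.SPI

open Pool.Agent.QWL (X IsTest ft hs HD sc HN mult cosP sinP dcosP IsSoln IsMaxSoln Scatters)

namespace Anax

variable {d : ℕ}

theorem rpow_le {s a r1 r2 : ℝ} (hs : 0 < s) (h1 : r1 ≤ a) (h2 : a ≤ r2) :
    s ^ (-a) ≤ s ^ (-r1) + s ^ (-r2) := by
  rcases le_total s 1 with h | h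
  · have h3 : s ^ (-a) ≤ s ^ (-r2) := Real.rpow_le_rpow_of_exponent_ge hs h (by linarith)
    have h4 : 0 ≤ s ^ (-r1) := (Real.rpow_pos_of_pos hs _).le
    linarith
  · have h3 : s ^ (-a) ≤ s ^ (-r1) := Real.rpow_le_rpow_of_exponent_le h (by linarith)
    have h4 : 0 ≤ s ^ (-r2) := (Real.rpow_pos_of_pos hs _).le
    linarith

/-- the character -/
theorem norm_chr (x ξ : X d) :
    ‖Complex.exp (-2 * Real.pi * Complex.I * ((inner ℝ x ξ : ℝ) : ℂ))‖ = 1 := by
  have h : -2 * (Real.pi : ℂ) * Complex.I * ((inner ℝ x ξ : ℝ) : ℂ) =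
      ((-2 * Real.pi * inner ℝ x ξ : ℝ) : ℂ) * Complex.I := by
    push_cast
    ring
  rw [h, Complex.norm_exp_ofReal_mul_I]

theorem ftC_cont {f : X d → ℂ} (hf : Integrable f volume) : Continuous (ftC f) := by
  unfold ftC
  refine continuous_of_dominated (bound := fun x => ‖f x‖) ?_ ?_ hf.norm ?_
  · intro ξ
    refine hf.aestronglyMeasurable.mul (Continuous.aestronglyMeasurable ?_)
    fun_prop
  · intro ξ
    refine Eventually.of_forall fun x => ?_
    rw [norm_mul, norm_chr, mul_one]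
  · refine Eventually.of_forall fun x => ?_
    fun_prop

theorem ftC_le {f : X d → ℂ} {b : X d → ℝ} (hb : Integrable b volume) (h : ∀ x, ‖f x‖ ≤ b x)
    (ξ : X d) : ‖ftC f ξ‖ ≤ ∫ x, b x := by
  unfold ftC
  refine norm_integral_le_of_norm_le hb (Eventually.of_forall fun x => ?_)
  rw [norm_mul, norm_chr, mul_one]
  exact h x

theorem test_int {φ : X d → ℝ} (hφ : IsTest φ) : Integrable (fun x => |φ x|) volume :=
  (hφ.1.continuous.integrable_of_hasCompactSupport hφ.2).abs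

theorem testC_int {f : X d → ℂ} (hf : TestC f) : Integrable f volume :=
  hf.1.continuous.integrable_of_hasCompactSupport hf.2

/-- the Fourier transform of the family -/
theorem ft_fam (hHol : St_Hol) (hFam : St_Fam) (hd : 2 ≤ d) {φ : X d → ℝ} (hφ : IsTest φ) {δ : ℝ}
    (hδ : 0 < δ) :
    (∀ ξ, Differentiable ℂ fun z => ftC (fam δ φ z) ξ) ∧
    (∀ z, Continuous fun ξ => ftC (fam δ φ z) ξ) ∧
    ∀ r1 r2 : ℝ, ∃ M : ℝ, 0 ≤ M ∧ ∀ z : ℂ, r1 ≤ z.re → z.re ≤ r2 → ∀ ξ,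
      ‖ftC (fam δ φ z) ξ‖ ≤ M := by
  obtain ⟨hT, -, -, hD, -, -, hM⟩ := (hFam d hd φ hφ).1 δ hδ
  refine ⟨fun ξ => ?_, fun z => ftC_cont (testC_int (hT z)), fun r1 r2 => ?_⟩
  · have h1 := hHol (X d) volume (fun z x => fam δ φ z x *
      Complex.exp (-2 * Real.pi * Complex.I * ((inner ℝ x ξ : ℝ) : ℂ))) univ isOpen_univ
      (fun z _ => (testC_int (hT z)).aestronglyMeasurable.mul
        (Continuous.aestronglyMeasurable (by fun_prop)))
      (Eventually.of_forall fun x => ((hD x).mul_const _).differentiableOn)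
      (fun z0 _ => by
        obtain ⟨M, hM'⟩ := hM (z0.re - 1) (z0.re + 1)
        refine ⟨1, one_pos, fun x => M * |φ x|, (test_int hφ).const_mul M,
          Eventually.of_forall fun x z hz => ?_⟩
        rw [norm_mul, norm_chr, mul_one]
        have h2 : |z.re - z0.re| < 1 := by
          rw [← Complex.sub_re]
          exact lt_of_le_of_lt (Complex.abs_re_le_norm _) (by simpa [dist_eq_norm] using hz)
        rw [abs_lt] at h2
        exact hM' z (by linarith) (by linarith) x)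
    exact differentiableOn_univ.1 h1
  · obtain ⟨M, hM'⟩ := hM r1 r2
    obtain ⟨I, hI⟩ : ∃ I : ℝ, I = ∫ x, M * |φ x| := ⟨_, rfl⟩
    refine ⟨|I|, abs_nonneg _, fun z h1 h2 ξ => ?_⟩
    rw [hI]
    exact (ftC_le ((test_int hφ).const_mul M) (hM' z h1 h2) ξ).trans (le_abs_self _)

end Anax

open Anax

theorem thm_Ana (hSy : St_Sy) (hHol : St_Hol) (hFam : St_Fam) : St_Ana := by
  intro d hd φ ψ hφ hψ δ ε σ hδ hε
  have hd1 : 1 ≤ d := by omega
  have hdR : (2 : ℝ) ≤ d := by exact_mod_cast hd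
  obtain ⟨hS1, hS2⟩ := hSy d hd1 ε hε
  obtain ⟨hφD, hφC, hφM⟩ := ft_fam hHol hFam hd hφ hδ
  obtain ⟨hψD, hψC, hψM⟩ := ft_fam hHol hFam hd hψ hδ
  have : Nonempty (Fin d) := ⟨⟨0, by omega⟩⟩
  have hne : ∀ᵐ ξ : X d ∂volume, ξ ≠ 0 := by
    rw [ae_iff]
    simp
  -- domination
  have hdom : ∀ r1 r2 : ℝ, r1 < d → r2 < d → ∃ bd : X d → ℝ, Integrable bd volume ∧
      ∀ ξ : X d, ξ ≠ 0 → ∀ z : ℂ, r1 ≤ z.re → z.re ≤ r2 →
        ‖sy z ε σ ξ * ftC (fam δ φ z) ξ * ftC (fam δ ψ z) (-ξ)‖ ≤ bd ξ := by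
    intro r1 r2 h1 h2
    obtain ⟨M1, hM10, hM1⟩ := hφM r1 r2
    obtain ⟨M2, hM20, hM2⟩ := hψM r1 r2
    refine ⟨fun ξ => ((2 * Real.pi * ‖ξ‖) ^ (-r1) * Real.exp (-(ε * (2 * Real.pi * ‖ξ‖))) +
      (2 * Real.pi * ‖ξ‖) ^ (-r2) * Real.exp (-(ε * (2 * Real.pi * ‖ξ‖)))) * (M1 * M2),
      ((hS1 r1 h1).add (hS1 r2 h2)).mul_const _, fun ξ hξ z hz1 hz2 => ?_⟩
    rw [norm_mul, norm_mul, ((hS2 z σ).1 ξ hξ), mul_assoc]
    dsimp only
    rw [← add_mul]
    have hs : 0 < 2 * Real.pi * ‖ξ‖ := by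
      have := norm_pos_iff.2 hξ
      have := Real.pi_pos
      positivity
    have h3 := rpow_le hs hz1 hz2
    have h4 : (0 : ℝ) ≤ (2 * Real.pi * ‖ξ‖) ^ (-z.re) := (Real.rpow_pos_of_pos hs _).le
    have h5 : ‖ftC (fam δ φ z) ξ‖ * ‖ftC (fam δ ψ z) (-ξ)‖ ≤ M1 * M2 :=
      mul_le_mul (hM1 z hz1 hz2 _) (hM2 z hz1 hz2 _) (norm_nonneg _) hM10
    refine mul_le_mul (mul_le_mul_of_nonneg_right h3 (Real.exp_pos _).le) h5 (by positivity) ?_
    exact mul_nonneg (h4.trans h3) (Real.exp_pos _).le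
  refine ⟨?_, ?_⟩
  · refine hHol (X d) volume (fun z ξ => sy z ε σ ξ * ftC (fam δ φ z) ξ * ftC (fam δ ψ z) (-ξ))
      {z : ℂ | z.re < d} (isOpen_lt Complex.continuous_re continuous_const) ?_ ?_ ?_
    · intro z hz
      exact (((hS2 z σ).2 hz).aestronglyMeasurable.mul (hφC z).aestronglyMeasurable).mul
        ((hψC z).comp continuous_neg).aestronglyMeasurable
    · filter_upwards [hne] with ξ hξ
      have hs : ((2 * Real.pi * ‖ξ‖ : ℝ) : ℂ) ≠ 0 := by
        rw [Complex.ofReal_ne_zero]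
        have := norm_pos_iff.2 hξ
        have := Real.pi_pos
        positivity
      refine Differentiable.differentiableOn ?_
      refine (Differentiable.mul ?_ (hφD ξ)).mul (hψD (-ξ))
      unfold sy
      refine Differentiable.mul_const ?_ _
      intro z
      exact DifferentiableAt.const_cpow differentiableAt_id.neg (Or.inl hs)
    · intro z0 hz0
      have hz0' : z0.re < d := hz0
      obtain ⟨bd, hbd, hb⟩ := hdom (z0.re - (d - z0.re) / 2) (z0.re + (d - z0.re) / 2)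
        (by linarith) (by linarith)
      refine ⟨(d - z0.re) / 2, by linarith, bd, hbd, ?_⟩
      filter_upwards [hne] with ξ hξ z hz
      have h2 : |z.re - z0.re| < (d - z0.re) / 2 := by
        rw [← Complex.sub_re]
        exact lt_of_le_of_lt (Complex.abs_re_le_norm _) (by simpa [dist_eq_norm] using hz)
      rw [abs_lt] at h2
      exact hb ξ hξ z (by linarith) (by linarith)
  · obtain ⟨bd, hbd, hb⟩ := hdom 0 (((d : ℝ) + 1) / 2) (by linarith) (by linarith)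
    refine ⟨∫ ξ, bd ξ, fun z h1 h2 => ?_⟩
    unfold Bf
    refine norm_integral_le_of_norm_le hbd ?_
    filter_upwards [hne] with ξ hξ
    exact hb ξ hξ z h1 h2

end Pool.Agent.SPI
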