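import Pool.Agent.SPI.St

set_option autoImplicit false

/-!
# SPI, module BL1: the bilinear form on the line `Re z = (d+1)/2` (helper52)
-/

open MeasureTheory Filter Topology Set
open scoped ENNReal NNReal RealInnerProductSpace ContDiff

namespace Pool.Agent.SPI

open Pool.Agent.QWL (X IsTest ft hs HD sc HN mult cosP sinP dcosP IsSoln IsMaxSoln Scatters)

namespace BL1x

/-- `|Γ(s)| ≤ Γ(Re s)`. -/
theorem gamma_le (s : ℂ) (hs : 0 < s.re) : ‖Complex.Gamma s‖ ≤ Real.Gamma s.re := by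
  rw [Complex.Gamma_eq_integral hs, Complex.GammaIntegral, Real.Gamma_eq_integral hs]
  refine (norm_integral_le_integral_norm _).trans (le_of_eq ?_)
  refine setIntegral_congr_fun measurableSet_Ioi fun x hx => ?_
  have hx' : (0 : ℝ) < x := hx
  show ‖((Real.exp (-x) : ℝ) : ℂ) * (x : ℂ) ^ (s - 1)‖ = Real.exp (-x) * x ^ (s.re - 1)
  rw [norm_mul, Complex.norm_real, Real.norm_of_nonneg (Real.exp_pos _).le,
    Complex.norm_cpow_eq_rpow_re_of_pos hx']
  simp

variable {d : ℕ}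

theorem comb (f g : X d → ℂ) (x x' ξ : X d) :
    (f x * Complex.exp (-2 * Real.pi * Complex.I * ((inner ℝ x ξ : ℝ) : ℂ))) *
      (g x' * Complex.exp (-2 * Real.pi * Complex.I * ((inner ℝ x' (-ξ) : ℝ) : ℂ))) =
    f x * g x' * Complex.exp (2 * Real.pi * Complex.I * ((inner ℝ (x' - x) ξ : ℝ) : ℂ)) := by
  rw [inner_neg_right, inner_sub_left]
  have e : Complex.exp (2 * Real.pi * Complex.I * (((inner ℝ x' ξ - inner ℝ x ξ : ℝ)) : ℂ)) =
      Complex.exp (-2 * Real.pi * Complex.I * ((inner ℝ x ξ : ℝ) : ℂ)) *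
      Complex.exp (-2 * Real.pi * Complex.I * ((-inner ℝ x' ξ : ℝ) : ℂ)) := by
    rw [← Complex.exp_add]
    congr 1
    push_cast
    ring
  rw [e]
  ring

theorem norm_e (x ξ : X d) :
    ‖Complex.exp (2 * Real.pi * Complex.I * ((inner ℝ x ξ : ℝ) : ℂ))‖ = 1 := by
  have e : (2 * Real.pi * Complex.I * ((inner ℝ x ξ : ℝ) : ℂ)) =
      ((2 * Real.pi * inner ℝ x ξ : ℝ) : ℂ) * Complex.I := by
    push_cast
    ring
  rw [e, Complex.norm_exp_ofReal_mul_I]

/-- Fubini. -/
theorem fub (f g : X d → ℂ) (hf : Integrable f volume) (hg : Integrable g volume) (z : ℂ)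
    (ε σ : ℝ) (hs : Integrable (fun ξ : X d => sy z ε σ ξ) volume) :
    Bf z ε σ f g = ∫ p : X d × X d, f p.1 * g p.2 * Kf z ε σ (p.2 - p.1) := by
  have h1 : ∀ ξ : X d, sy z ε σ ξ * ftC f ξ * ftC g (-ξ) =
      ∫ p : X d × X d, sy z ε σ ξ * (f p.1 * g p.2) *
        Complex.exp (2 * Real.pi * Complex.I * ((inner ℝ (p.2 - p.1) ξ : ℝ) : ℂ)) := by
    intro ξ
    unfold ftC
    rw [mul_assoc, ← integral_prod_mul, ← integral_const_mul]
    refine integral_congr_ae (Eventually.of_forall fun p => ?_)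
    show sy z ε σ ξ * ((f p.1 * Complex.exp (-2 * Real.pi * Complex.I *
      ((inner ℝ p.1 ξ : ℝ) : ℂ))) * (g p.2 * Complex.exp (-2 * Real.pi * Complex.I *
      ((inner ℝ p.2 (-ξ) : ℝ) : ℂ)))) = _
    rw [comb]
    ring
  unfold Bf
  rw [integral_congr_ae (Eventually.of_forall h1), integral_integral_swap]
  · refine integral_congr_ae (Eventually.of_forall fun p => ?_)
    show ∫ ξ : X d, sy z ε σ ξ * (f p.1 * g p.2) *
        Complex.exp (2 * Real.pi * Complex.I * ((inner ℝ (p.2 - p.1) ξ : ℝ) : ℂ)) =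
      f p.1 * g p.2 * Kf z ε σ (p.2 - p.1)
    unfold Kf
    rw [← integral_const_mul]
    refine integral_congr_ae (Eventually.of_forall fun ξ => ?_)
    show sy z ε σ ξ * (f p.1 * g p.2) * _ = f p.1 * g p.2 * (sy z ε σ ξ * _)
    ring
  · have h2 : Integrable (fun q : X d × (X d × X d) => sy z ε σ q.1 * (f q.2.1 * g q.2.2))
        (volume.prod (volume.prod volume)) := hs.mul_prod (hf.mul_prod hg)
    have hc : Continuous fun q : X d × (X d × X d) => Complex.exp (2 * Real.pi * Complex.I *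
        ((inner ℝ (q.2.2 - q.2.1) q.1 : ℝ) : ℂ)) := by
      fun_prop
    have h3 := h2.mul_bdd (c := 1) hc.aestronglyMeasurable
      (Eventually.of_forall fun q => (norm_e (q.2.2 - q.2.1) q.1).le)
    exact h3

end BL1x

theorem thm_BL1 (hSy : St_Sy) (hKF : St_KF) : St_BL1 := by
  intro d hd hKB
  obtain ⟨C, hC, hJ⟩ := hKB
  have hdr : (2 : ℝ) ≤ d := by exact_mod_cast hd
  set G : ℝ := Real.Gamma (((d : ℝ) - 1) / 2) with hG
  have hGp : 0 < G := Real.Gamma_pos_of_pos (by linarith)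
  set A : ℝ := (2 * Real.pi) ^ (-(d : ℝ)) with hA
  have hAp : 0 < A := Real.rpow_pos_of_pos (by positivity) _
  refine ⟨A * G * C, by positivity, fun f g hf hg ε σ y hε hσ hy => ?_⟩
  set z : ℂ := ((((d : ℝ) + 1) / 2 : ℝ) : ℂ) + (y : ℂ) * Complex.I with hz
  have hzr : z.re = ((d : ℝ) + 1) / 2 := by
    rw [hz]; simp
  have hzd : z.re < d := by rw [hzr]; linarith
  have hdz : (d : ℂ) - z = (((((d : ℝ) - 1) / 2 : ℝ) : ℂ) - (y : ℂ) * Complex.I) := by
    rw [hz]
    push_cast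
    ring
  have hdzr : ((d : ℂ) - z).re = ((d : ℝ) - 1) / 2 := by
    rw [hdz]; simp
  have hs := ((hSy d (by omega) ε hε).2 z σ).2 hzd
  have hgro : 0 ≤ gro y := by
    unfold gro
    positivity
  have hK : ∀ x : X d, ‖Kf z ε σ x‖ ≤ A * G * C * gro y := by
    intro x
    rw [hKF d (by omega) z ε σ x hzd hε, norm_mul, norm_mul, Complex.norm_real,
      Real.norm_of_nonneg hAp.le]
    have h1 : ‖Complex.Gamma ((d : ℂ) - z)‖ ≤ G := by
      have h2 := BL1x.gamma_le ((d : ℂ) - z) (by rw [hdzr]; linarith)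
      rwa [hdzr] at h2
    have h3 : ‖Jf ((d : ℂ) - z) ε σ x‖ ≤ C * gro y := by
      rw [hdz]
      exact hJ x ε σ y hε hσ hy
    calc A * ‖Complex.Gamma ((d : ℂ) - z)‖ * ‖Jf ((d : ℂ) - z) ε σ x‖ ≤
        A * G * (C * gro y) := by
          refine mul_le_mul (mul_le_mul_of_nonneg_left h1 hAp.le) h3 (norm_nonneg _) ?_
          positivity
      _ = A * G * C * gro y := by ring
  rw [BL1x.fub f g hf hg z ε σ hs]
  have hb : Integrable (fun p : X d × X d => ‖f p.1‖ * ‖g p.2‖ * (A * G * C * gro y))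
      (volume.prod volume) := (hf.norm.mul_prod hg.norm).mul_const _
  refine (norm_integral_le_of_norm_le hb (Eventually.of_forall fun p => ?_)).trans ?_
  · rw [norm_mul, norm_mul]
    exact mul_le_mul_of_nonneg_left (hK _) (by positivity)
  · rw [integral_mul_const, integral_prod_mul (fun x => ‖f x‖) (fun x => ‖g x‖)]
    refine le_of_eq ?_
    ring

end Pool.Agent.SPI
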