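import Pool.Agent.SPI.St

set_option autoImplicit false

/-!
# SPI, module BL2: the bilinear form on the line of the imaginary parameters
-/

open MeasureTheory Filter Topology Set
open scoped ENNReal NNReal RealInnerProductSpace ContDiff FourierTransform SchwartzMap

namespace Pool.Agent.SPI

open Pool.Agent.QWL (X)

namespace BL2x

variable {d : ℕ}

private theorem ftC_eq (F : 𝓢(X d, ℂ)) (ξ : X d) : ftC (F : X d → ℂ) ξ = (𝓕 F : 𝓢(X d, ℂ)) ξ := by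
  rw [SchwartzMap.fourier_coe, Real.fourier_eq']
  unfold ftC
  congr 1
  funext x
  rw [smul_eq_mul, mul_comm]
  congr 2
  push_cast
  ring

private theorem sy_le (hSy : St_Sy) (hd : 1 ≤ d) {ε : ℝ} (hε : 0 < ε) (σ y : ℝ) (ξ : X d) :
    ‖sy ((y : ℂ) * Complex.I) ε σ ξ‖ ≤ 1 := by
  by_cases hξ : ξ = 0
  · subst hξ
    unfold sy
    rw [norm_zero, mul_zero, Complex.ofReal_zero, neg_zero, zero_mul, Complex.exp_zero, mul_one]
    by_cases hy : (-((y : ℂ) * Complex.I)) = 0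
    · rw [hy, Complex.cpow_zero, norm_one]
    · rw [Complex.zero_cpow hy, norm_zero]
      exact zero_le_one
  · rw [((hSy d hd ε hε).2 ((y : ℂ) * Complex.I) σ).1 ξ hξ]
    have h1 : ((y : ℂ) * Complex.I).re = 0 := by simp
    rw [h1, neg_zero, Real.rpow_zero, one_mul]
    apply Real.exp_le_one_iff.2
    have := norm_nonneg ξ
    have := Real.pi_pos
    rw [neg_nonpos]
    positivity

end BL2x

open BL2x in
theorem thm_BL2 (hSy : St_Sy) : St_BL2 := by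
  intro d hd f g hf hg ε σ y hε
  obtain ⟨F, hF⟩ : ∃ F : 𝓢(X d, ℂ), (F : X d → ℂ) = f := ⟨hf.2.toSchwartzMap hf.1, rfl⟩
  obtain ⟨G, hG⟩ : ∃ G : 𝓢(X d, ℂ), (G : X d → ℂ) = g := ⟨hg.2.toSchwartzMap hg.1, rfl⟩
  rw [← hF, ← hG]
  set F' : 𝓢(X d, ℂ) := 𝓕 F with hF'
  set G' : 𝓢(X d, ℂ) := 𝓕 G with hG'
  have m1 : MemLp (fun ξ => ‖F' ξ‖) 2 (volume : Measure (X d)) := (F'.memLp 2 volume).norm
  have m2' : MemLp (fun ξ => ‖G' ξ‖) 2 (volume : Measure (X d)) := (G'.memLp 2 volume).norm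
  have m2 : MemLp (fun ξ => ‖G' (-ξ)‖) 2 (volume : Measure (X d)) :=
    m2'.comp_measurePreserving (Measure.measurePreserving_neg volume)
  have i1 : Integrable (fun ξ => ‖F' ξ‖ * ‖G' (-ξ)‖) (volume : Measure (X d)) :=
    m1.integrable_mul m2
  have h1 : ‖Bf ((y : ℂ) * Complex.I) ε σ (F : X d → ℂ) G‖ ≤ ∫ ξ, ‖F' ξ‖ * ‖G' (-ξ)‖ := by
    unfold Bf
    apply norm_integral_le_of_norm_le i1
    filter_upwards with ξ
    rw [ftC_eq, ftC_eq, norm_mul, norm_mul]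
    calc ‖sy ((y : ℂ) * Complex.I) ε σ ξ‖ * ‖F' ξ‖ * ‖G' (-ξ)‖
        ≤ 1 * ‖F' ξ‖ * ‖G' (-ξ)‖ := by
          gcongr
          exact sy_le hSy hd hε σ y ξ
      _ = _ := by rw [one_mul]
  have e2 : ENNReal.ofReal 2 = 2 := by simp
  have h2 := integral_mul_le_Lp_mul_Lq_of_nonneg (μ := (volume : Measure (X d)))
    Real.HolderConjugate.two_two (f := fun ξ => ‖F' ξ‖) (g := fun ξ => ‖G' (-ξ)‖)
    (Filter.Eventually.of_forall fun _ => norm_nonneg _)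
    (Filter.Eventually.of_forall fun _ => norm_nonneg _) (by rw [e2]; exact m1)
    (by rw [e2]; exact m2)
  refine h1.trans (h2.trans (le_of_eq ?_))
  have h3 : ∫ ξ, ‖F' ξ‖ ^ (2 : ℝ) = ∫ x, ‖F x‖ ^ 2 := by
    simp only [Real.rpow_two]
    exact SchwartzMap.integral_norm_sq_fourier F
  have h4 : ∫ ξ, ‖G' (-ξ)‖ ^ (2 : ℝ) = ∫ x, ‖G x‖ ^ 2 := by
    simp only [Real.rpow_two]
    rw [integral_neg_eq_self (fun ξ => ‖G' ξ‖ ^ 2) volume]
    exact SchwartzMap.integral_norm_sq_fourier G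
  rw [h3, h4]

end Pool.Agent.SPI
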