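import Pool.Agent.SPI.St

set_option autoImplicit false

/-!
# SPI, module DuI: the Duhamel integrand
-/

open MeasureTheory Filter Topology Set
open scoped ENNReal NNReal RealInnerProductSpace ContDiff FourierTransform SchwartzMap

namespace Pool.Agent.SPI

open Pool.Agent.QWL (X IsTest ft hs HD sc HN mult cosP sinP dcosP IsSoln IsMaxSoln Scatters)

namespace DuIx

variable {d : ℕ}

/-! ### the power nonlinearity -/

theorem pw_sub {p x y : ℝ} (hp : 1 < p) (hy : 0 ≤ y) (hxy : y ≤ x) :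
    x ^ p - y ^ p ≤ p * x ^ (p - 1) * (x - y) := by
  rcases eq_or_lt_of_le (hy.trans hxy) with h0 | hx
  · have h1 : y = 0 := le_antisymm (hxy.trans h0.symm.le) hy
    rw [h1, ← h0, sub_self, sub_self, mul_zero]
  have hs : -1 ≤ (y - x) / x := by rw [le_div_iff₀ hx]; linarith
  have h1 := one_add_mul_self_le_rpow_one_add hs hp.le
  have h2 : 1 + (y - x) / x = y / x := by field_simp; ring
  rw [h2, Real.div_rpow hy hx.le] at h1
  have h3 : x ^ p = x ^ (p - 1) * x := by
    rw [← Real.rpow_add_one hx.ne']; ring_nf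
  have hxp : 0 < x ^ p := Real.rpow_pos_of_pos hx p
  have h4 : (1 + p * ((y - x) / x)) * x ^ p ≤ y ^ p := by
    rwa [← le_div_iff₀ hxp]
  have h5 : (1 + p * ((y - x) / x)) * x ^ p = x ^ p + p * (y - x) * x ^ (p - 1) := by
    rw [h3]; field_simp
  rw [h5] at h4
  linarith [mul_comm (p * (y - x)) (x ^ (p - 1))]

theorem pw_abs {p x y : ℝ} (hp : 1 < p) (hx : 0 ≤ x) (hy : 0 ≤ y) :
    |x ^ p - y ^ p| ≤ p * (x + y) ^ (p - 1) * |x - y| := by
  have key : ∀ {x y : ℝ}, 0 ≤ y → y ≤ x → |x ^ p - y ^ p| ≤ p * (x + y) ^ (p - 1) * |x - y| := by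
    intro x y hy hxy
    have h1 : y ^ p ≤ x ^ p := Real.rpow_le_rpow hy hxy (by linarith)
    rw [abs_of_nonneg (sub_nonneg.2 h1), abs_of_nonneg (sub_nonneg.2 hxy)]
    refine (pw_sub hp hy hxy).trans ?_
    have h2 : x ^ (p - 1) ≤ (x + y) ^ (p - 1) :=
      Real.rpow_le_rpow (hy.trans hxy) (by linarith) (by linarith)
    have h3 : 0 ≤ x - y := sub_nonneg.2 hxy
    gcongr
  rcases le_total y x with h | h
  · exact key hy h
  · rw [abs_sub_comm, abs_sub_comm x y, add_comm x y]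
    exact key hx h

theorem pw_add {p x y : ℝ} (hp : 1 < p) (hx : 0 ≤ x) (hy : 0 ≤ y) :
    x ^ p + y ^ p ≤ p * (x + y) ^ (p - 1) * (x + y) := by
  have h1 := Real.add_rpow_le_rpow_add hx hy hp.le
  rcases eq_or_lt_of_le (add_nonneg hx hy) with h0 | h0
  · rw [← h0] at h1 ⊢
    rw [Real.zero_rpow (by linarith)] at h1
    rw [mul_zero]
    exact h1
  have h3 : (x + y) ^ p = (x + y) ^ (p - 1) * (x + y) := by
    rw [← Real.rpow_add_one h0.ne']; ring_nf
  rw [h3] at h1
  have h4 : 0 ≤ (x + y) ^ (p - 1) * (x + y) := mul_nonneg (Real.rpow_nonneg h0.le _) h0.le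
  nlinarith

theorem nl_pos {p a : ℝ} (hp : 1 < p) (ha : 0 ≤ a) : |a| ^ (p - 1) * a = a ^ p := by
  rw [abs_of_nonneg ha]
  rcases eq_or_lt_of_le ha with h | h
  · rw [← h, mul_zero, Real.zero_rpow (by linarith)]
  · rw [← Real.rpow_add_one h.ne']; ring_nf

theorem nl_neg {p a : ℝ} (hp : 1 < p) (ha : a ≤ 0) : |a| ^ (p - 1) * a = -((-a) ^ p) := by
  have := nl_pos hp (neg_nonneg.2 ha)
  rw [abs_neg] at this
  rw [← this]; ring

theorem nl {p : ℝ} (hp : 1 < p) (a b : ℝ) :
    |(|a| ^ (p - 1) * a) - |b| ^ (p - 1) * b| ≤ p * (|a| + |b|) ^ (p - 1) * |a - b| := by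
  rcases le_total 0 a with ha | ha <;> rcases le_total 0 b with hb | hb
  · rw [nl_pos hp ha, nl_pos hp hb, abs_of_nonneg ha, abs_of_nonneg hb]
    exact pw_abs hp ha hb
  · rw [nl_pos hp ha, nl_neg hp hb, abs_of_nonneg ha, abs_of_nonpos hb]
    have h := pw_add hp ha (neg_nonneg.2 hb)
    have h1 : 0 ≤ a ^ p + (-b) ^ p :=
      add_nonneg (Real.rpow_nonneg ha _) (Real.rpow_nonneg (neg_nonneg.2 hb) _)
    rw [sub_neg_eq_add, abs_of_nonneg h1, abs_of_nonneg (by linarith : (0 : ℝ) ≤ a - b)]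
    rw [sub_eq_add_neg]
    exact h
  · rw [nl_neg hp ha, nl_pos hp hb, abs_of_nonpos ha, abs_of_nonneg hb]
    have h := pw_add hp (neg_nonneg.2 ha) hb
    have h1 : 0 ≤ (-a) ^ p + b ^ p :=
      add_nonneg (Real.rpow_nonneg (neg_nonneg.2 ha) _) (Real.rpow_nonneg hb _)
    rw [show -(-a) ^ p - b ^ p = -((-a) ^ p + b ^ p) by ring, abs_neg, abs_of_nonneg h1,
      abs_of_nonpos (by linarith : a - b ≤ 0), show -(a - b) = -a + b by ring]
    exact h
  · rw [nl_neg hp ha, nl_neg hp hb, abs_of_nonpos ha, abs_of_nonpos hb]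
    have h := pw_abs hp (neg_nonneg.2 hb) (neg_nonneg.2 ha)
    rw [show -(-a) ^ p - -(-b) ^ p = (-b) ^ p - (-a) ^ p by ring, add_comm (-a) (-b),
      show a - b = -b - -a by ring]
    exact h

theorem nl_e {p : ℝ} (hp : 1 < p) (a b : ℝ) :
    ‖(|a| ^ (p - 1) * a) - |b| ^ (p - 1) * b‖ₑ ≤
      ENNReal.ofReal p * ((‖|a| + |b|‖ₑ) ^ (p - 1) * ‖a - b‖ₑ) := by
  have h0 : (0 : ℝ) ≤ |a| + |b| := by positivity
  rw [Real.enorm_eq_ofReal_abs, Real.enorm_eq_ofReal_abs, Real.enorm_eq_ofReal_abs,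
    abs_of_nonneg h0, ENNReal.ofReal_rpow_of_nonneg h0 (by linarith),
    ← ENNReal.ofReal_mul (Real.rpow_nonneg h0 _), ← ENNReal.ofReal_mul (by linarith)]
  apply ENNReal.ofReal_le_ofReal
  rw [← mul_assoc]
  exact nl hp a b

theorem nl_cont {p : ℝ} (hp : 1 < p) : Continuous fun y : ℝ => |y| ^ (p - 1) * y :=
  (continuous_abs.rpow_const fun _ => Or.inr (by linarith)).mul continuous_id

/-- Hoelder for the difference of the nonlinear terms. -/
theorem hld {α : Type*} [MeasurableSpace α] {μ : Measure α} {p : ℝ} (hp : 1 < p) {a b : α → ℝ}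
    (ha : AEStronglyMeasurable a μ) (hb : AEStronglyMeasurable b μ) :
    ∫⁻ x, ‖(|a x| ^ (p - 1) * a x) - |b x| ^ (p - 1) * b x‖ₑ ∂μ ≤
      ENNReal.ofReal p * (eLpNorm (fun x => |a x| + |b x|) (ENNReal.ofReal p) μ ^ (p - 1) *
        eLpNorm (fun x => a x - b x) (ENNReal.ofReal p) μ) := by
  have hp0 : 0 < p := by linarith
  have hp1 : 0 < p - 1 := by linarith
  have e1 : ENNReal.ofReal p ≠ 0 := by
    rw [Ne, ENNReal.ofReal_eq_zero, not_le]; exact hp0
  have hpq : (p / (p - 1)).HolderConjugate p := by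
    have := (Real.HolderConjugate.conjExponent hp).symm
    simpa [Real.conjExponent] using this
  have m1 : AEMeasurable (fun x => ‖|a x| + |b x|‖ₑ ^ (p - 1)) μ :=
    ((ha.norm.add hb.norm).enorm).pow_const _
  have m2 : AEMeasurable (fun x => ‖a x - b x‖ₑ) μ := (ha.sub hb).enorm
  have h1 := ENNReal.lintegral_mul_le_Lp_mul_Lq μ hpq m1 m2
  rw [eLpNorm_eq_lintegral_rpow_enorm_toReal e1 ENNReal.ofReal_ne_top,
    eLpNorm_eq_lintegral_rpow_enorm_toReal e1 ENNReal.ofReal_ne_top,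
    ENNReal.toReal_ofReal hp0.le]
  calc ∫⁻ x, ‖(|a x| ^ (p - 1) * a x) - |b x| ^ (p - 1) * b x‖ₑ ∂μ
      ≤ ∫⁻ x, ENNReal.ofReal p * ((‖|a x| + |b x|‖ₑ) ^ (p - 1) * ‖a x - b x‖ₑ) ∂μ :=
        lintegral_mono fun x => nl_e hp (a x) (b x)
    _ = ENNReal.ofReal p * ∫⁻ x, (‖|a x| + |b x|‖ₑ) ^ (p - 1) * ‖a x - b x‖ₑ ∂μ :=
        lintegral_const_mul' _ _ ENNReal.ofReal_ne_top
    _ ≤ _ := by
        gcongr
        refine h1.trans (le_of_eq ?_)
        congr 1
        have h2 : ∀ x, (‖|a x| + |b x|‖ₑ ^ (p - 1)) ^ (p / (p - 1)) = ‖|a x| + |b x|‖ₑ ^ p := by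
          intro x
          rw [← ENNReal.rpow_mul, mul_div_cancel₀ _ hp1.ne']
        simp only [h2]
        rw [← ENNReal.rpow_mul]
        congr 1
        field_simp

/-! ### the propagator -/

theorem ft_int {φ : X d → ℝ} (h : IsTest φ) : Integrable (ft φ) volume := by
  have hT : ContDiff ℝ ∞ (fun x => (φ x : ℂ)) := Complex.ofRealCLM.contDiff.comp h.1
  have hc : HasCompactSupport (fun x => (φ x : ℂ)) :=
    h.2.comp_left (g := fun y : ℝ => (y : ℂ)) Complex.ofReal_zero
  obtain ⟨F, hF⟩ : ∃ F : 𝓢(X d, ℂ), (F : X d → ℂ) = fun x => (φ x : ℂ) :=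
    ⟨hc.toSchwartzMap hT, rfl⟩
  have h1 : ft φ = (𝓕 F : 𝓢(X d, ℂ)) := by
    funext ξ
    rw [SchwartzMap.fourier_coe, Real.fourier_eq', hF]
    unfold ft
    congr 1
    funext x
    rw [smul_eq_mul, mul_comm]
    congr 2
    push_cast
    ring
  rw [h1]
  exact (𝓕 F : 𝓢(X d, ℂ)).integrable

theorem sym_le (t t' s : ℝ) (hs : 0 ≤ s) : |Real.sin (t * s) / s - Real.sin (t' * s) / s| ≤ |t - t'| := by
  rcases eq_or_lt_of_le hs with h | h
  · rw [← h, div_zero, div_zero, sub_zero, abs_zero]; exact abs_nonneg _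
  rw [← sub_div, abs_div, abs_of_pos h, div_le_iff₀ h]
  have h1 := Real.lipschitzWith_sin.dist_le_mul (t * s) (t' * s)
  rw [Real.dist_eq, Real.dist_eq, NNReal.coe_one, one_mul, ← sub_mul, abs_mul, abs_of_pos h] at h1
  exact h1

theorem exp_norm (x ξ : X d) :
    ‖Complex.exp (2 * Real.pi * Complex.I * ((inner ℝ x ξ : ℝ) : ℂ))‖ = 1 := by
  rw [show 2 * (Real.pi : ℂ) * Complex.I * ((inner ℝ x ξ : ℝ) : ℂ) =
    ((2 * Real.pi * (inner ℝ x ξ : ℝ) : ℝ) : ℂ) * Complex.I by push_cast; ring]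
  exact Complex.norm_exp_ofReal_mul_I _

theorem mult_int {φ : X d → ℝ} (h : IsTest φ) (t : ℝ) (x : X d) :
    Integrable (fun ξ => ((Real.sin (t * (2 * Real.pi * ‖ξ‖)) / (2 * Real.pi * ‖ξ‖) : ℝ) : ℂ) * ft φ ξ *
      Complex.exp (2 * Real.pi * Complex.I * ((inner ℝ x ξ : ℝ) : ℂ))) volume := by
  have hm : Measurable fun ξ : X d => ((Real.sin (t * (2 * Real.pi * ‖ξ‖)) / (2 * Real.pi * ‖ξ‖) : ℝ) : ℂ) := by
    apply Complex.measurable_ofReal.comp
    exact (Real.measurable_sin.comp ((measurable_norm.const_mul _).const_mul _)).div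
      (measurable_norm.const_mul _)
  have he : Continuous fun ξ : X d => Complex.exp (2 * Real.pi * Complex.I * ((inner ℝ x ξ : ℝ) : ℂ)) := by
    fun_prop
  refine Integrable.mono' (((ft_int h).norm).const_mul |t|)
    ((hm.aestronglyMeasurable.mul (ft_int h).aestronglyMeasurable).mul he.aestronglyMeasurable)
    (Eventually.of_forall fun ξ => ?_)
  rw [norm_mul, norm_mul, exp_norm, mul_one, Complex.norm_real, Real.norm_eq_abs]
  have := sym_le t 0 (2 * Real.pi * ‖ξ‖) (by positivity)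
  simp only [zero_mul, Real.sin_zero, zero_div, sub_zero] at this
  gcongr

theorem sinP_sub {φ : X d → ℝ} (h : IsTest φ) (t t' : ℝ) (x : X d) :
    |sinP t φ x - sinP t' φ x| ≤ |t - t'| * ∫ ξ, ‖ft φ ξ‖ := by
  unfold sinP mult
  rw [← Complex.sub_re, ← integral_sub (mult_int h t x) (mult_int h t' x), ← integral_const_mul]
  refine (Complex.abs_re_le_norm _).trans ?_
  refine norm_integral_le_of_norm_le ((ft_int h).norm.const_mul |t - t'|) (Eventually.of_forall fun ξ => ?_)
  rw [← sub_mul, ← sub_mul, norm_mul, norm_mul, exp_norm, mul_one, ← Complex.ofReal_sub,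
    Complex.norm_real, Real.norm_eq_abs]
  have := sym_le t t' (2 * Real.pi * ‖ξ‖) (by positivity)
  gcongr

theorem sinP_zero (φ : X d → ℝ) (x : X d) : sinP 0 φ x = 0 := by
  unfold sinP mult
  simp

theorem sinP_le {φ : X d → ℝ} (h : IsTest φ) (t : ℝ) (x : X d) :
    |sinP t φ x| ≤ |t| * ∫ ξ, ‖ft φ ξ‖ := by
  have := sinP_sub h t 0 x
  rwa [sinP_zero, sub_zero, sub_zero] at this

/-- A bounded weight with support in `B`. -/
theorem wt {G h : X d → ℝ} {B : Set (X d)} (hB : MeasurableSet B) {M : ℝ} (hh : ∀ x, x ∉ B → h x = 0)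
    (hM : ∀ x, |h x| ≤ M) : ∫⁻ x, ‖G x * h x‖ₑ ≤ ENNReal.ofReal M * ∫⁻ x in B, ‖G x‖ₑ := by
  rw [← lintegral_indicator hB, ← lintegral_const_mul' _ _ ENNReal.ofReal_ne_top]
  apply lintegral_mono
  intro x
  by_cases hx : x ∈ B
  · simp only [Set.indicator_of_mem hx]
    rw [enorm_mul, mul_comm, Real.enorm_eq_ofReal_abs (h x)]
    gcongr
    exact hM x
  · simp only [Set.indicator_of_notMem hx, hh x hx, mul_zero, enorm_zero]
    exact le_rfl

theorem adm_ms {p : ℝ} (h : Adm d p) : 1 < p ∧ p ≤ ms d p := by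
  unfold ms
  rcases h with ⟨rfl, hp⟩ | ⟨rfl, hp⟩
  · constructor
    · linarith
    · push_cast; linarith
  · constructor
    · linarith
    · push_cast; linarith

/-- The norm of `L^p` on a set of finite measure. -/
theorem fin_le {p m : ℝ} (hp : 1 < p) (hpm : p ≤ m) {B : Set (X d)} {f : X d → ℝ}
    (hf : AEStronglyMeasurable f volume) :
    eLpNorm f (ENNReal.ofReal p) (volume.restrict B) ≤
      eLpNorm f (ENNReal.ofReal m) volume * (volume B) ^ (1 / p - 1 / m) := by
  have h1 := eLpNorm_le_eLpNorm_mul_rpow_measure_univ (μ := volume.restrict B)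
    (ENNReal.ofReal_le_ofReal hpm) hf.restrict
  rw [ENNReal.toReal_ofReal (by linarith), ENNReal.toReal_ofReal (by linarith),
    Measure.restrict_apply_univ] at h1
  refine h1.trans ?_
  gcongr
  exact Measure.restrict_le_self

theorem nl_fin {p m : ℝ} (hp : 1 < p) (hpm : p ≤ m) {B : Set (X d)} (hB : volume B < ⊤) {f : X d → ℝ}
    (hf : MemLp f (ENNReal.ofReal m) volume) :
    eLpNorm f (ENNReal.ofReal p) (volume.restrict B) < ⊤ ∧
    ∫⁻ x in B, ‖|f x| ^ (p - 1) * f x‖ₑ < ⊤ := by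
  have hp0 : 0 < p := by linarith
  have hm0 : 0 < m := by linarith
  have h0 : 0 ≤ 1 / p - 1 / m := by
    rw [sub_nonneg]
    exact one_div_le_one_div_of_le hp0 hpm
  have h1 : eLpNorm f (ENNReal.ofReal p) (volume.restrict B) < ⊤ :=
    (fin_le hp hpm hf.1).trans_lt (ENNReal.mul_lt_top hf.2 (ENNReal.rpow_lt_top_of_nonneg h0 hB.ne))
  refine ⟨h1, ?_⟩
  have h2 := hld (μ := volume.restrict B) hp (a := f) (b := fun _ => (0 : ℝ)) hf.1.restrict
    aestronglyMeasurable_const
  simp only [mul_zero, sub_zero, abs_zero, add_zero] at h2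
  refine h2.trans_lt (ENNReal.mul_lt_top ENNReal.ofReal_lt_top (ENNReal.mul_lt_top ?_ h1))
  apply ENNReal.rpow_lt_top_of_nonneg (by linarith)
  have h3 : eLpNorm (fun x => |f x|) (ENNReal.ofReal p) (volume.restrict B) =
      eLpNorm f (ENNReal.ofReal p) (volume.restrict B) := by
    have := eLpNorm_norm (f := f) (p := ENNReal.ofReal p) (μ := volume.restrict B)
    simpa only [Real.norm_eq_abs] using this
  rw [h3]
  exact h1.ne

/-- A test function is supported in a ball. -/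
theorem supp_ball {φ : X d → ℝ} (h : IsTest φ) : ∃ R : ℝ, 0 ≤ R ∧ ∀ y, φ y ≠ 0 → ‖y‖ ≤ R := by
  obtain ⟨R, hR⟩ := h.2.isCompact.isBounded.subset_closedBall (0 : X d)
  refine ⟨max R 0, le_max_right _ _, fun y hy => ?_⟩
  have := hR (subset_tsupport φ hy)
  rw [mem_closedBall_zero_iff] at this
  exact this.trans (le_max_left _ _)

theorem sinP_supp (hP : Prp d) {φ : X d → ℝ} (h : IsTest φ) {R : ℝ} (hR : ∀ y, φ y ≠ 0 → ‖y‖ ≤ R)
    {t T : ℝ} (ht : |t| ≤ T) (x : X d) (hx : x ∉ Metric.closedBall (0 : X d) (R + T)) : sinP t φ x = 0 := by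
  refine (hP φ h t).2.2 x fun y hy => ?_
  by_contra h0
  apply hx
  rw [mem_closedBall_zero_iff]
  have h1 := hR y h0
  have h2 : ‖x‖ ≤ ‖y‖ + ‖x - y‖ := by
    calc ‖x‖ = ‖y + (x - y)‖ := by congr 1; abel
      _ ≤ _ := norm_add_le _ _
  rw [dist_comm, dist_eq_norm] at hy
  linarith

end DuIx

open DuIx in
theorem thm_DuI : St_DuI := by
  intro d p hA hP J u hJ hu φ τ hφ
  obtain ⟨hp, hpm⟩ := adm_ms hA
  set m : ℝ := ms d p with hm
  have hp0 : 0 < p := by linarith
  have hm0 : 0 < m := by linarith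
  obtain ⟨R, hR0, hR⟩ := supp_ball hφ
  set K : ℝ := ∫ ξ, ‖ft φ ξ‖ with hK
  have hK0 : 0 ≤ K := integral_nonneg fun _ => norm_nonneg _
  have hN : ∀ r ∈ J, AEStronglyMeasurable (fun x => |u r x| ^ (p - 1) * u r x) volume := fun r hr =>
    (nl_cont hp).comp_aestronglyMeasurable (hu.1 r hr).1
  have hBm : ∀ ρ : ℝ, MeasurableSet (Metric.closedBall (0 : X d) ρ) := fun ρ =>
    Metric.isClosed_closedBall.measurableSet
  have hBf : ∀ ρ : ℝ, volume (Metric.closedBall (0 : X d) ρ) < ⊤ := fun ρ => measure_closedBall_lt_top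
  have hI : ∀ r ∈ J, ∀ r' : ℝ,
      Integrable (fun x => |u r x| ^ (p - 1) * u r x * sinP (τ - r') φ x) volume := by
    intro r hr r'
    refine ⟨(hN r hr).mul (hP φ hφ _).2.1.1.continuous.aestronglyMeasurable, ?_⟩
    refine (wt (hBm (R + |τ - r'|)) (sinP_supp hP hφ hR le_rfl) (sinP_le hφ _)).trans_lt ?_
    exact ENNReal.mul_lt_top ENNReal.ofReal_lt_top (nl_fin hp hpm (hBf _) (hu.1 r hr)).2
  refine ⟨fun r hr => hI r hr r, fun s hs t ht => ?_⟩
  apply ContinuousOn.intervalIntegrable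
  refine ContinuousOn.mono (s := J) ?_ (hJ.uIcc_subset hs ht)
  intro r hr
  unfold ContinuousWithinAt
  rw [tendsto_iff_edist_tendsto_0]
  set T : ℝ := |τ - r| + 1 with hT
  set B : Set (X d) := Metric.closedBall (0 : X d) (R + T) with hB
  set n : ℝ≥0∞ := eLpNorm (u r) (ENNReal.ofReal p) (volume.restrict B) with hn
  have hn' : n < ⊤ := (nl_fin hp hpm (hBf _) (hu.1 r hr)).1
  set I0 : ℝ≥0∞ := ∫⁻ x in B, ‖|u r x| ^ (p - 1) * u r x‖ₑ with hI0
  have hI0' : I0 < ⊤ := (nl_fin hp hpm (hBf _) (hu.1 r hr)).2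
  set c : ℝ≥0∞ := (volume B) ^ (1 / p - 1 / m) with hc
  have h0 : 0 ≤ 1 / p - 1 / m := by
    rw [sub_nonneg]
    exact one_div_le_one_div_of_le hp0 hpm
  have hc' : c < ⊤ := ENNReal.rpow_lt_top_of_nonneg h0 (hBf _).ne
  set δ : ℝ → ℝ≥0∞ := fun r' => eLpNorm (fun x => u r' x - u r x) (ENNReal.ofReal m) volume with hδ
  have hδ0 : Tendsto δ (𝓝[J] r) (𝓝 0) := hu.2 r hr
  have hp1 : (1 : ℝ≥0∞) ≤ ENNReal.ofReal p := by
    rw [← ENNReal.ofReal_one]
    exact ENNReal.ofReal_le_ofReal hp.le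
  -- the bound
  have hbd : ∀ᶠ r' in 𝓝[J] r, edist (∫ x, |u r' x| ^ (p - 1) * u r' x * sinP (τ - r') φ x)
      (∫ x, |u r x| ^ (p - 1) * u r x * sinP (τ - r) φ x) ≤
      ENNReal.ofReal (T * K) * (ENNReal.ofReal p * ((δ r' * c + n + n) ^ (p - 1) * (δ r' * c))) +
        ENNReal.ofReal (|r' - r| * K) * I0 := by
    have hball : ∀ᶠ r' in 𝓝[J] r, |r' - r| < 1 := by
      have : Metric.ball r 1 ∈ 𝓝 r := Metric.ball_mem_nhds r one_pos
      filter_upwards [mem_nhdsWithin_of_mem_nhds this] with r' hr'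
      rwa [Metric.mem_ball, Real.dist_eq] at hr'
    filter_upwards [hball, self_mem_nhdsWithin] with r' hr1 hr'
    have hT' : |τ - r'| ≤ T := by
      have h1 : τ - r' = (τ - r) - (r' - r) := by ring
      rw [h1]
      refine (abs_sub _ _).trans ?_
      rw [hT]
      linarith
    have hT'' : |τ - r| ≤ T := by rw [hT]; linarith
    have hsplit : (∫ x, |u r' x| ^ (p - 1) * u r' x * sinP (τ - r') φ x) -
        (∫ x, |u r x| ^ (p - 1) * u r x * sinP (τ - r) φ x) =
        (∫ x, (|u r' x| ^ (p - 1) * u r' x - |u r x| ^ (p - 1) * u r x) * sinP (τ - r') φ x) +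
        ∫ x, |u r x| ^ (p - 1) * u r x * (sinP (τ - r') φ x - sinP (τ - r) φ x) := by
      have e1 : (fun x => (|u r' x| ^ (p - 1) * u r' x - |u r x| ^ (p - 1) * u r x) * sinP (τ - r') φ x) =
          fun x => |u r' x| ^ (p - 1) * u r' x * sinP (τ - r') φ x -
            |u r x| ^ (p - 1) * u r x * sinP (τ - r') φ x := by
        funext x; ring
      have e2 : (fun x => |u r x| ^ (p - 1) * u r x * (sinP (τ - r') φ x - sinP (τ - r) φ x)) =
          fun x => |u r x| ^ (p - 1) * u r x * sinP (τ - r') φ x -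
            |u r x| ^ (p - 1) * u r x * sinP (τ - r) φ x := by
        funext x; ring
      rw [e1, e2, integral_sub (hI r' hr' r') (hI r hr r'), integral_sub (hI r hr r') (hI r hr r)]
      ring
    rw [edist_eq_enorm_sub, hsplit]
    refine (enorm_add_le _ _).trans (add_le_add ?_ ?_)
    · refine (enorm_integral_le_lintegral_enorm _).trans ?_
      refine (wt (hBm (R + T)) (sinP_supp hP hφ hR hT') (M := T * K) fun x =>
        (sinP_le hφ _ x).trans (by gcongr)).trans ?_
      gcongr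
      refine (hld hp (hu.1 r' hr').1.restrict (hu.1 r hr).1.restrict).trans ?_
      have hD : eLpNorm (fun x => u r' x - u r x) (ENNReal.ofReal p) (volume.restrict B) ≤ δ r' * c :=
        fin_le hp hpm ((hu.1 r' hr').1.sub (hu.1 r hr).1)
      have hS : eLpNorm (fun x => |u r' x| + |u r x|) (ENNReal.ofReal p) (volume.restrict B) ≤
          δ r' * c + n + n := by
        have a1 : AEStronglyMeasurable (fun x => u r' x - u r x) (volume.restrict B) :=
          ((hu.1 r' hr').1.sub (hu.1 r hr).1).restrict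
        have a2 : AEStronglyMeasurable (u r) (volume.restrict B) := (hu.1 r hr).1.restrict
        calc eLpNorm (fun x => |u r' x| + |u r x|) (ENNReal.ofReal p) (volume.restrict B)
            ≤ eLpNorm (((fun x => |u r' x - u r x|) + fun x => |u r x|) + fun x => |u r x|)
                (ENNReal.ofReal p) (volume.restrict B) := by
              apply eLpNorm_mono
              intro x
              simp only [Pi.add_apply, Real.norm_eq_abs]
              have h3 : |u r' x| ≤ |u r' x - u r x| + |u r x| := by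
                calc |u r' x| = |(u r' x - u r x) + u r x| := by congr 1; ring
                  _ ≤ _ := abs_add_le _ _
              rw [abs_of_nonneg (add_nonneg (abs_nonneg (u r' x)) (abs_nonneg (u r x))),
                abs_of_nonneg (add_nonneg (add_nonneg (abs_nonneg (u r' x - u r x)) (abs_nonneg (u r x)))
                  (abs_nonneg (u r x)))]
              linarith
          _ ≤ eLpNorm ((fun x => |u r' x - u r x|) + fun x => |u r x|) (ENNReal.ofReal p) (volume.restrict B) +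
                eLpNorm (fun x => |u r x|) (ENNReal.ofReal p) (volume.restrict B) :=
              eLpNorm_add_le (a1.norm.add a2.norm) a2.norm hp1
          _ ≤ (eLpNorm (fun x => |u r' x - u r x|) (ENNReal.ofReal p) (volume.restrict B) +
                eLpNorm (fun x => |u r x|) (ENNReal.ofReal p) (volume.restrict B)) +
                eLpNorm (fun x => |u r x|) (ENNReal.ofReal p) (volume.restrict B) := by
              gcongr
              exact eLpNorm_add_le a1.norm a2.norm hp1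
          _ ≤ _ := by
              have h4 : eLpNorm (fun x => |u r x|) (ENNReal.ofReal p) (volume.restrict B) = n := by
                have := eLpNorm_norm (f := u r) (p := ENNReal.ofReal p) (μ := volume.restrict B)
                simpa only [Real.norm_eq_abs] using this
              have h5 : eLpNorm (fun x => |u r' x - u r x|) (ENNReal.ofReal p) (volume.restrict B) =
                  eLpNorm (fun x => u r' x - u r x) (ENNReal.ofReal p) (volume.restrict B) := by
                have := eLpNorm_norm (f := fun x => u r' x - u r x) (p := ENNReal.ofReal p)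
                  (μ := volume.restrict B)
                simpa only [Real.norm_eq_abs] using this
              rw [h4, h5]
              gcongr
      gcongr
    · refine (enorm_integral_le_lintegral_enorm _).trans ?_
      refine wt (hBm (R + T)) (M := |r' - r| * K) (fun x hx => ?_) fun x => ?_
      · rw [sinP_supp hP hφ hR hT' x hx, sinP_supp hP hφ hR hT'' x hx, sub_zero]
      · refine (sinP_sub hφ _ _ x).trans ?_
        rw [show τ - r' - (τ - r) = -(r' - r) by ring, abs_neg]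
  refine tendsto_of_tendsto_of_tendsto_of_le_of_le' tendsto_const_nhds ?_
    (Eventually.of_forall fun _ => zero_le) hbd
  have t1 : Tendsto (fun r' => δ r' * c) (𝓝[J] r) (𝓝 0) := by
    have := ENNReal.Tendsto.mul_const (b := c) hδ0 (Or.inr hc'.ne)
    rwa [zero_mul] at this
  have t2 : Tendsto (fun r' => (δ r' * c + n + n) ^ (p - 1)) (𝓝[J] r) (𝓝 ((n + n) ^ (p - 1))) := by
    have h1 : Tendsto (fun r' => δ r' * c + n + n) (𝓝[J] r) (𝓝 (n + n)) := by
      have := (t1.add_const n).add_const n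
      rwa [zero_add] at this
    exact (ENNReal.continuous_rpow_const.tendsto _).comp h1
  have hnn : (n + n) ^ (p - 1) ≠ ⊤ :=
    (ENNReal.rpow_lt_top_of_nonneg (by linarith) (ENNReal.add_ne_top.2 ⟨hn'.ne, hn'.ne⟩)).ne
  have t3 : Tendsto (fun r' => (δ r' * c + n + n) ^ (p - 1) * (δ r' * c)) (𝓝[J] r) (𝓝 0) := by
    have := ENNReal.Tendsto.mul t2 (Or.inr ENNReal.zero_ne_top) t1 (Or.inr hnn)
    rwa [mul_zero] at this
  have t4 : Tendsto (fun r' => ENNReal.ofReal (T * K) *
      (ENNReal.ofReal p * ((δ r' * c + n + n) ^ (p - 1) * (δ r' * c)))) (𝓝[J] r) (𝓝 0) := by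
    have := ENNReal.Tendsto.const_mul (a := ENNReal.ofReal (T * K))
      (ENNReal.Tendsto.const_mul (a := ENNReal.ofReal p) t3 (Or.inr ENNReal.ofReal_ne_top))
      (Or.inr ENNReal.ofReal_ne_top)
    rwa [mul_zero, mul_zero] at this
  have t5 : Tendsto (fun r' => ENNReal.ofReal (|r' - r| * K) * I0) (𝓝[J] r) (𝓝 0) := by
    have h1 : Tendsto (fun r' : ℝ => ENNReal.ofReal (|r' - r| * K)) (𝓝[J] r) (𝓝 0) := by
      have h2 : Continuous fun r' : ℝ => ENNReal.ofReal (|r' - r| * K) :=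
        ENNReal.continuous_ofReal.comp (by fun_prop)
      have h3 := h2.tendsto r
      simp only [sub_self, abs_zero, zero_mul, ENNReal.ofReal_zero] at h3
      exact h3.mono_left nhdsWithin_le_nhds
    have := ENNReal.Tendsto.mul_const (b := I0) h1 (Or.inr hI0'.ne)
    rwa [zero_mul] at this
  have := t4.add t5
  rwa [add_zero] at this

end Pool.Agent.SPI
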