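import Pool.Agent.SPI.St

set_option autoImplicit false

/-!
# SPI: duality on an open set (module Dua)
-/

open MeasureTheory Filter Topology Set
open scoped ENNReal NNReal RealInnerProductSpace ContDiff Manifold

namespace Pool.Agent.SPI

open Pool.Agent.QWL (X IsTest)

namespace Duax

/-- a smooth cutoff -/
theorem cut {d : ℕ} {B K : Set (X d)} (hB : IsOpen B) (hK : IsCompact K) (hKB : K ⊆ B) :
    ∃ χ : X d → ℝ, ContDiff ℝ ∞ χ ∧ (∀ x, χ x ∈ Icc (0 : ℝ) 1) ∧ (∀ x ∈ K, χ x = 1) ∧ tsupport χ ⊆ B := by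
  obtain ⟨L, hL, hKL, hLB⟩ := exists_compact_between hK hB hKB
  have hd : Disjoint (interior L)ᶜ K := by
    rw [Set.disjoint_left]
    exact fun x hx hx' => hx (hKL hx')
  obtain ⟨χ, h1, h2, h3, h4⟩ := exists_contMDiff_zero_iff_one_iff_of_isClosed (n := (⊤ : ℕ∞)) 𝓘(ℝ, X d)
    isOpen_interior.isClosed_compl hK.isClosed hd
  refine ⟨χ, h1.contDiff, fun x => h2 (mem_range_self x), fun x hx => (h4 x).1 hx, ?_⟩
  refine Subset.trans ?_ hLB
  refine closure_minimal ?_ hL.isClosed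
  intro x hx
  by_contra hxL
  exact hx ((h3 x).1 fun h => hxL (interior_subset h))

/-- compact exhaustion of an open set -/
theorem exh {d : ℕ} {B : Set (X d)} (hB : IsOpen B) :
    ∃ K : ℕ → Set (X d), (∀ n, IsCompact (K n)) ∧ (∀ n, K n ⊆ B) ∧ Monotone K ∧ ⋃ n, K n = B := by
  obtain ⟨F, h1, h2, h3, h4⟩ := hB.exists_iUnion_isClosed
  refine ⟨fun n => F n ∩ Metric.closedBall 0 n, fun n => ?_, fun n => inter_subset_left.trans (h2 n), ?_, ?_⟩
  · exact (isCompact_closedBall (0 : X d) (n : ℝ)).inter_left (h1 n)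
  · intro m n hmn
    exact inter_subset_inter (h4 hmn) (Metric.closedBall_subset_closedBall (by exact_mod_cast hmn))
  · refine Subset.antisymm (iUnion_subset fun n => inter_subset_left.trans (h2 n)) ?_
    intro x hx
    rw [← h3] at hx
    obtain ⟨m, hm⟩ := mem_iUnion.1 hx
    obtain ⟨n, hn⟩ := exists_nat_ge ‖x‖
    refine mem_iUnion.2 ⟨max m n, h4 (le_max_left m n) hm, ?_⟩
    rw [mem_closedBall_zero_iff]
    exact hn.trans (by exact_mod_cast le_max_right m n)

theorem conj {q q' : ℝ} (hq : 1 < q) (h : 1 / q + 1 / q' = 1) : q.HolderConjugate q' := by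
  rw [Real.holderConjugate_iff]
  exact ⟨hq, by simpa [one_div] using h⟩

theorem pw {q q' : ℝ} (hc : q.HolderConjugate q') (a : ℝ) :
    ‖|a| ^ (q - 2) * a‖ₑ ^ q' = ‖a‖ₑ ^ q := by
  have hq := hc.lt
  have hq' := hc.symm.lt
  have e : ∀ (b r : ℝ), 0 < r → ‖b‖ₑ ^ r = ENNReal.ofReal (|b| ^ r) := by
    intro b r hr
    rw [← ofReal_norm, Real.norm_eq_abs, ENNReal.ofReal_rpow_of_nonneg (abs_nonneg _) hr.le]
  rw [e _ q' (by linarith), e _ q (by linarith)]
  congr 1
  rcases eq_or_ne a 0 with rfl | ha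
  · rw [mul_zero, abs_zero, Real.zero_rpow (by linarith), Real.zero_rpow (by linarith)]
  · have ha' : 0 < |a| := abs_pos.2 ha
    rw [abs_mul, abs_of_nonneg (Real.rpow_nonneg ha'.le _), ← Real.rpow_add_one ha'.ne', ← Real.rpow_mul ha'.le]
    congr 1
    have := hc.sub_one_mul_conj
    rw [show q - 2 + 1 = q - 1 by ring, this]

theorem pr {q : ℝ} (hq : 1 < q) (a : ℝ) : a * (|a| ^ (q - 2) * a) = |a| ^ q := by
  rcases eq_or_ne a 0 with rfl | ha
  · rw [abs_zero, Real.zero_rpow (show q ≠ 0 by linarith)]; ring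
  · have ha' : 0 < |a| := abs_pos.2 ha
    calc a * (|a| ^ (q - 2) * a) = |a| ^ (q - 2) * (a * a) := by ring
      _ = |a| ^ (q - 2) * |a| ^ (2 : ℝ) := by
          rw [Real.rpow_two, sq_abs, sq]
      _ = |a| ^ q := by rw [← Real.rpow_add ha']; ring_nf

/-- approximation by test functions with support in the open set -/
theorem approx {d : ℕ} {B K : Set (X d)} (hB : IsOpen B) (hK : IsCompact K) (hKB : K ⊆ B) {r : ℝ≥0∞} (hr : r ≠ ⊤)
    (hr1 : 1 ≤ r) {g : X d → ℝ} (hg : MemLp g r volume) (hgK : ∀ x, x ∉ K → g x = 0) {ε : ℝ} (hε : 0 < ε) :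
    ∃ φ : X d → ℝ, IsTest φ ∧ tsupport φ ⊆ B ∧ eLpNorm (fun x => g x - φ x) r volume ≤ ENNReal.ofReal ε := by
  obtain ⟨χ, c1, c2, c3, c4⟩ := cut hB hK hKB
  obtain ⟨h, h1, h2, h3⟩ := hg.exist_eLpNorm_sub_le hr hr1 hε
  refine ⟨fun x => χ x * h x, ⟨c1.mul h2, h1.mul_left⟩, ?_, ?_⟩
  · exact (tsupport_mul_subset_left (f := χ) (g := h)).trans c4
  · refine le_trans (eLpNorm_mono fun x => ?_) h3
    have e : g x - χ x * h x = χ x * (g x - h x) := by
      by_cases hx : x ∈ K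
      · rw [c3 x hx]; ring
      · rw [hgK x hx]; ring
    rw [e, Pi.sub_apply, norm_mul, Real.norm_of_nonneg (c2 x).1]
    exact mul_le_of_le_one_left (norm_nonneg _) (c2 x).2

theorem hold {d : ℕ} {q q' : ℝ} (hc : q.HolderConjugate q') {μ : Measure (X d)} {f g : X d → ℝ}
    (hf : MemLp f (ENNReal.ofReal q) μ) (hg : MemLp g (ENNReal.ofReal q') μ) :
    Integrable (fun x => f x * g x) μ ∧
      ‖∫ x, f x * g x ∂μ‖ₑ ≤ eLpNorm f (ENNReal.ofReal q) μ * eLpNorm g (ENNReal.ofReal q') μ := by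
  have hq := hc.lt
  have hq' := hc.symm.lt
  have h1 : ∫⁻ x, ‖f x * g x‖ₑ ∂μ ≤ eLpNorm f (ENNReal.ofReal q) μ * eLpNorm g (ENNReal.ofReal q') μ := by
    rw [eLpNorm_eq_lintegral_rpow_enorm_toReal (by simpa using by linarith) ENNReal.ofReal_ne_top,
      eLpNorm_eq_lintegral_rpow_enorm_toReal (by simpa using by linarith) ENNReal.ofReal_ne_top,
      ENNReal.toReal_ofReal (by linarith), ENNReal.toReal_ofReal (by linarith)]
    have := ENNReal.lintegral_mul_le_Lp_mul_Lq μ hc hf.1.enorm hg.1.enorm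
    simpa [enorm_mul] using this
  refine ⟨⟨hf.1.mul hg.1, lt_of_le_of_lt h1 (ENNReal.mul_lt_top hf.2 hg.2)⟩, ?_⟩
  exact (enorm_integral_le_lintegral_enorm _).trans h1

theorem key {d : ℕ} {q q' : ℝ} (hc : q.HolderConjugate q') {B : Set (X d)} (hB : IsOpen B) {f : X d → ℝ}
    {M : ℝ≥0∞} (hM : M ≠ ⊤) (hf : MemLp f (ENNReal.ofReal q) (volume.restrict B))
    (hyp : ∀ φ : X d → ℝ, IsTest φ → tsupport φ ⊆ B →
      ‖∫ x, f x * φ x‖ₑ ≤ M * eLpNorm φ (ENNReal.ofReal q') volume)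
    {K : Set (X d)} (hK : IsCompact K) (hKB : K ⊆ B) : ∫⁻ x in K, ‖f x‖ₑ ^ q ≤ M ^ q := by
  have hq := hc.lt
  have hq' := hc.symm.lt
  have hfK : MemLp f (ENNReal.ofReal q) (volume.restrict K) := hf.mono_measure (Measure.restrict_mono hKB le_rfl)
  set A : ℝ≥0∞ := ∫⁻ x in K, ‖f x‖ₑ ^ q with hAd
  have hF : ∀ μ : Measure (X d), ∀ g : X d → ℝ, eLpNorm g (ENNReal.ofReal q) μ = (∫⁻ x, ‖g x‖ₑ ^ q ∂μ) ^ (1 / q) := by
    intro μ g
    rw [eLpNorm_eq_lintegral_rpow_enorm_toReal (by simpa using by linarith) ENNReal.ofReal_ne_top,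
      ENNReal.toReal_ofReal (by linarith)]
  have hF' : ∀ μ : Measure (X d), ∀ g : X d → ℝ, eLpNorm g (ENNReal.ofReal q') μ = (∫⁻ x, ‖g x‖ₑ ^ q' ∂μ) ^ (1 / q') := by
    intro μ g
    rw [eLpNorm_eq_lintegral_rpow_enorm_toReal (by simpa using by linarith) ENNReal.ofReal_ne_top,
      ENNReal.toReal_ofReal (by linarith)]
  have hA : A ≠ ⊤ := by
    intro h
    have h1 := hfK.2
    rw [hF, ← hAd, h, ENNReal.top_rpow_of_pos (by positivity)] at h1
    exact lt_irrefl _ h1
  set g : X d → ℝ := K.indicator fun x => |f x| ^ (q - 2) * f x with hg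
  have hgn : eLpNorm g (ENNReal.ofReal q') volume = A ^ (1 / q') := by
    rw [hg, eLpNorm_indicator_eq_eLpNorm_restrict hK.measurableSet, hF']
    simp only [pw hc]
    rfl
  have hgm : MemLp g (ENNReal.ofReal q') volume := by
    refine ⟨?_, ?_⟩
    · rw [hg, aestronglyMeasurable_indicator_iff hK.measurableSet]
      exact ((hfK.1.aemeasurable.abs.pow_const _).mul hfK.1.aemeasurable).aestronglyMeasurable
    · rw [hgn]
      exact ENNReal.rpow_lt_top_of_nonneg (by positivity) hA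
  have hgB : MemLp g (ENNReal.ofReal q') (volume.restrict B) := hgm.restrict B
  obtain ⟨hint, -⟩ := hold hc hf hgB
  have hfg : (fun x => ENNReal.ofReal (f x * g x)) = K.indicator fun x => ‖f x‖ₑ ^ q := by
    funext x
    by_cases hx : x ∈ K
    · rw [hg, indicator_of_mem hx, indicator_of_mem hx, pr hq, ← ofReal_norm, Real.norm_eq_abs,
        ENNReal.ofReal_rpow_of_nonneg (abs_nonneg _) (by linarith)]
    · rw [hg, indicator_of_notMem hx, indicator_of_notMem hx, mul_zero, ENNReal.ofReal_zero]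
  have hnn : ∀ x, 0 ≤ f x * g x := by
    intro x
    by_cases hx : x ∈ K
    · rw [hg, indicator_of_mem hx, pr hq]; positivity
    · rw [hg, indicator_of_notMem hx, mul_zero]
  have hAe : ‖∫ x in B, f x * g x‖ₑ = A := by
    rw [← ofReal_norm, Real.norm_of_nonneg (integral_nonneg hnn),
      ofReal_integral_eq_lintegral_ofReal hint (Eventually.of_forall hnn), hfg,
      lintegral_indicator hK.measurableSet, Measure.restrict_restrict hK.measurableSet,
      inter_eq_left.2 hKB]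
  have hstep : ∀ ε : ℝ, 0 < ε → A ≤ M * (A ^ (1 / q') + ENNReal.ofReal ε) +
      eLpNorm f (ENNReal.ofReal q) (volume.restrict B) * ENNReal.ofReal ε := by
    intro ε hε
    obtain ⟨φ, p1, p2, p3⟩ := approx hB hK hKB ENNReal.ofReal_ne_top
      (by rw [← ENNReal.ofReal_one]; exact ENNReal.ofReal_le_ofReal hq'.le) hgm
      (fun x hx => by rw [hg, indicator_of_notMem hx]) hε
    have hφ : MemLp φ (ENNReal.ofReal q') volume := p1.1.continuous.memLp_of_hasCompactSupport p1.2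
    have hφB := hφ.restrict B
    obtain ⟨i1, -⟩ := hold hc hf hφB
    obtain ⟨i2, i3⟩ := hold hc hf (hgB.sub hφB)
    have e1 : ∫ x in B, f x * g x = (∫ x in B, f x * φ x) + ∫ x in B, f x * (g - φ) x := by
      rw [← integral_add i1 i2]
      refine integral_congr_ae (Eventually.of_forall fun x => ?_)
      simp only [Pi.sub_apply]; ring
    have e2 : ∫ x in B, f x * φ x = ∫ x, f x * φ x := by
      refine setIntegral_eq_integral_of_forall_compl_eq_zero fun x hx => ?_
      have : φ x = 0 := by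
        by_contra h
        exact hx (p2 (subset_tsupport φ h))
      rw [this, mul_zero]
    have e3 : eLpNorm φ (ENNReal.ofReal q') volume ≤ A ^ (1 / q') + ENNReal.ofReal ε := by
      have : φ = fun x => g x - (g x - φ x) := by funext x; ring
      calc eLpNorm φ (ENNReal.ofReal q') volume = eLpNorm (fun x => g x - (g x - φ x)) (ENNReal.ofReal q') volume := by
            rw [← this]
        _ ≤ eLpNorm g (ENNReal.ofReal q') volume + eLpNorm (fun x => g x - φ x) (ENNReal.ofReal q') volume :=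
            eLpNorm_sub_le hgm.1 (hgm.1.sub hφ.1)
              (by rw [← ENNReal.ofReal_one]; exact ENNReal.ofReal_le_ofReal hq'.le)
        _ ≤ A ^ (1 / q') + ENNReal.ofReal ε := by
            rw [hgn]; exact add_le_add le_rfl p3
    have e4 : eLpNorm (g - φ) (ENNReal.ofReal q') (volume.restrict B) ≤ ENNReal.ofReal ε :=
      (eLpNorm_mono_measure _ Measure.restrict_le_self).trans p3
    calc A = ‖∫ x in B, f x * g x‖ₑ := hAe.symm
      _ = ‖(∫ x in B, f x * φ x) + ∫ x in B, f x * (g - φ) x‖ₑ := by rw [e1]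
      _ ≤ ‖∫ x in B, f x * φ x‖ₑ + ‖∫ x in B, f x * (g - φ) x‖ₑ := enorm_add_le _ _
      _ ≤ M * eLpNorm φ (ENNReal.ofReal q') volume +
          eLpNorm f (ENNReal.ofReal q) (volume.restrict B) * eLpNorm (g - φ) (ENNReal.ofReal q') (volume.restrict B) := by
          refine add_le_add ?_ i3
          rw [e2]; exact hyp φ p1 p2
      _ ≤ _ := add_le_add (mul_le_mul_right e3 _) (mul_le_mul_right e4 _)
  have hlim : Tendsto (fun ε : ℝ => M * (A ^ (1 / q') + ENNReal.ofReal ε) +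
      eLpNorm f (ENNReal.ofReal q) (volume.restrict B) * ENNReal.ofReal ε) (𝓝[>] 0)
      (𝓝 (M * (A ^ (1 / q') + ENNReal.ofReal 0) +
        eLpNorm f (ENNReal.ofReal q) (volume.restrict B) * ENNReal.ofReal 0)) := by
    have h0 : Tendsto (fun ε : ℝ => ENNReal.ofReal ε) (𝓝[>] 0) (𝓝 (ENNReal.ofReal 0)) :=
      (ENNReal.continuous_ofReal.tendsto 0).mono_left nhdsWithin_le_nhds
    exact (ENNReal.Tendsto.const_mul (tendsto_const_nhds.add h0) (Or.inr hM)).add
      (ENNReal.Tendsto.const_mul h0 (Or.inr hf.2.ne))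
  have hle : A ≤ M * A ^ (1 / q') := by
    have := ge_of_tendsto hlim (eventually_nhdsWithin_of_forall fun ε hε => hstep ε hε)
    simpa using this
  rcases eq_or_ne A 0 with h0 | h0
  · rw [h0]; exact zero_le
  have h1 : A = A ^ (1 / q) * A ^ (1 / q') := by
    rw [← ENNReal.rpow_add _ _ h0 hA, one_div, one_div, hc.inv_add_inv_eq_one, ENNReal.rpow_one]
  have h2 : A ^ (1 / q) ≤ M := by
    have h3 : A ^ (1 / q) * A ^ (1 / q') ≤ M * A ^ (1 / q') := h1 ▸ hle
    exact (ENNReal.mul_le_mul_iff_left (by simp [ENNReal.rpow_eq_zero_iff, h0, hA])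
      (by simp [ENNReal.rpow_eq_top_iff, h0, hA])).1 h3
  calc A = (A ^ (1 / q)) ^ q := by
        rw [← ENNReal.rpow_mul, one_div_mul_cancel (by linarith), ENNReal.rpow_one]
    _ ≤ M ^ q := ENNReal.rpow_le_rpow h2 (by linarith)

end Duax

open Duax in
theorem thm_Dua : St_Dua := by
  intro d q q' hq hqq B hB f M hf hyp
  have hc := conj hq hqq
  rcases eq_or_ne M ⊤ with rfl | hM
  · exact le_top
  rw [eLpNorm_eq_lintegral_rpow_enorm_toReal (by simpa using by linarith) ENNReal.ofReal_ne_top,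
    ENNReal.toReal_ofReal (by linarith)]
  obtain ⟨K, k1, k2, k3, k4⟩ := exh hB
  have h1 : ∫⁻ x in B, ‖f x‖ₑ ^ q ≤ M ^ q := by
    rw [← k4, setLIntegral_iUnion_of_directed _ (directed_of_isDirected_le k3)]
    exact iSup_le fun n => key hc hB hM hf hyp (k1 n) (k2 n)
  calc (∫⁻ x in B, ‖f x‖ₑ ^ q) ^ (1 / q) ≤ (M ^ q) ^ (1 / q) := ENNReal.rpow_le_rpow h1 (by positivity)
    _ = M := by rw [← ENNReal.rpow_mul, mul_one_div_cancel (by linarith), ENNReal.rpow_one]

end Pool.Agent.SPI
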