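import Pool.Agent.SPI.St

set_option autoImplicit false

/-!
# SPI, Eqv: the classes of solutions coincide
-/

open MeasureTheory Filter Topology Set
open scoped ENNReal NNReal RealInnerProductSpace ContDiff

namespace Pool.Agent.SPI

open Pool.Agent.QWL (X IsTest ft hs HD sc HN mult cosP sinP dcosP IsSoln IsMaxSoln Scatters)

namespace Eqvx

variable {d : ℕ}

/-- the numbers -/
theorem num {p : ℝ} (h : Adm d p) : 1 ≤ d ∧ 2 < p ∧ 1 ≤ ms d p ∧ p - 1 ≤ Qd d p ∧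
    1 / (p - 1) + (d : ℝ) / (d * (p - 1)) = 2 / (p - 1) ∧
    1 / Qd d p + (d : ℝ) / Qd d p = 2 / (p - 1) := by
  rcases h with ⟨rfl, h⟩ | ⟨rfl, h⟩
  · unfold ms Qd
    have h1 : p - 1 ≠ 0 := by linarith
    refine ⟨by norm_num, by linarith, by push_cast; linarith, by push_cast; linarith, ?_, ?_⟩
    · push_cast
      field_simp
      norm_num
    · push_cast
      field_simp
      norm_num
  · unfold ms Qd
    have h1 : p - 1 ≠ 0 := by linarith
    refine ⟨by norm_num, by linarith, by push_cast; linarith, by push_cast; linarith, ?_, ?_⟩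
    · push_cast
      field_simp
      norm_num
    · push_cast
      field_simp
      norm_num

/-- the position is a continuous curve -/
theorem cu {p : ℝ} (hS : Sob d p) {J : Set ℝ} {u v : ℝ → X d → ℝ}
    (h1 : ∀ t ∈ J, HN p (u t) (v t) < ⊤)
    (h2 : ∀ t ∈ J, Tendsto (fun s => HN p (fun x => u s x - u t x) (fun x => v s x - v t x)) (𝓝[J] t) (𝓝 0)) :
    Cu (ms d p) J u := by
  obtain ⟨C, hC, hS⟩ := hS
  have hle : ∀ f g : X d → ℝ, HD (sc d p) f ≤ HN p f g := fun f g => le_self_add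
  refine ⟨fun t ht => (hS (u t) ((hle _ _).trans_lt (h1 t ht))).1, fun t ht => ?_⟩
  have h3 : Tendsto (fun s => ENNReal.ofReal C *
      HN p (fun x => u s x - u t x) (fun x => v s x - v t x)) (𝓝[J] t) (𝓝 0) := by
    have h4 := ENNReal.Tendsto.const_mul (a := ENNReal.ofReal C) (h2 t ht) (Or.inr ENNReal.ofReal_ne_top)
    rwa [mul_zero] at h4
  refine tendsto_of_tendsto_of_tendsto_of_le_of_le' tendsto_const_nhds h3
    (Eventually.of_forall fun _ => zero_le) ?_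
  have h5 : ∀ᶠ s in 𝓝[J] t, HN p (fun x => u s x - u t x) (fun x => v s x - v t x) < 1 :=
    (h2 t ht).eventually (gt_mem_nhds (by norm_num))
  filter_upwards [h5] with s hs
  have h6 : HD (sc d p) (fun x => u s x - u t x) < ⊤ :=
    ((hle _ _).trans_lt hs).trans ENNReal.one_lt_top
  exact (hS _ h6).2.trans (mul_le_mul' le_rfl (hle _ _))

theorem cu_mono {m : ℝ} {J J' : Set ℝ} {u : ℝ → X d → ℝ} (h : J' ⊆ J) (hu : Cu m J u) : Cu m J' u :=
  ⟨fun t ht => hu.1 t (h ht), fun t ht => (hu.2 t (h ht)).mono_left (nhdsWithin_mono _ h)⟩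

/-- interpolation of the Strichartz norms -/
theorem itg (hItp : St_Itp) (hCnt : St_Cnt) {p : ℝ} (ha : Adm d p) {J : Set ℝ} {u : ℝ → X d → ℝ}
    (hJ : J.OrdConnected) (hu : Cu (ms d p) J u) {q1 r1 q2 r2 : ℝ} (h1 : p - 1 ≤ q1) (h2 : q1 ≤ q2)
    (h3 : 1 / q1 + (d : ℝ) / r1 = 2 / (p - 1)) (h4 : 1 / q2 + (d : ℝ) / r2 = 2 / (p - 1))
    {a b : ℝ} (ha' : a ∈ J) (hb : b ∈ J)
    (hf : ∫⁻ τ in Icc a b, eLpNorm (u τ) (ENNReal.ofReal r1) volume ^ q1 < ⊤) :
    ∫⁻ τ in Icc a b, eLpNorm (u τ) (ENNReal.ofReal r2) volume ^ q2 < ⊤ := by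
  obtain ⟨n1, n2, n3, -, -, -⟩ := num ha
  obtain ⟨M, hM, hM'⟩ := (hCnt d (ms d p) J u n3 hJ hu).2.2.1 a ha' b hb
  have h5 : ∫⁻ τ in Icc a b, eLpNorm (u τ) (ENNReal.ofReal r2) volume ^ q2 ≤
      ∫⁻ τ in Icc a b, eLpNorm (u τ) (ENNReal.ofReal r1) volume ^ q1 * M ^ (q2 - q1) := by
    refine setLIntegral_mono' measurableSet_Icc fun τ hτ => ?_
    have hτJ : τ ∈ J := hJ.out ha' hb hτ
    refine (hItp d p q1 r1 q2 r2 n1 n2 h1 h2 h3 h4 (u τ) (hu.1 τ hτJ).1).trans ?_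
    exact mul_le_mul' le_rfl (ENNReal.rpow_le_rpow (hM' τ hτ) (by linarith))
  refine h5.trans_lt ?_
  have h6 : M ^ (q2 - q1) ≠ ⊤ := ENNReal.rpow_ne_top_of_nonneg (by linarith) hM.ne
  rw [lintegral_mul_const' _ _ h6]
  exact ENNReal.mul_lt_top hf h6.lt_top

end Eqvx

theorem thm_Eqv (hItp : St_Itp) (hCnt : St_Cnt) : St_Eqv := by
  intro d p ha hUq hSob hLWP q r hpr I u v
  obtain ⟨n1, n2, n3, n4, n5, n6⟩ := Eqvx.num ha
  obtain ⟨hq1, hq2, hqr⟩ := hpr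
  constructor
  · rintro ⟨hI, s1, s2, s3, s4, s5⟩
    refine ⟨hI, s1, s2, ?_, s4, s5⟩
    intro s hs t ht
    have hcu := Eqvx.cu hSob s1 s2
    have hQ := Eqvx.itg hItp hCnt ha hI hcu hq1 hq2 hqr n6 hs ht (s3 s hs t ht)
    -- compactness
    refine isCompact_Icc.induction_on
      (p := fun S => ∫⁻ τ in S, eLpNorm (u τ) (ENNReal.ofReal (d * (p - 1))) volume ^ (p - 1) < ⊤)
      (by simp) (fun S T hST hT => (lintegral_mono_set hST).trans_lt hT)
      (fun S T hS hT => (lintegral_union_le _ _ _).trans_lt (ENNReal.add_lt_top.2 ⟨hS, hT⟩)) ?_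
    intro t0 ht0
    have ht0I : t0 ∈ I := hI.out hs ht ht0
    obtain ⟨δ, hδ, u', v', ⟨hI', w1, w2, w3, w4, w5⟩, hu0, hv0⟩ := hLWP (u t0) (v t0) (s1 t0 ht0I) t0
    have ht0' : t0 ∈ Icc (t0 - δ) (t0 + δ) := ⟨by linarith, by linarith⟩
    have hl : t0 - δ ∈ Icc (t0 - δ) (t0 + δ) := ⟨le_rfl, by linarith⟩
    have hr : t0 + δ ∈ Icc (t0 - δ) (t0 + δ) := ⟨by linarith, le_rfl⟩
    have hcu' := Eqvx.cu hSob w1 w2
    have hfin' := w3 _ hl _ hr
    have hQ' := Eqvx.itg hItp hCnt ha hI' hcu' le_rfl n4 n5 n6 hl hr hfin'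
    have hJI : Icc s t ∩ Icc (t0 - δ) (t0 + δ) ⊆ I := fun τ hτ => hI.out hs ht hτ.1
    obtain ⟨η, hη, hηe⟩ := hUq (Icc s t ∩ Icc (t0 - δ) (t0 + δ)) t0 u u'
      (ordConnected_Icc.inter ordConnected_Icc) ⟨ht0, ht0'⟩ (Eqvx.cu_mono hJI hcu)
      (Eqvx.cu_mono inter_subset_right hcu')
      (by
        intro φ hφ τ hτ
        have e1 := s5 φ hφ t0 ht0I τ (hJI hτ)
        have e2 := w5 φ hφ t0 ht0' τ hτ.2
        have e3 : ∫ x, u' t0 x * cosP (τ - t0) φ x = ∫ x, u t0 x * cosP (τ - t0) φ x := by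
          refine integral_congr_ae ?_
          filter_upwards [hu0] with x hx
          rw [hx]
        have e4 : ∫ x, v' t0 x * sinP (τ - t0) φ x = ∫ x, v t0 x * sinP (τ - t0) φ x := by
          refine integral_congr_ae ?_
          filter_upwards [hv0] with x hx
          rw [hx]
        rw [e3, e4] at e2
        rw [e1, e2]
        ring)
      ((lintegral_mono_set inter_subset_left).trans_lt hQ)
      ((lintegral_mono_set inter_subset_right).trans_lt hQ')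
    refine ⟨Icc s t ∩ Metric.ball t0 (min δ η), inter_mem_nhdsWithin _
      (Metric.ball_mem_nhds _ (lt_min hδ hη)), ?_⟩
    have hb : ∀ τ ∈ Icc s t ∩ Metric.ball t0 (min δ η), τ ∈ Icc (t0 - δ) (t0 + δ) ∧ |τ - t0| < η := by
      rintro τ ⟨-, hτ⟩
      rw [Metric.mem_ball, Real.dist_eq, lt_min_iff] at hτ
      have h1 := abs_lt.1 hτ.1
      exact ⟨⟨by linarith [h1.1], by linarith [h1.2]⟩, hτ.2⟩
    have h1 : ∫⁻ τ in Icc s t ∩ Metric.ball t0 (min δ η),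
        eLpNorm (u τ) (ENNReal.ofReal (d * (p - 1))) volume ^ (p - 1) =
        ∫⁻ τ in Icc s t ∩ Metric.ball t0 (min δ η),
        eLpNorm (u' τ) (ENNReal.ofReal (d * (p - 1))) volume ^ (p - 1) := by
      refine setLIntegral_congr_fun (measurableSet_Icc.inter measurableSet_ball) fun τ hτ => ?_
      have h2 := hηe τ ⟨hτ.1, (hb τ hτ).1⟩ (hb τ hτ).2
      show eLpNorm (u τ) _ volume ^ (p - 1) = eLpNorm (u' τ) _ volume ^ (p - 1)
      rw [eLpNorm_congr_ae h2]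
    rw [h1]
    exact (lintegral_mono_set fun τ hτ => (hb τ hτ).1).trans_lt hfin'
  · rintro ⟨hI, s1, s2, s3, s4, s5⟩
    refine ⟨hI, s1, s2, ?_, s4, s5⟩
    intro s hs t ht
    exact Eqvx.itg hItp hCnt ha hI (Eqvx.cu hSob s1 s2) le_rfl hq1 n5 hqr hs ht (s3 s hs t ht)

end Pool.Agent.SPI
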