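import Pool.Agent.SPI.St

set_option autoImplicit false

/-!
# SPI: the analytic family
-/

open MeasureTheory Filter Topology Set
open scoped ENNReal NNReal RealInnerProductSpace ContDiff

namespace Pool.Agent.SPI

open Pool.Agent.QWL (X IsTest)

namespace Famx

variable {d : ℕ}

theorem qc_pos (d : ℕ) : 0 < qc d := by
  unfold qc
  positivity

theorem qc_lt (d : ℕ) : qc d < 2 := by
  unfold qc
  rw [div_lt_iff₀ (by positivity)]
  linarith

theorem one_lt_qc {d : ℕ} (hd : 2 ≤ d) : 1 < qc d := by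
  unfold qc
  have h : (2 : ℝ) ≤ d := by exact_mod_cast hd
  rw [lt_div_iff₀ (by positivity)]
  linarith

theorem pos (φ : X d → ℝ) {δ : ℝ} (hδ : 0 < δ) (x : X d) : 0 < φ x ^ 2 + δ ^ 2 := by positivity

theorem re_exp (z : ℂ) : ((((qc d : ℂ) * (1 / 2 + z / ((d : ℂ) + 1)) - 1) / 2)).re =
    (qc d * (1 / 2 + z.re / ((d : ℝ) + 1)) - 1) / 2 := by
  have h1 : ((qc d : ℂ) * (1 / 2 + z / ((d : ℂ) + 1)) - 1) / 2 =
      ((qc d * (1 / 2) - 1 : ℝ) : ℂ) / 2 + ((qc d / ((d : ℝ) + 1) / 2 : ℝ) : ℂ) * z := by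
    push_cast
    ring
  rw [h1]
  simp only [Complex.add_re, Complex.re_ofReal_mul]
  have h2 : (((qc d * (1 / 2) - 1 : ℝ) : ℂ) / 2).re = (qc d * (1 / 2) - 1) / 2 := by
    have h3 : ((qc d * (1 / 2) - 1 : ℝ) : ℂ) / 2 = (((qc d * (1 / 2) - 1) / 2 : ℝ) : ℂ) := by
      push_cast
      ring
    rw [h3, Complex.ofReal_re]
  rw [h2]
  ring

theorem norm_fam (φ : X d → ℝ) {δ : ℝ} (hδ : 0 < δ) (z : ℂ) (x : X d) :
    ‖fam δ φ z x‖ = |φ x| * (φ x ^ 2 + δ ^ 2) ^
      ((qc d * (1 / 2 + z.re / ((d : ℝ) + 1)) - 1) / 2) := by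
  unfold fam
  rw [norm_mul, Complex.norm_real, Real.norm_eq_abs,
    Complex.norm_cpow_eq_rpow_re_of_pos (pos φ hδ x), re_exp]

theorem abs_rpow (y : ℝ) (d : ℕ) : |y| * (y ^ 2) ^ ((qc d - 1) / 2) = |y| ^ qc d := by
  by_cases hy : y = 0
  · rw [hy, abs_zero, zero_mul, Real.zero_rpow (qc_pos d).ne']
  · have hy' : 0 < |y| := abs_pos.2 hy
    rw [← sq_abs, ← Real.rpow_natCast, ← Real.rpow_mul hy'.le]
    have h1 : ((2 : ℕ) : ℝ) * ((qc d - 1) / 2) = qc d - 1 := by
      push_cast
      ring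
    rw [h1]
    nth_rewrite 1 [← Real.rpow_one |y|]
    rw [← Real.rpow_add hy']
    congr 1
    ring

theorem sq_rpow (y : ℝ) (d : ℕ) : y ^ 2 * (y ^ 2) ^ (qc d / 2 - 1) = |y| ^ qc d := by
  by_cases hy : y = 0
  · rw [hy, abs_zero, Real.zero_rpow (qc_pos d).ne']
    norm_num
  · have hy' : 0 < |y| := abs_pos.2 hy
    have hy2 : 0 < y ^ 2 := by positivity
    nth_rewrite 1 [← Real.rpow_one (y ^ 2)]
    rw [← Real.rpow_add hy2, ← sq_abs, ← Real.rpow_natCast, ← Real.rpow_mul hy'.le]
    congr 1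
    push_cast
    ring

theorem int_abs_rpow {φ : X d → ℝ} (hφ : IsTest φ) {e : ℝ} (he : 0 < e) :
    Integrable (fun x => |φ x| ^ e) volume := by
  have hc : Continuous φ := hφ.1.continuous
  refine Continuous.integrable_of_hasCompactSupport ?_ ?_
  · exact hc.abs.rpow_const fun x => Or.inr he.le
  · refine hφ.2.comp_left (g := fun y : ℝ => |y| ^ e) ?_
    rw [abs_zero, Real.zero_rpow he.ne']

end Famx

open Famx in
theorem thm_Fam : St_Fam := by
  intro d hd φ hφ
  have hc : Continuous φ := hφ.1.continuous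
  obtain ⟨B, hB⟩ : ∃ B : ℝ, ∀ x, ‖φ x‖ ≤ B := hφ.2.exists_bound_of_continuous hc
  have hBabs : ∀ x, |φ x| ≤ B := hB
  have hB0 : 0 ≤ B := (norm_nonneg _).trans (hB 0)
  have hd1 : (0 : ℝ) < (d : ℝ) + 1 := by positivity
  have hqc0 := qc_pos d
  have hqc2 := qc_lt d
  have hqc1 := one_lt_qc hd
  refine ⟨?_, ?_⟩
  · intro δ hδ
    refine ⟨?_, ?_, norm_fam φ hδ, ?_, ?_, ?_, ?_⟩
    · -- test functions
      intro z
      set w : ℂ := ((qc d : ℂ) * (1 / 2 + z / ((d : ℂ) + 1)) - 1) / 2 with hw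
      have h1 : fam δ φ z = fun x => (φ x : ℂ) *
          Complex.exp (((Real.log (φ x ^ 2 + δ ^ 2) : ℝ) : ℂ) * w) := by
        funext x
        unfold fam
        have h2 : ((φ x ^ 2 + δ ^ 2 : ℝ) : ℂ) ≠ 0 :=
          Complex.ofReal_ne_zero.2 (pos φ hδ x).ne'
        rw [Complex.cpow_def_of_ne_zero h2, ← Complex.ofReal_log (pos φ hδ x).le]
      have hφc : ContDiff ℝ ∞ (fun x => (φ x : ℂ)) := Complex.ofRealCLM.contDiff.comp hφ.1
      constructor
      · rw [h1]
        refine hφc.mul ?_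
        refine Complex.contDiff_exp.comp ?_
        refine ContDiff.mul ?_ contDiff_const
        refine Complex.ofRealCLM.contDiff.comp ?_
        exact ContDiff.log ((hφ.1.pow 2).add contDiff_const) fun x => (pos φ hδ x).ne'
      · have h3 : HasCompactSupport (fun x => (φ x : ℂ)) :=
          hφ.2.comp_left (g := fun y : ℝ => (y : ℂ)) Complex.ofReal_zero
        exact h3.mul_right
    · -- `z = 1`
      funext x
      unfold fam
      have h1 : ((qc d : ℂ) * (1 / 2 + 1 / ((d : ℂ) + 1)) - 1) / 2 = 0 := by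
        have h2 : qc d * (1 / 2 + 1 / ((d : ℝ) + 1)) - 1 = 0 := by
          unfold qc
          field_simp
          ring
        have h3 : ((qc d : ℂ) * (1 / 2 + 1 / ((d : ℂ) + 1)) - 1) =
            ((qc d * (1 / 2 + 1 / ((d : ℝ) + 1)) - 1 : ℝ) : ℂ) := by
          push_cast
          ring
        rw [h3, h2]
        simp
      rw [h1, Complex.cpow_zero, mul_one]
    · -- entire in `z`
      intro x
      have h2 : ((φ x ^ 2 + δ ^ 2 : ℝ) : ℂ) ≠ 0 :=
        Complex.ofReal_ne_zero.2 (pos φ hδ x).ne'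
      unfold fam
      refine Differentiable.const_mul ?_ _
      refine Differentiable.const_cpow ?_ (Or.inl h2)
      fun_prop
    · -- the line `Re z = 0`
      intro z hz
      refine integral_mono_of_nonneg (ae_of_all _ fun x => by positivity)
        (int_abs_rpow hφ hqc0) (ae_of_all _ fun x => ?_)
      show ‖fam δ φ z x‖ ^ 2 ≤ |φ x| ^ qc d
      rw [norm_fam φ hδ, hz, zero_div, add_zero, mul_pow, sq_abs]
      have h1 : ((φ x ^ 2 + δ ^ 2) ^ ((qc d * (1 / 2) - 1) / 2)) ^ 2 =
          (φ x ^ 2 + δ ^ 2) ^ (qc d / 2 - 1) := by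
        rw [← Real.rpow_natCast, ← Real.rpow_mul (pos φ hδ x).le]
        congr 1
        push_cast
        ring
      rw [h1]
      by_cases hy : φ x = 0
      · rw [hy, abs_zero, Real.zero_rpow hqc0.ne']
        norm_num
      · rw [← sq_rpow]
        refine mul_le_mul_of_nonneg_left ?_ (by positivity)
        refine Real.rpow_le_rpow_of_nonpos (by positivity) ?_ (by linarith)
        have : 0 ≤ δ ^ 2 := by positivity
        linarith
    · -- the line `Re z = (d+1)/2`
      intro z hz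
      refine integral_congr_ae (ae_of_all _ fun x => ?_)
      show ‖fam δ φ z x‖ = |φ x| * (φ x ^ 2 + δ ^ 2) ^ ((qc d - 1) / 2)
      rw [norm_fam φ hδ, hz]
      congr 2
      field_simp
      ring
    · -- bound in strips
      intro r1 r2
      set e : ℝ → ℝ := fun r => (qc d * (1 / 2 + r / ((d : ℝ) + 1)) - 1) / 2 with he
      set E : ℝ := |e r1| + |e r2| with hE
      set L : ℝ := |Real.log (δ ^ 2)| + |Real.log (B ^ 2 + δ ^ 2)| with hL
      refine ⟨Real.exp (E * L), ?_⟩
      intro z h1 h2 x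
      rw [norm_fam φ hδ, mul_comm]
      refine mul_le_mul_of_nonneg_right ?_ (abs_nonneg _)
      have hemono : Monotone e := by
        intro a b hab
        simp only [he]
        have : a / ((d : ℝ) + 1) ≤ b / ((d : ℝ) + 1) := div_le_div_of_nonneg_right hab hd1.le
        nlinarith
      have he1 : |e z.re| ≤ E := by
        rw [abs_le]
        have h3 := hemono h1
        have h4 := hemono h2
        have h5 := neg_abs_le (e r1)
        have h6 := le_abs_self (e r2)
        have h7 := abs_nonneg (e r1)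
        have h8 := abs_nonneg (e r2)
        constructor <;> linarith
      have hlog : |Real.log (φ x ^ 2 + δ ^ 2)| ≤ L := by
        have hδ2 : 0 < δ ^ 2 := by positivity
        have h3 : Real.log (δ ^ 2) ≤ Real.log (φ x ^ 2 + δ ^ 2) :=
          Real.log_le_log hδ2 (by nlinarith [sq_nonneg (φ x)])
        have h4 : Real.log (φ x ^ 2 + δ ^ 2) ≤ Real.log (B ^ 2 + δ ^ 2) := by
          refine Real.log_le_log (pos φ hδ x) ?_
          have h5 : φ x ^ 2 ≤ B ^ 2 := by
            rw [← sq_abs]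
            exact pow_le_pow_left₀ (abs_nonneg _) (hBabs x) 2
          linarith
        have h5 := neg_abs_le (Real.log (δ ^ 2))
        have h6 := le_abs_self (Real.log (B ^ 2 + δ ^ 2))
        have h7 := abs_nonneg (Real.log (δ ^ 2))
        have h8 := abs_nonneg (Real.log (B ^ 2 + δ ^ 2))
        rw [abs_le]
        constructor <;> linarith
      show (φ x ^ 2 + δ ^ 2) ^ e z.re ≤ _
      rw [Real.rpow_def_of_pos (pos φ hδ x), Real.exp_le_exp]
      calc Real.log (φ x ^ 2 + δ ^ 2) * e z.re ≤ |Real.log (φ x ^ 2 + δ ^ 2) * e z.re| :=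
            le_abs_self _
        _ = |e z.re| * |Real.log (φ x ^ 2 + δ ^ 2)| := by rw [abs_mul, mul_comm]
        _ ≤ E * L := mul_le_mul he1 hlog (abs_nonneg _) (by positivity)
  · -- the limit
    have hexp : 0 < (qc d - 1) / 2 := by linarith
    have hlim : ∀ x, Tendsto (fun δ : ℝ => |φ x| * (φ x ^ 2 + δ ^ 2) ^ ((qc d - 1) / 2)) (𝓝[>] 0)
        (𝓝 (|φ x| ^ qc d)) := by
      intro x
      have h1 : Continuous fun δ : ℝ => |φ x| * (φ x ^ 2 + δ ^ 2) ^ ((qc d - 1) / 2) := by
        refine continuous_const.mul ?_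
        refine Continuous.rpow_const (by fun_prop) fun δ => Or.inr hexp.le
      have h2 := h1.tendsto 0
      have h3 : |φ x| * (φ x ^ 2 + (0 : ℝ) ^ 2) ^ ((qc d - 1) / 2) = |φ x| ^ qc d := by
        rw [← abs_rpow]
        norm_num
      rw [h3] at h2
      exact h2.mono_left nhdsWithin_le_nhds
    refine tendsto_integral_filter_of_dominated_convergence
      (fun x => |φ x| * (B ^ 2 + 1) ^ ((qc d - 1) / 2)) ?_ ?_ ?_ (ae_of_all _ hlim)
    · refine Eventually.of_forall fun δ => ?_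
      refine Continuous.aestronglyMeasurable ?_
      refine hc.abs.mul ?_
      exact Continuous.rpow_const (by fun_prop) fun x => Or.inr hexp.le
    · have h1 : ∀ᶠ δ : ℝ in 𝓝[>] 0, δ ∈ Ioc (0 : ℝ) 1 := by
        have h2 : Ioc (0 : ℝ) 1 ∈ 𝓝[>] (0 : ℝ) := Ioc_mem_nhdsGT zero_lt_one
        exact h2
      filter_upwards [h1] with δ hδ
      refine ae_of_all _ fun x => ?_
      rw [Real.norm_of_nonneg (by positivity)]
      refine mul_le_mul_of_nonneg_left ?_ (abs_nonneg _)
      refine Real.rpow_le_rpow (by positivity) ?_ hexp.le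
      have h5 : φ x ^ 2 ≤ B ^ 2 := by
        rw [← sq_abs]
        exact pow_le_pow_left₀ (abs_nonneg _) (hBabs x) 2
      have h6 : δ ^ 2 ≤ 1 := by
        have := hδ.1
        have := hδ.2
        nlinarith
      linarith
    · have h1 := int_abs_rpow hφ (e := 1) one_pos
      have h2 : Integrable (fun x => |φ x|) volume := by
        refine h1.congr (ae_of_all _ fun x => ?_)
        exact Real.rpow_one _
      exact h2.mul_const _

end Pool.Agent.SPI
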