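import Pool.Agent.SPI.St

/-!
# SPI Fin: the final theorem for all pairs
-/

set_option autoImplicit false

open MeasureTheory Filter Topology Set
open scoped ENNReal NNReal RealInnerProductSpace ContDiff

namespace Pool.Agent.SPI

open Pool.Agent.QWL (X IsTest ft hs HD sc HN mult cosP sinP dcosP IsSoln IsMaxSoln Scatters)

theorem thm_Fin (hEqv : St_Eqv) : St_Fin := by
  intro d p hA hU hS hL hF q r hP I u v hmax hbd
  have hE := hEqv d p hA hU hS hL q r hP
  refine hF I u v ⟨(hE I u v).1 hmax.1, hmax.2.1, fun J u' v' hJ hIJ huv => ?_⟩ hbd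
  exact hmax.2.2 J u' v' ((hE J u' v').2 hJ) hIJ huv

end Pool.Agent.SPI
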