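import Pool.Agent.SPI.St

set_option autoImplicit false

/-!
# SPI, Fix: the bound at time one
-/

open MeasureTheory Filter Topology Set
open scoped ENNReal NNReal RealInnerProductSpace ContDiff FourierTransform SchwartzMap

namespace Pool.Agent.SPI

open Pool.Agent.QWL (X IsTest ft hs HD sc HN mult cosP sinP dcosP IsSoln IsMaxSoln Scatters)

namespace Fixx

variable {d : ℕ}

/-- complexification of a test function as a Schwartz function -/
noncomputable def cS {φ : X d → ℝ} (h : IsTest φ) : 𝓢(X d, ℂ) :=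
  HasCompactSupport.toSchwartzMap (f := fun x => (φ x : ℂ))
    (h.2.comp_left (g := ((↑) : ℝ → ℂ)) Complex.ofReal_zero)
    (Complex.ofRealCLM.contDiff.comp h.1)

theorem cS_apply {φ : X d → ℝ} (h : IsTest φ) (x : X d) : cS h x = (φ x : ℂ) := rfl

theorem ft_fun {φ : X d → ℝ} (h : IsTest φ) : (ft φ : X d → ℂ) = 𝓕 (cS h) := by
  funext ξ
  rw [SchwartzMap.fourier_coe, Real.fourier_eq', ft]
  refine integral_congr_ae (Eventually.of_forall fun x => ?_)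
  simp only [smul_eq_mul, cS_apply]
  rw [mul_comm]
  congr 2
  push_cast
  ring

theorem ft_int {φ : X d → ℝ} (h : IsTest φ) : Integrable (ft φ) volume := by
  rw [ft_fun h]
  exact (𝓕 (cS h)).integrable

theorem ft_cont {φ : X d → ℝ} (h : IsTest φ) : Continuous (ft φ) := by
  rw [ft_fun h]
  exact (𝓕 (cS h)).continuous

theorem phi_int {φ : X d → ℝ} (h : IsTest φ) : Integrable (fun x => (φ x : ℂ)) volume :=
  (cS h).integrable

theorem norm_e (c : ℝ) : ‖Complex.exp (2 * Real.pi * Complex.I * (c : ℂ))‖ = 1 := by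
  rw [show (2 * Real.pi * Complex.I * (c : ℂ) : ℂ) = ((2 * Real.pi * c : ℝ) : ℂ) * Complex.I by
    push_cast; ring]
  exact Complex.norm_exp_ofReal_mul_I _

theorem ft_bd (φ : X d → ℝ) (ξ : X d) : ‖ft φ ξ‖ ≤ ∫ x, ‖(φ x : ℂ)‖ := by
  unfold ft
  refine (norm_integral_le_integral_norm _).trans (le_of_eq ?_)
  refine integral_congr_ae (Eventually.of_forall fun x => ?_)
  simp only [norm_mul]
  rw [show (-2 * Real.pi * Complex.I * ((inner ℝ x ξ : ℝ) : ℂ) : ℂ) =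
    2 * Real.pi * Complex.I * ((-inner ℝ x ξ : ℝ) : ℂ) by push_cast; ring, norm_e, mul_one]

theorem ft_neg (ψ : X d → ℝ) (ξ : X d) : ft ψ (-ξ) =
    ∫ x, (ψ x : ℂ) * Complex.exp (2 * Real.pi * Complex.I * ((inner ℝ x ξ : ℝ) : ℂ)) := by
  unfold ft
  refine integral_congr_ae (Eventually.of_forall fun x => ?_)
  simp only [inner_neg_right]
  congr 2
  push_cast
  ring

/-- the symbol of `sinP 1` -/
noncomputable def mm (ξ : X d) : ℝ := Real.sin (1 * (2 * Real.pi * ‖ξ‖)) / (2 * Real.pi * ‖ξ‖)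

theorem mm_meas : Measurable (mm : X d → ℝ) := by
  unfold mm
  exact (Real.measurable_sin.comp (by fun_prop)).div (by fun_prop)

theorem mm_bd (ξ : X d) : |mm ξ| ≤ 1 := by
  unfold mm
  rw [one_mul, abs_div]
  exact div_le_one_of_le₀ Real.abs_sin_le_abs (abs_nonneg _)

theorem mft_int {φ : X d → ℝ} (h : IsTest φ) : Integrable (fun ξ => (mm ξ : ℂ) * ft φ ξ) volume := by
  have := (ft_int h).bdd_mul (c := 1) (f := fun ξ => (mm ξ : ℂ))
    (mm_meas.complex_ofReal.aestronglyMeasurable) (Eventually.of_forall fun ξ => by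
      rw [Complex.norm_real, Real.norm_eq_abs]
      exact mm_bd ξ)
  exact this

theorem fub {φ ψ : X d → ℝ} (h : IsTest φ) (hp : IsTest ψ) :
    ∫ x, sinP 1 φ x * ψ x = (∫ ξ, (mm ξ : ℂ) * ft φ ξ * ft ψ (-ξ)).re := by
  set G : X d → X d → ℂ := fun x ξ => (ψ x : ℂ) * ((mm ξ : ℂ) * ft φ ξ) *
    Complex.exp (2 * Real.pi * Complex.I * ((inner ℝ x ξ : ℝ) : ℂ)) with hG
  have h1 : Integrable (Function.uncurry G) (volume.prod volume) := by
    have h2 := (phi_int hp).mul_prod (mft_int h)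
    refine h2.mul_bdd (c := 1) ?_ (Eventually.of_forall fun z => (norm_e _).le)
    exact (by fun_prop : Continuous fun z : X d × X d =>
      Complex.exp (2 * Real.pi * Complex.I * ((inner ℝ z.1 z.2 : ℝ) : ℂ))).aestronglyMeasurable
  have h3 : ∀ x, sinP 1 φ x * ψ x = (∫ ξ, G x ξ).re := by
    intro x
    have h4 : (∫ ξ, G x ξ) = (ψ x : ℂ) * ∫ ξ, (mm ξ : ℂ) * ft φ ξ *
        Complex.exp (2 * Real.pi * Complex.I * ((inner ℝ x ξ : ℝ) : ℂ)) := by
      rw [← integral_const_mul]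
      refine integral_congr_ae (Eventually.of_forall fun ξ => ?_)
      simp only [hG]
      ring
    rw [h4, Complex.re_ofReal_mul, mul_comm]
    rfl
  have h5 : ∫ x, (∫ ξ, G x ξ).re = (∫ x, ∫ ξ, G x ξ).re :=
    integral_re (𝕜 := ℂ) h1.integral_prod_left
  rw [integral_congr_ae (Eventually.of_forall h3), h5, integral_integral_swap h1]
  congr 1
  refine integral_congr_ae (Eventually.of_forall fun ξ => ?_)
  simp only [hG]
  rw [ft_neg, ← integral_const_mul]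
  refine integral_congr_ae (Eventually.of_forall fun x => ?_)
  ring

/-! ### the symbol -/

theorem sy_eq (ε σ : ℝ) (ξ : X d) : sy 1 ε σ ξ = ((2 * Real.pi * ‖ξ‖ : ℝ) : ℂ)⁻¹ *
    Complex.exp (-((2 * Real.pi * ‖ξ‖ : ℝ) : ℂ) * ((ε : ℂ) - (σ : ℂ) * Complex.I)) := by
  unfold sy
  rw [Complex.cpow_neg_one]

theorem sy_norm (ε σ : ℝ) (ξ : X d) : ‖sy 1 ε σ ξ‖ = (2 * Real.pi * ‖ξ‖)⁻¹ *
    Real.exp (-(2 * Real.pi * ‖ξ‖) * ε) := by
  rw [sy_eq, norm_mul, norm_inv, Complex.norm_real, Real.norm_eq_abs, Complex.norm_exp,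
    abs_of_nonneg (by positivity : (0 : ℝ) ≤ 2 * Real.pi * ‖ξ‖)]
  congr 2
  rw [← Complex.ofReal_neg, Complex.re_ofReal_mul]
  simp

theorem sy_meas (ε σ : ℝ) : Measurable (fun ξ : X d => sy 1 ε σ ξ) := by
  simp_rw [sy_eq]
  fun_prop

theorem maj_int (hd : 2 ≤ d) {ε : ℝ} (hε : 0 < ε) :
    Integrable (fun ξ : X d => (2 * Real.pi * ‖ξ‖)⁻¹ * Real.exp (-(2 * Real.pi * ‖ξ‖) * ε)) volume := by
  have : Nontrivial (Fin d) := Fin.nontrivial_iff_two_le.2 hd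
  have : Nonempty (Fin d) := ⟨⟨0, by omega⟩⟩
  have : Nontrivial (X d) := inferInstance
  have h1 := (integrable_fun_norm_addHaar (E := X d) (F := ℝ) (volume : Measure (X d))
    (f := fun r => (2 * Real.pi * r)⁻¹ * Real.exp (-(2 * Real.pi * r) * ε))).2
  refine h1 ?_
  have h2 : (-1 : ℝ) < ((d - 2 : ℕ) : ℝ) := by
    have : (0 : ℝ) ≤ ((d - 2 : ℕ) : ℝ) := Nat.cast_nonneg _
    linarith
  have h3 := integrableOn_rpow_mul_exp_neg_mul_rpow (p := 1) (s := ((d - 2 : ℕ) : ℝ))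
    (b := 2 * Real.pi * ε) h2 one_pos (by positivity)
  have h4 : IntegrableOn (fun y : ℝ => (2 * Real.pi)⁻¹ * (y ^ (((d - 2 : ℕ) : ℝ)) *
      Real.exp (-(2 * Real.pi * ε) * y ^ (1 : ℝ)))) (Ioi 0) volume := h3.const_mul ((2 * Real.pi)⁻¹)
  refine h4.congr_fun (fun y hy => ?_) measurableSet_Ioi
  have hy0 : (0 : ℝ) < y := hy
  have hfr : Module.finrank ℝ (X d) = d := by simp [X]
  simp only [smul_eq_mul]
  rw [hfr, Real.rpow_natCast, Real.rpow_one]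
  have h5 : y ^ (d - 1) = y ^ (d - 2) * y := by
    rw [← pow_succ]
    congr 1
    omega
  rw [h5]
  have hpi : (0 : ℝ) < 2 * Real.pi := by positivity
  rw [mul_inv]
  have h6 : y * y⁻¹ = 1 := mul_inv_cancel₀ hy0.ne'
  have h7 : -(2 * Real.pi * ε) * y = -(2 * Real.pi * y) * ε := by ring
  rw [h7]
  linear_combination (-(y ^ (d - 2) * (2 * Real.pi)⁻¹ * Real.exp (-(2 * Real.pi * y) * ε))) * h6

theorem sy_int (hd : 2 ≤ d) {ε : ℝ} (hε : 0 < ε) (σ : ℝ) :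
    Integrable (fun ξ : X d => sy 1 ε σ ξ) volume := by
  refine (maj_int hd hε).mono (sy_meas ε σ).aestronglyMeasurable (Eventually.of_forall fun ξ => ?_)
  rw [sy_norm, Real.norm_eq_abs]
  exact le_abs_self _

theorem bf_int (hd : 2 ≤ d) {ε : ℝ} (hε : 0 < ε) (σ : ℝ) {φ ψ : X d → ℝ} (h : IsTest φ)
    (hp : IsTest ψ) : Integrable (fun ξ : X d => sy 1 ε σ ξ * ft φ ξ * ft ψ (-ξ)) volume := by
  have h1 := (sy_int hd hε σ).mul_bdd (c := ∫ x, ‖(φ x : ℂ)‖)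
    (ft_cont h).aestronglyMeasurable (Eventually.of_forall fun ξ => ft_bd φ ξ)
  exact h1.mul_bdd (c := ∫ x, ‖(ψ x : ℂ)‖)
    ((ft_cont hp).comp continuous_neg).aestronglyMeasurable (Eventually.of_forall fun ξ => ft_bd ψ (-ξ))

theorem sy_diff (ε : ℝ) (ξ : X d) : sy 1 ε 1 ξ - sy 1 ε (-1) ξ =
    2 * Complex.I * ((Real.exp (-(2 * Real.pi * ‖ξ‖) * ε) : ℂ) * (mm ξ : ℂ)) := by
  rw [sy_eq, sy_eq]
  unfold mm
  set s : ℝ := 2 * Real.pi * ‖ξ‖ with hs
  have e1 : -(s : ℂ) * ((ε : ℂ) - ((1 : ℝ) : ℂ) * Complex.I) = -(s : ℂ) * ε + (s : ℂ) * Complex.I := by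
    push_cast
    ring
  have e2 : -(s : ℂ) * ((ε : ℂ) - ((-1 : ℝ) : ℂ) * Complex.I) = -(s : ℂ) * ε + -(s : ℂ) * Complex.I := by
    push_cast
    ring
  rw [e1, e2, Complex.exp_add, Complex.exp_add, one_mul]
  have h3 : ((Real.sin s / s : ℝ) : ℂ) = Complex.sin s * (s : ℂ)⁻¹ := by
    push_cast
    ring
  have h4 : ((Real.exp (-s * ε) : ℝ) : ℂ) = Complex.exp (-(s : ℂ) * ε) := by
    push_cast
    ring
  rw [h3, h4]
  have h5 : Complex.exp ((s : ℂ) * Complex.I) - Complex.exp (-(s : ℂ) * Complex.I) =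
      2 * Complex.I * Complex.sin s := by
    rw [Complex.sin]
    linear_combination (-(Complex.exp (-(s : ℂ) * Complex.I) - Complex.exp ((s : ℂ) * Complex.I))) *
      Complex.I_sq
  linear_combination ((s : ℂ)⁻¹ * Complex.exp (-(s : ℂ) * ε)) * h5

/-- the regularized form -/
noncomputable def J (ε : ℝ) (φ ψ : X d → ℝ) : ℂ :=
  ∫ ξ : X d, (Real.exp (-(2 * Real.pi * ‖ξ‖) * ε) : ℂ) * ((mm ξ : ℂ) * ft φ ξ * ft ψ (-ξ))

theorem bf_diff (hd : 2 ≤ d) {ε : ℝ} (hε : 0 < ε) {φ ψ : X d → ℝ} (h : IsTest φ) (hp : IsTest ψ) :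
    Bf 1 ε 1 (fun x => (φ x : ℂ)) (fun x => (ψ x : ℂ)) - Bf 1 ε (-1) (fun x => (φ x : ℂ)) (fun x => (ψ x : ℂ)) =
      2 * Complex.I * J ε φ ψ := by
  have e1 : ∀ σ : ℝ, Bf 1 ε σ (fun x => (φ x : ℂ)) (fun x => (ψ x : ℂ)) =
      ∫ ξ : X d, sy 1 ε σ ξ * ft φ ξ * ft ψ (-ξ) := fun σ => rfl
  rw [e1, e1, ← integral_sub (bf_int hd hε 1 h hp) (bf_int hd hε (-1) h hp), J, ← integral_const_mul]
  refine integral_congr_ae (Eventually.of_forall fun ξ => ?_)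
  have := sy_diff ε ξ
  simp only
  linear_combination (ft φ ξ * ft ψ (-ξ)) * this

theorem J_lim {φ ψ : X d → ℝ} (h : IsTest φ) (hp : IsTest ψ) :
    Tendsto (fun ε : ℝ => J ε φ ψ) (𝓝[>] 0) (𝓝 (∫ ξ : X d, (mm ξ : ℂ) * ft φ ξ * ft ψ (-ξ))) := by
  have hint : Integrable (fun ξ : X d => (mm ξ : ℂ) * ft φ ξ * ft ψ (-ξ)) volume :=
    (mft_int h).mul_bdd (c := ∫ x, ‖(ψ x : ℂ)‖)
      ((ft_cont hp).comp continuous_neg).aestronglyMeasurable (Eventually.of_forall fun ξ => ft_bd ψ (-ξ))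
  refine tendsto_integral_filter_of_dominated_convergence
    (fun ξ => ‖(mm ξ : ℂ) * ft φ ξ * ft ψ (-ξ)‖) ?_ ?_ hint.norm ?_
  · refine Eventually.of_forall fun ε => ?_
    refine AEStronglyMeasurable.mul ?_ hint.aestronglyMeasurable
    exact (by fun_prop : Continuous fun ξ : X d =>
      (Real.exp (-(2 * Real.pi * ‖ξ‖) * ε) : ℂ)).aestronglyMeasurable
  · filter_upwards [self_mem_nhdsWithin] with ε hε
    refine Eventually.of_forall fun ξ => ?_
    rw [norm_mul]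
    refine mul_le_of_le_one_left (norm_nonneg _) ?_
    rw [Complex.norm_real, Real.norm_eq_abs, abs_of_nonneg (Real.exp_pos _).le]
    refine Real.exp_le_one_iff.2 ?_
    have h1 : (0 : ℝ) < ε := hε
    have h2 : 0 ≤ 2 * Real.pi * ‖ξ‖ := by positivity
    nlinarith
  · refine Eventually.of_forall fun ξ => ?_
    have h1 : Tendsto (fun ε : ℝ => (Real.exp (-(2 * Real.pi * ‖ξ‖) * ε) : ℂ)) (𝓝[>] 0) (𝓝 1) := by
      have h2 : Continuous fun ε : ℝ => (Real.exp (-(2 * Real.pi * ‖ξ‖) * ε) : ℂ) := by fun_prop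
      have h3 := (h2.tendsto 0).mono_left (nhdsWithin_le_nhds (s := Ioi (0 : ℝ)))
      simpa using h3
    simpa using h1.mul_const ((mm ξ : ℂ) * ft φ ξ * ft ψ (-ξ))

end Fixx

theorem thm_Fix (hL3 : St_L3) : St_Fix := by
  intro d hd hKB
  obtain ⟨C, hC, hB⟩ := hL3 d hd hKB
  refine ⟨C, hC, fun φ ψ h hp => ?_⟩
  set R : ℝ := C * (∫ x, |φ x| ^ qc d) ^ (1 / qc d) * (∫ x, |ψ x| ^ qc d) ^ (1 / qc d) with hR
  have h1 : ∀ ε : ℝ, 0 < ε → ‖Fixx.J ε φ ψ‖ ≤ R := by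
    intro ε hε
    have h2 := Fixx.bf_diff hd hε h hp
    have h3 := hB φ ψ h hp ε 1 hε (Or.inl rfl)
    have h4 := hB φ ψ h hp ε (-1) hε (Or.inr rfl)
    have h5 : ‖2 * Complex.I * Fixx.J ε φ ψ‖ ≤ R + R := by
      rw [← h2]
      exact (norm_sub_le _ _).trans (add_le_add h3 h4)
    rw [norm_mul, norm_mul, Complex.norm_I, mul_one, Complex.norm_ofNat] at h5
    linarith
  have h6 : ‖∫ ξ : X d, (Fixx.mm ξ : ℂ) * ft φ ξ * ft ψ (-ξ)‖ ≤ R := by
    refine le_of_tendsto (Fixx.J_lim h hp).norm ?_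
    filter_upwards [self_mem_nhdsWithin] with ε hε
    exact h1 ε hε
  rw [Fixx.fub h hp]
  exact (Complex.abs_re_le_norm _).trans h6

end Pool.Agent.SPI
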