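import Pool.Agent.SPI.St

set_option autoImplicit false

/-!
# SPI, FixT: the fixed time estimate for all times
-/

open MeasureTheory Filter Topology Set
open scoped ENNReal NNReal RealInnerProductSpace ContDiff

namespace Pool.Agent.SPI

open Pool.Agent.QWL (X IsTest ft hs HD sc HN mult cosP sinP dcosP IsSoln IsMaxSoln Scatters)

namespace FixTx

variable {d : ℕ}

/-- Change of variables for dilations. -/
lemma int_dil {F : Type} [NormedAddCommGroup F] [NormedSpace ℝ F] (g : X d → F) {t : ℝ} (ht : 0 < t) :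
    ∫ x, g x = t ^ d • ∫ y, g (t • y) := by
  have h := Measure.integral_comp_smul (volume : Measure (X d)) g t
  rw [finrank_euclideanSpace, Fintype.card_fin, abs_of_pos (by positivity)] at h
  rw [h, smul_smul, mul_inv_cancel₀ (by positivity), one_smul]

/-- Dilation of a test function. -/
lemma test_dil {φ : X d → ℝ} (hφ : IsTest φ) {t : ℝ} (ht : 0 < t) : IsTest (fun x => φ (t • x)) := by
  refine ⟨hφ.1.comp (contDiff_const_smul t), ?_⟩
  exact hφ.2.comp_homeomorph (Homeomorph.smulOfNeZero t ht.ne')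

lemma ft_dil (φ : X d → ℝ) {t : ℝ} (ht : 0 < t) (η : X d) :
    ((t ^ d : ℝ) : ℂ) * ft (fun x => φ (t • x)) (t • η) = ft φ η := by
  rw [ft, ft, int_dil (fun x => (φ x : ℂ) * Complex.exp (-2 * Real.pi * Complex.I * ((inner ℝ x η : ℝ) : ℂ))) ht,
    Complex.real_smul]
  congr 1
  refine integral_congr_ae (Eventually.of_forall fun y => ?_)
  simp only
  rw [real_inner_smul_left, real_inner_smul_right]

lemma sinP_dil (φ : X d → ℝ) {t : ℝ} (ht : 0 < t) (y : X d) :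
    sinP t φ (t • y) = t * sinP 1 (fun x => φ (t • x)) y := by
  rw [sinP, sinP, mult, mult, int_dil (fun ξ => ((Real.sin (1 * (2 * Real.pi * ‖ξ‖)) / (2 * Real.pi * ‖ξ‖) : ℝ) : ℂ) *
    ft (fun x => φ (t • x)) ξ * Complex.exp (2 * Real.pi * Complex.I * ((inner ℝ y ξ : ℝ) : ℂ))) ht,
    Complex.real_smul, ← Complex.re_ofReal_mul, ← integral_const_mul, ← integral_const_mul]
  congr 1
  refine integral_congr_ae (Eventually.of_forall fun η => ?_)
  simp only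
  rw [← ft_dil φ ht η, real_inner_smul_left, real_inner_smul_right, norm_smul, Real.norm_of_nonneg ht.le]
  have e1 : 1 * (2 * Real.pi * (t * ‖η‖)) = t * (2 * Real.pi * ‖η‖) := by ring
  have e2 : 2 * Real.pi * (t * ‖η‖) = t * (2 * Real.pi * ‖η‖) := by ring
  rw [e1, e2]
  have htc : (t : ℂ) ≠ 0 := by exact_mod_cast ht.ne'
  by_cases hη : (2 * Real.pi * ‖η‖) = 0
  · rw [hη]
    simp
  · have hc : ((2 * Real.pi * ‖η‖ : ℝ) : ℂ) ≠ 0 := by exact_mod_cast hη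
    generalize (2 * Real.pi * ‖η‖) = s at *
    generalize ft (fun x => φ (t • x)) (t • η) = F
    generalize Complex.exp (2 * Real.pi * Complex.I * ((t * inner ℝ y η : ℝ) : ℂ)) = G
    push_cast
    field_simp

lemma sinP_neg (φ : X d → ℝ) (t : ℝ) (x : X d) : sinP (-t) φ x = -sinP t φ x := by
  rw [sinP, sinP, mult, mult, ← Complex.neg_re, ← integral_neg]
  congr 1
  refine integral_congr_ae (Eventually.of_forall fun η => ?_)
  simp only
  rw [neg_mul, Real.sin_neg]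
  push_cast
  ring

lemma pow_dil (φ : X d → ℝ) {t : ℝ} (ht : 0 < t) (q : ℝ) :
    ∫ x, |φ (t • x)| ^ q = (t ^ d)⁻¹ * ∫ x, |φ x| ^ q := by
  rw [int_dil (fun x => |φ x| ^ q) ht, smul_eq_mul, ← mul_assoc, inv_mul_cancel₀ (by positivity), one_mul]

lemma qc_pos (hd : 2 ≤ d) : 0 < qc d := by
  have h : (2 : ℝ) ≤ d := by exact_mod_cast hd
  unfold qc
  positivity

lemma qc_ge (hd : 2 ≤ d) : 1 ≤ qc d := by
  have h : (2 : ℝ) ≤ d := by exact_mod_cast hd
  unfold qc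
  rw [le_div_iff₀ (by linarith)]
  linarith

lemma qd_gt (hd : 2 ≤ d) : 1 < qd d := by
  have h : (2 : ℝ) ≤ d := by exact_mod_cast hd
  unfold qd
  rw [lt_div_iff₀ (by linarith)]
  linarith

lemma qdc (hd : 2 ≤ d) : 1 / qd d + 1 / qc d = 1 := by
  have h : (2 : ℝ) ≤ d := by exact_mod_cast hd
  unfold qd qc
  have h1 : (d : ℝ) - 1 ≠ 0 := by linarith
  have h2 : (d : ℝ) + 1 ≠ 0 := by linarith
  have h3 : (d : ℝ) + 3 ≠ 0 := by linarith
  field_simp
  ring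

lemma norm_test {φ : X d → ℝ} (hφ : IsTest φ) {q : ℝ} (hq : 1 ≤ q) :
    MemLp φ (ENNReal.ofReal q) volume ∧
    eLpNorm φ (ENNReal.ofReal q) volume = ENNReal.ofReal ((∫ x, |φ x| ^ q) ^ (1 / q)) := by
  have hm : MemLp φ (ENNReal.ofReal q) volume := hφ.1.continuous.memLp_of_hasCompactSupport hφ.2
  refine ⟨hm, ?_⟩
  rw [hm.eLpNorm_eq_integral_rpow_norm (by simp; linarith) ENNReal.ofReal_ne_top, ENNReal.toReal_ofReal (by linarith)]
  simp only [Real.norm_eq_abs, one_div]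

/-- The estimate by duality. -/
lemma pair_pos {C : ℝ} (hd : 2 ≤ d)
    (h : ∀ (φ ψ : X d → ℝ), IsTest φ → IsTest ψ →
      |∫ x, sinP 1 φ x * ψ x| ≤ C * (∫ x, |φ x| ^ qc d) ^ (1 / qc d) * (∫ x, |ψ x| ^ qc d) ^ (1 / qc d))
    {φ ψ : X d → ℝ} (hφ : IsTest φ) (hψ : IsTest ψ) {t : ℝ} (ht : 0 < t) :
    |∫ x, sinP t φ x * ψ x| ≤
      C * t ^ (-gm d) * (∫ x, |φ x| ^ qc d) ^ (1 / qc d) * (∫ x, |ψ x| ^ qc d) ^ (1 / qc d) := by
  have h1 := h _ _ (test_dil hφ ht) (test_dil hψ ht)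
  have e1 : ∫ x, sinP t φ x * ψ x = t ^ (d + 1) * ∫ y, sinP 1 (fun x => φ (t • x)) y * ψ (t • y) := by
    rw [int_dil (fun x => sinP t φ x * ψ x) ht, smul_eq_mul, pow_succ, mul_assoc, ← integral_const_mul t]
    congr 1
    refine integral_congr_ae (Eventually.of_forall fun y => ?_)
    simp only
    rw [sinP_dil φ ht y, mul_assoc]
  have hI : ∀ f : X d → ℝ, 0 ≤ ∫ x, |f x| ^ qc d := fun f => integral_nonneg fun x => by positivity
  have hd2 : (2 : ℝ) ≤ d := by exact_mod_cast hd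
  have hq := qc_pos hd
  have htd : (0 : ℝ) ≤ (t ^ d)⁻¹ := by positivity
  have e2 : ((t ^ d)⁻¹ : ℝ) ^ (1 / qc d) = t ^ (-(d : ℝ) / qc d) := by
    rw [← Real.rpow_natCast, ← Real.rpow_neg ht.le, ← Real.rpow_mul ht.le]
    congr 1
    ring
  rw [pow_dil φ ht, pow_dil ψ ht, Real.mul_rpow htd (hI φ), Real.mul_rpow htd (hI ψ), e2] at h1
  rw [e1, abs_mul, abs_of_pos (show (0 : ℝ) < t ^ (d + 1) by positivity)]
  have e3 : (t : ℝ) ^ (d + 1) * (t ^ (-(d : ℝ) / qc d) * t ^ (-(d : ℝ) / qc d)) = t ^ (-gm d) := by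
    rw [← Real.rpow_natCast, ← Real.rpow_add ht, ← Real.rpow_add ht]
    congr 1
    unfold gm qc
    push_cast
    have h2 : (d : ℝ) + 1 ≠ 0 := by linarith
    have h3 : (d : ℝ) + 3 ≠ 0 := by linarith
    field_simp
    ring
  calc t ^ (d + 1) * |∫ y, sinP 1 (fun x => φ (t • x)) y * ψ (t • y)|
      ≤ t ^ (d + 1) * (C * (t ^ (-(d : ℝ) / qc d) * (∫ x, |φ x| ^ qc d) ^ (1 / qc d)) *
        (t ^ (-(d : ℝ) / qc d) * (∫ x, |ψ x| ^ qc d) ^ (1 / qc d))) :=
        mul_le_mul_of_nonneg_left h1 (by positivity)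
    _ = C * (t ^ (d + 1) * (t ^ (-(d : ℝ) / qc d) * t ^ (-(d : ℝ) / qc d))) *
        (∫ x, |φ x| ^ qc d) ^ (1 / qc d) * (∫ x, |ψ x| ^ qc d) ^ (1 / qc d) := by ring
    _ = _ := by rw [e3]

lemma pair {C : ℝ} (hd : 2 ≤ d)
    (h : ∀ (φ ψ : X d → ℝ), IsTest φ → IsTest ψ →
      |∫ x, sinP 1 φ x * ψ x| ≤ C * (∫ x, |φ x| ^ qc d) ^ (1 / qc d) * (∫ x, |ψ x| ^ qc d) ^ (1 / qc d))
    {φ ψ : X d → ℝ} (hφ : IsTest φ) (hψ : IsTest ψ) {t : ℝ} (ht : t ≠ 0) :
    |∫ x, sinP t φ x * ψ x| ≤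
      C * |t| ^ (-gm d) * (∫ x, |φ x| ^ qc d) ^ (1 / qc d) * (∫ x, |ψ x| ^ qc d) ^ (1 / qc d) := by
  rcases lt_or_gt_of_ne ht with h0 | h0
  · have h1 := pair_pos hd h hφ hψ (neg_pos.2 h0)
    rw [abs_of_neg h0]
    refine le_trans (le_of_eq ?_) h1
    have : ∀ x, sinP t φ x * ψ x = -(sinP (-t) φ x * ψ x) := by
      intro x
      rw [sinP_neg]
      ring
    simp_rw [this]
    rw [integral_neg, abs_neg]
  · rw [abs_of_pos h0]
    exact pair_pos hd h hφ hψ h0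

end FixTx

open FixTx in
/-- **FixT**. -/
theorem thm_FixT (hFix : St_Fix) (hDua : St_Dua) : St_FixT := by
  intro d hd hKB hPrp
  obtain ⟨C, hC, h⟩ := hFix d hd hKB
  refine ⟨C, hC, fun φ hφ t ht => ?_⟩
  have hT : IsTest (sinP t φ) := (hPrp φ hφ t).2.1
  have hq1 := qd_gt hd
  have hm := (norm_test hT hq1.le).1
  have key := hDua d (qd d) (qc d) hq1 (qdc hd) univ isOpen_univ (sinP t φ)
    (ENNReal.ofReal (C * |t| ^ (-gm d)) * eLpNorm φ (ENNReal.ofReal (qc d)) volume)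
    (by rw [Measure.restrict_univ]; exact hm) (fun ψ hψ _ => ?_)
  · rwa [Measure.restrict_univ] at key
  · have h1 := pair hd h hφ hψ ht
    rw [(norm_test hφ (qc_ge hd)).2, (norm_test hψ (qc_ge hd)).2, ← ENNReal.ofReal_mul (by positivity),
      ← ENNReal.ofReal_mul (by
        have : 0 ≤ ∫ x, |φ x| ^ qc d := integral_nonneg fun x => by positivity
        positivity), Real.enorm_eq_ofReal_abs]
    exact ENNReal.ofReal_le_ofReal h1

end Pool.Agent.SPI
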