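import Pool.Agent.SPI.St

set_option autoImplicit false

/-!
# SPI: holomorphic parameter integrals
-/

open MeasureTheory Filter Topology Set

namespace Pool.Agent.SPI

namespace Holx

/-- Cauchy's estimate on a smaller ball -/
theorem der {U : Set ℂ} {f : ℂ → ℂ} (hf : DifferentiableOn ℂ f U) {z0 : ℂ} {ρ b : ℝ}
    (hρ : 0 < ρ) (hsub : Metric.ball z0 ρ ⊆ U) (hb : ∀ z ∈ Metric.ball z0 ρ, ‖f z‖ ≤ b) {z : ℂ}
    (hz : z ∈ Metric.ball z0 (ρ / 2)) : ‖deriv f z‖ ≤ b / (ρ / 2) := by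
  have hcb : Metric.closedBall z (ρ / 2) ⊆ Metric.ball z0 ρ := by
    intro w hw
    rw [Metric.mem_closedBall] at hw
    rw [Metric.mem_ball] at hz ⊢
    have := dist_triangle w z z0
    linarith
  refine Complex.norm_deriv_le_of_forall_mem_sphere_norm_le (half_pos hρ)
    (hf.diffContOnCl_ball (hcb.trans hsub)) fun w hw => hb w (hcb ?_)
  exact Metric.sphere_subset_closedBall hw

/-- the derivative is measurable -/
theorem mes {α : Type} [MeasurableSpace α] {μ : Measure α} {F : ℂ → α → ℂ} {U : Set ℂ}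
    (hU : IsOpen U) (hm : ∀ z ∈ U, AEStronglyMeasurable (F z) μ)
    (hd : ∀ᵐ x ∂μ, DifferentiableOn ℂ (fun z => F z x) U) {z0 : ℂ} (hz0 : z0 ∈ U) :
    AEStronglyMeasurable (fun x => deriv (fun z => F z x) z0) μ := by
  obtain ⟨ρ, hρ, hsub⟩ := Metric.isOpen_iff.1 hU z0 hz0
  have hmem : ∀ n : ℕ, z0 + ((ρ / ((n : ℝ) + 2) : ℝ) : ℂ) ∈ U := fun n => by
    apply hsub
    rw [Metric.mem_ball, dist_eq_norm, add_sub_cancel_left, Complex.norm_real, Real.norm_eq_abs,
      abs_of_pos (by positivity)]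
    have hn : (0 : ℝ) ≤ n := Nat.cast_nonneg n
    rw [div_lt_iff₀ (by positivity)]
    nlinarith
  have hlim : Tendsto (fun n : ℕ => ((ρ / ((n : ℝ) + 2) : ℝ) : ℂ)) atTop (𝓝[≠] 0) := by
    refine tendsto_nhdsWithin_iff.2 ⟨?_, Filter.Eventually.of_forall fun n => ?_⟩
    · have h1 : Tendsto (fun n : ℕ => ρ / ((n : ℝ) + 2)) atTop (𝓝 0) := by
        refine Tendsto.div_atTop tendsto_const_nhds ?_
        exact tendsto_atTop_add_const_right _ _ tendsto_natCast_atTop_atTop
      have h2 := (Complex.continuous_ofReal.tendsto (0 : ℝ)).comp h1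
      rw [Complex.ofReal_zero] at h2
      exact h2
    · have h3 : (ρ / ((n : ℝ) + 2) : ℝ) ≠ 0 := by positivity
      exact Complex.ofReal_ne_zero.2 h3
  refine aestronglyMeasurable_of_tendsto_ae atTop
    (f := fun (n : ℕ) x => (((ρ / ((n : ℝ) + 2) : ℝ) : ℂ))⁻¹ •
      (F (z0 + ((ρ / ((n : ℝ) + 2) : ℝ) : ℂ)) x - F z0 x)) (fun n => ?_) ?_
  · exact AEStronglyMeasurable.const_smul ((hm _ (hmem n)).sub (hm _ hz0))
      ((((ρ / ((n : ℝ) + 2) : ℝ) : ℂ))⁻¹)
  · filter_upwards [hd] with x hx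
    have h1 : HasDerivAt (fun z => F z x) (deriv (fun z => F z x) z0) z0 :=
      (hx.differentiableAt (hU.mem_nhds hz0)).hasDerivAt
    exact (hasDerivAt_iff_tendsto_slope_zero.1 h1).comp hlim

end Holx

/-- **Hol**: holomorphic parameter integrals. -/
theorem thm_Hol : St_Hol := by
  intro α _ μ F U hU hm hd hb z0 hz0
  obtain ⟨r, hr, bd, hbi, hbd⟩ := hb z0 hz0
  obtain ⟨r', hr', hsub'⟩ := Metric.isOpen_iff.1 hU z0 hz0
  obtain ⟨ρ, hρdef⟩ : ∃ ρ, ρ = min r r' := ⟨_, rfl⟩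
  have hρ : 0 < ρ := by rw [hρdef]; exact lt_min hr hr'
  have hρr : Metric.ball z0 ρ ⊆ Metric.ball z0 r :=
    Metric.ball_subset_ball (by rw [hρdef]; exact min_le_left _ _)
  have hρU : Metric.ball z0 ρ ⊆ U :=
    (Metric.ball_subset_ball (by rw [hρdef]; exact min_le_right _ _)).trans hsub'
  have hkey := hasDerivAt_integral_of_dominated_loc_of_deriv_le (μ := μ) (F := F) (x₀ := z0)
    (s := Metric.ball z0 (ρ / 2)) (bound := fun x => bd x / (ρ / 2))
    (F' := fun z x => deriv (fun w => F w x) z)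
    (Metric.ball_mem_nhds z0 (half_pos hρ))
    (by
      filter_upwards [hU.mem_nhds hz0] with z hz
      exact hm z hz)
    (by
      refine hbi.mono' (hm z0 hz0) ?_
      filter_upwards [hbd] with x hx
      exact hx z0 (Metric.mem_ball_self hr))
    (Holx.mes hU hm hd hz0)
    (by
      filter_upwards [hbd, hd] with x hx hdx z hz
      exact Holx.der hdx hρ hρU (fun w hw => hx w (hρr hw)) hz)
    (hbi.div_const _)
    (by
      filter_upwards [hd] with x hx z hz
      have hzU : z ∈ U := hρU (Metric.ball_subset_ball (by linarith) hz)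
      exact (hx.differentiableAt (hU.mem_nhds hzU)).hasDerivAt)
  exact hkey.2.differentiableAt.differentiableWithinAt

end Pool.Agent.SPI
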