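import Pool.Agent.SPI.St
import Pool.Agent.QWF.All

/-!
# SPI, In4: the inputs for `d = 4` (propagators, Sobolev embedding, local existence)
-/

set_option autoImplicit false

open MeasureTheory Filter Topology Set
open scoped ENNReal NNReal RealInnerProductSpace ContDiff

namespace Pool.Agent.SPI

open Pool.Agent.QWL (X IsTest ft hs HD sc HN mult cosP sinP dcosP IsSoln IsMaxSoln Scatters)

namespace In4x

open Pool.Agent.QWF.Asm

/-- restriction of a solution to a smaller interval -/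
theorem soln_mono {d : ℕ} {p : ℝ} {I J : Set ℝ} {u v : ℝ → X d → ℝ} (h : IsSoln p I u v) (hJ : J.OrdConnected)
    (hJI : J ⊆ I) : IsSoln p J u v := by
  obtain ⟨-, h1, h2, h3, h4, h5⟩ := h
  exact ⟨hJ, fun t ht => h1 t (hJI ht), fun t ht => (h2 t (hJI ht)).mono_left (nhdsWithin_mono t hJI),
    fun s hs t ht => h3 s (hJI hs) t (hJI ht), fun φ hφ s hs t ht => h4 φ hφ s (hJI hs) t (hJI ht),
    fun φ hφ s hs t ht => h5 φ hφ s (hJI hs) t (hJI ht)⟩

/-- two test functions with the same integrals against test functions are equal -/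
theorem test_eq {d : ℕ} {f g : X d → ℝ} (hf : IsTest f) (hg : IsTest g)
    (h : ∀ b : X d → ℝ, IsTest b → ∫ x, b x * f x = ∫ x, b x * g x) : f = g := by
  have hb : IsTest (fun x => f x - g x) := ⟨hf.1.sub hg.1, hf.2.sub hg.2⟩
  have hc : Continuous fun x => f x - g x := hb.1.continuous
  have h1 := h _ hb
  have i1 : Integrable fun x => (f x - g x) * f x :=
    (hc.mul hf.1.continuous).integrable_of_hasCompactSupport (hf.2.mul_left)
  have i2 : Integrable fun x => (f x - g x) * g x :=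
    (hc.mul hg.1.continuous).integrable_of_hasCompactSupport (hg.2.mul_left)
  have h2 : ∫ x, (f x - g x) ^ 2 = 0 := by
    have h3 : ∫ x, ((f x - g x) * f x - (f x - g x) * g x) = 0 := by
      rw [integral_sub i1 i2, h1, sub_self]
    rw [← h3]
    refine integral_congr_ae (Eventually.of_forall fun x => ?_)
    simp only
    ring
  have i3 : Integrable fun x => (f x - g x) ^ 2 := by
    refine (i1.sub i2).congr (Eventually.of_forall fun x => ?_)
    simp only [Pi.sub_apply]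
    ring
  have h4 := (integral_eq_zero_iff_of_nonneg (fun x => sq_nonneg _) i3).1 h2
  have h5 : (fun x => (f x - g x) ^ 2) = fun _ => (0 : ℝ) :=
    ((hc.pow 2).ae_eq_iff_eq volume continuous_const).1 h4
  funext x
  have h6 := congrFun h5 x
  exact sub_eq_zero.1 ((pow_eq_zero_iff two_ne_zero).1 h6)

theorem test_zero {d : ℕ} : IsTest (fun _ : X d => (0 : ℝ)) := ⟨contDiff_const, HasCompactSupport.zero⟩

theorem HD_zero {d : ℕ} (a : ℝ) : HD a (fun _ : X d => (0 : ℝ)) = 0 := by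
  unfold HD
  rw [if_pos (locallyIntegrable_const 0)]
  simp

theorem prp : Prp 4 := by
  intro φ hφ t
  have hφ' : Pool.Agent.QWF.IsTest φ := hφ
  obtain ⟨q1, q2, -, q3⟩ := Pool.Agent.QWF.Duhx.prop_eq f_Ft f_FreX hφ' t
  refine ⟨q1, q2, ?_⟩
  obtain ⟨-, f1, f2, h1, h2, h3, h4, -, -⟩ := f_FreX φ φ φ (-t) hφ' hφ' hφ'
  have e : sinP t φ = f2 := by
    refine test_eq q2 h2 fun b hb => ?_
    have e1 := (q3 0 (by norm_num)).1
    rw [(h3 0 (by norm_num) (by norm_num)).1] at e1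
    obtain ⟨C, -, hF, -, hT⟩ := f_FldP 0 (by norm_num)
    obtain ⟨hU, hV, -⟩ := hT _ b test_zero hb
    have p1 : ∀ {ψ : X 4 → ℝ}, IsTest ψ → inner ℝ (Pool.Agent.QWF.Theta 0 (fun _ => 0) b)
        (Pool.Agent.QWF.Rs 0 ψ) = 0 := by
      intro ψ hψ
      rw [← ((hF _).2.2.2.2.2 ψ (f_Ft.1 ψ hψ)).1]
      refine integral_eq_zero_of_ae ?_
      filter_upwards [hU] with x hx
      rw [hx, zero_mul]
      rfl
    have p2 : ∀ {ψ : X 4 → ℝ}, IsTest ψ → inner ℝ (Pool.Agent.QWF.Theta 0 (fun _ => 0) b)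
        (Pool.Agent.QWF.dRs 0 ψ) = ∫ x, b x * ψ x := by
      intro ψ hψ
      rw [← ((hF _).2.2.2.2.2 ψ (f_Ft.1 ψ hψ)).2]
      refine integral_congr_ae ?_
      filter_upwards [hV] with x hx
      rw [hx]
    have e2 := congrArg (fun k => inner ℝ (Pool.Agent.QWF.Theta 0 (fun _ => 0) b) k) e1
    simp only [inner_add_right] at e2
    rw [p1 h1, p2 h2, p1 q1, p2 q2, zero_add, zero_add] at e2
    exact e2.symm
  intro x hx
  rw [e]
  exact (h4 x (by rwa [abs_neg])).2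

theorem HN_eq (p : ℝ) (f g : X 4 → ℝ) : HN p f g = Pool.Agent.QWF.HN (p - 1) f g := by
  have h1 : sc 4 p = 2 - 2 / (p - 1) := by
    unfold sc
    norm_num
  have h2 : sc 4 p - 1 = 1 - 2 / (p - 1) := by
    rw [h1]
    ring
  unfold HN Pool.Agent.QWF.HN
  rw [h2, h1]
  rfl

theorem soln_eq (p : ℝ) (I : Set ℝ) (u v : ℝ → X 4 → ℝ) :
    IsSoln p I u v ↔ Pool.Agent.QWF.IsSolnD (p - 1) I u v := by
  unfold IsSoln Pool.Agent.QWF.IsSolnD
  simp only [HN_eq, Nat.cast_ofNat]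
  exact Iff.rfl

theorem sob {p : ℝ} (hp : 5 < p) : Sob 4 p := by
  have hb : 4 < p - 1 := by linarith
  obtain ⟨c, C, hc, hC, hex, heq, -⟩ := f_Br1 (p - 1) hb
  have hsb : |Pool.Agent.QWF.sig (p - 1)| < 1 / 2 := Pool.Agent.QWF.Br3x.sig_lt hb
  obtain ⟨C', hC', hF, -⟩ := f_FldP (Pool.Agent.QWF.sig (p - 1)) hsb
  refine ⟨C' / c, by positivity, fun f hf => ?_⟩
  have h1 : HN p f (fun _ => 0) = HD (sc 4 p) f := by
    unfold HN
    rw [HD_zero, add_zero]
  obtain ⟨k, hU, hV⟩ := hex f (fun _ => 0) (by rw [← HN_eq, h1]; exact hf)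
  have h2 := (heq _ _ k hU hV).2
  rw [← HN_eq, h1] at h2
  obtain ⟨hm, hn, -⟩ := hF k
  have hq : Pool.Agent.QWF.q0 (Pool.Agent.QWF.sig (p - 1)) = ENNReal.ofReal (ms 4 p) := by
    unfold Pool.Agent.QWF.q0 Pool.Agent.QWF.sig ms
    congr 1
    have : p - 1 ≠ 0 := by linarith
    push_cast
    field_simp
    ring
  rw [hq] at hn
  have hm' := hm.1
  rw [hq] at hm'
  refine ⟨(memLp_congr_ae hU).1 hm', ?_⟩
  rw [← eLpNorm_congr_ae hU]
  refine hn.trans ?_
  have hc0 := (ENNReal.ofReal_pos.2 hc).ne'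
  rw [← ENNReal.mul_le_mul_iff_right hc0 ENNReal.ofReal_ne_top, ← mul_assoc, ← mul_assoc]
  calc ENNReal.ofReal c * ENNReal.ofReal C' * ‖k‖ₑ = ENNReal.ofReal C' * (ENNReal.ofReal c * ‖k‖ₑ) := by ring
    _ ≤ ENNReal.ofReal C' * HD (sc 4 p) f := by gcongr
    _ = ENNReal.ofReal c * ENNReal.ofReal (C' / c) * HD (sc 4 p) f := by
      rw [← ENNReal.ofReal_mul hc.le, mul_div_cancel₀ C' hc.ne']

theorem lwp {p : ℝ} (hp : 5 < p) : LWP 4 p := by
  intro f g hfg t0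
  have hb : 4 < p - 1 := by linarith
  obtain ⟨c, C, hc, hC, hex, heq, -⟩ := f_Br1 (p - 1) hb
  rw [HN_eq] at hfg
  obtain ⟨k0, hU, hV⟩ := hex f g hfg
  obtain ⟨I, k, hI, ht, hk, -⟩ := f_MaxE (p - 1) hb k0 t0
  obtain ⟨ε, hε, hball⟩ := Metric.isOpen_iff.1 hI.2.1 t0 ht
  have hsub : Icc (t0 - ε / 2) (t0 + ε / 2) ⊆ I := by
    intro x hx
    refine hball ?_
    rw [Metric.mem_ball, Real.dist_eq, abs_lt]
    constructor <;> linarith [hx.1, hx.2]
  have hsol := (f_Br3 (p - 1) hb).1 I k hI.1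
  have hD := (Pool.Agent.QWF.IsSolnD_iff f_Grp1 f_Ft f_FreX f_FldP f_Meas f_NLb f_DnsP f_DrT f_Br1 f_Br2 f_Br3 hb).2 hsol
  refine ⟨ε / 2, by positivity, _, _, soln_mono ((soln_eq p I _ _).2 hD) ordConnected_Icc hsub, ?_, ?_⟩
  · change Pool.Agent.QWF.U (Pool.Agent.QWF.sig (p - 1)) (k t0) =ᵐ[volume] f
    rw [hk]
    exact hU
  · change Pool.Agent.QWF.V (Pool.Agent.QWF.sig (p - 1)) (k t0) =ᵐ[volume] g
    rw [hk]
    exact hV

end In4x

theorem thm_In4 : St_In4 := ⟨In4x.prp, fun _ hp => ⟨In4x.sob hp, In4x.lwp hp⟩⟩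

end Pool.Agent.SPI
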