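import Pool.Agent.SPI.St

/-! # SPI, Itp: interpolation in `x` -/

set_option autoImplicit false

open MeasureTheory Filter Topology Set
open scoped ENNReal NNReal RealInnerProductSpace ContDiff

namespace Pool.Agent.SPI

open Pool.Agent.QWL (X IsTest ft hs HD sc HN mult cosP sinP dcosP IsSoln IsMaxSoln Scatters)

namespace Itpx

theorem norm_eq {d : ℕ} (f : X d → ℝ) (r : ℝ) (hr : 0 < r) :
    eLpNorm f (ENNReal.ofReal r) volume = (∫⁻ x, ‖f x‖ₑ ^ r) ^ (1 / r) := by
  rw [eLpNorm_eq_lintegral_rpow_enorm_toReal (by simpa using hr) ENNReal.ofReal_ne_top,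
    ENNReal.toReal_ofReal hr.le]

end Itpx

/-- **Itp**. -/
theorem thm_Itp : St_Itp := by
  intro d p q1 r1 q2 r2 hd hp hq1 hq12 h1 h2 f hf
  have hd0 : (0 : ℝ) < d := by exact_mod_cast hd
  have hp1 : 0 < p - 1 := by linarith
  have hq1p : 0 < q1 := by linarith
  have hq2p : 0 < q2 := by linarith
  have hr : ∀ q r : ℝ, p - 1 ≤ q → 1 / q + (d : ℝ) / r = 2 / (p - 1) → 0 < r := by
    intro q r hq h
    have h3 : 1 / q ≤ 1 / (p - 1) := one_div_le_one_div_of_le hp1 hq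
    have h4 : 0 < (d : ℝ) / r := by
      have h5 : (d : ℝ) / r = 2 / (p - 1) - 1 / q := by linarith
      have h6 : 2 / (p - 1) = 1 / (p - 1) + 1 / (p - 1) := by ring
      have h7 : 0 < 1 / (p - 1) := by positivity
      linarith
    by_contra hc
    rw [not_lt] at hc
    have := div_nonpos_of_nonneg_of_nonpos hd0.le hc
    linarith
  have hr1 := hr q1 r1 hq1 h1
  have hr2 := hr q2 r2 (by linarith) h2
  have hm : 0 < ms d p := by
    unfold ms
    positivity
  have hmd : (d : ℝ) / ms d p = 2 / (p - 1) := by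
    unfold ms
    field_simp
  obtain ⟨a, ha⟩ : ∃ a, a = q1 / q2 * r2 / r1 := ⟨_, rfl⟩
  obtain ⟨b, hb⟩ : ∃ b, b = (q2 - q1) / q2 * r2 / ms d p := ⟨_, rfl⟩
  have ha0 : 0 ≤ a := by
    rw [ha]
    positivity
  have hb0 : 0 ≤ b := by
    rw [hb]
    have : 0 ≤ q2 - q1 := by linarith
    positivity
  have hab : a + b = 1 := by
    have e1 : (d : ℝ) * (a + b) = r2 * ((q1 / q2) * ((d : ℝ) / r1) + ((q2 - q1) / q2) * ((d : ℝ) / ms d p)) := by
      rw [ha, hb]
      ring
    have e2 : (q1 / q2) * ((d : ℝ) / r1) + ((q2 - q1) / q2) * ((d : ℝ) / ms d p) = (d : ℝ) / r2 := by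
      rw [hmd, show (d : ℝ) / r1 = 2 / (p - 1) - 1 / q1 by linarith,
        show (d : ℝ) / r2 = 2 / (p - 1) - 1 / q2 by linarith]
      field_simp
      ring
    rw [e2] at e1
    have e3 : r2 * ((d : ℝ) / r2) = d := by field_simp
    rw [e3] at e1
    have e4 : (d : ℝ) * (a + b) = d * 1 := by linarith
    exact mul_left_cancel₀ hd0.ne' e4
  have hexp : a * r1 + b * ms d p = r2 := by
    rw [ha, hb]
    field_simp
    ring
  have hmeas : AEMeasurable (fun x => ‖f x‖ₑ) volume := hf.enorm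
  have key := ENNReal.lintegral_mul_norm_pow_le (μ := (volume : Measure (X d)))
    (f := fun x => ‖f x‖ₑ ^ r1) (g := fun x => ‖f x‖ₑ ^ ms d p)
    (hmeas.pow_const r1) (hmeas.pow_const (ms d p)) ha0 hb0 hab
  have hint : ∫⁻ x, ‖f x‖ₑ ^ r2 = ∫⁻ x, (‖f x‖ₑ ^ r1) ^ a * (‖f x‖ₑ ^ ms d p) ^ b := by
    apply lintegral_congr
    intro x
    rw [← ENNReal.rpow_mul, ← ENNReal.rpow_mul,
      ← ENNReal.rpow_add_of_nonneg _ _ (by positivity) (by positivity),
      show r1 * a + ms d p * b = r2 by linarith [hexp]]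
  rw [Itpx.norm_eq f r1 hr1, Itpx.norm_eq f r2 hr2, Itpx.norm_eq f (ms d p) hm,
    ← ENNReal.rpow_mul, ← ENNReal.rpow_mul, ← ENNReal.rpow_mul, hint]
  refine (ENNReal.rpow_le_rpow key (by positivity)).trans (le_of_eq ?_)
  rw [ENNReal.mul_rpow_of_nonneg _ _ (by positivity), ← ENNReal.rpow_mul, ← ENNReal.rpow_mul]
  congr 2
  · rw [ha]
    field_simp
  · rw [hb]
    field_simp

end Pool.Agent.SPI
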