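import Pool.Agent.SPI.St

set_option autoImplicit false

/-! # SPI, module KB4: the kernel bound in dimension 4 -/

open MeasureTheory Filter Topology Set
open scoped ENNReal NNReal RealInnerProductSpace ContDiff

namespace Pool.Agent.SPI.KB4x

open Pool.Agent.QWL (X)
open Complex (I)

private theorem norm_cpow_le {z : ℂ} (hz : 0 < z.re) {a : ℂ} {r y : ℝ} (hr : a.re = r)
    (hy : a.im = y) : ‖z ^ a‖ ≤ ‖z‖ ^ r * Real.exp (4 * |y|) := by
  have hz0 : z ≠ 0 := by rintro rfl; simp at hz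
  rw [Complex.norm_cpow_of_ne_zero hz0, hr, hy, div_eq_mul_inv, ← Real.exp_neg]
  refine mul_le_mul_of_nonneg_left (Real.exp_le_exp.2 ?_) (by positivity)
  have h1 : |Complex.arg z| ≤ Real.pi / 2 := Complex.abs_arg_le_pi_div_two_iff.2 hz.le
  have h2 : Real.pi / 2 ≤ 4 := by linarith [Real.pi_le_four]
  calc -(z.arg * y) ≤ |z.arg * y| := neg_le_abs _
    _ = |z.arg| * |y| := abs_mul _ _
    _ ≤ 4 * |y| := mul_le_mul_of_nonneg_right (h1.trans h2) (abs_nonneg _)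

private theorem exp_le_gro {y : ℝ} : Real.exp (4 * |y|) ≤ gro y := by
  unfold gro
  have h1 : (0 : ℝ) ≤ 1 / |y| := by positivity
  nlinarith [Real.exp_pos (4 * |y|)]

private theorem gro_nonneg (y : ℝ) : 0 ≤ gro y := (Real.exp_pos _).le.trans exp_le_gro

private theorem gro_neg (y : ℝ) : gro (-y) = gro y := by unfold gro; rw [abs_neg]

private noncomputable def lam (ε ρ θ : ℝ) : ℂ := (ε : ℂ) - I * ((1 - ρ * Real.cos θ : ℝ) : ℂ)

private theorem lam_re (ε ρ θ : ℝ) : (lam ε ρ θ).re = ε := by simp [lam]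

private theorem lam_im (ε ρ θ : ℝ) : (lam ε ρ θ).im = -(1 - ρ * Real.cos θ) := by
  unfold lam
  rw [Complex.sub_im, Complex.ofReal_im, Complex.I_mul_im, Complex.ofReal_re]
  ring

private theorem lam_slit {ε : ℝ} (hε : 0 < ε) (ρ θ : ℝ) : lam ε ρ θ ∈ Complex.slitPlane :=
  Or.inl (by rw [lam_re]; exact hε)

private theorem lam_cont (ε ρ : ℝ) : Continuous (lam ε ρ) := by
  unfold lam
  fun_prop

private theorem lam_deriv (ε ρ θ : ℝ) :
    HasDerivAt (lam ε ρ) (-I * ((ρ * Real.sin θ : ℝ) : ℂ)) θ := by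
  have h1 : HasDerivAt (fun θ : ℝ => 1 - ρ * Real.cos θ) (ρ * Real.sin θ) θ := by
    have := ((Real.hasDerivAt_cos θ).const_mul ρ).const_sub 1
    exact this.congr_deriv (by ring)
  have h2 := (h1.ofReal_comp.const_mul I).const_sub (ε : ℂ)
  exact h2.congr_deriv (by ring)

private theorem lam_pow_deriv {ε : ℝ} (hε : 0 < ε) (ρ θ : ℝ) (a : ℂ) :
    HasDerivAt (fun θ => lam ε ρ θ ^ a)
      (a * lam ε ρ θ ^ (a - 1) * (-I * ((ρ * Real.sin θ : ℝ) : ℂ))) θ := by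
  have h1 := (hasDerivAt_id (lam ε ρ θ)).cpow_const (c := a) (lam_slit hε ρ θ)
  have h2 := HasDerivAt.comp θ h1 (lam_deriv ε ρ θ)
  exact h2.congr_deriv (by rw [mul_one]; rfl)

private theorem lam_pow_cont {ε : ℝ} (hε : 0 < ε) (ρ : ℝ) (a : ℂ) :
    Continuous (fun θ => lam ε ρ θ ^ a) :=
  (lam_cont ε ρ).cpow continuous_const fun θ => lam_slit hε ρ θ

/-- First integration by parts. -/
private theorem step1 {ε : ℝ} (hε : 0 < ε) (ρ : ℝ) (a : ℂ) :
    (a * (-I * (ρ : ℂ))) *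
      (∫ θ in (0 : ℝ)..Real.pi, ((Real.sin θ ^ 2 : ℝ) : ℂ) * lam ε ρ θ ^ (a - 1)) =
      -∫ θ in (0 : ℝ)..Real.pi, (Real.cos θ : ℂ) * lam ε ρ θ ^ a := by
  have h := intervalIntegral.integral_mul_deriv_eq_deriv_mul (a := 0) (b := Real.pi)
    (u := fun θ : ℝ => (Real.sin θ : ℂ)) (u' := fun θ : ℝ => (Real.cos θ : ℂ))
    (v := fun θ => lam ε ρ θ ^ a)
    (v' := fun θ => a * lam ε ρ θ ^ (a - 1) * (-I * ((ρ * Real.sin θ : ℝ) : ℂ)))
    (fun θ _ => (Real.hasDerivAt_sin θ).ofReal_comp) (fun θ _ => lam_pow_deriv hε ρ θ a)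
    ((Complex.continuous_ofReal.comp Real.continuous_cos).intervalIntegrable _ _)
    (((continuous_const.mul (lam_pow_cont hε ρ (a - 1))).mul (by fun_prop)).intervalIntegrable
      _ _)
  simp only [Real.sin_pi, Real.sin_zero, Complex.ofReal_zero, zero_mul, sub_self, zero_sub] at h
  rw [← h, ← intervalIntegral.integral_const_mul]
  refine intervalIntegral.integral_congr fun θ _ => ?_
  push_cast
  ring

/-- The function `H`. -/
private noncomputable def H (μ : ℂ) (c : ℝ) (a : ℂ) (V : ℝ) : ℂ :=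
  ∫ v in (0 : ℝ)..V, (μ - I * ((c * v ^ 2 : ℝ) : ℂ)) ^ a

private theorem H_cont {μ : ℂ} (hμ : 0 < μ.re) (c : ℝ) (a : ℂ) :
    Continuous (fun v : ℝ => (μ - I * ((c * v ^ 2 : ℝ) : ℂ)) ^ a) := by
  refine Continuous.cpow (by fun_prop) continuous_const fun v => Or.inl ?_
  rw [Complex.sub_re, Complex.I_mul_re, Complex.ofReal_im, neg_zero, sub_zero]
  exact hμ

private theorem H_deriv {μ : ℂ} (hμ : 0 < μ.re) (c : ℝ) (a : ℂ) (V : ℝ) :
    HasDerivAt (H μ c a) ((μ - I * ((c * V ^ 2 : ℝ) : ℂ)) ^ a) V := by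
  unfold H
  have hc := H_cont hμ c a
  exact intervalIntegral.integral_hasDerivAt_right (hc.intervalIntegrable _ _)
    (hc.stronglyMeasurableAtFilter _ _) hc.continuousAt

private theorem H_bound {C : ℝ} (hC0 : 0 < C) (hC : ∀ (μ : ℂ) (y V : ℝ), 0 < μ.re → y ≠ 0 → 0 ≤ V →
    ‖∫ v in (0 : ℝ)..V, (μ - I * ((v ^ 2 : ℝ) : ℂ)) ^ (-1 / 2 + (y : ℂ) * I)‖ ≤ C * gro y)
    {μ : ℂ} (hμ : 0 < μ.re) {c : ℝ} (hc : 1 / 4 ≤ c) {y V : ℝ} (hy : y ≠ 0) (hV : 0 ≤ V) :
    ‖H μ c (-1 / 2 + (y : ℂ) * I) V‖ ≤ 2 * C * gro y := by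
  have hc0 : 0 ≤ c := by linarith
  have hsq : Real.sqrt c ^ 2 = c := Real.sq_sqrt hc0
  have hs2 : 1 / 2 ≤ Real.sqrt c := by
    have : Real.sqrt (1 / 4) ≤ Real.sqrt c := Real.sqrt_le_sqrt hc
    have e : Real.sqrt (1 / 4) = 1 / 2 := by
      rw [show (1 / 4 : ℝ) = (1 / 2) ^ 2 by norm_num]
      exact Real.sqrt_sq (by norm_num)
    linarith
  have hs0 : 0 < Real.sqrt c := by linarith
  have h1 := intervalIntegral.integral_comp_mul_left (a := 0) (b := V)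
    (fun v : ℝ => (μ - I * ((v ^ 2 : ℝ) : ℂ)) ^ (-1 / 2 + (y : ℂ) * I)) hs0.ne'
  have h2 : H μ c (-1 / 2 + (y : ℂ) * I) V = (Real.sqrt c)⁻¹ •
      ∫ v in (Real.sqrt c * 0)..(Real.sqrt c * V),
        (μ - I * ((v ^ 2 : ℝ) : ℂ)) ^ (-1 / 2 + (y : ℂ) * I) := by
    rw [← h1]
    unfold H
    refine intervalIntegral.integral_congr fun v _ => ?_
    simp only [mul_pow, hsq]
  rw [h2, mul_zero, norm_smul, Real.norm_of_nonneg (by positivity)]
  have h3 := hC μ y (Real.sqrt c * V) hμ hy (by positivity)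
  have h4 : (Real.sqrt c)⁻¹ ≤ 2 := by
    rw [inv_le_comm₀ hs0 (by norm_num)]
    linarith
  calc (Real.sqrt c)⁻¹ * _ ≤ 2 * (C * gro y) :=
        mul_le_mul h4 h3 (norm_nonneg _) (by norm_num)
    _ = 2 * C * gro y := by ring

private noncomputable def kk (θ : ℝ) : ℝ := Real.cos θ / Real.cos (θ / 2)

private noncomputable def kk' (θ : ℝ) : ℝ :=
  (-Real.sin θ * Real.cos (θ / 2) - Real.cos θ * (-Real.sin (θ / 2) * (1 / 2))) /
    Real.cos (θ / 2) ^ 2

private theorem cos_half {θ : ℝ} (h0 : 0 ≤ θ) (h1 : θ ≤ Real.pi / 2) :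
    1 / 2 ≤ Real.cos (θ / 2) ^ 2 := by
  have h := Real.cos_sq (θ / 2)
  rw [h, mul_div_cancel₀ θ (two_ne_zero)]
  have : 0 ≤ Real.cos θ := Real.cos_nonneg_of_neg_pi_div_two_le_of_le (by linarith [Real.pi_pos]) h1
  linarith

private theorem kk_deriv {θ : ℝ} (h : Real.cos (θ / 2) ≠ 0) : HasDerivAt kk (kk' θ) θ := by
  have h1 : HasDerivAt (fun θ : ℝ => Real.cos (θ / 2)) (-Real.sin (θ / 2) * (1 / 2)) θ :=
    HasDerivAt.comp (h₂ := Real.cos) (h := fun θ : ℝ => θ / 2) θ (Real.hasDerivAt_cos (θ / 2))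
      ((hasDerivAt_id θ).div_const 2)
  exact (Real.hasDerivAt_cos θ).div h1 h

private theorem kk'_bound {θ : ℝ} (h0 : 0 ≤ θ) (h1 : θ ≤ Real.pi / 2) : |kk' θ| ≤ 3 := by
  have hc := cos_half h0 h1
  unfold kk'
  rw [abs_div, abs_of_nonneg (sq_nonneg (Real.cos (θ / 2))), div_le_iff₀ (by linarith)]
  have h2 : |-Real.sin θ * Real.cos (θ / 2)| ≤ 1 := by
    rw [abs_mul, abs_neg]
    calc |Real.sin θ| * |Real.cos (θ / 2)| ≤ 1 * 1 :=
          mul_le_mul (Real.abs_sin_le_one _) (Real.abs_cos_le_one _) (abs_nonneg _) (by norm_num)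
      _ = 1 := by norm_num
  have h3 : |Real.cos θ * (-Real.sin (θ / 2) * (1 / 2))| ≤ 1 / 2 := by
    rw [abs_mul, abs_mul, abs_neg, abs_of_pos (by norm_num : (0 : ℝ) < 1 / 2)]
    calc |Real.cos θ| * (|Real.sin (θ / 2)| * (1 / 2)) ≤ 1 * (1 * (1 / 2)) :=
          mul_le_mul (Real.abs_cos_le_one _)
            (mul_le_mul_of_nonneg_right (Real.abs_sin_le_one _) (by norm_num)) (by positivity)
            (by norm_num)
      _ = 1 / 2 := by norm_num
  calc |-Real.sin θ * Real.cos (θ / 2) - Real.cos θ * (-Real.sin (θ / 2) * (1 / 2))|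
      ≤ |-Real.sin θ * Real.cos (θ / 2)| + |Real.cos θ * (-Real.sin (θ / 2) * (1 / 2))| :=
        abs_sub _ _
    _ ≤ 3 * Real.cos (θ / 2) ^ 2 := by linarith

private theorem lam_eq (ε ρ θ : ℝ) : lam ε ρ θ =
    ((ε : ℂ) + I * ((ρ - 1 : ℝ) : ℂ)) - I * ((ρ / 2 * (2 * Real.sin (θ / 2)) ^ 2 : ℝ) : ℂ) := by
  have h : Real.cos θ = 1 - 2 * Real.sin (θ / 2) ^ 2 := by
    have := Real.cos_sq (θ / 2)
    rw [mul_div_cancel₀ θ (two_ne_zero)] at this
    have h2 := Real.sin_sq_add_cos_sq (θ / 2)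
    linarith
  unfold lam
  rw [h]
  push_cast
  ring

/-- Second step: the singular half. -/
private theorem step2 {C : ℝ} (hC0 : 0 < C) (hC : ∀ (μ : ℂ) (y V : ℝ), 0 < μ.re → y ≠ 0 → 0 ≤ V →
    ‖∫ v in (0 : ℝ)..V, (μ - I * ((v ^ 2 : ℝ) : ℂ)) ^ (-1 / 2 + (y : ℂ) * I)‖ ≤ C * gro y)
    {ε : ℝ} (hε : 0 < ε) {ρ : ℝ} (hρ : 1 / 2 ≤ ρ) {y : ℝ} (hy : y ≠ 0) :
    ‖∫ θ in (0 : ℝ)..(Real.pi / 2), (Real.cos θ : ℂ) * lam ε ρ θ ^ (-1 / 2 + (y : ℂ) * I)‖ ≤
      12 * C * gro y := by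
  obtain ⟨a, ha⟩ : ∃ a : ℂ, a = -1 / 2 + (y : ℂ) * I := ⟨_, rfl⟩
  obtain ⟨μ, hμ⟩ : ∃ μ : ℂ, μ = (ε : ℂ) + I * ((ρ - 1 : ℝ) : ℂ) := ⟨_, rfl⟩
  have hμre : 0 < μ.re := by rw [hμ]; simpa using hε
  have hpi := Real.pi_pos
  have hG : ∀ θ : ℝ, HasDerivAt (fun θ : ℝ => H μ (ρ / 2) a (2 * Real.sin (θ / 2)))
      (lam ε ρ θ ^ a * (Real.cos (θ / 2) : ℂ)) θ := by
    intro θ
    have h1 : HasDerivAt (fun θ : ℝ => 2 * Real.sin (θ / 2)) (Real.cos (θ / 2)) θ := by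
      have := (HasDerivAt.comp (h₂ := Real.sin) (h := fun θ : ℝ => θ / 2) θ
        (Real.hasDerivAt_sin (θ / 2)) ((hasDerivAt_id θ).div_const 2)).const_mul 2
      exact this.congr_deriv (by ring)
    have h2 := HasDerivAt.scomp θ (H_deriv hμre (ρ / 2) a (2 * Real.sin (θ / 2))) h1
    exact h2.congr_deriv (by rw [lam_eq, ← hμ, Complex.real_smul, mul_comm])
  have hcpos : ∀ θ : ℝ, θ ∈ uIcc 0 (Real.pi / 2) → Real.cos (θ / 2) ≠ 0 ∧ 0 ≤ θ ∧
      θ ≤ Real.pi / 2 := by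
    intro θ hθ
    rw [uIcc_of_le (by linarith)] at hθ
    have := cos_half hθ.1 hθ.2
    refine ⟨?_, hθ.1, hθ.2⟩
    intro h
    rw [h] at this
    norm_num at this
  have hk' : ContinuousOn (fun θ : ℝ => ((kk' θ : ℝ) : ℂ)) (uIcc 0 (Real.pi / 2)) := by
    refine Complex.continuous_ofReal.comp_continuousOn ?_
    unfold kk'
    refine ContinuousOn.div (by fun_prop) (by fun_prop) fun θ hθ => pow_ne_zero 2 (hcpos θ hθ).1
  have h := intervalIntegral.integral_mul_deriv_eq_deriv_mul (a := 0) (b := Real.pi / 2)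
    (u := fun θ : ℝ => ((kk θ : ℝ) : ℂ)) (u' := fun θ : ℝ => ((kk' θ : ℝ) : ℂ))
    (v := fun θ : ℝ => H μ (ρ / 2) a (2 * Real.sin (θ / 2)))
    (v' := fun θ : ℝ => lam ε ρ θ ^ a * (Real.cos (θ / 2) : ℂ))
    (fun θ hθ => (kk_deriv (hcpos θ hθ).1).ofReal_comp) (fun θ _ => hG θ)
    hk'.intervalIntegrable
    (((lam_pow_cont hε ρ a).mul (by fun_prop)).intervalIntegrable _ _)
  have e0 : kk (Real.pi / 2) = 0 := by unfold kk; rw [Real.cos_pi_div_two, zero_div]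
  have e1 : H μ (ρ / 2) a (2 * Real.sin (0 / 2)) = 0 := by
    rw [zero_div, Real.sin_zero, mul_zero]
    unfold H
    exact intervalIntegral.integral_same
  simp only [e0, e1, Complex.ofReal_zero, zero_mul, mul_zero, sub_self, zero_sub] at h
  have e2 : (∫ θ in (0 : ℝ)..(Real.pi / 2), (Real.cos θ : ℂ) * lam ε ρ θ ^ a) =
      ∫ θ in (0 : ℝ)..(Real.pi / 2), ((kk θ : ℝ) : ℂ) * (lam ε ρ θ ^ a *
        (Real.cos (θ / 2) : ℂ)) := by
    refine intervalIntegral.integral_congr fun θ hθ => ?_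
    have h3 := (hcpos θ hθ).1
    have h4 : Real.cos θ = kk θ * Real.cos (θ / 2) := by
      unfold kk
      field_simp
    rw [h4]
    push_cast
    ring
  rw [← ha, e2, h, norm_neg]
  have hb : ∀ θ ∈ uIoc 0 (Real.pi / 2), ‖((kk' θ : ℝ) : ℂ) *
      H μ (ρ / 2) a (2 * Real.sin (θ / 2))‖ ≤ 3 * (2 * C * gro y) := by
    intro θ hθ
    have h5 := hcpos θ (uIoc_subset_uIcc hθ)
    rw [norm_mul, Complex.norm_real, Real.norm_eq_abs, ha]
    refine mul_le_mul (kk'_bound h5.2.1 h5.2.2) (H_bound hC0 hC hμre (by linarith) hy ?_)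
      (norm_nonneg _) (by norm_num)
    have : 0 ≤ Real.sin (θ / 2) := Real.sin_nonneg_of_nonneg_of_le_pi (by linarith) (by linarith)
    linarith
  have h6 := intervalIntegral.norm_integral_le_of_norm_le_const hb
  rw [sub_zero, abs_of_pos (by linarith)] at h6
  refine h6.trans ?_
  have h7 : 0 ≤ C * gro y := mul_nonneg hC0.le (gro_nonneg y)
  have h8 : Real.pi ≤ 4 := Real.pi_le_four
  nlinarith

private theorem step3 {ε : ℝ} (hε : 0 < ε) {ρ : ℝ} (hρ : 1 / 2 ≤ ρ) (y : ℝ) :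
    ‖∫ θ in (Real.pi / 2)..Real.pi, (Real.cos θ : ℂ) * lam ε ρ θ ^ (-1 / 2 + (y : ℂ) * I)‖ ≤
      2 * gro y := by
  have hpi := Real.pi_pos
  have hb : ∀ θ ∈ uIoc (Real.pi / 2) Real.pi, ‖(Real.cos θ : ℂ) *
      lam ε ρ θ ^ (-1 / 2 + (y : ℂ) * I)‖ ≤ gro y := by
    intro θ hθ
    rw [uIoc_of_le (by linarith)] at hθ
    have h1 : Real.cos θ ≤ 0 :=
      Real.cos_nonpos_of_pi_div_two_le_of_le hθ.1.le (by linarith [hθ.2])
    have h2 : 1 ≤ ‖lam ε ρ θ‖ := by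
      refine le_trans ?_ (Complex.abs_im_le_norm _)
      rw [lam_im, abs_neg]
      refine le_trans ?_ (le_abs_self _)
      nlinarith
    have h3 := norm_cpow_le (z := lam ε ρ θ) (by rw [lam_re]; exact hε)
      (a := -1 / 2 + (y : ℂ) * I) (r := -1 / 2) (y := y) (by simp) (by simp)
    have h4 : ‖lam ε ρ θ‖ ^ (-1 / 2 : ℝ) ≤ 1 :=
      Real.rpow_le_one_of_one_le_of_nonpos h2 (by norm_num)
    rw [norm_mul, Complex.norm_real, Real.norm_eq_abs]
    calc |Real.cos θ| * ‖lam ε ρ θ ^ (-1 / 2 + (y : ℂ) * I)‖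
        ≤ 1 * (1 * Real.exp (4 * |y|)) := by
          refine mul_le_mul (Real.abs_cos_le_one _) (h3.trans ?_) (norm_nonneg _) (by norm_num)
          exact mul_le_mul_of_nonneg_right h4 (Real.exp_pos _).le
      _ ≤ gro y := by rw [one_mul, one_mul]; exact exp_le_gro
  have h6 := intervalIntegral.norm_integral_le_of_norm_le_const hb
  rw [abs_of_pos (by linarith)] at h6
  refine h6.trans ?_
  have h8 : Real.pi ≤ 4 := Real.pi_le_four
  nlinarith [gro_nonneg y]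

/-- The bound for the one dimensional integral. -/
private theorem W_bound {C : ℝ} (hC0 : 0 < C)
    (hC : ∀ (μ : ℂ) (y V : ℝ), 0 < μ.re → y ≠ 0 → 0 ≤ V →
    ‖∫ v in (0 : ℝ)..V, (μ - I * ((v ^ 2 : ℝ) : ℂ)) ^ (-1 / 2 + (y : ℂ) * I)‖ ≤ C * gro y)
    {ε : ℝ} (hε : 0 < ε) {ρ : ℝ} (hρ : 1 / 2 ≤ ρ) {y : ℝ} (hy : y ≠ 0) :
    ‖∫ θ in (0 : ℝ)..Real.pi, ((Real.sin θ ^ 2 : ℝ) : ℂ) *
      lam ε ρ θ ^ (-3 / 2 + (y : ℂ) * I)‖ ≤ 4 * (12 * C + 2) * gro y := by
  have h1 := step1 hε ρ (-1 / 2 + (y : ℂ) * I)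
  rw [show (-1 / 2 + (y : ℂ) * I - 1) = -3 / 2 + (y : ℂ) * I by ring] at h1
  have hint : ∀ s t : ℝ, IntervalIntegrable
      (fun θ : ℝ => (Real.cos θ : ℂ) * lam ε ρ θ ^ (-1 / 2 + (y : ℂ) * I)) volume s t :=
    fun s t => ((Complex.continuous_ofReal.comp Real.continuous_cos).mul
      (lam_pow_cont hε ρ _)).intervalIntegrable _ _
  rw [← intervalIntegral.integral_add_adjacent_intervals (hint 0 (Real.pi / 2))
    (hint (Real.pi / 2) Real.pi)] at h1
  have h2 := congrArg norm h1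
  rw [norm_mul, norm_neg] at h2
  have h3 : ‖(∫ θ in (0 : ℝ)..(Real.pi / 2), (Real.cos θ : ℂ) *
      lam ε ρ θ ^ (-1 / 2 + (y : ℂ) * I)) + ∫ θ in (Real.pi / 2)..Real.pi, (Real.cos θ : ℂ) *
      lam ε ρ θ ^ (-1 / 2 + (y : ℂ) * I)‖ ≤ 12 * C * gro y + 2 * gro y :=
    (norm_add_le _ _).trans (add_le_add (step2 hC0 hC hε hρ hy) (step3 hε hρ y))
  rw [← h2] at h3
  have h4 : 1 / 4 ≤ ‖(-1 / 2 + (y : ℂ) * I) * (-I * (ρ : ℂ))‖ := by
    rw [norm_mul, norm_mul, norm_neg, Complex.norm_I, one_mul, Complex.norm_real,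
      Real.norm_of_nonneg (by linarith)]
    have h5 : 1 / 2 ≤ ‖(-1 / 2 + (y : ℂ) * I)‖ := by
      refine le_trans ?_ (Complex.abs_re_le_norm _)
      have : (-1 / 2 + (y : ℂ) * I).re = -1 / 2 := by simp
      rw [this]
      norm_num
    nlinarith
  have h6 := mul_le_mul_of_nonneg_right h4 (norm_nonneg
    (∫ θ in (0 : ℝ)..Real.pi, ((Real.sin θ ^ 2 : ℝ) : ℂ) * lam ε ρ θ ^ (-3 / 2 + (y : ℂ) * I)))
  linarith

end Pool.Agent.SPI.KB4x

namespace Pool.Agent.SPI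

open Pool.Agent.QWL (X)
open Complex (I)
open KB4x

theorem thm_KB4 (hZon4 : St_Zon4) (hOsc : St_Osc) : St_KB4 := by
  obtain ⟨C, hC0, hC⟩ := hOsc
  have hm : (0 : ℝ) ≤ ((volume : Measure (X 4)).toSphere).real univ := measureReal_nonneg
  refine ⟨3 * ((volume : Measure (X 4)).toSphere).real univ + 16 * (4 * (12 * C + 2)),
    by positivity, ?_⟩
  intro x ε σ y hε hσ hy
  have hg := gro_nonneg y
  have hexp' : -((((((4 : ℕ) : ℝ) - 1) / 2 : ℝ) : ℂ) - (y : ℂ) * I) = -3 / 2 + (y : ℂ) * I := by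
    push_cast
    ring
  unfold Jf
  rw [hexp']
  rcases lt_or_ge ‖x‖ (1 / 2) with hx | hx
  · -- small ρ
    have hb : ∀ w : Metric.sphere (0 : X 4) 1,
        ‖((ε : ℂ) - I * ((σ + inner ℝ x (w : X 4) : ℝ) : ℂ)) ^ (-3 / 2 + (y : ℂ) * I)‖ ≤
          3 * gro y := by
      intro w
      have hw : ‖(w : X 4)‖ = 1 := by
        have := w.2
        rwa [mem_sphere_zero_iff_norm] at this
      have h1 : |inner ℝ x (w : X 4)| < 1 / 2 := by
        have := abs_real_inner_le_norm x (w : X 4)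
        rw [hw, mul_one] at this
        linarith
      have h1' := abs_lt.1 h1
      have h2 : 1 / 2 ≤ |σ + inner ℝ x (w : X 4)| := by
        rcases hσ with rfl | rfl
        · refine le_trans ?_ (le_abs_self _)
          linarith
        · refine le_trans ?_ (neg_le_abs _)
          linarith
      have hre : ((ε : ℂ) - I * ((σ + inner ℝ x (w : X 4) : ℝ) : ℂ)).re = ε := by simp
      have him : ((ε : ℂ) - I * ((σ + inner ℝ x (w : X 4) : ℝ) : ℂ)).im =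
          -(σ + inner ℝ x (w : X 4)) := by simp
      have h3 : 1 / 2 ≤ ‖(ε : ℂ) - I * ((σ + inner ℝ x (w : X 4) : ℝ) : ℂ)‖ := by
        refine le_trans h2 ?_
        have := Complex.abs_im_le_norm ((ε : ℂ) - I * ((σ + inner ℝ x (w : X 4) : ℝ) : ℂ))
        rwa [him, abs_neg] at this
      have h4 := norm_cpow_le (z := (ε : ℂ) - I * ((σ + inner ℝ x (w : X 4) : ℝ) : ℂ))
        (by rw [hre]; exact hε) (a := -3 / 2 + (y : ℂ) * I) (r := -3 / 2) (y := y)
        (by simp) (by simp)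
      refine h4.trans ?_
      have h5 : ‖(ε : ℂ) - I * ((σ + inner ℝ x (w : X 4) : ℝ) : ℂ)‖ ^ (-3 / 2 : ℝ) ≤
          (1 / 2 : ℝ) ^ (-3 / 2 : ℝ) :=
        Real.rpow_le_rpow_of_nonpos (by norm_num) h3 (by norm_num)
      have h6 : (1 / 2 : ℝ) ^ (-3 / 2 : ℝ) ≤ 3 := by
        rw [show (1 / 2 : ℝ) = 2⁻¹ by norm_num, Real.inv_rpow (by norm_num), ← Real.rpow_neg
          (by norm_num), show (-(-3 / 2) : ℝ) = 3 * (1 / 2) by norm_num,
          Real.rpow_mul (by norm_num), ← Real.sqrt_eq_rpow, Real.sqrt_le_left (by norm_num)]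
        rw [show (3 : ℝ) = ((3 : ℕ) : ℝ) by norm_num, Real.rpow_natCast]
        norm_num
      exact mul_le_mul (h5.trans h6) exp_le_gro (Real.exp_pos _).le (by norm_num)
    have h7 := norm_integral_le_of_norm_le_const (μ := (volume : Measure (X 4)).toSphere)
      (Eventually.of_forall hb)
    refine h7.trans ?_
    have : 0 ≤ 16 * (4 * (12 * C + 2)) * gro y := by positivity
    nlinarith
  · -- large ρ
    have hx0 : x ≠ 0 := by
      rintro rfl
      rw [norm_zero] at hx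
      norm_num at hx
    have hcont : Continuous (fun s : ℝ => ((ε : ℂ) - I * ((σ + s : ℝ) : ℂ)) ^
        (-3 / 2 + (y : ℂ) * I)) := by
      refine Continuous.cpow (by fun_prop) continuous_const fun v => Or.inl ?_
      simpa using hε
    have hZ := hZon4 x hx0 _ hcont
    rw [hZ]
    have key : ‖∫ θ in (0 : ℝ)..Real.pi, ((Real.sin θ ^ 2 : ℝ) : ℂ) *
        ((ε : ℂ) - I * ((σ + ‖x‖ * Real.cos θ : ℝ) : ℂ)) ^ (-3 / 2 + (y : ℂ) * I)‖ ≤
        4 * (12 * C + 2) * gro y := by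
      rcases hσ with rfl | rfl
      · have h1 := intervalIntegral.integral_comp_sub_left (a := 0) (b := Real.pi)
          (fun θ : ℝ => ((Real.sin θ ^ 2 : ℝ) : ℂ) *
            ((ε : ℂ) - I * ((1 + ‖x‖ * Real.cos θ : ℝ) : ℂ)) ^ (-3 / 2 + (y : ℂ) * I)) Real.pi
        rw [sub_zero, sub_self] at h1
        rw [← h1]
        have h2 := W_bound hC0 hC hε hx hy
        refine le_trans (le_of_eq ?_) h2
        congr 1
        refine intervalIntegral.integral_congr fun θ _ => ?_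
        simp only [Real.sin_pi_sub, Real.cos_pi_sub, lam]
        congr 4
        push_cast
        ring
      · have h2 := W_bound hC0 hC hε hx (neg_ne_zero.2 hy)
        rw [gro_neg] at h2
        refine le_trans (le_of_eq ?_) h2
        rw [← RCLike.norm_conj (∫ θ in (0 : ℝ)..Real.pi, ((Real.sin θ ^ 2 : ℝ) : ℂ) *
          ((ε : ℂ) - I * ((-1 + ‖x‖ * Real.cos θ : ℝ) : ℂ)) ^ (-3 / 2 + (y : ℂ) * I)),
          ← intervalIntegral.intervalIntegral_conj]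
        congr 1
        refine intervalIntegral.integral_congr fun θ _ => ?_
        simp only [map_mul, Complex.conj_ofReal]
        congr 1
        have hl : (lam ε ‖x‖ θ).arg ≠ Real.pi :=
          (Complex.mem_slitPlane_iff_arg.1 (lam_slit hε _ _)).1
        have e : (ε : ℂ) - I * ((-1 + ‖x‖ * Real.cos θ : ℝ) : ℂ) =
            (starRingEnd ℂ) (lam ε ‖x‖ θ) := by
          unfold lam
          simp only [map_sub, map_mul, Complex.conj_ofReal, Complex.conj_I]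
          push_cast
          ring
        rw [e, Complex.conj_cpow _ _ hl, Complex.conj_conj]
        congr 1
        simp only [map_add, map_mul, Complex.conj_ofReal, Complex.conj_I, map_div₀, map_neg,
          map_ofNat, Complex.ofReal_neg]
        ring
    rw [norm_mul]
    have h9 : ‖(4 * Real.pi : ℂ)‖ ≤ 16 := by
      rw [norm_mul, Complex.norm_real, Real.norm_of_nonneg Real.pi_pos.le]
      have : ‖(4 : ℂ)‖ = 4 := by simp
      rw [this]
      linarith [Real.pi_le_four]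
    have h10 := mul_le_mul h9 key (norm_nonneg _) (by norm_num)
    refine h10.trans ?_
    have : 0 ≤ 3 * ((volume : Measure (X 4)).toSphere).real univ * gro y := by positivity
    nlinarith

end Pool.Agent.SPI
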