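import Pool.Agent.SPI.St

/-!
# SPI, module KB5: kernel bound in dimension five
-/

set_option autoImplicit false

open MeasureTheory Filter Topology Set
open scoped ENNReal NNReal RealInnerProductSpace ContDiff

namespace Pool.Agent.SPI

open Pool.Agent.QWL (X IsTest ft hs HD sc HN mult cosP sinP dcosP IsSoln IsMaxSoln Scatters)

namespace KB5x

/-- the norm of a complex power with a base in the right half plane -/
theorem norm_cpow_le {z c : ℂ} (hz : 0 < z.re) : ‖z ^ c‖ ≤ ‖z‖ ^ c.re * Real.exp (2 * |c.im|) := by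
  have hz0 : z ≠ 0 := by
    rintro rfl
    simp at hz
  rw [Complex.norm_cpow_of_ne_zero hz0, div_eq_mul_inv, ← Real.exp_neg]
  have h1 : |Complex.arg z| ≤ Real.pi / 2 := Complex.abs_arg_le_pi_div_two_iff.mpr hz.le
  have h2 : Real.pi ≤ 4 := Real.pi_le_four
  have h3 : -(Complex.arg z * c.im) ≤ 2 * |c.im| := by
    calc -(Complex.arg z * c.im) ≤ |Complex.arg z * c.im| := neg_le_abs _
      _ = |Complex.arg z| * |c.im| := abs_mul _ _
      _ ≤ 2 * |c.im| := mul_le_mul_of_nonneg_right (by linarith) (abs_nonneg _)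
  exact mul_le_mul_of_nonneg_left (Real.exp_le_exp.mpr h3) (by positivity)

/-- the base -/
noncomputable def lam (ε σ t : ℝ) : ℂ := (ε : ℂ) - Complex.I * ((σ + t : ℝ) : ℂ)

theorem lam_re (ε σ t : ℝ) : (lam ε σ t).re = ε := by
  simp [lam]

theorem lam_im (ε σ t : ℝ) : (lam ε σ t).im = -(σ + t) := by
  simp [lam]

theorem lam_slit {ε : ℝ} (hε : 0 < ε) (σ t : ℝ) : lam ε σ t ∈ Complex.slitPlane :=
  Or.inl (by rw [lam_re]; exact hε)

/-- the derivative of a power of the base -/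
theorem hasDerivAt_lam {ε : ℝ} (hε : 0 < ε) (σ ρ s : ℝ) (c : ℂ) :
    HasDerivAt (fun s : ℝ => lam ε σ (ρ * s) ^ c)
      (c * lam ε σ (ρ * s) ^ (c - 1) * (-(Complex.I * ρ))) s := by
  have h1 : HasDerivAt (fun z : ℂ => (ε : ℂ) - Complex.I * ((σ : ℂ) + (ρ : ℂ) * z))
      (-(Complex.I * ρ)) (s : ℂ) := by
    have h2 : HasDerivAt (fun z : ℂ => (σ : ℂ) + (ρ : ℂ) * z) (ρ : ℂ) (s : ℂ) := by
      simpa using ((hasDerivAt_id (s : ℂ)).const_mul (ρ : ℂ)).const_add (σ : ℂ)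
    have h3 := (h2.const_mul Complex.I).const_sub (ε : ℂ)
    exact h3
  have h4 : (ε : ℂ) - Complex.I * ((σ : ℂ) + (ρ : ℂ) * (s : ℂ)) ∈ Complex.slitPlane := by
    have := lam_slit hε σ (ρ * s)
    unfold lam at this
    push_cast at this
    exact this
  have h5 := (h1.cpow_const (c := c) h4).comp_ofReal
  have e1 : (fun s : ℝ => lam ε σ (ρ * s) ^ c) =
      fun y : ℝ => ((ε : ℂ) - Complex.I * ((σ : ℂ) + (ρ : ℂ) * (y : ℂ))) ^ c := by
    funext s
    unfold lam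
    push_cast
    rfl
  have e2 : lam ε σ (ρ * s) = (ε : ℂ) - Complex.I * ((σ : ℂ) + (ρ : ℂ) * (s : ℂ)) := by
    unfold lam
    push_cast
    rfl
  rw [e1, e2]
  exact h5

theorem alg (a b k L : ℂ) (ha : a ≠ 0) (hk : k ≠ 0) :
    a * L * k * (a * k * (b * k))⁻¹ = L * (b * k)⁻¹ := by
  have h : a * k ≠ 0 := mul_ne_zero ha hk
  rw [mul_inv (a * k)]
  calc a * L * k * ((a * k)⁻¹ * (b * k)⁻¹) = (a * k) * (a * k)⁻¹ * (L * (b * k)⁻¹) := by ring
    _ = L * (b * k)⁻¹ := by rw [mul_inv_cancel₀ h, one_mul]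

/-- the zonal integral -/
theorem zon {ε : ℝ} (hε : 0 < ε) (σ ρ y : ℝ) (hρ : 1 / 2 ≤ ρ) (hy : y ≠ 0) :
    ‖∫ s in (-1 : ℝ)..1, ((1 - s ^ 2 : ℝ) : ℂ) *
      lam ε σ (ρ * s) ^ (-((2 : ℂ) - (y : ℂ) * Complex.I))‖ ≤ 32 * (Real.exp (2 * |y|) / |y|) := by
  have hρ0 : (ρ : ℂ) ≠ 0 := by
    exact_mod_cast (by linarith : ρ ≠ 0)
  have hy0 : (y : ℂ) * Complex.I ≠ 0 := mul_ne_zero (by exact_mod_cast hy) Complex.I_ne_zero
  have hy1 : (y : ℂ) * Complex.I - 1 ≠ 0 := by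
    intro h
    have := congrArg Complex.re h
    simp at this
  have hI : -(Complex.I * (ρ : ℂ)) ≠ 0 := neg_ne_zero.mpr (mul_ne_zero Complex.I_ne_zero hρ0)
  set P1 : ℝ → ℂ := fun s => lam ε σ (ρ * s) ^ ((y : ℂ) * Complex.I - 1) *
    (((y : ℂ) * Complex.I - 1) * (-(Complex.I * ρ)))⁻¹ with hP1
  set P2 : ℝ → ℂ := fun s => lam ε σ (ρ * s) ^ ((y : ℂ) * Complex.I) *
    (((y : ℂ) * Complex.I) * (-(Complex.I * ρ)) *
      (((y : ℂ) * Complex.I - 1) * (-(Complex.I * ρ))))⁻¹ with hP2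
  have d1 : ∀ s, HasDerivAt P1 (lam ε σ (ρ * s) ^ (-((2 : ℂ) - (y : ℂ) * Complex.I))) s := by
    intro s
    have h := (hasDerivAt_lam hε σ ρ s ((y : ℂ) * Complex.I - 1)).mul_const
      (((y : ℂ) * Complex.I - 1) * (-(Complex.I * ρ)))⁻¹
    have e : ((y : ℂ) * Complex.I - 1) * lam ε σ (ρ * s) ^ ((y : ℂ) * Complex.I - 1 - 1) *
        (-(Complex.I * ρ)) * (((y : ℂ) * Complex.I - 1) * (-(Complex.I * ρ)))⁻¹ =
        lam ε σ (ρ * s) ^ (-((2 : ℂ) - (y : ℂ) * Complex.I)) := by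
      have e3 : (y : ℂ) * Complex.I - 1 - 1 = -((2 : ℂ) - (y : ℂ) * Complex.I) := by ring
      rw [e3, mul_inv]
      field_simp
    rw [e] at h
    exact h
  have d2 : ∀ s, HasDerivAt P2 (P1 s) s := by
    intro s
    have h := (hasDerivAt_lam hε σ ρ s ((y : ℂ) * Complex.I)).mul_const
      (((y : ℂ) * Complex.I) * (-(Complex.I * ρ)) *
        (((y : ℂ) * Complex.I - 1) * (-(Complex.I * ρ))))⁻¹
    have e : (y : ℂ) * Complex.I * lam ε σ (ρ * s) ^ ((y : ℂ) * Complex.I - 1) *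
        (-(Complex.I * ρ)) * (((y : ℂ) * Complex.I) * (-(Complex.I * ρ)) *
          (((y : ℂ) * Complex.I - 1) * (-(Complex.I * ρ))))⁻¹ = P1 s :=
      alg _ _ _ _ hy0 hI
    rw [e] at h
    exact h
  have dG : ∀ s, HasDerivAt (fun s : ℝ => ((1 - s ^ 2 : ℝ) : ℂ) * P1 s + ((2 * s : ℝ) : ℂ) * P2 s)
      (((1 - s ^ 2 : ℝ) : ℂ) * lam ε σ (ρ * s) ^ (-((2 : ℂ) - (y : ℂ) * Complex.I)) +
        2 * P2 s) s := by
    intro s
    have h1 : HasDerivAt (fun s : ℝ => ((1 - s ^ 2 : ℝ) : ℂ)) ((-(2 * s) : ℝ) : ℂ) s := by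
      have : HasDerivAt (fun s : ℝ => 1 - s ^ 2) (-(2 * s)) s := by
        have := ((hasDerivAt_id s).pow 2).const_sub (1 : ℝ)
        simpa using this
      exact this.ofReal_comp
    have h2 : HasDerivAt (fun s : ℝ => ((2 * s : ℝ) : ℂ)) ((2 : ℝ) : ℂ) s := by
      have : HasDerivAt (fun s : ℝ => 2 * s) (2 : ℝ) s := by
        have := (hasDerivAt_id s).const_mul (2 : ℝ)
        simpa using this
      exact this.ofReal_comp
    have h3 := (h1.mul (d1 s)).add (h2.mul (d2 s))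
    have e : ((-(2 * s) : ℝ) : ℂ) * P1 s +
        ((1 - s ^ 2 : ℝ) : ℂ) * lam ε σ (ρ * s) ^ (-((2 : ℂ) - (y : ℂ) * Complex.I)) +
        (((2 : ℝ) : ℂ) * P2 s + ((2 * s : ℝ) : ℂ) * P1 s) =
        ((1 - s ^ 2 : ℝ) : ℂ) * lam ε σ (ρ * s) ^ (-((2 : ℂ) - (y : ℂ) * Complex.I)) +
          2 * P2 s := by
      push_cast
      ring
    rw [e] at h3
    exact h3
  have cP2 : Continuous P2 := continuous_iff_continuousAt.mpr fun s => (d2 s).continuousAt
  have cL : Continuous fun s : ℝ => lam ε σ (ρ * s) ^ (-((2 : ℂ) - (y : ℂ) * Complex.I)) :=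
    continuous_iff_continuousAt.mpr fun s =>
      (hasDerivAt_lam hε σ ρ s (-((2 : ℂ) - (y : ℂ) * Complex.I))).continuousAt
  have c1 : Continuous fun s : ℝ => ((1 - s ^ 2 : ℝ) : ℂ) *
      lam ε σ (ρ * s) ^ (-((2 : ℂ) - (y : ℂ) * Complex.I)) :=
    (Complex.continuous_ofReal.comp (by fun_prop)).mul cL
  have c2 : Continuous fun s : ℝ => 2 * P2 s := continuous_const.mul cP2
  have hint := intervalIntegral.integral_eq_sub_of_hasDerivAt (a := (-1 : ℝ)) (b := 1)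
    (fun s _ => dG s) ((c1.add c2).intervalIntegrable _ _)
  rw [intervalIntegral.integral_add (c1.intervalIntegrable _ _) (c2.intervalIntegrable _ _)] at hint
  have hB : ∀ s, ‖P2 s‖ ≤ 4 * (Real.exp (2 * |y|) / |y|) := by
    intro s
    have hy' : 0 < |y| := abs_pos.mpr hy
    have h1 : ‖lam ε σ (ρ * s) ^ ((y : ℂ) * Complex.I)‖ ≤ Real.exp (2 * |y|) := by
      have := norm_cpow_le (z := lam ε σ (ρ * s)) (c := (y : ℂ) * Complex.I)
        (by rw [lam_re]; exact hε)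
      simpa using this
    have h2 : ‖(y : ℂ) * Complex.I - 1‖ ≥ 1 := by
      have := Complex.abs_re_le_norm ((y : ℂ) * Complex.I - 1)
      simpa using this
    have h3 : ‖-(Complex.I * (ρ : ℂ))‖ = ρ := by
      rw [norm_neg, norm_mul, Complex.norm_I, one_mul, Complex.norm_real, Real.norm_eq_abs,
        abs_of_pos (by linarith)]
    have h4 : ‖(y : ℂ) * Complex.I‖ = |y| := by
      rw [norm_mul, Complex.norm_I, mul_one, Complex.norm_real, Real.norm_eq_abs]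
    have h5 : ‖P2 s‖ = ‖lam ε σ (ρ * s) ^ ((y : ℂ) * Complex.I)‖ *
        (|y| * ρ * (‖(y : ℂ) * Complex.I - 1‖ * ρ))⁻¹ := by
      rw [hP2]
      simp only [norm_mul, norm_inv]
      rw [← norm_mul (y : ℂ) Complex.I, h4, h3]
    rw [h5]
    have h6 : (|y| * ρ * (‖(y : ℂ) * Complex.I - 1‖ * ρ))⁻¹ ≤ 4 * (1 / |y|) := by
      have h7 : |y| / 4 ≤ |y| * ρ * (‖(y : ℂ) * Complex.I - 1‖ * ρ) := by
        have h9 : 1 / 2 ≤ ‖(y : ℂ) * Complex.I - 1‖ * ρ := by
          calc (1 / 2 : ℝ) = 1 * (1 / 2) := by ring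
            _ ≤ ‖(y : ℂ) * Complex.I - 1‖ * ρ := mul_le_mul h2 hρ (by norm_num) (norm_nonneg _)
        have h8 : 1 / 4 ≤ ρ * (‖(y : ℂ) * Complex.I - 1‖ * ρ) := by
          calc (1 / 4 : ℝ) = 1 / 2 * (1 / 2) := by ring
            _ ≤ ρ * (‖(y : ℂ) * Complex.I - 1‖ * ρ) :=
              mul_le_mul hρ h9 (by norm_num) (by linarith)
        calc |y| / 4 = |y| * (1 / 4) := by ring
          _ ≤ |y| * (ρ * (‖(y : ℂ) * Complex.I - 1‖ * ρ)) :=
            mul_le_mul_of_nonneg_left h8 hy'.le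
          _ = |y| * ρ * (‖(y : ℂ) * Complex.I - 1‖ * ρ) := by ring
      calc (|y| * ρ * (‖(y : ℂ) * Complex.I - 1‖ * ρ))⁻¹ ≤ (|y| / 4)⁻¹ :=
            inv_anti₀ (by positivity) h7
        _ = 4 * (1 / |y|) := by
            rw [inv_div]
            ring
    calc ‖lam ε σ (ρ * s) ^ ((y : ℂ) * Complex.I)‖ *
        (|y| * ρ * (‖(y : ℂ) * Complex.I - 1‖ * ρ))⁻¹ ≤ Real.exp (2 * |y|) * (4 * (1 / |y|)) :=
          mul_le_mul h1 h6 (by positivity) (by positivity)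
      _ = 4 * (Real.exp (2 * |y|) / |y|) := by ring
  set B := 4 * (Real.exp (2 * |y|) / |y|) with hBdef
  have hI2 : ‖∫ s in (-1 : ℝ)..1, 2 * P2 s‖ ≤ (2 * B) * |1 - (-1 : ℝ)| := by
    apply intervalIntegral.norm_integral_le_of_norm_le_const
    intro s _
    rw [norm_mul, Complex.norm_ofNat]
    exact mul_le_mul_of_nonneg_left (hB s) (by norm_num)
  have e : ∫ s in (-1 : ℝ)..1, ((1 - s ^ 2 : ℝ) : ℂ) *
      lam ε σ (ρ * s) ^ (-((2 : ℂ) - (y : ℂ) * Complex.I)) =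
      (2 * P2 1 + 2 * P2 (-1)) - ∫ s in (-1 : ℝ)..1, 2 * P2 s := by
    rw [← sub_eq_iff_eq_add.mpr hint.symm]
    push_cast
    ring
  rw [e]
  have h1 := hB 1
  have h2 := hB (-1)
  calc ‖(2 * P2 1 + 2 * P2 (-1)) - ∫ s in (-1 : ℝ)..1, 2 * P2 s‖
      ≤ ‖2 * P2 1 + 2 * P2 (-1)‖ + ‖∫ s in (-1 : ℝ)..1, 2 * P2 s‖ := norm_sub_le _ _
    _ ≤ (‖2 * P2 1‖ + ‖2 * P2 (-1)‖) + (2 * B) * |1 - (-1 : ℝ)| := by
        gcongr
        exact norm_add_le _ _
    _ ≤ (2 * B + 2 * B) + (2 * B) * |1 - (-1 : ℝ)| := by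
        have h3 : ‖2 * P2 1‖ ≤ 2 * B := by
          rw [norm_mul, Complex.norm_ofNat]
          linarith
        have h4 : ‖2 * P2 (-1)‖ ≤ 2 * B := by
          rw [norm_mul, Complex.norm_ofNat]
          linarith
        linarith
    _ = 32 * (Real.exp (2 * |y|) / |y|) := by
        rw [show |1 - (-1 : ℝ)| = 2 by norm_num, hBdef]
        ring

end KB5x

open KB5x in
/-- **KB5** kernel bound in dimension five -/
theorem thm_KB5 (hZon5 : St_Zon5) : St_KB5 := by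
  set M : ℝ := ((volume : Measure (X 5)).toSphere).real Set.univ with hM
  have hM0 : 0 ≤ M := measureReal_nonneg
  refine ⟨4 * M + 64 * Real.pi ^ 2, by positivity, ?_⟩
  intro x ε σ y hε hσ hy
  have hy' : 0 < |y| := abs_pos.mpr hy
  have ea : ((((((5 : ℕ) : ℝ) - 1) / 2 : ℝ) : ℂ) - (y : ℂ) * Complex.I) =
      (2 : ℂ) - (y : ℂ) * Complex.I := by
    norm_num
  rw [ea]
  have hJ : Jf ((2 : ℂ) - (y : ℂ) * Complex.I) ε σ x =
      ∫ w : Metric.sphere (0 : X 5) 1,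
        lam ε σ (inner ℝ x (w : X 5)) ^ (-((2 : ℂ) - (y : ℂ) * Complex.I))
        ∂((volume : Measure (X 5)).toSphere) := rfl
  have hexp : Real.exp (2 * |y|) ≤ Real.exp (4 * |y|) := Real.exp_le_exp.mpr (by linarith)
  have hg1 : Real.exp (2 * |y|) ≤ gro y := by
    unfold gro
    have : 0 ≤ 1 / |y| * Real.exp (4 * |y|) := by positivity
    nlinarith
  have hg2 : Real.exp (2 * |y|) / |y| ≤ gro y := by
    unfold gro
    have h1 : Real.exp (2 * |y|) / |y| ≤ Real.exp (4 * |y|) / |y| :=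
      div_le_div_of_nonneg_right hexp hy'.le
    have h2 : (1 + 1 / |y|) * Real.exp (4 * |y|) =
        Real.exp (4 * |y|) + Real.exp (4 * |y|) / |y| := by ring
    rw [h2]
    have := Real.exp_pos (4 * |y|)
    linarith
  have hg0 : 0 ≤ gro y := le_trans (Real.exp_pos _).le hg1
  by_cases hx : ‖x‖ < 1 / 2
  · have hb : ∀ w : Metric.sphere (0 : X 5) 1,
        ‖lam ε σ (inner ℝ x (w : X 5)) ^ (-((2 : ℂ) - (y : ℂ) * Complex.I))‖ ≤
          4 * Real.exp (2 * |y|) := by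
      intro w
      have h1 : |(inner ℝ x (w : X 5) : ℝ)| ≤ 1 / 2 := by
        have hw : ‖(w : X 5)‖ = 1 := by simpa using w.2
        have := abs_real_inner_le_norm x (w : X 5)
        rw [hw, mul_one] at this
        linarith
      have h2 : 1 / 2 ≤ ‖lam ε σ (inner ℝ x (w : X 5))‖ := by
        have h3 := Complex.abs_im_le_norm (lam ε σ (inner ℝ x (w : X 5)))
        rw [lam_im, abs_neg] at h3
        have h4 := abs_le.mp h1
        refine le_trans ?_ h3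
        rcases hσ with rfl | rfl
        · rw [le_abs]; left; linarith
        · rw [le_abs]; right; linarith
      have h5 := norm_cpow_le (z := lam ε σ (inner ℝ x (w : X 5)))
        (c := -((2 : ℂ) - (y : ℂ) * Complex.I)) (by rw [lam_re]; exact hε)
      have h6 : (-((2 : ℂ) - (y : ℂ) * Complex.I)).re = -2 := by simp
      have h7 : (-((2 : ℂ) - (y : ℂ) * Complex.I)).im = y := by simp
      rw [h6, h7] at h5
      refine le_trans h5 (mul_le_mul_of_nonneg_right ?_ (by positivity))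
      rw [Real.rpow_neg (norm_nonneg _)]
      have h8 : ‖lam ε σ (inner ℝ x (w : X 5))‖ ^ (2 : ℝ) =
          ‖lam ε σ (inner ℝ x (w : X 5))‖ ^ 2 := by
        exact_mod_cast Real.rpow_natCast _ 2
      rw [h8]
      calc (‖lam ε σ (inner ℝ x (w : X 5))‖ ^ 2)⁻¹ ≤ ((1 / 2 : ℝ) ^ 2)⁻¹ := by
            gcongr
        _ = 4 := by norm_num
    have h1 := norm_integral_le_of_norm_le_const
      (μ := (volume : Measure (X 5)).toSphere) (Filter.Eventually.of_forall hb)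
    rw [hJ]
    refine le_trans h1 ?_
    rw [← hM]
    have h3 : 4 * Real.exp (2 * |y|) * M ≤ 4 * M * gro y := by
      have : Real.exp (2 * |y|) * M ≤ gro y * M := mul_le_mul_of_nonneg_right hg1 hM0
      linarith
    have h4 : 0 ≤ 64 * Real.pi ^ 2 * gro y := by positivity
    linarith
  · push Not at hx
    have hx0 : x ≠ 0 := by
      rintro rfl
      rw [norm_zero] at hx
      linarith
    have hφ : Continuous fun t : ℝ => lam ε σ t ^ (-((2 : ℂ) - (y : ℂ) * Complex.I)) := by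
      refine continuous_iff_continuousAt.mpr fun t => ?_
      have h := (hasDerivAt_lam hε σ 1 t (-((2 : ℂ) - (y : ℂ) * Complex.I))).continuousAt
      simp only [one_mul] at h
      exact h
    have h1 := hZon5 x hx0 _ hφ
    rw [hJ, h1, norm_mul]
    have h2 := zon hε σ ‖x‖ y hx hy
    have h3 : ‖(2 * Real.pi ^ 2 : ℂ)‖ = 2 * Real.pi ^ 2 := by
      have : (2 * Real.pi ^ 2 : ℂ) = ((2 * Real.pi ^ 2 : ℝ) : ℂ) := by push_cast; rfl
      rw [this, Complex.norm_real, Real.norm_eq_abs, abs_of_nonneg (by positivity)]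
    rw [h3]
    calc 2 * Real.pi ^ 2 * ‖∫ s in (-1 : ℝ)..1, ((1 - s ^ 2 : ℝ) : ℂ) *
          lam ε σ (‖x‖ * s) ^ (-((2 : ℂ) - (y : ℂ) * Complex.I))‖
        ≤ 2 * Real.pi ^ 2 * (32 * (Real.exp (2 * |y|) / |y|)) :=
          mul_le_mul_of_nonneg_left h2 (by positivity)
      _ ≤ 2 * Real.pi ^ 2 * (32 * gro y) := by gcongr
      _ ≤ (4 * M + 64 * Real.pi ^ 2) * gro y := by
          have : 0 ≤ 4 * M * gro y := by positivity
          nlinarith

end Pool.Agent.SPI
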