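import Pool.Agent.SPI.St

set_option autoImplicit false

/-!
# SPI, KF: the kernel
-/

open MeasureTheory Filter Topology Set
open scoped ENNReal NNReal RealInnerProductSpace ContDiff

namespace Pool.Agent.SPI

open Pool.Agent.QWL (X)

namespace KFx

theorem intb {s b : ℝ} (hs : -1 < s) (hb : 0 < b) :
    IntegrableOn (fun t : ℝ => t ^ s * Real.exp (-(b * t))) (Ioi 0) := by
  have h := integrableOn_rpow_mul_exp_neg_mul_rpow (p := 1) (s := s) (b := b) hs zero_lt_one hb
  refine h.congr_fun (fun t ht => ?_) measurableSet_Ioi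
  simp only [Real.rpow_one, neg_mul]

theorem norm_F {a l : ℂ} {t : ℝ} (ht : 0 < t) :
    ‖(t : ℂ) ^ (a - 1) * Complex.exp (-(l * t))‖ = t ^ (a.re - 1) * Real.exp (-(l.re * t)) := by
  rw [norm_mul, Complex.norm_cpow_eq_rpow_re_of_pos ht, Complex.norm_exp]
  simp

/-- the Gamma integral with a complex parameter -/
theorem gam {a l : ℂ} (ha : 0 < a.re) (hl : 0 < l.re) :
    ∫ t : ℝ in Ioi 0, (t : ℂ) ^ (a - 1) * Complex.exp (-(l * t)) = l ^ (-a) * Complex.Gamma a := by
  obtain ⟨U, hU⟩ : ∃ U : Set ℂ, U = {l : ℂ | 0 < l.re} := ⟨_, rfl⟩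
  have hUo : IsOpen U := by
    rw [hU]
    exact isOpen_lt continuous_const Complex.continuous_re
  have hUc : IsPreconnected U := by
    rw [hU]
    exact (convex_halfSpace_re_gt 0).isPreconnected
  have hmeas : ∀ l : ℂ, AEStronglyMeasurable
      (fun t : ℝ => (t : ℂ) ^ (a - 1) * Complex.exp (-(l * t))) (volume.restrict (Ioi 0)) := by
    intro l
    refine ContinuousOn.aestronglyMeasurable ?_ measurableSet_Ioi
    refine ContinuousOn.mul ?_ (by fun_prop)
    intro t ht
    exact (Complex.continuousAt_ofReal_cpow_const t (a - 1)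
      (Or.inr (ne_of_gt ht))).continuousWithinAt
  have hint : ∀ l : ℂ, 0 < l.re → IntegrableOn
      (fun t : ℝ => (t : ℂ) ^ (a - 1) * Complex.exp (-(l * t))) (Ioi 0) := by
    intro l hl
    refine Integrable.mono' (intb (s := a.re - 1) (b := l.re) (by linarith) hl) (hmeas l) ?_
    rw [ae_restrict_iff' measurableSet_Ioi]
    exact ae_of_all _ fun t ht => (norm_F ht).le
  have hf : DifferentiableOn ℂ
      (fun l : ℂ => ∫ t : ℝ in Ioi 0, (t : ℂ) ^ (a - 1) * Complex.exp (-(l * t))) U := by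
    intro l₀ hl₀
    rw [hU] at hl₀
    have hl₀' : 0 < l₀.re := hl₀
    refine DifferentiableAt.differentiableWithinAt ?_
    have h := hasDerivAt_integral_of_dominated_loc_of_deriv_le
      (μ := volume.restrict (Ioi (0 : ℝ))) (𝕜 := ℂ)
      (F := fun (l : ℂ) (t : ℝ) => (t : ℂ) ^ (a - 1) * Complex.exp (-(l * t)))
      (F' := fun (l : ℂ) (t : ℝ) => (t : ℂ) ^ (a - 1) * (Complex.exp (-(l * t)) * (-t)))
      (x₀ := l₀) (s := Metric.ball l₀ (l₀.re / 2))
      (bound := fun t : ℝ => t ^ a.re * Real.exp (-(l₀.re / 2 * t)))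
      (Metric.ball_mem_nhds _ (by linarith)) (Eventually.of_forall hmeas) (hint l₀ hl₀') ?_ ?_
      (intb (by linarith) (by linarith)) ?_
    · exact h.2.differentiableAt
    · have h1 := (hmeas l₀).mul (f := fun t : ℝ => (t : ℂ) ^ (a - 1) * Complex.exp (-(l₀ * t)))
        (g := fun t : ℝ => (-(t : ℂ))) (by fun_prop)
      refine h1.congr (ae_of_all _ fun t => ?_)
      simp only [Pi.mul_apply]
      ring
    · rw [ae_restrict_iff' measurableSet_Ioi]
      refine ae_of_all _ fun t ht l hl => ?_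
      have ht' : (0 : ℝ) < t := ht
      have h1 : (t : ℂ) ^ (a - 1) * (Complex.exp (-(l * t)) * (-t)) =
          ((t : ℂ) ^ (a - 1) * Complex.exp (-(l * t))) * (-t) := by ring
      rw [h1, norm_mul, norm_F ht', norm_neg, Complex.norm_real, Real.norm_of_nonneg ht'.le]
      have h2 : t ^ (a.re - 1) * Real.exp (-(l.re * t)) * t =
          t ^ a.re * Real.exp (-(l.re * t)) := by
        have h3 : t ^ a.re = t ^ (a.re - 1) * t := by
          nth_rewrite 3 [← Real.rpow_one t]
          rw [← Real.rpow_add ht']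
          congr 1
          ring
        rw [h3]
        ring
      rw [h2]
      refine mul_le_mul_of_nonneg_left ?_ (Real.rpow_nonneg ht'.le _)
      refine Real.exp_le_exp.2 ?_
      have h4 : |l.re - l₀.re| < l₀.re / 2 := by
        have h5 := Complex.abs_re_le_norm (l - l₀)
        rw [Complex.sub_re] at h5
        refine lt_of_le_of_lt h5 ?_
        rw [← dist_eq_norm]
        exact hl
      have h6 : l₀.re / 2 ≤ l.re := by
        have := (abs_lt.1 h4).1
        linarith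
      have := mul_le_mul_of_nonneg_right h6 ht'.le
      linarith
    · refine ae_of_all _ fun t l _ => ?_
      refine HasDerivAt.const_mul _ ?_
      refine HasDerivAt.cexp ?_
      have h1 : HasDerivAt (fun l : ℂ => -(l * (t : ℂ))) (-(1 * (t : ℂ))) l :=
        ((hasDerivAt_id l).mul_const (t : ℂ)).neg
      rw [one_mul] at h1
      exact h1
  have hg : DifferentiableOn ℂ (fun l : ℂ => l ^ (-a) * Complex.Gamma a) U := by
    intro l₀ hl₀
    rw [hU] at hl₀
    refine DifferentiableAt.differentiableWithinAt ?_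
    refine DifferentiableAt.mul_const ?_ _
    exact (differentiableAt_id).cpow_const (Or.inl hl₀)
  have h1U : (1 : ℂ) ∈ U := by
    rw [hU]
    simp
  have hfreq : ∃ᶠ z in 𝓝[≠] (1 : ℂ),
      (∫ t : ℝ in Ioi 0, (t : ℂ) ^ (a - 1) * Complex.exp (-(z * t))) =
        z ^ (-a) * Complex.Gamma a := by
    have ht : Tendsto (fun r : ℝ => (r : ℂ)) (𝓝[≠] (1 : ℝ)) (𝓝[≠] (1 : ℂ)) := by
      refine tendsto_nhdsWithin_iff.2 ⟨?_, ?_⟩
      · have : Tendsto (fun r : ℝ => (r : ℂ)) (𝓝 1) (𝓝 ((1 : ℝ) : ℂ)) :=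
          Complex.continuous_ofReal.tendsto 1
        rw [Complex.ofReal_one] at this
        exact this.mono_left nhdsWithin_le_nhds
      · filter_upwards [self_mem_nhdsWithin] with r hr
        intro h
        apply hr
        have h' : (r : ℂ) = 1 := h
        exact_mod_cast h'
    refine ht.frequently ?_
    refine Eventually.frequently ?_
    have h2 : ∀ᶠ r : ℝ in 𝓝[≠] (1 : ℝ), 0 < r :=
      nhdsWithin_le_nhds (lt_mem_nhds zero_lt_one)
    filter_upwards [h2] with r hr
    rw [Complex.integral_cpow_mul_exp_neg_mul_Ioi ha hr, one_div, Complex.inv_cpow,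
      Complex.cpow_neg]
    rw [Complex.arg_ofReal_of_nonneg hr.le]
    exact Real.pi_pos.ne
  have hE := (hf.analyticOnNhd hUo).eqOn_of_preconnected_of_frequently_eq (hg.analyticOnNhd hUo)
    hUc h1U hfreq
  exact hE (by rw [hU]; exact hl)

/-- polar coordinates -/
theorem polar {F : Type} [NormedAddCommGroup F] [NormedSpace ℝ F] [FiniteDimensional ℝ F]
    [MeasurableSpace F] [BorelSpace F] [Nontrivial F] (μ : Measure F) [μ.IsAddHaarMeasure]
    {h : F → ℂ} (hh : Integrable h μ) :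
    ∫ x, h x ∂μ = ∫ w : Metric.sphere (0 : F) 1, (∫ r in Ioi (0 : ℝ),
      ((r ^ (Module.finrank ℝ F - 1) : ℝ) : ℂ) * h (r • (w : F))) ∂μ.toSphere := by
  have h1 : ∫ x, h x ∂μ = ∫ x : ({0}ᶜ : Set F), h x ∂(μ.comap (↑)) := by
    rw [integral_subtype_comap (measurableSet_singleton _).compl h, restrict_compl_singleton]
  have h3 : ∀ x : ({0}ᶜ : Set F),
      h (((homeomorphUnitSphereProd F x).2 : ℝ) • ((homeomorphUnitSphereProd F x).1 : F)) = h x := by
    intro x
    congr 1
    have hx : ‖(x : F)‖ ≠ 0 := norm_ne_zero_iff.2 x.2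
    simp [smul_smul, mul_inv_cancel₀ hx]
  have h2 := μ.measurePreserving_homeomorphUnitSphereProd.integral_comp
    (Homeomorph.measurableEmbedding _)
    (fun z : Metric.sphere (0 : F) 1 × Ioi (0 : ℝ) => h ((z.2 : ℝ) • (z.1 : F)))
  simp only [h3] at h2
  have h4 : Integrable (fun z : Metric.sphere (0 : F) 1 × Ioi (0 : ℝ) => h ((z.2 : ℝ) • (z.1 : F)))
      (μ.toSphere.prod (Measure.volumeIoiPow (Module.finrank ℝ F - 1))) := by
    rw [← μ.measurePreserving_homeomorphUnitSphereProd.integrable_comp_emb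
      (Homeomorph.measurableEmbedding _)]
    have h5 : Integrable (fun x : ({0}ᶜ : Set F) => h x) (μ.comap (↑)) := by
      have h6 := (integrableOn_iff_comap_subtypeVal (μ := μ) (f := h)
        (measurableSet_singleton (0 : F)).compl).1 hh.integrableOn
      exact h6
    refine h5.congr (ae_of_all _ fun x => ?_)
    exact (h3 x).symm
  rw [h1, h2, integral_prod _ h4]
  refine integral_congr_ae (ae_of_all _ fun w => ?_)
  show ∫ r : Ioi (0 : ℝ), h ((r : ℝ) • (w : F)) ∂(Measure.volumeIoiPow (Module.finrank ℝ F - 1)) = _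
  rw [Measure.volumeIoiPow, integral_withDensity_eq_integral_toReal_smul]
  · have h7 := integral_subtype_comap (μ := (volume : Measure ℝ)) (s := Ioi (0 : ℝ))
      measurableSet_Ioi
      (fun r => ((r ^ (Module.finrank ℝ F - 1) : ℝ) : ℂ) * h (r • (w : F)))
    refine Eq.trans ?_ h7
    refine integral_congr_ae (ae_of_all _ fun r => ?_)
    have hr : (0 : ℝ) < r := r.2
    show (ENNReal.ofReal ((r : ℝ) ^ (Module.finrank ℝ F - 1))).toReal • h ((r : ℝ) • (w : F)) = _
    rw [ENNReal.toReal_ofReal (by positivity), Complex.real_smul]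
  · fun_prop
  · exact ae_of_all _ fun r => ENNReal.ofReal_lt_top

end KFx

open KFx

theorem thm_KF (hSy : St_Sy) : St_KF := by
  intro d hd z ε σ x hz hε
  have hfr : Module.finrank ℝ (X d) = d := by simp [X]
  have hnt : Nontrivial (X d) := by
    apply Module.nontrivial_of_finrank_pos (R := ℝ)
    rw [hfr]
    omega
  have hsy := ((hSy d hd ε hε).2 z σ).2 hz
  have hint : Integrable (fun ξ : X d => sy z ε σ ξ *
      Complex.exp (2 * Real.pi * Complex.I * ((inner ℝ x ξ : ℝ) : ℂ))) volume := by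
    refine Integrable.mono hsy (hsy.aestronglyMeasurable.mul
      (Continuous.aestronglyMeasurable (by fun_prop))) (ae_of_all _ fun ξ => ?_)
    rw [norm_mul]
    have h1 : (2 : ℂ) * Real.pi * Complex.I * ((inner ℝ x ξ : ℝ) : ℂ) =
        ((2 * Real.pi * inner ℝ x ξ : ℝ) : ℂ) * Complex.I := by
      push_cast
      ring
    rw [h1, Complex.norm_exp_ofReal_mul_I, mul_one]
  unfold Kf Jf
  rw [polar volume hint, hfr, ← integral_const_mul]
  refine integral_congr_ae (ae_of_all _ fun w => ?_)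
  obtain ⟨l, hl⟩ : ∃ l : ℂ, l = (ε : ℂ) - Complex.I * ((σ + inner ℝ x (w : X d) : ℝ) : ℂ) :=
    ⟨_, rfl⟩
  show ∫ r in Ioi (0 : ℝ), ((r ^ (d - 1) : ℝ) : ℂ) * (sy z ε σ (r • (w : X d)) *
      Complex.exp (2 * Real.pi * Complex.I * ((inner ℝ x (r • (w : X d)) : ℝ) : ℂ))) =
    (((2 * Real.pi) ^ (-(d : ℝ)) : ℝ) : ℂ) * Complex.Gamma ((d : ℂ) - z) *
      ((ε : ℂ) - Complex.I * ((σ + inner ℝ x (w : X d) : ℝ) : ℂ)) ^ (-((d : ℂ) - z))
  rw [← hl]
  have hlre : l.re = ε := by
    rw [hl]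
    simp
  have h2pi : (0 : ℝ) < 2 * Real.pi := by positivity
  have key : ∀ r ∈ Ioi (0 : ℝ), ((r ^ (d - 1) : ℝ) : ℂ) * (sy z ε σ (r • (w : X d)) *
      Complex.exp (2 * Real.pi * Complex.I * ((inner ℝ x (r • (w : X d)) : ℝ) : ℂ))) =
      (((2 * Real.pi) ^ (1 - (d : ℝ)) : ℝ) : ℂ) *
        ((((2 * Real.pi * r : ℝ) : ℂ) ^ (((d : ℂ) - z) - 1)) *
          Complex.exp (-(l * ((2 * Real.pi * r : ℝ) : ℂ)))) := by
    intro r hr
    have hr' : (0 : ℝ) < r := hr
    have hw : ‖r • (w : X d)‖ = r := by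
      rw [norm_smul, Real.norm_of_nonneg hr'.le]
      simp
    have hs : (0 : ℝ) < 2 * Real.pi * r := by positivity
    unfold sy
    rw [hw, inner_smul_right]
    have e1 : ((r ^ (d - 1) : ℝ) : ℂ) = (((2 * Real.pi) ^ (1 - (d : ℝ)) : ℝ) : ℂ) *
        ((2 * Real.pi * r : ℝ) : ℂ) ^ ((d : ℂ) - 1) := by
      have e2 : ((2 * Real.pi * r : ℝ) : ℂ) ^ ((d : ℂ) - 1) =
          (((2 * Real.pi * r) ^ ((d : ℝ) - 1) : ℝ) : ℂ) := by
        rw [Complex.ofReal_cpow hs.le]
        push_cast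
        rfl
      rw [e2, ← Complex.ofReal_mul]
      congr 1
      rw [Real.mul_rpow h2pi.le hr'.le, ← mul_assoc, ← Real.rpow_add h2pi]
      have e3 : (1 - (d : ℝ)) + ((d : ℝ) - 1) = 0 := by ring
      rw [e3, Real.rpow_zero, one_mul, ← Real.rpow_natCast]
      congr 1
      rw [Nat.cast_sub hd]
      simp
    have e4 : ((2 * Real.pi * r : ℝ) : ℂ) ^ (((d : ℂ) - z) - 1) =
        ((2 * Real.pi * r : ℝ) : ℂ) ^ ((d : ℂ) - 1) * ((2 * Real.pi * r : ℝ) : ℂ) ^ (-z) := by
      rw [← Complex.cpow_add _ _ (by exact_mod_cast hs.ne')]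
      congr 1
      ring
    have e5 : Complex.exp (-(l * ((2 * Real.pi * r : ℝ) : ℂ))) =
        Complex.exp (-((2 * Real.pi * r : ℝ) : ℂ) * ((ε : ℂ) - (σ : ℂ) * Complex.I)) *
        Complex.exp (2 * Real.pi * Complex.I * ((r * inner ℝ x (w : X d) : ℝ) : ℂ)) := by
      rw [← Complex.exp_add]
      congr 1
      rw [hl]
      push_cast
      ring
    rw [e1, e4, e5]
    ring
  rw [setIntegral_congr_fun measurableSet_Ioi key, integral_const_mul]
  have hsub := integral_comp_mul_left_Ioi (fun s : ℝ => ((s : ℂ) ^ (((d : ℂ) - z) - 1)) *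
          Complex.exp (-(l * (s : ℂ)))) 0 h2pi
  rw [mul_zero] at hsub
  rw [hsub, gam (by simpa using hz) (by rw [hlre]; exact hε), Complex.real_smul]
  have e6 : (((2 * Real.pi) ^ (-(d : ℝ)) : ℝ) : ℂ) =
      (((2 * Real.pi) ^ (1 - (d : ℝ)) : ℝ) : ℂ) * (((2 * Real.pi)⁻¹ : ℝ) : ℂ) := by
    rw [← Complex.ofReal_mul]
    congr 1
    rw [← Real.rpow_neg_one, ← Real.rpow_add h2pi]
    congr 1
    ring
  rw [e6]
  ring

end Pool.Agent.SPI
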