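import Pool.Agent.SPI.St

set_option autoImplicit false

/-!
# SPI: Stein interpolation
-/

open MeasureTheory Filter Topology Set
open scoped ENNReal NNReal

namespace Pool.Agent.SPI

open Pool.Agent.QWL (X IsTest)

namespace L3x

/-- `|exp (z²)|` -/
theorem nexp (z : ℂ) : ‖Complex.exp (z ^ 2)‖ = Real.exp (z.re ^ 2 - z.im ^ 2) := by
  rw [Complex.norm_exp]
  congr 1
  rw [pow_two, Complex.mul_re]
  ring

theorem nsub {z : ℂ} {u : ℝ} (h0 : 0 ≤ z.re) (h1 : z.re ≤ u) : ‖z - (u : ℂ)‖ ≤ u + |z.im| := by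
  refine (Complex.norm_le_abs_re_add_abs_im _).trans ?_
  rw [Complex.sub_re, Complex.sub_im, Complex.ofReal_re, Complex.ofReal_im, sub_zero]
  have h2 : |z.re - u| ≤ u := by
    rw [abs_le]
    constructor <;> linarith
  linarith

/-- `(u + |y|) e^{s² - y²} ≤ (u + 1) e^{u²}` for `0 ≤ s ≤ u` -/
theorem el1 {u s y : ℝ} (h0 : 0 ≤ s) (h1 : s ≤ u) :
    (u + |y|) * Real.exp (s ^ 2 - y ^ 2) ≤ (u + 1) * Real.exp (s ^ 2) := by
  have hu : 0 ≤ u := h0.trans h1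
  rw [sub_eq_add_neg, Real.exp_add, ← mul_assoc]
  have h2 : (u + |y|) * Real.exp (-y ^ 2) ≤ u + 1 := by
    have h3 : Real.exp (-y ^ 2) ≤ 1 := by
      rw [Real.exp_le_one_iff]
      nlinarith [sq_nonneg y]
    have h4 : |y| * Real.exp (-y ^ 2) ≤ 1 := by
      have h5 : |y| ≤ Real.exp (y ^ 2) := by
        have h6 := Real.add_one_le_exp (y ^ 2)
        have h7 : |y| ≤ y ^ 2 + 1 := by
          have := sq_abs y
          nlinarith [sq_nonneg (|y| - 1 / 2), abs_nonneg y]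
        linarith
      calc |y| * Real.exp (-y ^ 2) ≤ Real.exp (y ^ 2) * Real.exp (-y ^ 2) :=
            mul_le_mul_of_nonneg_right h5 (Real.exp_pos _).le
        _ = 1 := by
            rw [← Real.exp_add]
            simp
    have h8 : u * Real.exp (-y ^ 2) ≤ u * 1 := mul_le_mul_of_nonneg_left h3 hu
    calc (u + |y|) * Real.exp (-y ^ 2) = u * Real.exp (-y ^ 2) + |y| * Real.exp (-y ^ 2) := by
          ring
      _ ≤ u + 1 := by linarith
  calc (u + |y|) * Real.exp (s ^ 2) * Real.exp (-y ^ 2)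
      = (u + |y|) * Real.exp (-y ^ 2) * Real.exp (s ^ 2) := by ring
    _ ≤ (u + 1) * Real.exp (s ^ 2) := mul_le_mul_of_nonneg_right h2 (Real.exp_pos _).le

/-- `|y| e^{u² - y²} gro y ≤ e^{u² + 7}` -/
theorem el2 {u y : ℝ} (hy : y ≠ 0) :
    |y| * Real.exp (u ^ 2 - y ^ 2) * gro y ≤ Real.exp (u ^ 2 + 7) := by
  have hp : 0 < |y| := abs_pos.2 hy
  have h1 : |y| * Real.exp (u ^ 2 - y ^ 2) * gro y =
      (|y| + 1) * (Real.exp (u ^ 2 - y ^ 2) * Real.exp (4 * |y|)) := by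
    unfold gro
    field_simp
  rw [h1]
  calc (|y| + 1) * (Real.exp (u ^ 2 - y ^ 2) * Real.exp (4 * |y|))
      ≤ Real.exp |y| * (Real.exp (u ^ 2 - y ^ 2) * Real.exp (4 * |y|)) :=
        mul_le_mul_of_nonneg_right (Real.add_one_le_exp _) (by positivity)
    _ = Real.exp (|y| + (u ^ 2 - y ^ 2 + 4 * |y|)) := by
        rw [Real.exp_add, Real.exp_add]
    _ ≤ Real.exp (u ^ 2 + 7) := by
        apply Real.exp_le_exp.2
        have := sq_abs y
        nlinarith [sq_nonneg (|y| - 5 / 2)]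

/-- the strip -/
theorem clo {u : ℝ} : closure (Complex.HadamardThreeLines.verticalStrip 0 u) ⊆
    {z : ℂ | 0 ≤ z.re ∧ z.re ≤ u} := by
  refine closure_minimal ?_ ?_
  · intro z hz
    exact ⟨hz.1.le, hz.2.le⟩
  · exact (isClosed_le continuous_const Complex.continuous_re).inter
      (isClosed_le Complex.continuous_re continuous_const)

/-- three lines for one function -/
theorem lines {u a b M θ : ℝ} (hu : 1 < u) (hθ : θ = 1 / u) {G : ℂ → ℂ} {S : Set ℂ}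
    (hG : DifferentiableOn ℂ G S) (hS : ∀ z : ℂ, 0 ≤ z.re → z.re ≤ u → z ∈ S)
    (hM : ∀ z : ℂ, 0 ≤ z.re → z.re ≤ u → ‖G z‖ ≤ M)
    (ha : ∀ z : ℂ, z.re = 0 → ‖G z‖ ≤ a)
    (hb : ∀ z : ℂ, z.re = u → z.im ≠ 0 → ‖G z‖ ≤ b * gro z.im) (hb0 : 0 ≤ b) :
    (u - 1) * Real.exp 1 * ‖G 1‖ ≤
      ((u + 1) * a) ^ (1 - θ) * (Real.exp (u ^ 2 + 7) * b) ^ θ := by
  have hu0 : 0 < u := by linarith
  have hM0 : 0 ≤ M := (norm_nonneg _).trans (hM 0 (by simp) (by simpa using hu0.le))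
  have ha0 : 0 ≤ a := (norm_nonneg _).trans (ha 0 (by simp))
  obtain ⟨Φ, hΦ⟩ : ∃ Φ : ℂ → ℂ, Φ = fun z => (z - (u : ℂ)) * Complex.exp (z ^ 2) * G z :=
    ⟨_, rfl⟩
  have hn : ∀ z : ℂ, ‖Φ z‖ = ‖z - (u : ℂ)‖ * Real.exp (z.re ^ 2 - z.im ^ 2) * ‖G z‖ := fun z => by
    rw [hΦ]
    show ‖(z - (u : ℂ)) * Complex.exp (z ^ 2) * G z‖ = _
    rw [norm_mul, norm_mul, nexp]
  have hmain := Complex.HadamardThreeLines.norm_le_interp_of_mem_verticalClosedStrip'
    (f := Φ) (z := 1) (a := (u + 1) * a) (b := Real.exp (u ^ 2 + 7) * b) (l := 0) (u := u) hu0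
    (by
      show (1 : ℂ).re ∈ Icc 0 u
      rw [Complex.one_re]
      exact ⟨zero_le_one, hu.le⟩)
    (by
      refine DifferentiableOn.diffContOnCl ?_
      have h1 : DifferentiableOn ℂ G (closure (Complex.HadamardThreeLines.verticalStrip 0 u)) :=
        hG.mono fun z hz => hS z (clo hz).1 (clo hz).2
      rw [hΦ]
      refine DifferentiableOn.mul ?_ h1
      exact (Differentiable.differentiableOn (by fun_prop)))
    (by
      refine ⟨(u + 1) * Real.exp (u ^ 2) * M, ?_⟩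
      rintro _ ⟨z, hz, rfl⟩
      have hz0 : 0 ≤ z.re := hz.1
      have hzu : z.re ≤ u := hz.2
      show ‖Φ z‖ ≤ _
      rw [hn]
      have h2 : ‖z - (u : ℂ)‖ * Real.exp (z.re ^ 2 - z.im ^ 2) ≤ (u + 1) * Real.exp (u ^ 2) := by
        calc ‖z - (u : ℂ)‖ * Real.exp (z.re ^ 2 - z.im ^ 2)
            ≤ (u + |z.im|) * Real.exp (z.re ^ 2 - z.im ^ 2) :=
              mul_le_mul_of_nonneg_right (nsub hz0 hzu) (Real.exp_pos _).le
          _ ≤ (u + 1) * Real.exp (z.re ^ 2) := el1 hz0 hzu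
          _ ≤ (u + 1) * Real.exp (u ^ 2) := by
              refine mul_le_mul_of_nonneg_left (Real.exp_le_exp.2 ?_) (by linarith)
              exact pow_le_pow_left₀ hz0 hzu 2
      exact mul_le_mul h2 (hM z hz0 hzu) (norm_nonneg _) (by positivity))
    (by
      intro z hz
      have hz0 : z.re = 0 := hz
      rw [hn]
      have h2 : ‖z - (u : ℂ)‖ * Real.exp (z.re ^ 2 - z.im ^ 2) ≤ u + 1 := by
        calc ‖z - (u : ℂ)‖ * Real.exp (z.re ^ 2 - z.im ^ 2)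
            ≤ (u + |z.im|) * Real.exp (z.re ^ 2 - z.im ^ 2) :=
              mul_le_mul_of_nonneg_right (nsub hz0.ge (by rw [hz0]; exact hu0.le))
                (Real.exp_pos _).le
          _ ≤ (u + 1) * Real.exp (z.re ^ 2) := el1 hz0.ge (by rw [hz0]; exact hu0.le)
          _ = u + 1 := by rw [hz0]; simp
      exact mul_le_mul h2 (ha z hz0) (norm_nonneg _) (by linarith))
    (by
      intro z hz
      have hz0 : z.re = u := hz
      rw [hn]
      by_cases hy : z.im = 0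
      · have h3 : z - (u : ℂ) = 0 := by
          apply Complex.ext
          · rw [Complex.sub_re, Complex.ofReal_re, hz0, sub_self, Complex.zero_re]
          · rw [Complex.sub_im, Complex.ofReal_im, hy, sub_self, Complex.zero_im]
        rw [h3, norm_zero, zero_mul, zero_mul]
        positivity
      · have h3 : ‖z - (u : ℂ)‖ = |z.im| := by
          have h4 : z - (u : ℂ) = (z.im : ℂ) * Complex.I := by
            apply Complex.ext
            · simp [hz0]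
            · simp
          rw [h4, norm_mul, Complex.norm_I, mul_one, Complex.norm_real, Real.norm_eq_abs]
        rw [h3, hz0]
        calc |z.im| * Real.exp (u ^ 2 - z.im ^ 2) * ‖G z‖
            ≤ |z.im| * Real.exp (u ^ 2 - z.im ^ 2) * (b * gro z.im) :=
              mul_le_mul_of_nonneg_left (hb z hz0 hy) (by positivity)
          _ = |z.im| * Real.exp (u ^ 2 - z.im ^ 2) * gro z.im * b := by ring
          _ ≤ Real.exp (u ^ 2 + 7) * b := mul_le_mul_of_nonneg_right (el2 hy) hb0)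
  have h1 : ‖Φ 1‖ = (u - 1) * Real.exp 1 * ‖G 1‖ := by
    rw [hn]
    have h2 : ‖(1 : ℂ) - (u : ℂ)‖ = u - 1 := by
      have h3 : (1 : ℂ) - (u : ℂ) = ((1 - u : ℝ) : ℂ) := by push_cast; ring
      rw [h3, Complex.norm_real, Real.norm_eq_abs, abs_of_neg (by linarith)]
      ring
    rw [h2, Complex.one_re, Complex.one_im]
    norm_num
  have h2 : ((1 : ℂ).re - 0) / (u - 0) = θ := by
    rw [Complex.one_re, hθ, sub_zero, sub_zero]
  rw [h1, h2] at hmain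
  exact hmain

/-- the final arithmetic -/
theorem fin {θ q A B K1 K2 : ℝ} (hθ0 : 0 < θ) (hθ1 : θ < 1) (hq : (1 + θ) / 2 = 1 / q)
    (hA : 0 ≤ A) (hB : 0 ≤ B) (hK1 : 0 ≤ K1) (hK2 : 0 ≤ K2) :
    (K1 * (A ^ (1 / 2 : ℝ) * B ^ (1 / 2 : ℝ))) ^ (1 - θ) * (K2 * (A * B)) ^ θ =
      K1 ^ (1 - θ) * K2 ^ θ * A ^ (1 / q) * B ^ (1 / q) := by
  have hAB : 0 ≤ A * B := mul_nonneg hA hB
  rw [← Real.mul_rpow hA hB, Real.mul_rpow hK1 (Real.rpow_nonneg hAB _),
    Real.mul_rpow hK2 hAB, ← Real.rpow_mul hAB]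
  have h1 : (A * B) ^ (1 / 2 * (1 - θ)) * (A * B) ^ θ = (A * B) ^ (1 / q) := by
    rw [← Real.rpow_add_of_nonneg hAB (by nlinarith) hθ0.le, ← hq]
    congr 1
    ring
  calc K1 ^ (1 - θ) * (A * B) ^ (1 / 2 * (1 - θ)) * (K2 ^ θ * (A * B) ^ θ)
      = K1 ^ (1 - θ) * K2 ^ θ * ((A * B) ^ (1 / 2 * (1 - θ)) * (A * B) ^ θ) := by ring
    _ = K1 ^ (1 - θ) * K2 ^ θ * A ^ (1 / q) * B ^ (1 / q) := by
        rw [h1, Real.mul_rpow hA hB]
        ring

end L3x

/-- **L3**: Stein interpolation. -/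
theorem thm_L3 (hBL1 : St_BL1) (hBL2 : St_BL2) (hFam : St_Fam) (hAna : St_Ana) : St_L3 := by
  intro d hd hKB
  obtain ⟨C1, hC1, hB1⟩ := hBL1 d hd hKB
  have hdR : (2 : ℝ) ≤ d := by exact_mod_cast hd
  obtain ⟨u, hu⟩ : ∃ u : ℝ, u = ((d : ℝ) + 1) / 2 := ⟨_, rfl⟩
  obtain ⟨θ, hθ⟩ : ∃ θ : ℝ, θ = 1 / u := ⟨_, rfl⟩
  have hu1 : 1 < u := by rw [hu]; linarith
  have hud : u < d := by rw [hu]; linarith
  have hθ0 : 0 < θ := by rw [hθ]; positivity
  have hθ1 : θ < 1 := by rw [hθ, div_lt_one (by linarith)]; exact hu1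
  have hq : (1 + θ) / 2 = 1 / qc d := by
    rw [hθ, hu]
    unfold qc
    field_simp
    ring
  obtain ⟨K, hK⟩ : ∃ K : ℝ, K = (u + 1) ^ (1 - θ) * (Real.exp (u ^ 2 + 7) * C1) ^ θ := ⟨_, rfl⟩
  have hK0 : 0 < K := by rw [hK]; positivity
  have hw : 0 < (u - 1) * Real.exp 1 := mul_pos (by linarith) (Real.exp_pos 1)
  refine ⟨K / ((u - 1) * Real.exp 1), div_pos hK0 hw, ?_⟩
  intro φ ψ hφ hψ ε σ hε hσ
  obtain ⟨hF, hFl⟩ := hFam d hd φ hφ
  obtain ⟨hG, hGl⟩ := hFam d hd ψ hψ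
  obtain ⟨A, hA⟩ : ∃ A : ℝ, A = ∫ x, |φ x| ^ qc d := ⟨_, rfl⟩
  obtain ⟨B, hB⟩ : ∃ B : ℝ, B = ∫ x, |ψ x| ^ qc d := ⟨_, rfl⟩
  have hA0 : 0 ≤ A := by
    rw [hA]
    exact integral_nonneg fun x => Real.rpow_nonneg (abs_nonneg _) _
  have hB0 : 0 ≤ B := by
    rw [hB]
    exact integral_nonneg fun x => Real.rpow_nonneg (abs_nonneg _) _
  rw [← hA, ← hB]
  rw [← hA] at hFl
  rw [← hB] at hGl
  obtain ⟨Ad, hAd⟩ : ∃ Ad : ℝ → ℝ, Ad = fun δ => ∫ x, |φ x| * (φ x ^ 2 + δ ^ 2) ^ ((qc d - 1) / 2) :=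
    ⟨_, rfl⟩
  obtain ⟨Bd, hBd⟩ : ∃ Bd : ℝ → ℝ, Bd = fun δ => ∫ x, |ψ x| * (ψ x ^ 2 + δ ^ 2) ^ ((qc d - 1) / 2) :=
    ⟨_, rfl⟩
  rw [← hAd] at hFl
  rw [← hBd] at hGl
  -- the inequality for each parameter
  have hδ : ∀ δ : ℝ, 0 < δ →
      (u - 1) * Real.exp 1 * ‖Bf 1 ε σ (fun x => (φ x : ℂ)) (fun x => (ψ x : ℂ))‖ ≤
        ((u + 1) * (A ^ (1 / 2 : ℝ) * B ^ (1 / 2 : ℝ))) ^ (1 - θ) *
          (Real.exp (u ^ 2 + 7) * (C1 * (Ad δ * Bd δ))) ^ θ := by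
    intro δ hδ
    obtain ⟨hT, h1, -, -, h0, h2, -⟩ := hF δ hδ
    obtain ⟨hT', h1', -, -, h0', h2', -⟩ := hG δ hδ
    obtain ⟨hAn, M, hM⟩ := hAna d hd φ ψ hφ hψ δ ε σ hδ hε
    have hint : ∀ z, Integrable (fam δ φ z) volume := fun z =>
      (hT z).1.continuous.integrable_of_hasCompactSupport (hT z).2
    have hint' : ∀ z, Integrable (fam δ ψ z) volume := fun z =>
      (hT' z).1.continuous.integrable_of_hasCompactSupport (hT' z).2
    have hAd0 : 0 ≤ Ad δ := by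
      rw [hAd]
      exact integral_nonneg fun x => mul_nonneg (abs_nonneg _) (Real.rpow_nonneg (by positivity) _)
    have hBd0 : 0 ≤ Bd δ := by
      rw [hBd]
      exact integral_nonneg fun x => mul_nonneg (abs_nonneg _) (Real.rpow_nonneg (by positivity) _)
    have hline := L3x.lines (u := u) (a := A ^ (1 / 2 : ℝ) * B ^ (1 / 2 : ℝ))
      (b := C1 * (Ad δ * Bd δ)) (M := M) (θ := θ) hu1 hθ
      (G := fun z => Bf z ε σ (fam δ φ z) (fam δ ψ z)) (S := {z : ℂ | z.re < d}) hAn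
      (fun z _ hz => lt_of_le_of_lt hz hud)
      (fun z hz hzu => hM z hz (by rw [← hu]; exact hzu))
      (by
        intro z hz
        have hze : z = (z.im : ℂ) * Complex.I := by
          have h3 := Complex.re_add_im z
          rw [hz, Complex.ofReal_zero, zero_add] at h3
          exact h3.symm
        have h4 : ‖Bf z ε σ (fam δ φ z) (fam δ ψ z)‖ ≤
            (∫ x, ‖fam δ φ z x‖ ^ 2) ^ (1 / 2 : ℝ) * (∫ x, ‖fam δ ψ z x‖ ^ 2) ^ (1 / 2 : ℝ) := by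
          have h5 := hBL2 d (by omega) (fam δ φ z) (fam δ ψ z) (hT z) (hT' z) ε σ z.im hε
          rw [← hze] at h5
          exact h5
        refine h4.trans ?_
        have h6 : (0 : ℝ) ≤ ∫ x, ‖fam δ φ z x‖ ^ 2 := integral_nonneg fun x => by positivity
        have h7 : (0 : ℝ) ≤ ∫ x, ‖fam δ ψ z x‖ ^ 2 := integral_nonneg fun x => by positivity
        refine mul_le_mul ?_ ?_ (Real.rpow_nonneg h7 _) (Real.rpow_nonneg hA0 _)
        · refine Real.rpow_le_rpow h6 ?_ (by norm_num)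
          rw [hA]
          exact h0 z hz
        · refine Real.rpow_le_rpow h7 ?_ (by norm_num)
          rw [hB]
          exact h0' z hz)
      (by
        intro z hz hy
        have hze : z = ((((d : ℝ) + 1) / 2 : ℝ) : ℂ) + (z.im : ℂ) * Complex.I := by
          have h3 := Complex.re_add_im z
          rw [hz, hu] at h3
          exact h3.symm
        have h5 := hB1 (fam δ φ z) (fam δ ψ z) (hint z) (hint' z) ε σ z.im hε hσ hy
        rw [← hze] at h5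
        refine h5.trans (le_of_eq ?_)
        rw [h2 z (by rw [hz, hu]), h2' z (by rw [hz, hu]), hAd, hBd]
        ring)
      (by positivity)
    rw [h1, h1'] at hline
    exact hline
  -- the limit
  have hlim : Tendsto (fun δ => ((u + 1) * (A ^ (1 / 2 : ℝ) * B ^ (1 / 2 : ℝ))) ^ (1 - θ) *
      (Real.exp (u ^ 2 + 7) * (C1 * (Ad δ * Bd δ))) ^ θ) (𝓝[>] 0)
      (𝓝 (((u + 1) * (A ^ (1 / 2 : ℝ) * B ^ (1 / 2 : ℝ))) ^ (1 - θ) *
      (Real.exp (u ^ 2 + 7) * (C1 * (A * B))) ^ θ)) := by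
    refine Tendsto.const_mul _ (Tendsto.rpow_const ?_ (Or.inr hθ0.le))
    exact ((hFl.mul hGl).const_mul C1).const_mul _
  have hle := ge_of_tendsto hlim (by
    filter_upwards [self_mem_nhdsWithin] with δ hδ0
    exact hδ δ hδ0)
  have harr : ((u + 1) * (A ^ (1 / 2 : ℝ) * B ^ (1 / 2 : ℝ))) ^ (1 - θ) *
      (Real.exp (u ^ 2 + 7) * (C1 * (A * B))) ^ θ = K * A ^ (1 / qc d) * B ^ (1 / qc d) := by
    rw [← mul_assoc (Real.exp (u ^ 2 + 7)) C1 (A * B),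
      L3x.fin hθ0 hθ1 hq hA0 hB0 (by linarith) (by positivity), ← hK]
  rw [harr] at hle
  calc ‖Bf 1 ε σ (fun x => (φ x : ℂ)) (fun x => (ψ x : ℂ))‖
      = ((u - 1) * Real.exp 1 * ‖Bf 1 ε σ (fun x => (φ x : ℂ)) (fun x => (ψ x : ℂ))‖) /
        ((u - 1) * Real.exp 1) := by
        rw [mul_div_cancel_left₀ _ hw.ne']
    _ ≤ (K * A ^ (1 / qc d) * B ^ (1 / qc d)) / ((u - 1) * Real.exp 1) :=
        div_le_div_of_nonneg_right hle hw.le
    _ = K / ((u - 1) * Real.exp 1) * A ^ (1 / qc d) * B ^ (1 / qc d) := by ring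

end Pool.Agent.SPI
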