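import Pool.Agent.SPI.St

/-!
# SPI, module Osc: the oscillatory integral
-/

set_option autoImplicit false

open MeasureTheory Filter Topology Set
open scoped ENNReal NNReal RealInnerProductSpace ContDiff

namespace Pool.Agent.SPI

namespace Oscx

/-- the base -/
private noncomputable def lam (μ : ℂ) (v : ℝ) : ℂ := μ - Complex.I * ((v ^ 2 : ℝ) : ℂ)

private lemma lam_re (μ : ℂ) (v : ℝ) : (lam μ v).re = μ.re := by
  unfold lam
  simp only [Complex.sub_re, Complex.mul_re, Complex.I_re, Complex.I_im, Complex.ofReal_re,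
    Complex.ofReal_im]
  ring

private lemma lam_im (μ : ℂ) (v : ℝ) : (lam μ v).im = μ.im - v ^ 2 := by
  unfold lam
  simp only [Complex.sub_im, Complex.mul_im, Complex.I_re, Complex.I_im, Complex.ofReal_re,
    Complex.ofReal_im]
  ring

private lemma lam_slit {μ : ℂ} (hμ : 0 < μ.re) (v : ℝ) : lam μ v ∈ Complex.slitPlane := by
  rw [Complex.mem_slitPlane_iff]
  left
  rw [lam_re]
  exact hμ

private lemma lam_ne {μ : ℂ} (hμ : 0 < μ.re) (v : ℝ) : lam μ v ≠ 0 :=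
  Complex.slitPlane_ne_zero (lam_slit hμ v)

private lemma lam_cont {μ : ℂ} (hμ : 0 < μ.re) (c : ℂ) : Continuous fun v : ℝ => lam μ v ^ c := by
  refine Continuous.cpow ?_ continuous_const fun v => lam_slit hμ v
  unfold lam
  fun_prop

/-- norm of the complex power -/
private lemma norm_pow_le {z : ℂ} (hz : 0 < z.re) (a y : ℝ) :
    ‖z ^ ((a : ℂ) + (y : ℂ) * Complex.I)‖ ≤ ‖z‖ ^ a * Real.exp (2 * |y|) := by
  have hz0 : z ≠ 0 := by
    rintro rfl
    simp at hz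
  rw [Complex.norm_cpow_of_ne_zero hz0]
  have e1 : ((a : ℂ) + (y : ℂ) * Complex.I).re = a := by simp
  have e2 : ((a : ℂ) + (y : ℂ) * Complex.I).im = y := by simp
  rw [e1, e2, div_eq_mul_inv, ← Real.exp_neg]
  refine mul_le_mul_of_nonneg_left ?_ (Real.rpow_nonneg (norm_nonneg _) _)
  apply Real.exp_le_exp.mpr
  have h1 : |z.arg| ≤ Real.pi / 2 := Complex.abs_arg_le_pi_div_two_iff.mpr hz.le
  have h2 : |z.arg| ≤ 2 := by
    have := Real.pi_le_four
    linarith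
  calc -(z.arg * y) ≤ |z.arg * y| := neg_le_abs _
    _ = |z.arg| * |y| := abs_mul _ _
    _ ≤ 2 * |y| := mul_le_mul_of_nonneg_right h2 (abs_nonneg _)

/-- lower bound for the base -/
private lemma lam_low {μ : ℂ} (hμ : 0 < μ.re) (w v : ℝ) (hw : 0 < w) (hw2 : w ^ 2 = ‖μ‖)
    (hv : 0 ≤ v) (hvw : v ≤ 2 * w) : w / 4 * |v - √(max μ.im 0)| ≤ ‖lam μ v‖ := by
  have hm : ‖μ‖ ^ 2 = μ.re ^ 2 + μ.im ^ 2 := by
    rw [Complex.sq_norm, Complex.normSq_apply]
    ring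
  have h1 : μ.re ≤ ‖lam μ v‖ := by
    have := Complex.abs_re_le_norm (lam μ v)
    rw [lam_re] at this
    exact (le_abs_self _).trans this
  have h2 : |μ.im - v ^ 2| ≤ ‖lam μ v‖ := by
    have := Complex.abs_im_le_norm (lam μ v)
    rw [lam_im] at this
    exact this
  have him : |μ.im| ≤ w ^ 2 := by
    rw [hw2]
    exact Complex.abs_im_le_norm μ
  obtain ⟨s, hs⟩ : ∃ s, s = √(max μ.im 0) := ⟨_, rfl⟩
  have hs0 : 0 ≤ s := by
    rw [hs]
    exact Real.sqrt_nonneg _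
  have hss : s ^ 2 = max μ.im 0 := by
    rw [hs]
    exact Real.sq_sqrt (le_max_right _ _)
  have hsw : s ≤ w := by
    refine le_of_sq_le_sq ?_ hw.le
    rw [hss]
    exact max_le ((le_abs_self _).trans him) (by positivity)
  rw [← hs]
  have hvs : |v - s| ≤ 2 * w := by
    rw [abs_le]
    constructor <;> linarith
  rcases le_or_gt (w ^ 2 / 2) μ.im with ha | ha
  · -- large positive imaginary part
    have ha0 : 0 ≤ μ.im := le_trans (by positivity) ha
    have hs2 : s ^ 2 = μ.im := by rw [hss, max_eq_left ha0]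
    have hs3 : w / 4 ≤ s := by
      refine le_of_sq_le_sq ?_ hs0
      rw [hs2]
      nlinarith
    refine le_trans ?_ h2
    have e1 : μ.im - v ^ 2 = (s - v) * (s + v) := by
      rw [← hs2]
      ring
    rw [e1, abs_mul, abs_of_nonneg (show 0 ≤ s + v by linarith), abs_sub_comm v s, mul_comm]
    refine mul_le_mul_of_nonneg_left ?_ (abs_nonneg _)
    linarith
  · have h3 : w / 4 * |v - s| ≤ w ^ 2 / 2 := by
      calc w / 4 * |v - s| ≤ w / 4 * (2 * w) := mul_le_mul_of_nonneg_left hvs (by positivity)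
        _ = w ^ 2 / 2 := by ring
    rcases le_or_gt μ.im (-(w ^ 2 / 2)) with hb | hb
    · refine h3.trans (le_trans ?_ h2)
      rw [abs_sub_comm]
      refine le_trans ?_ (le_abs_self _)
      nlinarith [sq_nonneg v]
    · refine h3.trans (le_trans ?_ h1)
      refine le_of_sq_le_sq ?_ hμ.le
      have h4 : μ.im ^ 2 ≤ (w ^ 2 / 2) ^ 2 := by
        rw [sq_le_sq, abs_of_nonneg (show 0 ≤ w ^ 2 / 2 by positivity), abs_le]
        exact ⟨hb.le, ha.le⟩
      rw [← hw2] at hm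
      nlinarith

private lemma rpow_half_nonneg (x : ℝ) : 0 ≤ x ^ (1 / 2 : ℝ) := by
  rw [← Real.sqrt_eq_rpow]
  exact Real.sqrt_nonneg _

private lemma rpow_neg_half (x : ℝ) (hx : x < 0) : x ^ (-1 / 2 : ℝ) = 0 := by
  rw [Real.rpow_def_of_neg hx]
  have : Real.cos (-1 / 2 * Real.pi) = 0 := by
    rw [show (-1 / 2 * Real.pi : ℝ) = -(Real.pi / 2) by ring, Real.cos_neg, Real.cos_pi_div_two]
  rw [this, mul_zero]

/-- the integral of the inverse square root -/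
private lemma int_half (a b : ℝ) : ∫ u in a..b, u ^ (-1 / 2 : ℝ) = 2 * (√b - √a) := by
  rw [integral_rpow (Or.inl (by norm_num))]
  rw [show (-1 / 2 + 1 : ℝ) = 1 / 2 by norm_num, ← Real.sqrt_eq_rpow, ← Real.sqrt_eq_rpow]
  ring

/-- the first part -/
private lemma part1 {μ : ℂ} (hμ : 0 < μ.re) (y w b : ℝ) (hw : 0 < w) (hw2 : w ^ 2 = ‖μ‖)
    (hb : 0 ≤ b) (hbw : b ≤ 2 * w) :
    ‖∫ v in (0 : ℝ)..b, lam μ v ^ (((-1 / 2 : ℝ) : ℂ) + (y : ℂ) * Complex.I)‖ ≤
      10 * Real.exp (2 * |y|) := by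
  obtain ⟨s, hs⟩ : ∃ s, s = √(max μ.im 0) := ⟨_, rfl⟩
  have hs0 : 0 ≤ s := by
    rw [hs]
    exact Real.sqrt_nonneg _
  have him : |μ.im| ≤ w ^ 2 := by
    rw [hw2]
    exact Complex.abs_im_le_norm μ
  have hsw : s ≤ w := by
    refine le_of_sq_le_sq ?_ hw.le
    rw [hs, Real.sq_sqrt (le_max_right _ _)]
    exact max_le ((le_abs_self _).trans him) (by positivity)
  obtain ⟨c, hc⟩ : ∃ c, c = (w / 4) ^ (-1 / 2 : ℝ) := ⟨_, rfl⟩
  have hc0 : 0 ≤ c := by
    rw [hc]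
    positivity
  have hcw : c * √w = 2 := by
    rw [hc, show (-1 / 2 : ℝ) = -(1 / 2) by norm_num, Real.rpow_neg (by positivity),
      ← Real.sqrt_eq_rpow, Real.sqrt_div hw.le, show (4 : ℝ) = 2 ^ 2 by norm_num,
      Real.sqrt_sq (by norm_num)]
    have : √w ≠ 0 := (Real.sqrt_pos.mpr hw).ne'
    field_simp
  have hI1 : IntervalIntegrable (fun v : ℝ => (s - v) ^ (-1 / 2 : ℝ)) volume 0 b := by
    have h := (intervalIntegral.intervalIntegrable_rpow' (a := s - 0) (b := s - b)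
      (r := (-1 / 2 : ℝ)) (by norm_num)).comp_sub_left s
    simpa using h
  have hI2 : IntervalIntegrable (fun v : ℝ => (v - s) ^ (-1 / 2 : ℝ)) volume 0 b := by
    have h := (intervalIntegral.intervalIntegrable_rpow' (a := 0 - s) (b := b - s)
      (r := (-1 / 2 : ℝ)) (by norm_num)).comp_sub_right s
    simpa using h
  have hbd : ∀ᵐ v : ℝ, v ∈ Ioc (0 : ℝ) b →
      ‖lam μ v ^ (((-1 / 2 : ℝ) : ℂ) + (y : ℂ) * Complex.I)‖ ≤
        c * Real.exp (2 * |y|) * ((s - v) ^ (-1 / 2 : ℝ) + (v - s) ^ (-1 / 2 : ℝ)) := by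
    filter_upwards [(Set.countable_singleton s).ae_notMem volume] with v hv hvb
    have hne : v ≠ s := hv
    have h1 := norm_pow_le (z := lam μ v) (by rw [lam_re]; exact hμ) (-1 / 2) y
    have h2 := lam_low hμ w v hw hw2 hvb.1.le (hvb.2.trans hbw)
    rw [← hs] at h2
    have h3 : 0 < |v - s| := abs_pos.mpr (sub_ne_zero.mpr hne)
    have h4 : ‖lam μ v‖ ^ (-1 / 2 : ℝ) ≤ (w / 4 * |v - s|) ^ (-1 / 2 : ℝ) :=
      Real.rpow_le_rpow_of_nonpos (by positivity) h2 (by norm_num)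
    have h5 : (w / 4 * |v - s|) ^ (-1 / 2 : ℝ) =
        c * ((s - v) ^ (-1 / 2 : ℝ) + (v - s) ^ (-1 / 2 : ℝ)) := by
      rw [Real.mul_rpow (by positivity) (abs_nonneg _), ← hc]
      congr 1
      rcases lt_or_gt_of_ne hne with hlt | hgt
      · rw [abs_of_neg (sub_neg.mpr hlt), neg_sub, rpow_neg_half (v - s) (sub_neg.mpr hlt),
          add_zero]
      · rw [abs_of_pos (sub_pos.mpr hgt), rpow_neg_half (s - v) (sub_neg.mpr hgt), zero_add]
    calc ‖lam μ v ^ (((-1 / 2 : ℝ) : ℂ) + (y : ℂ) * Complex.I)‖ ≤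
          ‖lam μ v‖ ^ (-1 / 2 : ℝ) * Real.exp (2 * |y|) := h1
      _ ≤ c * ((s - v) ^ (-1 / 2 : ℝ) + (v - s) ^ (-1 / 2 : ℝ)) * Real.exp (2 * |y|) :=
          mul_le_mul_of_nonneg_right (h4.trans h5.le) (Real.exp_pos _).le
      _ = _ := by ring
  have hmain := intervalIntegral.norm_integral_le_of_norm_le hb hbd
    ((hI1.add hI2).const_mul (c * Real.exp (2 * |y|)))
  refine hmain.trans ?_
  rw [intervalIntegral.integral_const_mul, intervalIntegral.integral_add hI1 hI2]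
  have e1 : ∫ v in (0 : ℝ)..b, (s - v) ^ (-1 / 2 : ℝ) = 2 * (√s - √(s - b)) := by
    rw [intervalIntegral.integral_comp_sub_left (fun u : ℝ => u ^ (-1 / 2 : ℝ)) s, int_half,
      sub_zero]
  have e2 : ∫ v in (0 : ℝ)..b, (v - s) ^ (-1 / 2 : ℝ) = 2 * (√(b - s) - √(0 - s)) := by
    rw [intervalIntegral.integral_comp_sub_right (fun u : ℝ => u ^ (-1 / 2 : ℝ)) s, int_half]
  rw [e1, e2]
  have h1 : √s ≤ √w := Real.sqrt_le_sqrt hsw
  have h2 : √(b - s) ≤ 3 / 2 * √w := by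
    have h3 : √(b - s) ≤ √(2 * w) := Real.sqrt_le_sqrt (by linarith)
    have h4 : √(2 * w) = √2 * √w := Real.sqrt_mul (by norm_num) w
    have h5 : √2 ≤ 3 / 2 := by
      rw [Real.sqrt_le_left (by norm_num)]
      norm_num
    rw [h4] at h3
    exact h3.trans (mul_le_mul_of_nonneg_right h5 (Real.sqrt_nonneg _))
  have h3 := Real.sqrt_nonneg (s - b)
  have h4 := Real.sqrt_nonneg (0 - s)
  have h5 : 2 * (√s - √(s - b)) + 2 * (√(b - s) - √(0 - s)) ≤ 5 * √w := by linarith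
  calc c * Real.exp (2 * |y|) * (2 * (√s - √(s - b)) + 2 * (√(b - s) - √(0 - s))) ≤
        c * Real.exp (2 * |y|) * (5 * √w) :=
        mul_le_mul_of_nonneg_left h5 (by positivity)
    _ = 5 * (c * √w) * Real.exp (2 * |y|) := by ring
    _ = 10 * Real.exp (2 * |y|) := by
        rw [hcw]
        norm_num

/-- the base is large for large arguments -/
private lemma lam_big {μ : ℂ} (w v : ℝ) (hw2 : w ^ 2 = ‖μ‖) (hw : 0 < w)
    (hv : 2 * w ≤ v) : (v / 2) ^ 2 ≤ ‖lam μ v‖ := by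
  have h1 : ‖Complex.I * ((v ^ 2 : ℝ) : ℂ)‖ = v ^ 2 := by
    rw [norm_mul, Complex.norm_I, one_mul, Complex.norm_real, Real.norm_of_nonneg (sq_nonneg v)]
  have h2 : v ^ 2 - ‖μ‖ ≤ ‖lam μ v‖ := by
    have h3 := norm_sub_norm_le (Complex.I * ((v ^ 2 : ℝ) : ℂ)) μ
    rw [h1, norm_sub_rev] at h3
    exact h3
  rw [← hw2] at h2
  nlinarith

private lemma deriv_lam {μ : ℂ} (hμ : 0 < μ.re) (y v : ℝ) :
    HasDerivAt (fun v : ℝ => (v : ℂ) * lam μ v ^ (((-1 / 2 : ℝ) : ℂ) + (y : ℂ) * Complex.I))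
      (2 * Complex.I * y * lam μ v ^ (((-1 / 2 : ℝ) : ℂ) + (y : ℂ) * Complex.I) +
        (1 - 2 * Complex.I * y) * μ *
          lam μ v ^ (((-3 / 2 : ℝ) : ℂ) + (y : ℂ) * Complex.I)) v := by
  obtain ⟨c, hc⟩ : ∃ c : ℂ, c = ((-1 / 2 : ℝ) : ℂ) + (y : ℂ) * Complex.I := ⟨_, rfl⟩
  have hc1 : ((-3 / 2 : ℝ) : ℂ) + (y : ℂ) * Complex.I = c - 1 := by
    rw [hc]
    push_cast
    ring
  rw [hc1, ← hc]
  have hlam : ∀ u : ℝ, lam μ u = μ - Complex.I * (u : ℂ) ^ 2 := by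
    intro u
    unfold lam
    push_cast
    ring
  have hsl : μ - Complex.I * (v : ℂ) ^ 2 ∈ Complex.slitPlane := by
    rw [← hlam]
    exact lam_slit hμ v
  have h1 : HasDerivAt (fun z : ℂ => μ - Complex.I * z ^ 2) (-(Complex.I * (2 * (v : ℂ))))
      (v : ℂ) := by
    have h := ((hasDerivAt_pow 2 (v : ℂ)).const_mul Complex.I).const_sub μ
    simpa using h
  have h2 := (hasDerivAt_id (v : ℂ)).mul (h1.cpow_const (c := c) hsl)
  have h3 := h2.comp_ofReal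
  have h4 : (fun v : ℝ => (v : ℂ) * lam μ v ^ c) =
      fun v : ℝ => id (v : ℂ) * (μ - Complex.I * (v : ℂ) ^ 2) ^ c := by
    funext u
    rw [hlam]
    rfl
  rw [h4]
  refine h3.congr_deriv ?_
  have hpow : (μ - Complex.I * (v : ℂ) ^ 2) ^ c =
      (μ - Complex.I * (v : ℂ) ^ 2) ^ (c - 1) * (μ - Complex.I * (v : ℂ) ^ 2) := by
    rw [Complex.cpow_sub _ _ (Complex.slitPlane_ne_zero hsl), Complex.cpow_one,
      div_mul_cancel₀ _ (Complex.slitPlane_ne_zero hsl)]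
  rw [hlam, hpow]
  simp only [id]
  rw [hc]
  push_cast
  ring

/-- the second part -/
private lemma part2 {μ : ℂ} (hμ : 0 < μ.re) (y w V : ℝ) (hy : y ≠ 0) (hw : 0 < w)
    (hw2 : w ^ 2 = ‖μ‖) (hV : 2 * w ≤ V) :
    ‖∫ v in (2 * w)..V, lam μ v ^ (((-1 / 2 : ℝ) : ℂ) + (y : ℂ) * Complex.I)‖ ≤
      5 * Real.exp (4 * |y|) / |y| := by
  have hc1 := lam_cont hμ (((-1 / 2 : ℝ) : ℂ) + (y : ℂ) * Complex.I)
  have hc3 := lam_cont hμ (((-3 / 2 : ℝ) : ℂ) + (y : ℂ) * Complex.I)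
  have hFTC := intervalIntegral.integral_eq_sub_of_hasDerivAt
    (a := 2 * w) (b := V) (fun v _ => deriv_lam hμ y v)
    ((by fun_prop : Continuous fun v : ℝ =>
      2 * Complex.I * y * lam μ v ^ (((-1 / 2 : ℝ) : ℂ) + (y : ℂ) * Complex.I) +
        (1 - 2 * Complex.I * y) * μ *
          lam μ v ^ (((-3 / 2 : ℝ) : ℂ) + (y : ℂ) * Complex.I)).intervalIntegrable _ _)
  have i1 : IntervalIntegrable (fun v : ℝ => 2 * Complex.I * (y : ℂ) *
      lam μ v ^ (((-1 / 2 : ℝ) : ℂ) + (y : ℂ) * Complex.I)) volume (2 * w) V :=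
    (continuous_const.mul hc1).intervalIntegrable _ _
  have i3 : IntervalIntegrable (fun v : ℝ => (1 - 2 * Complex.I * (y : ℂ)) * μ *
      lam μ v ^ (((-3 / 2 : ℝ) : ℂ) + (y : ℂ) * Complex.I)) volume (2 * w) V :=
    (continuous_const.mul hc3).intervalIntegrable _ _
  rw [intervalIntegral.integral_add i1 i3,
    intervalIntegral.integral_const_mul, intervalIntegral.integral_const_mul] at hFTC
  obtain ⟨I1, hI1⟩ : ∃ I1, I1 = ∫ v in (2 * w)..V,
    lam μ v ^ (((-1 / 2 : ℝ) : ℂ) + (y : ℂ) * Complex.I) := ⟨_, rfl⟩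
  obtain ⟨I3, hI3⟩ : ∃ I3, I3 = ∫ v in (2 * w)..V,
    lam μ v ^ (((-3 / 2 : ℝ) : ℂ) + (y : ℂ) * Complex.I) := ⟨_, rfl⟩
  rw [← hI1, ← hI3] at hFTC
  rw [← hI1]
  -- boundary terms
  have hbt : ∀ v : ℝ, 2 * w ≤ v →
      ‖(v : ℂ) * lam μ v ^ (((-1 / 2 : ℝ) : ℂ) + (y : ℂ) * Complex.I)‖ ≤
        2 * Real.exp (2 * |y|) := by
    intro v hv
    have hv0 : 0 < v := by linarith
    rw [norm_mul, Complex.norm_real, Real.norm_of_nonneg hv0.le]
    have h1 := norm_pow_le (z := lam μ v) (by rw [lam_re]; exact hμ) (-1 / 2) y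
    have h2 : ‖lam μ v‖ ^ (-1 / 2 : ℝ) ≤ ((v / 2) ^ 2) ^ (-1 / 2 : ℝ) :=
      Real.rpow_le_rpow_of_nonpos (by positivity) (lam_big w v hw2 hw hv) (by norm_num)
    have h3 : ((v / 2) ^ 2) ^ (-1 / 2 : ℝ) = 2 / v := by
      rw [← Real.rpow_natCast, ← Real.rpow_mul (by positivity)]
      rw [show (((2 : ℕ) : ℝ) * (-1 / 2) : ℝ) = -1 by norm_num, Real.rpow_neg_one, inv_div]
    rw [h3] at h2
    calc v * ‖lam μ v ^ (((-1 / 2 : ℝ) : ℂ) + (y : ℂ) * Complex.I)‖ ≤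
          v * (2 / v * Real.exp (2 * |y|)) :=
          mul_le_mul_of_nonneg_left (h1.trans
            (mul_le_mul_of_nonneg_right h2 (Real.exp_pos _).le)) hv0.le
      _ = 2 * Real.exp (2 * |y|) := by field_simp
  -- the remaining integral
  have hI3b : ‖μ‖ * ‖I3‖ ≤ Real.exp (2 * |y|) := by
    have h1 : ‖I3‖ ≤ ∫ v in (2 * w)..V, 8 * Real.exp (2 * |y|) * v ^ (-3 : ℤ) := by
      rw [hI3]
      refine intervalIntegral.norm_integral_le_of_norm_le hV
        (Filter.Eventually.of_forall fun v hv => ?_) ?_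
      · have hv0 : 0 < v := by linarith [hv.1]
        have h1 := norm_pow_le (z := lam μ v) (by rw [lam_re]; exact hμ) (-3 / 2) y
        have h2 : ‖lam μ v‖ ^ (-3 / 2 : ℝ) ≤ ((v / 2) ^ 2) ^ (-3 / 2 : ℝ) :=
          Real.rpow_le_rpow_of_nonpos (by positivity) (lam_big w v hw2 hw hv.1.le) (by norm_num)
        have h3 : ((v / 2) ^ 2) ^ (-3 / 2 : ℝ) = 8 * v ^ (-3 : ℤ) := by
          rw [← Real.rpow_natCast, ← Real.rpow_mul (by positivity)]
          rw [show (((2 : ℕ) : ℝ) * (-3 / 2) : ℝ) = ((-3 : ℤ) : ℝ) by norm_num,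
            Real.rpow_intCast, div_zpow]
          norm_num
          ring
        rw [h3] at h2
        calc ‖lam μ v ^ (((-3 / 2 : ℝ) : ℂ) + (y : ℂ) * Complex.I)‖ ≤
              8 * v ^ (-3 : ℤ) * Real.exp (2 * |y|) :=
              h1.trans (mul_le_mul_of_nonneg_right h2 (Real.exp_pos _).le)
          _ = _ := by ring
      · refine (intervalIntegral.intervalIntegrable_zpow ?_).const_mul _
        right
        rw [uIcc_of_le hV]
        intro h0
        linarith [h0.1]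
    have h2 : ∫ v in (2 * w)..V, 8 * Real.exp (2 * |y|) * v ^ (-3 : ℤ) ≤
        Real.exp (2 * |y|) / w ^ 2 := by
      rw [intervalIntegral.integral_const_mul, integral_zpow (by
        right
        refine ⟨by norm_num, ?_⟩
        rw [uIcc_of_le hV]
        intro h0
        linarith [h0.1])]
      have hV0 : 0 < V := by linarith
      have e1 : (8 * Real.exp (2 * |y|) * ((V ^ (-3 + 1 : ℤ) - (2 * w) ^ (-3 + 1 : ℤ)) /
          (((-3 : ℤ) : ℝ) + 1))) = Real.exp (2 * |y|) / w ^ 2 - 4 * Real.exp (2 * |y|) / V ^ 2 := by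
        rw [show (-3 + 1 : ℤ) = -2 by norm_num, zpow_neg, zpow_neg]
        have a1 : V ^ (2 : ℤ) = V ^ 2 := by norm_cast
        have a2 : (2 * w) ^ (2 : ℤ) = (2 * w) ^ 2 := by norm_cast
        rw [a1, a2]
        push_cast
        field_simp
        ring
      rw [e1]
      have : 0 ≤ 4 * Real.exp (2 * |y|) / V ^ 2 := by positivity
      linarith
    calc ‖μ‖ * ‖I3‖ ≤ w ^ 2 * (Real.exp (2 * |y|) / w ^ 2) := by
          rw [← hw2]
          exact mul_le_mul_of_nonneg_left (h1.trans h2) (by positivity)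
      _ = Real.exp (2 * |y|) := by field_simp
  -- combination
  have hy0 : 0 < |y| := abs_pos.mpr hy
  have h1 : ‖2 * Complex.I * (y : ℂ) * I1‖ ≤ 4 * Real.exp (2 * |y|) +
      (1 + 2 * |y|) * Real.exp (2 * |y|) := by
    have e1 : 2 * Complex.I * (y : ℂ) * I1 =
        ((V : ℂ) * lam μ V ^ (((-1 / 2 : ℝ) : ℂ) + (y : ℂ) * Complex.I) -
          ((2 * w : ℝ) : ℂ) * lam μ (2 * w) ^ (((-1 / 2 : ℝ) : ℂ) + (y : ℂ) * Complex.I)) -
        (1 - 2 * Complex.I * y) * μ * I3 := by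
      linear_combination hFTC
    rw [e1]
    have e2 : ‖(1 - 2 * Complex.I * (y : ℂ)) * μ * I3‖ ≤ (1 + 2 * |y|) * Real.exp (2 * |y|) := by
      rw [norm_mul, norm_mul, mul_assoc]
      refine mul_le_mul ?_ hI3b (by positivity) (by positivity)
      calc ‖1 - 2 * Complex.I * (y : ℂ)‖ ≤ ‖(1 : ℂ)‖ + ‖2 * Complex.I * (y : ℂ)‖ := norm_sub_le _ _
        _ = 1 + 2 * |y| := by
            rw [norm_one, norm_mul, norm_mul, Complex.norm_I, Complex.norm_real, Real.norm_eq_abs]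
            norm_num
    calc _ ≤ ‖(V : ℂ) * lam μ V ^ (((-1 / 2 : ℝ) : ℂ) + (y : ℂ) * Complex.I) -
          ((2 * w : ℝ) : ℂ) * lam μ (2 * w) ^ (((-1 / 2 : ℝ) : ℂ) + (y : ℂ) * Complex.I)‖ +
          ‖(1 - 2 * Complex.I * (y : ℂ)) * μ * I3‖ := norm_sub_le _ _
      _ ≤ (2 * Real.exp (2 * |y|) + 2 * Real.exp (2 * |y|)) +
          (1 + 2 * |y|) * Real.exp (2 * |y|) :=
          add_le_add ((norm_sub_le _ _).trans (add_le_add (hbt V hV) (hbt (2 * w) le_rfl))) e2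
      _ = _ := by ring
  rw [norm_mul, norm_mul, norm_mul, Complex.norm_I, Complex.norm_real, Real.norm_eq_abs] at h1
  have h2 : (1 + 2 * |y|) * Real.exp (2 * |y|) ≤ Real.exp (4 * |y|) := by
    have h3 : 1 + 2 * |y| ≤ Real.exp (2 * |y|) := by
      have := Real.add_one_le_exp (2 * |y|)
      linarith
    calc (1 + 2 * |y|) * Real.exp (2 * |y|) ≤ Real.exp (2 * |y|) * Real.exp (2 * |y|) :=
          mul_le_mul_of_nonneg_right h3 (Real.exp_pos _).le
      _ = Real.exp (4 * |y|) := by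
          rw [← Real.exp_add]
          congr 1
          ring
  have h3 : Real.exp (2 * |y|) ≤ Real.exp (4 * |y|) := Real.exp_le_exp.mpr (by linarith)
  have h4 : ‖(2 : ℂ)‖ = 2 := by norm_num
  rw [h4] at h1
  rw [le_div_iff₀ hy0]
  nlinarith [Real.exp_pos (4 * |y|)]

end Oscx

/-- **Osc** the oscillatory integral. -/
theorem thm_Osc : St_Osc := by
  refine ⟨10, by norm_num, fun μ y V hμ hy hV => ?_⟩
  have hcast : (-1 / 2 + (y : ℂ) * Complex.I : ℂ) = ((-1 / 2 : ℝ) : ℂ) + (y : ℂ) * Complex.I := by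
    push_cast
    ring
  rw [hcast]
  have hy0 : 0 < |y| := abs_pos.mpr hy
  obtain ⟨w, hw⟩ : ∃ w, w = √‖μ‖ := ⟨_, rfl⟩
  have hμ0 : 0 < ‖μ‖ := norm_pos_iff.mpr (by
    rintro rfl
    simp at hμ)
  have hw0 : 0 < w := by
    rw [hw]
    exact Real.sqrt_pos.mpr hμ0
  have hw2 : w ^ 2 = ‖μ‖ := by
    rw [hw]
    exact Real.sq_sqrt hμ0.le
  have hexp : Real.exp (2 * |y|) ≤ Real.exp (4 * |y|) := Real.exp_le_exp.mpr (by linarith)
  have hg1 : 10 * Real.exp (2 * |y|) + 5 * Real.exp (4 * |y|) / |y| ≤ 10 * gro y := by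
    unfold gro
    have e1 : 10 * ((1 + 1 / |y|) * Real.exp (4 * |y|)) =
        10 * Real.exp (4 * |y|) + 10 * Real.exp (4 * |y|) / |y| := by
      field_simp
    rw [e1]
    have e2 : 5 * Real.exp (4 * |y|) / |y| ≤ 10 * Real.exp (4 * |y|) / |y| := by
      apply div_le_div_of_nonneg_right _ hy0.le
      nlinarith [Real.exp_pos (4 * |y|)]
    linarith
  have hpos : 0 ≤ 5 * Real.exp (4 * |y|) / |y| := by positivity
  rcases le_or_gt V (2 * w) with hc | hc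
  · have h1 := Oscx.part1 hμ y w V hw0 hw2 hV hc
    calc _ ≤ 10 * Real.exp (2 * |y|) := h1
      _ ≤ 10 * gro y := by linarith
  · have hcont := Oscx.lam_cont hμ (((-1 / 2 : ℝ) : ℂ) + (y : ℂ) * Complex.I)
    have i1 : IntervalIntegrable (fun v : ℝ =>
        Oscx.lam μ v ^ (((-1 / 2 : ℝ) : ℂ) + (y : ℂ) * Complex.I)) volume 0 (2 * w) :=
      hcont.intervalIntegrable _ _
    have i2 : IntervalIntegrable (fun v : ℝ =>
        Oscx.lam μ v ^ (((-1 / 2 : ℝ) : ℂ) + (y : ℂ) * Complex.I)) volume (2 * w) V :=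
      hcont.intervalIntegrable _ _
    have e1 := intervalIntegral.integral_add_adjacent_intervals i1 i2
    have h1 := Oscx.part1 hμ y w (2 * w) hw0 hw2 (by positivity) le_rfl
    have h2 := Oscx.part2 hμ y w V hy hw0 hw2 hc.le
    change ‖∫ v in (0 : ℝ)..V, Oscx.lam μ v ^ (((-1 / 2 : ℝ) : ℂ) + (y : ℂ) * Complex.I)‖ ≤ _
    rw [← e1]
    calc _ ≤ _ := norm_add_le _ _
      _ ≤ 10 * Real.exp (2 * |y|) + 5 * Real.exp (4 * |y|) / |y| := add_le_add h1 h2
      _ ≤ 10 * gro y := hg1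

end Pool.Agent.SPI
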