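import Pool.Agent.SPI.St
import Pool.Agent.QWP.HLSP

set_option autoImplicit false

/-!
# SPI, Sca: a fractional Gronwall inequality
-/

open MeasureTheory Filter Topology Set
open scoped ENNReal NNReal

namespace Pool.Agent.SPI

namespace Scax

/-- the core inequality for measurable functions on the line -/
lemma core {γ : ℝ} (h0 : 0 < γ) (h1 : γ < 1) {C' : ℝ}
    (hls : ∀ f g : ℝ → ℝ≥0∞, Measurable f → Measurable g →
      ∫⁻ x, ∫⁻ t, f x * g t * ENNReal.ofReal (|x - t| ^ (-γ)) ≤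
        ENNReal.ofReal C' * (∫⁻ x, f x ^ (2 / (2 - γ))) ^ ((2 - γ) / 2) *
          (∫⁻ x, g x ^ (2 / (2 - γ))) ^ ((2 - γ) / 2))
    {A W : ℝ → ℝ≥0∞} (hA : Measurable A) (hW : Measurable W) (C : ℝ)
    (h : ∀ᵐ t, A t ≤ ENNReal.ofReal C *
      ∫⁻ r, ENNReal.ofReal (|t - r| ^ (-γ)) * (W r * A r)) :
    ∫⁻ t, A t ^ (2 / γ) ≤ ENNReal.ofReal C * ENNReal.ofReal C' *
      (∫⁻ r, W r ^ (1 / (1 - γ))) ^ (1 - γ) * ∫⁻ t, A t ^ (2 / γ) := by
  have h2 : 0 < 2 - γ := by linarith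
  have h3 : 0 < 1 - γ := by linarith
  obtain ⟨I, hI⟩ : ∃ I, I = ∫⁻ t, A t ^ (2 / γ) := ⟨_, rfl⟩
  obtain ⟨N, hN⟩ : ∃ N, N = ∫⁻ r, W r ^ (1 / (1 - γ)) := ⟨_, rfl⟩
  have hPp : (2 / γ - 1) * (2 / (2 - γ)) = 2 / γ := by
    field_simp
  have hP1 : 0 ≤ 2 / γ - 1 := by
    rw [sub_nonneg, le_div_iff₀ h0]
    linarith
  -- the first factor
  have hf : (∫⁻ x, (A x ^ (2 / γ - 1)) ^ (2 / (2 - γ))) = I := by
    rw [hI]
    refine lintegral_congr fun x => ?_
    rw [← ENNReal.rpow_mul, hPp]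
  -- the second factor
  have hg : (∫⁻ x, (W x * A x) ^ (2 / (2 - γ))) ^ ((2 - γ) / 2) ≤ N ^ (1 - γ) * I ^ (γ / 2) := by
    have hpq : Real.HolderConjugate ((2 - γ) / (2 * (1 - γ))) ((2 - γ) / γ) := by
      rw [Real.holderConjugate_iff]
      constructor
      · rw [lt_div_iff₀ (by positivity)]
        linarith
      · field_simp
        ring
    have h4 := ENNReal.lintegral_mul_le_Lp_mul_Lq volume hpq
      (f := fun x => W x ^ (2 / (2 - γ))) (g := fun x => A x ^ (2 / (2 - γ)))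
      (hW.pow_const _).aemeasurable (hA.pow_const _).aemeasurable
    have h5 : (∫⁻ x, (W x * A x) ^ (2 / (2 - γ))) =
        ∫⁻ x, ((fun x => W x ^ (2 / (2 - γ))) * fun x => A x ^ (2 / (2 - γ))) x := by
      refine lintegral_congr fun x => ?_
      rw [ENNReal.mul_rpow_of_nonneg _ _ (by positivity)]
      rfl
    have h6 : (∫⁻ x, (W x ^ (2 / (2 - γ))) ^ ((2 - γ) / (2 * (1 - γ)))) = N := by
      rw [hN]
      refine lintegral_congr fun x => ?_
      rw [← ENNReal.rpow_mul]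
      congr 1
      field_simp
    have h7 : (∫⁻ x, (A x ^ (2 / (2 - γ))) ^ ((2 - γ) / γ)) = I := by
      rw [hI]
      refine lintegral_congr fun x => ?_
      rw [← ENNReal.rpow_mul]
      congr 1
      field_simp
    rw [← h5, h6, h7] at h4
    refine (ENNReal.rpow_le_rpow h4 (by positivity)).trans (le_of_eq ?_)
    rw [ENNReal.mul_rpow_of_nonneg _ _ (by positivity), ← ENNReal.rpow_mul, ← ENNReal.rpow_mul]
    congr 2
    · field_simp
    · field_simp
  -- the estimate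
  have h8 : I ≤ ENNReal.ofReal C * ∫⁻ t, ∫⁻ r, A t ^ (2 / γ - 1) * (W r * A r) *
      ENNReal.ofReal (|t - r| ^ (-γ)) := by
    rw [← lintegral_const_mul' _ _ ENNReal.ofReal_ne_top, hI]
    refine lintegral_mono_ae ?_
    filter_upwards [h] with t ht
    have e1 : A t ^ (2 / γ) = A t ^ (2 / γ - 1) * A t := by
      conv_lhs => rw [show 2 / γ = (2 / γ - 1) + 1 by ring,
        ENNReal.rpow_add_of_nonneg _ _ hP1 zero_le_one, ENNReal.rpow_one]
    rw [e1]
    have e2 : ∫⁻ r, A t ^ (2 / γ - 1) * (W r * A r) * ENNReal.ofReal (|t - r| ^ (-γ)) =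
        A t ^ (2 / γ - 1) * ∫⁻ r, ENNReal.ofReal (|t - r| ^ (-γ)) * (W r * A r) := by
      rw [← lintegral_const_mul _ (by fun_prop)]
      refine lintegral_congr fun r => ?_
      ring
    rw [e2]
    calc A t ^ (2 / γ - 1) * A t ≤ A t ^ (2 / γ - 1) * (ENNReal.ofReal C *
          ∫⁻ r, ENNReal.ofReal (|t - r| ^ (-γ)) * (W r * A r)) := by gcongr
      _ = _ := by ring
  have h9 := hls (fun t => A t ^ (2 / γ - 1)) (fun r => W r * A r) (hA.pow_const _) (hW.mul hA)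
  rw [hf] at h9
  rw [← hI, ← hN]
  calc I ≤ ENNReal.ofReal C * ∫⁻ t, ∫⁻ r, A t ^ (2 / γ - 1) * (W r * A r) *
        ENNReal.ofReal (|t - r| ^ (-γ)) := h8
    _ ≤ ENNReal.ofReal C * (ENNReal.ofReal C' * I ^ ((2 - γ) / 2) * (N ^ (1 - γ) * I ^ (γ / 2))) := by
        gcongr
        exact h9.trans (by gcongr)
    _ = ENNReal.ofReal C * ENNReal.ofReal C' * N ^ (1 - γ) * (I ^ ((2 - γ) / 2) * I ^ (γ / 2)) := by
        ring
    _ = ENNReal.ofReal C * ENNReal.ofReal C' * N ^ (1 - γ) * I := by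
        rw [← ENNReal.rpow_add_of_nonneg _ _ (by positivity) (by positivity),
          show (2 - γ) / 2 + γ / 2 = 1 by ring, ENNReal.rpow_one]

end Scax

open Scax

theorem thm_Sca : St_Sca := by
  intro γ h0 h1 C hC
  obtain ⟨C', hC', hls⟩ := Pool.Agent.QWP.thm_HLSP γ h0 h1
  have h3 : 0 < 1 - γ := by linarith
  refine ⟨(1 / (2 * C * C')) ^ (1 / (1 - γ)), by positivity, ?_⟩
  intro t0 J a V hJ ht0 hJf ha hV hbd hVη hint
  have hJm : MeasurableSet J := hJ.measurableSet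
  obtain ⟨M, hM, hMa⟩ := hbd
  -- representatives
  obtain ⟨A, hAdef⟩ : ∃ A : ℝ → ℝ≥0∞, A = J.indicator (ha.mk a) := ⟨_, rfl⟩
  obtain ⟨W, hWdef⟩ : ∃ W : ℝ → ℝ≥0∞, W = J.indicator (hV.mk V) := ⟨_, rfl⟩
  have hA : Measurable A := by
    rw [hAdef]
    exact ha.measurable_mk.indicator hJm
  have hW : Measurable W := by
    rw [hWdef]
    exact hV.measurable_mk.indicator hJm
  have hAa : ∀ᵐ t, t ∈ J → A t = a t := by
    have h2 := (ae_restrict_iff' hJm).1 ha.ae_eq_mk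
    filter_upwards [h2] with t ht htJ
    rw [hAdef, indicator_of_mem htJ, ht htJ]
  have hWV : ∀ᵐ t, t ∈ J → W t = V t := by
    have h2 := (ae_restrict_iff' hJm).1 hV.ae_eq_mk
    filter_upwards [h2] with t ht htJ
    rw [hWdef, indicator_of_mem htJ, ht htJ]
  have hA0 : ∀ t, t ∉ J → A t = 0 := fun t ht => by
    rw [hAdef, indicator_of_notMem ht]
  have hW0 : ∀ t, t ∉ J → W t = 0 := fun t ht => by
    rw [hWdef, indicator_of_notMem ht]
  have hsubJ : ∀ t ∈ J, uIoc t0 t ⊆ J := fun t ht =>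
    uIoc_subset_uIcc.trans (hJ.uIcc_subset ht0 ht)
  have hineq : ∀ᵐ t, A t ≤ ENNReal.ofReal C *
      ∫⁻ r, ENNReal.ofReal (|t - r| ^ (-γ)) * (W r * A r) := by
    filter_upwards [hAa] with t ht
    by_cases htJ : t ∈ J
    · rw [ht htJ]
      refine (hint t htJ).trans ?_
      gcongr ENNReal.ofReal C * ?_
      calc ∫⁻ r in uIoc t0 t, ENNReal.ofReal (|t - r| ^ (-γ)) * V r * a r
          = ∫⁻ r in uIoc t0 t, ENNReal.ofReal (|t - r| ^ (-γ)) * (W r * A r) := by
            refine setLIntegral_congr_fun_ae measurableSet_uIoc ?_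
            filter_upwards [hAa, hWV] with r e1 e2 hr
            rw [e1 (hsubJ t htJ hr), e2 (hsubJ t htJ hr), mul_assoc]
        _ ≤ _ := setLIntegral_le_lintegral _ _
    · rw [hA0 t htJ]
      exact zero_le
  have hcore := core h0 h1 hls hA hW C hineq
  have hI : ∫⁻ t, A t ^ (2 / γ) = ∫⁻ t in J, a t ^ (2 / γ) := by
    rw [← lintegral_indicator hJm]
    refine lintegral_congr_ae ?_
    filter_upwards [hAa] with t ht
    by_cases htJ : t ∈ J
    · rw [indicator_of_mem htJ, ht htJ]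
    · rw [indicator_of_notMem htJ, hA0 t htJ, ENNReal.zero_rpow_of_pos (by positivity)]
  have hN : ∫⁻ r, W r ^ (1 / (1 - γ)) = ∫⁻ r in J, V r ^ (1 / (1 - γ)) := by
    rw [← lintegral_indicator hJm]
    refine lintegral_congr_ae ?_
    filter_upwards [hWV] with t ht
    by_cases htJ : t ∈ J
    · rw [indicator_of_mem htJ, ht htJ]
    · rw [indicator_of_notMem htJ, hW0 t htJ, ENNReal.zero_rpow_of_pos (by positivity)]
  obtain ⟨I, hIdef⟩ : ∃ I, I = ∫⁻ t, A t ^ (2 / γ) := ⟨_, rfl⟩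
  have hIfin : I ≠ ⊤ := by
    rw [hIdef, hI]
    have h4 : ∫⁻ t in J, a t ^ (2 / γ) ≤ ∫⁻ t in J, M ^ (2 / γ) := by
      refine setLIntegral_mono' hJm fun t ht => ?_
      exact ENNReal.rpow_le_rpow (hMa t ht) (by positivity)
    refine ne_top_of_le_ne_top ?_ h4
    rw [setLIntegral_const]
    exact ENNReal.mul_ne_top (ENNReal.rpow_ne_top_of_nonneg (by positivity) hM.ne) hJf.ne
  have hNη : (∫⁻ r, W r ^ (1 / (1 - γ))) ^ (1 - γ) ≤ ENNReal.ofReal (1 / (2 * C * C')) := by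
    rw [hN]
    refine (ENNReal.rpow_le_rpow hVη h3.le).trans (le_of_eq ?_)
    rw [ENNReal.ofReal_rpow_of_nonneg (by positivity) h3.le, ← Real.rpow_mul (by positivity),
      one_div_mul_cancel h3.ne', Real.rpow_one]
  have hhalf : I ≤ ENNReal.ofReal (1 / 2) * I := by
    rw [← hIdef] at hcore
    refine hcore.trans ?_
    gcongr
    calc ENNReal.ofReal C * ENNReal.ofReal C' * (∫⁻ r, W r ^ (1 / (1 - γ))) ^ (1 - γ)
        ≤ ENNReal.ofReal C * ENNReal.ofReal C' * ENNReal.ofReal (1 / (2 * C * C')) := by gcongr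
      _ = ENNReal.ofReal (1 / 2) := by
          rw [← ENNReal.ofReal_mul hC.le, ← ENNReal.ofReal_mul (by positivity)]
          congr 1
          field_simp
  have hI0 : I = 0 := by
    by_contra hne
    have h5 : ENNReal.ofReal (1 / 2) * I < 1 * I := by
      refine ENNReal.mul_lt_mul_left hne hIfin ?_
      rw [← ENNReal.ofReal_one]
      exact (ENNReal.ofReal_lt_ofReal_iff one_pos).2 (by norm_num)
    rw [one_mul] at h5
    exact absurd hhalf (not_le.2 h5)
  -- a = 0 a.e. on J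
  have ha0 : ∀ᵐ t, t ∈ J → a t = 0 := by
    rw [hIdef, lintegral_eq_zero_iff (hA.pow_const _)] at hI0
    filter_upwards [hI0, hAa] with t e1 e2 ht
    rw [← e2 ht]
    exact (ENNReal.rpow_eq_zero_iff_of_pos (by positivity)).1 e1
  intro t ht
  have h6 := hint t ht
  have h7 : ∫⁻ r in uIoc t0 t, ENNReal.ofReal (|t - r| ^ (-γ)) * V r * a r = 0 := by
    rw [← lintegral_zero (μ := volume.restrict (uIoc t0 t)) (α := ℝ)]
    refine setLIntegral_congr_fun_ae measurableSet_uIoc ?_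
    filter_upwards [ha0] with r e1 hr
    rw [e1 (hsubJ t ht hr), mul_zero]
  rw [h7, mul_zero] at h6
  exact le_antisymm h6 zero_le

end Pool.Agent.SPI
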