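import Pool.Agent.SPI.St

/-!
# SPI, module Uni: local uniqueness in the diagonal space
-/

set_option autoImplicit false

open MeasureTheory Filter Topology Set
open scoped ENNReal NNReal RealInnerProductSpace ContDiff

namespace Pool.Agent.SPI

open Pool.Agent.QWL (X IsTest ft hs HD sc HN mult cosP sinP dcosP IsSoln IsMaxSoln Scatters)

namespace Unix

theorem num {d : ℕ} {p : ℝ} (h : Adm d p) : 0 < gm d ∧ gm d < 1 ∧ 1 ≤ qd d ∧ qd d ≤ ms d p ∧
    1 ≤ ms d p ∧ 1 ≤ Qd d p ∧ (p - 1) * (1 / (1 - gm d)) = Qd d p ∧ 0 ≤ p - 1 := by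
  unfold gm qd ms Qd
  rcases h with ⟨rfl, hp⟩ | ⟨rfl, hp⟩
  · push_cast
    refine ⟨by norm_num, by norm_num, by norm_num, ?_, ?_, ?_, ?_, by linarith⟩
    · linarith
    · linarith
    · linarith
    · ring
  · push_cast
    refine ⟨by norm_num, by norm_num, by norm_num, ?_, ?_, ?_, ?_, by linarith⟩
    · linarith
    · linarith
    · linarith
    · ring

theorem cu_sub {d : ℕ} {m : ℝ} (hm : 1 ≤ m) {J : Set ℝ} {u u' : ℝ → X d → ℝ} (h : Cu m J u)
    (h' : Cu m J u') : Cu m J (fun r x => u r x - u' r x) := by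
  refine ⟨fun t ht => (h.1 t ht).sub (h'.1 t ht), fun t ht => ?_⟩
  have h1 := (h.2 t ht).add (h'.2 t ht)
  rw [add_zero] at h1
  refine tendsto_of_tendsto_of_tendsto_of_le_of_le' tendsto_const_nhds h1
    (Eventually.of_forall fun s => zero_le) ?_
  filter_upwards [self_mem_nhdsWithin] with s hs
  have h2 : (fun x => (u s x - u' s x) - (u t x - u' t x)) =
      (fun x => u s x - u t x) - (fun x => u' s x - u' t x) := by
    funext x
    simp only [Pi.sub_apply]
    ring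
  rw [h2]
  refine eLpNorm_sub_le ?_ ?_ ?_
  · exact ((h.1 s hs).sub (h.1 t ht)).aestronglyMeasurable
  · exact ((h'.1 s hs).sub (h'.1 t ht)).aestronglyMeasurable
  · rw [← ENNReal.ofReal_one]
    exact ENNReal.ofReal_le_ofReal hm

end Unix

theorem thm_Uni (hSca : St_Sca) (hCnt : St_Cnt) (hWpt : St_Wpt) : St_Uni := by
  intro d p hA hP hF
  obtain ⟨C, hC0, hC⟩ := hWpt d p hA hP hF
  obtain ⟨n1, n2, n3, n4, n5, n6, n7, n8⟩ := Unix.num hA
  obtain ⟨η₁, hη₁, hS⟩ := hSca (gm d) n1 n2 C hC0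
  intro J t0 u u' hJ ht0 hu hu' hD hI hI'
  obtain ⟨cu1, -, -, -⟩ := hCnt d (ms d p) J u n5 hJ hu
  obtain ⟨cu1', -, -, -⟩ := hCnt d (ms d p) J u' n5 hJ hu'
  obtain ⟨-, cw2, -, cw4⟩ := hCnt d (ms d p) J (fun r x => u r x - u' r x) n5 hJ
    (Unix.cu_sub n5 hu hu')
  set V : ℝ → ℝ≥0∞ := fun r => (eLpNorm (u r) (ENNReal.ofReal (Qd d p)) volume +
    eLpNorm (u' r) (ENNReal.ofReal (Qd d p)) volume) ^ (p - 1) with hV
  have hVm : AEMeasurable V (volume.restrict J) := ((cu1 _ n6).add (cu1' _ n6)).pow_const _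
  have hVe : ∀ r, V r ^ (1 / (1 - gm d)) = (eLpNorm (u r) (ENNReal.ofReal (Qd d p)) volume +
      eLpNorm (u' r) (ENNReal.ofReal (Qd d p)) volume) ^ Qd d p := by
    intro r
    rw [hV, ← n7, ENNReal.rpow_mul]
  have hVi : ∫⁻ r in J, V r ^ (1 / (1 - gm d)) ≠ ⊤ := by
    have h1 : ∫⁻ r in J, V r ^ (1 / (1 - gm d)) ≤
        ∫⁻ r in J, 2 ^ (Qd d p - 1) * (eLpNorm (u r) (ENNReal.ofReal (Qd d p)) volume ^ Qd d p +
          eLpNorm (u' r) (ENNReal.ofReal (Qd d p)) volume ^ Qd d p) := by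
      refine lintegral_mono fun r => ?_
      show V r ^ (1 / (1 - gm d)) ≤ _
      rw [hVe]
      exact ENNReal.rpow_add_le_mul_rpow_add_rpow _ _ n6
    refine ne_top_of_le_ne_top ?_ h1
    have h2 : (2 : ℝ≥0∞) ^ (Qd d p - 1) ≠ ⊤ :=
      ENNReal.rpow_ne_top_of_nonneg (by linarith) (by norm_num)
    rw [lintegral_const_mul' _ _ h2, lintegral_add_left' ((cu1 _ n6).pow_const _)]
    exact ENNReal.mul_ne_top h2 (ENNReal.add_ne_top.2 ⟨hI.ne, hI'.ne⟩)
  obtain ⟨δ, hδ, hac⟩ := exists_pos_setLIntegral_lt_of_measure_lt hVi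
    (ε := ENNReal.ofReal η₁) (by simpa using hη₁)
  obtain ⟨r0, hr0, hr1⟩ := ENNReal.lt_iff_exists_nnreal_btwn.1 hδ
  have hr0' : 0 < (r0 : ℝ) := by exact_mod_cast hr0
  refine ⟨r0, hr0', fun t ht htt => ?_⟩
  have hJ' : uIcc t0 t ⊆ J := hJ.uIcc_subset ht0 ht
  have hvol : volume (uIcc t0 t) < δ := by
    rw [Real.volume_interval]
    refine lt_of_le_of_lt ?_ hr1
    rw [← ENNReal.ofReal_coe_nnreal]
    exact ENNReal.ofReal_le_ofReal htt.le
  have hres : volume.restrict (uIcc t0 t) ≤ volume.restrict J := Measure.restrict_mono hJ' le_rfl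
  have hsm : ∫⁻ r in uIcc t0 t, V r ^ (1 / (1 - gm d)) ≤ ENNReal.ofReal η₁ := by
    have h1 := hac (uIcc t0 t) (lt_of_le_of_lt (Measure.restrict_apply_le _ _) hvol)
    rw [Measure.restrict_restrict measurableSet_uIcc, inter_eq_left.2 hJ'] at h1
    exact h1.le
  have hz : ∀ R : ℝ, eLpNorm (fun x => u t x - u' t x) (ENNReal.ofReal (qd d))
      (volume.restrict (Metric.ball 0 (R - |t - t0|))) = 0 := by
    intro R
    refine hS t0 (uIcc t0 t) (fun r => eLpNorm (fun x => u r x - u' r x)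
      (ENNReal.ofReal (qd d)) (volume.restrict (Metric.ball 0 (R - |r - t0|)))) V
      ordConnected_uIcc left_mem_uIcc ?_ ?_ ?_ ?_ hsm ?_ t right_mem_uIcc
    · rw [Real.volume_interval]
      exact ENNReal.ofReal_lt_top
    · exact (cw2 (qd d) t0 R n3).mono_measure hres
    · exact hVm.mono_measure hres
    · have hmin : min t0 t ∈ J := by
        rcases min_choice t0 t with h | h <;> rw [h] <;> assumption
      have hmax : max t0 t ∈ J := by
        rcases max_choice t0 t with h | h <;> rw [h] <;> assumption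
      obtain ⟨M, hM, hM'⟩ := cw4 (qd d) t0 R n3 n4 (min t0 t) hmin (max t0 t) hmax
      exact ⟨M, hM, fun r hr => hM' r hr⟩
    · intro t' ht'
      exact hC J t0 u u' hJ ht0 hu hu' hD R t' (hJ' ht')
  have hq0 : ENNReal.ofReal (qd d) ≠ 0 := by
    have : 0 < qd d := by linarith
    simpa using this
  have hae : ∀ N : ℕ, ∀ᵐ x ∂(volume : Measure (X d)), x ∈ Metric.ball (0 : X d) N →
      u t x = u' t x := by
    intro N
    have h1 := hz (N + |t - t0|)
    rw [add_sub_cancel_right] at h1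
    have hm : AEStronglyMeasurable (fun x => u t x - u' t x)
        (volume.restrict (Metric.ball (0 : X d) N)) :=
      ((hu.1 t ht).sub (hu'.1 t ht)).aestronglyMeasurable.mono_measure Measure.restrict_le_self
    rw [eLpNorm_eq_zero_iff hm hq0] at h1
    have h2 := (ae_restrict_iff' (measurableSet_ball (x := (0 : X d)) (ε := (N : ℝ)))).1 h1
    filter_upwards [h2] with x hx hxN
    exact sub_eq_zero.1 (hx hxN)
  filter_upwards [ae_all_iff.2 hae] with x hx
  obtain ⟨N, hN⟩ := exists_nat_gt ‖x‖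
  exact hx N (by rwa [mem_ball_zero_iff])

end Pool.Agent.SPI
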