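import Pool.Agent.SPI.St

set_option autoImplicit false

/-!
# SPI, Wpt: the inequality for the difference in a cone
-/

open MeasureTheory Filter Topology Set
open scoped ENNReal NNReal RealInnerProductSpace ContDiff

namespace Pool.Agent.SPI

open Pool.Agent.QWL (X IsTest ft hs HD sc HN mult cosP sinP dcosP IsSoln IsMaxSoln Scatters)

namespace Wptx

variable {d : ℕ}

theorem hasDeriv {b : ℝ} (hb : 2 < b) (u : ℝ) :
    HasDerivAt (fun u : ℝ => |u| ^ b * u) ((b + 1) * |u| ^ b) u := by
  have h1 := (hasDerivAt_abs_rpow u (by linarith : 1 < b)).mul (hasDerivAt_id u)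
  have h2 : b * |u| ^ (b - 2) * u * id u + |u| ^ b * 1 = (b + 1) * |u| ^ b := by
    rcases eq_or_ne u 0 with h | h
    · rw [h]
      simp only [id, mul_zero, zero_add, mul_one, abs_zero]
      rw [Real.zero_rpow (by linarith : b ≠ 0)]
      ring
    · have h3 : |u| ^ b = |u| ^ (b - 2) * u ^ 2 := by
        have h4 : 0 < |u| := abs_pos.2 h
        have h5 : |u| ^ b = |u| ^ (b - 2) * |u| ^ (2 : ℝ) := by
          rw [← Real.rpow_add h4]
          congr 1
          ring
        rw [h5, Real.rpow_two, sq_abs]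
      rw [h3]
      simp only [id]
      ring
  rw [h2] at h1
  exact h1

theorem diff {b : ℝ} (hb : 2 < b) (u w : ℝ) :
    |(|u| ^ b * u) - |w| ^ b * w| ≤ (b + 1) * ((|u| + |w|) ^ b * |u - w|) := by
  have h1 : ∀ x ∈ Set.uIcc w u,
      HasDerivWithinAt (fun u : ℝ => |u| ^ b * u) ((b + 1) * |x| ^ b) (Set.uIcc w u) x :=
    fun x _ => (hasDeriv hb x).hasDerivWithinAt
  have h2 : ∀ x ∈ Set.uIcc w u, ‖(b + 1) * |x| ^ b‖ ≤ (b + 1) * (|u| + |w|) ^ b := by
    intro x hx
    rw [Real.norm_of_nonneg (mul_nonneg (by linarith) (Real.rpow_nonneg (abs_nonneg x) _))]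
    have h3 : |x| ≤ |u| + |w| := by
      rcases le_total w u with h | h
      · rw [Set.uIcc_of_le h] at hx
        rw [abs_le]
        constructor
        · have := neg_abs_le w
          have := abs_nonneg u
          linarith [hx.1]
        · have := le_abs_self u
          have := abs_nonneg w
          linarith [hx.2]
      · rw [Set.uIcc_of_ge h] at hx
        rw [abs_le]
        constructor
        · have := neg_abs_le u
          have := abs_nonneg w
          linarith [hx.1]
        · have := le_abs_self w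
          have := abs_nonneg u
          linarith [hx.2]
    exact mul_le_mul_of_nonneg_left (Real.rpow_le_rpow (abs_nonneg x) h3 (by linarith))
      (by linarith)
  have h4 := (convex_uIcc w u).norm_image_sub_le_of_norm_hasDerivWithin_le h1 h2
    Set.left_mem_uIcc Set.right_mem_uIcc
  rw [Real.norm_eq_abs, Real.norm_eq_abs] at h4
  linarith

theorem holder {p q r : ℝ} (hp : 0 < p) (hq : 0 < q) (hr : 0 < r) (h : p⁻¹ + q⁻¹ = r⁻¹) :
    ENNReal.HolderTriple (ENNReal.ofReal p) (ENNReal.ofReal q) (ENNReal.ofReal r) := by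
  constructor
  rw [← ENNReal.ofReal_inv_of_pos hp, ← ENNReal.ofReal_inv_of_pos hq,
    ← ENNReal.ofReal_inv_of_pos hr, ← ENNReal.ofReal_add (inv_nonneg.2 hp.le) (inv_nonneg.2 hq.le),
    h]

/-- the exponents -/
theorem facts {p : ℝ} (h : Adm d p) : 2 < p - 1 ∧ 1 < (d : ℝ) ∧ 1 < qd d ∧ 1 < qc d ∧
    1 / qd d + 1 / qc d = 1 ∧ qd d ≤ ms d p ∧ Qd d p = (((d : ℝ) + 1) / 2) * (p - 1) ∧
    (((d : ℝ) + 1) / 2)⁻¹ + (qd d / 2)⁻¹ = (1 : ℝ)⁻¹ := by
  unfold qd qc ms Qd
  rcases h with ⟨h1, h2⟩ | ⟨h1, h2⟩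
  · subst h1
    refine ⟨by linarith, by norm_num, by norm_num, by norm_num, by norm_num, ?_, ?_, by norm_num⟩
    · push_cast
      rw [div_le_iff₀ (by norm_num)]
      nlinarith
    · push_cast
      ring
  · subst h1
    refine ⟨by linarith, by norm_num, by norm_num, by norm_num, by norm_num, ?_, ?_, by norm_num⟩
    · push_cast
      rw [div_le_iff₀ (by norm_num)]
      nlinarith
    · push_cast
      ring

/-- the main estimate -/
theorem est {b k q : ℝ} (hb : 2 < b) (hk : 0 < k) (hq : 0 < q) (hkq : k⁻¹ + (q / 2)⁻¹ = (1 : ℝ)⁻¹)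
    (B : Set (X d)) (u w φ : X d → ℝ)
    (hu : AEStronglyMeasurable u volume) (hw : AEStronglyMeasurable w volume)
    (hφ : AEStronglyMeasurable φ volume) :
    eLpNorm (fun x => (|u x| ^ b * u x - |w x| ^ b * w x) * φ x) 1 (volume.restrict B) ≤
      ENNReal.ofReal (b + 1) *
        ((eLpNorm u (ENNReal.ofReal (k * b)) volume +
            eLpNorm w (ENNReal.ofReal (k * b)) volume) ^ b *
          (eLpNorm (fun x => u x - w x) (ENNReal.ofReal q) (volume.restrict B) *
            eLpNorm φ (ENNReal.ofReal q) volume)) := by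
  have hb0 : 0 < b := by linarith
  have h1 : eLpNorm (fun x => (|u x| ^ b * u x - |w x| ^ b * w x) * φ x) 1
      (volume.restrict B) ≤ ENNReal.ofReal (b + 1) *
        eLpNorm (fun x => (|u x| + |w x|) ^ b * ((u x - w x) * φ x)) 1 (volume.restrict B) := by
    refine eLpNorm_le_mul_eLpNorm_of_ae_le_mul (Eventually.of_forall fun x => ?_) 1
    simp only [norm_mul, Real.norm_eq_abs]
    rw [abs_of_nonneg (Real.rpow_nonneg (add_nonneg (abs_nonneg (u x)) (abs_nonneg (w x))) b)]
    have h2 := diff hb (u x) (w x)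
    calc |(|u x| ^ b * u x) - |w x| ^ b * w x| * |φ x| ≤
        ((b + 1) * ((|u x| + |w x|) ^ b * |u x - w x|)) * |φ x| :=
          mul_le_mul_of_nonneg_right h2 (abs_nonneg _)
      _ = (b + 1) * ((|u x| + |w x|) ^ b * (|u x - w x| * |φ x|)) := by ring
  have ha : AEStronglyMeasurable (fun x => |u x| + |w x|) (volume : Measure (X d)) :=
    hu.norm.add hw.norm
  have hab : AEStronglyMeasurable (fun x => (|u x| + |w x|) ^ b) (volume : Measure (X d)) :=
    (Real.continuous_rpow_const hb0.le).comp_aestronglyMeasurable ha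
  have i1 : ENNReal.HolderTriple (ENNReal.ofReal k) (ENNReal.ofReal (q / 2))
      (ENNReal.ofReal 1) := holder hk (by positivity) one_pos hkq
  have i2 : ENNReal.HolderTriple (ENNReal.ofReal q) (ENNReal.ofReal q)
      (ENNReal.ofReal (q / 2)) := by
    refine holder hq hq (by positivity) ?_
    field_simp
    ring
  have h3 : eLpNorm (fun x => (|u x| + |w x|) ^ b * ((u x - w x) * φ x)) (ENNReal.ofReal 1)
      (volume.restrict B) ≤ eLpNorm (fun x => (|u x| + |w x|) ^ b) (ENNReal.ofReal k)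
        (volume.restrict B) *
        eLpNorm (fun x => (u x - w x) * φ x) (ENNReal.ofReal (q / 2)) (volume.restrict B) :=
    eLpNorm_smul_le_mul_eLpNorm (φ := fun x => (|u x| + |w x|) ^ b)
      (f := fun x => (u x - w x) * φ x) ((hu.sub hw).mul hφ).restrict hab.restrict
  rw [ENNReal.ofReal_one] at h3
  have h4 : eLpNorm (fun x => (u x - w x) * φ x) (ENNReal.ofReal (q / 2)) (volume.restrict B) ≤
      eLpNorm (fun x => u x - w x) (ENNReal.ofReal q) (volume.restrict B) *
        eLpNorm φ (ENNReal.ofReal q) (volume.restrict B) :=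
    eLpNorm_smul_le_mul_eLpNorm (φ := fun x => u x - w x) (f := φ) hφ.restrict
      (hu.sub hw).restrict
  have h4' : eLpNorm φ (ENNReal.ofReal q) (volume.restrict B) ≤
      eLpNorm φ (ENNReal.ofReal q) volume := eLpNorm_mono_measure _ Measure.restrict_le_self
  have h5 : eLpNorm (fun x => (|u x| + |w x|) ^ b) (ENNReal.ofReal k) (volume.restrict B) ≤
      (eLpNorm u (ENNReal.ofReal (k * b)) volume +
            eLpNorm w (ENNReal.ofReal (k * b)) volume) ^ b := by
    refine (eLpNorm_mono_measure _ Measure.restrict_le_self).trans ?_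
    have h6 := eLpNorm_norm_rpow (μ := (volume : Measure (X d))) (p := ENNReal.ofReal k) (q := b)
      (fun x => |u x| + |w x|) hb0
    have h7 : ENNReal.ofReal k * ENNReal.ofReal b = ENNReal.ofReal (k * b) := by
      rw [← ENNReal.ofReal_mul hk.le]
    have h8 : (fun x => ‖|u x| + |w x|‖ ^ b) = fun x => (|u x| + |w x|) ^ b := by
      funext x
      rw [Real.norm_of_nonneg (add_nonneg (abs_nonneg _) (abs_nonneg _))]
    rw [h8, h7] at h6
    rw [h6]
    refine ENNReal.rpow_le_rpow ?_ hb0.le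
    have h9 : 1 ≤ ENNReal.ofReal (k * b) := by
      rw [← ENNReal.ofReal_one]
      refine ENNReal.ofReal_le_ofReal ?_
      have h10 : k⁻¹ < 1 := by
        have : 0 < (q / 2)⁻¹ := by positivity
        rw [inv_one] at hkq
        linarith
      have h11 : 1 < k := by
        by_contra h
        exact absurd (one_le_inv_iff₀.2 ⟨hk, not_lt.1 h⟩) (not_le.2 h10)
      nlinarith
    refine (eLpNorm_add_le hu.norm hw.norm h9).trans ?_
    rw [eLpNorm_norm, eLpNorm_norm]
  calc eLpNorm (fun x => (|u x| ^ b * u x - |w x| ^ b * w x) * φ x) 1 (volume.restrict B)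
      ≤ _ := h1
    _ ≤ _ := mul_le_mul' le_rfl (h3.trans (mul_le_mul' h5 (h4.trans (mul_le_mul' le_rfl h4'))))

theorem between {t0 t r : ℝ} (hr : r ∈ uIoc t0 t) : |t - t0| = |t - r| + |r - t0| := by
  rcases le_total t0 t with h | h
  · rw [uIoc_of_le h] at hr
    rw [abs_of_nonneg (by linarith), abs_of_nonneg (by linarith [hr.2]),
      abs_of_nonneg (by linarith [hr.1])]
    ring
  · rw [uIoc_of_ge h] at hr
    rw [abs_of_nonpos (by linarith), abs_of_nonpos (by linarith [hr.1]),
      abs_of_nonpos (by linarith [hr.2])]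
    ring

theorem int_test {f φ : X d → ℝ} {m : ℝ} (hm : 1 ≤ m) (hf : MemLp f (ENNReal.ofReal m) volume)
    (hφ : IsTest φ) : Integrable (fun x => f x * φ x) volume := by
  have h1 : LocallyIntegrable f volume := hf.locallyIntegrable (by
    rw [← ENNReal.ofReal_one]
    exact ENNReal.ofReal_le_ofReal hm)
  have h2 := h1.integrable_smul_left_of_hasCompactSupport hφ.1.continuous hφ.2
  refine h2.congr (Eventually.of_forall fun x => ?_)
  simp only [smul_eq_mul]
  ring

/-- the bound for the integrand -/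
theorem ptw {p C : ℝ} (hA : Adm d p) (hP : Prp d) (hC : 0 < C)
    (hfix : ∀ (φ : X d → ℝ), IsTest φ → ∀ t : ℝ, t ≠ 0 →
      eLpNorm (sinP t φ) (ENNReal.ofReal (qd d)) volume ≤
        ENNReal.ofReal (C * |t| ^ (-gm d)) * eLpNorm φ (ENNReal.ofReal (qc d)) volume)
    {f g φ : X d → ℝ} (hf : AEStronglyMeasurable f volume) (hg : AEStronglyMeasurable g volume)
    (hφ : IsTest φ) {R t t0 r : ℝ} (hr : r ∈ uIoc t0 t) (hrt : r ≠ t)
    (hsupp : tsupport φ ⊆ Metric.ball 0 (R - |t - t0|))
    (h1 : Integrable (fun x => |f x| ^ (p - 1) * f x * sinP (t - r) φ x) volume)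
    (h2 : Integrable (fun x => |g x| ^ (p - 1) * g x * sinP (t - r) φ x) volume) :
    ‖(∫ x, |f x| ^ (p - 1) * f x * sinP (t - r) φ x) -
      ∫ x, |g x| ^ (p - 1) * g x * sinP (t - r) φ x‖ₑ ≤
    ENNReal.ofReal (p * C) * (ENNReal.ofReal (|t - r| ^ (-gm d)) *
      (eLpNorm f (ENNReal.ofReal (Qd d p)) volume + eLpNorm g (ENNReal.ofReal (Qd d p)) volume) ^
        (p - 1) *
      eLpNorm (fun x => f x - g x) (ENNReal.ofReal (qd d))
        (volume.restrict (Metric.ball 0 (R - |r - t0|)))) *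
      eLpNorm φ (ENNReal.ofReal (qc d)) volume := by
  obtain ⟨hb, hd1, hqd, hqc, hconj, hqm, hQ, hk⟩ := facts hA
  have hp : 0 < p := by linarith
  set s : X d → ℝ := sinP (t - r) φ with hs
  have hsT : IsTest s := (hP φ hφ (t - r)).2.1
  have hs0 : ∀ x, x ∉ Metric.ball (0 : X d) (R - |r - t0|) → s x = 0 := by
    intro x hx
    refine (hP φ hφ (t - r)).2.2 x fun y hy => ?_
    by_contra hne
    have h3 : y ∈ tsupport φ := subset_tsupport φ hne
    have h4 := Metric.mem_ball.1 (hsupp h3)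
    apply hx
    rw [Metric.mem_ball]
    have h5 := dist_triangle x y (0 : X d)
    rw [dist_comm x y] at h5
    rw [between hr] at h4
    linarith
  rw [← integral_sub h1 h2]
  have e1 : (∫ x, (|f x| ^ (p - 1) * f x * s x - |g x| ^ (p - 1) * g x * s x)) =
      ∫ x, (|f x| ^ (p - 1) * f x - |g x| ^ (p - 1) * g x) * s x := by
    refine integral_congr_ae (Eventually.of_forall fun x => ?_)
    simp only []
    ring
  rw [e1]
  refine (enorm_integral_le_lintegral_enorm _).trans ?_
  have e2 : (∫⁻ x, ‖(|f x| ^ (p - 1) * f x - |g x| ^ (p - 1) * g x) * s x‖ₑ) =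
      ∫⁻ x in Metric.ball (0 : X d) (R - |r - t0|),
        ‖(|f x| ^ (p - 1) * f x - |g x| ^ (p - 1) * g x) * s x‖ₑ := by
    rw [← lintegral_indicator Metric.isOpen_ball.measurableSet]
    refine lintegral_congr fun x => ?_
    by_cases hx : x ∈ Metric.ball (0 : X d) (R - |r - t0|)
    · rw [indicator_of_mem hx]
    · rw [indicator_of_notMem hx, hs0 x hx, mul_zero, enorm_zero]
  rw [e2, ← eLpNorm_one_eq_lintegral_enorm]
  refine (est hb (by positivity : (0 : ℝ) < ((d : ℝ) + 1) / 2) (by linarith : (0 : ℝ) < qd d) hk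
    (Metric.ball (0 : X d) (R - |r - t0|)) f g s hf hg
    hsT.1.continuous.aestronglyMeasurable).trans ?_
  rw [← hQ]
  have h6 := hfix φ hφ (t - r) (sub_ne_zero.2 hrt.symm)
  rw [← hs] at h6
  rw [sub_add_cancel]
  calc ENNReal.ofReal p * ((eLpNorm f (ENNReal.ofReal (Qd d p)) volume +
        eLpNorm g (ENNReal.ofReal (Qd d p)) volume) ^ (p - 1) *
        (eLpNorm (fun x => f x - g x) (ENNReal.ofReal (qd d))
          (volume.restrict (Metric.ball 0 (R - |r - t0|))) *
          eLpNorm s (ENNReal.ofReal (qd d)) volume)) ≤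
      ENNReal.ofReal p * ((eLpNorm f (ENNReal.ofReal (Qd d p)) volume +
        eLpNorm g (ENNReal.ofReal (Qd d p)) volume) ^ (p - 1) *
        (eLpNorm (fun x => f x - g x) (ENNReal.ofReal (qd d))
          (volume.restrict (Metric.ball 0 (R - |r - t0|))) *
          (ENNReal.ofReal (C * |t - r| ^ (-gm d)) * eLpNorm φ (ENNReal.ofReal (qc d)) volume))) :=
        mul_le_mul' le_rfl (mul_le_mul' le_rfl (mul_le_mul' le_rfl h6))
    _ = _ := by
      rw [ENNReal.ofReal_mul hC.le, ENNReal.ofReal_mul hp.le]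
      ring

end Wptx

theorem thm_Wpt (hDua : St_Dua) (hDuI : St_DuI) : St_Wpt := by
  intro d p hA hP hF
  obtain ⟨hb, hd1, hqd, hqc, hconj, hqm, hQ, hk⟩ := Wptx.facts hA
  obtain ⟨C, hC, hfix⟩ := hF
  have hp : 0 < p := by linarith
  refine ⟨p * C, mul_pos hp hC, ?_⟩
  intro J t0 u u' hJ ht0 hu hu' hDh R t ht
  refine hDua d (qd d) (qc d) hqd hconj (Metric.ball 0 (R - |t - t0|)) Metric.isOpen_ball _ _
    ?_ ?_
  · have h1 : MemLp (fun x => u t x - u' t x) (ENNReal.ofReal (ms d p)) volume :=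
      (hu.1 t ht).sub (hu'.1 t ht)
    have : IsFiniteMeasure (volume.restrict (Metric.ball (0 : X d) (R - |t - t0|))) :=
      ⟨by
        rw [Measure.restrict_apply_univ]
        exact measure_ball_lt_top⟩
    exact (h1.restrict _).mono_exponent (ENNReal.ofReal_le_ofReal hqm)
  · intro φ hφ hsupp
    have hsub : uIcc t0 t ⊆ J := hJ.uIcc_subset ht0 ht
    obtain ⟨a1, a2⟩ := hDuI d p hA hP J u hJ hu φ t hφ
    obtain ⟨b1, b2⟩ := hDuI d p hA hP J u' hJ hu' φ t hφ
    have hm1 : 1 ≤ ms d p := by linarith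
    have e1 : ∫ x, (u t x - u' t x) * φ x = -∫ r in t0..t,
        ((∫ x, |u r x| ^ (p - 1) * u r x * sinP (t - r) φ x) -
          ∫ x, |u' r x| ^ (p - 1) * u' r x * sinP (t - r) φ x) := by
      have h1 : ∫ x, (u t x - u' t x) * φ x = (∫ x, u t x * φ x) - ∫ x, u' t x * φ x := by
        rw [← integral_sub (Wptx.int_test hm1 (hu.1 t ht) hφ)
          (Wptx.int_test hm1 (hu'.1 t ht) hφ)]
        refine integral_congr_ae (Eventually.of_forall fun x => ?_)
        simp only []
        ring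
      rw [h1, hDh φ hφ t ht, intervalIntegral.integral_sub (a2 t0 ht0 t ht) (b2 t0 ht0 t ht)]
    rw [e1, enorm_neg]
    have e2 : ‖∫ r in t0..t, ((∫ x, |u r x| ^ (p - 1) * u r x * sinP (t - r) φ x) -
          ∫ x, |u' r x| ^ (p - 1) * u' r x * sinP (t - r) φ x)‖ₑ ≤
        ∫⁻ r in uIoc t0 t, ‖(∫ x, |u r x| ^ (p - 1) * u r x * sinP (t - r) φ x) -
          ∫ x, |u' r x| ^ (p - 1) * u' r x * sinP (t - r) φ x‖ₑ := by
      rw [← ofReal_norm, intervalIntegral.norm_intervalIntegral_eq, ofReal_norm]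
      exact enorm_integral_le_lintegral_enorm _
    refine e2.trans ?_
    have hN : eLpNorm φ (ENNReal.ofReal (qc d)) volume ≠ ⊤ :=
      (hφ.1.continuous.memLp_of_hasCompactSupport hφ.2).2.ne
    rw [← lintegral_const_mul' _ _ ENNReal.ofReal_ne_top, ← lintegral_mul_const' _ _ hN]
    refine lintegral_mono_ae ?_
    have hne : ∀ᵐ r : ℝ, r ≠ t := by
      rw [ae_iff]
      simp
    rw [ae_restrict_iff' measurableSet_uIoc]
    filter_upwards [hne] with r hrt hr
    have hrJ : r ∈ J := hsub (uIoc_subset_uIcc hr)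
    exact Wptx.ptw hA hP hC hfix (hu.1 r hrJ).1 (hu'.1 r hrJ).1 hφ hr hrt hsupp (a1 r hrJ)
      (b1 r hrJ)

end Pool.Agent.SPI
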