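import Pool.Agent.SPI.St
import Pool.Agent.QWF.SL
import Pool.Agent.QWF.SL1

/-!
# SPI, module Zon4: zonal functions in `ℝ⁴`
-/

set_option autoImplicit false

open MeasureTheory Filter Topology Set
open scoped ENNReal NNReal RealInnerProductSpace ContDiff

namespace Pool.Agent.SPI

open Pool.Agent.QWL (X IsTest ft hs HD sc HN mult cosP sinP dcosP IsSoln IsMaxSoln Scatters)

namespace Zon4x

/-- integration against the density -/
theorem dens (x : X 4) (hx : x ≠ 0) (φ : ℝ → ℂ) (hφ : Continuous φ) :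
    ∫ w : Metric.sphere (0 : X 4) 1, φ (inner ℝ x (w : X 4)) ∂((volume : Measure (X 4)).toSphere) =
      ∫ p in (-‖x‖)..‖x‖, ((4 * Real.pi / ‖x‖ * √(1 - p ^ 2 / ‖x‖ ^ 2) : ℝ) : ℂ) * φ p := by
  have hx0 : 0 < ‖x‖ := norm_pos_iff.mpr hx
  have hm : Measurable (fun w : Metric.sphere (0 : X 4) 1 => inner ℝ x (w : X 4)) := by fun_prop
  have h1 := Pool.Agent.QWF.SL1x.meas Pool.Agent.QWF.thm_SL x hx
  rw [← integral_map (φ := fun w : Metric.sphere (0 : X 4) 1 => inner ℝ x (w : X 4)) hm.aemeasurable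
    hφ.aestronglyMeasurable, h1, integral_withDensity_eq_integral_toReal_smul (by fun_prop)
    (Eventually.of_forall fun _ => ENNReal.ofReal_lt_top)]
  rw [intervalIntegral.integral_of_le (by linarith), ← integral_Icc_eq_integral_Ioc]
  refine setIntegral_congr_fun measurableSet_Icc (fun p hp => ?_)
  have h1 : 0 ≤ 4 * Real.pi / ‖x‖ * √(1 - p ^ 2 / ‖x‖ ^ 2) :=
    mul_nonneg (by positivity) (Real.sqrt_nonneg _)
  change (ENNReal.ofReal (4 * Real.pi / ‖x‖ * √(1 - p ^ 2 / ‖x‖ ^ 2))).toReal • φ p = _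
  rw [ENNReal.toReal_ofReal h1]
  rfl

end Zon4x

theorem thm_Zon4 : St_Zon4 := by
  intro x hx φ hφ
  have hx0 : 0 < ‖x‖ := norm_pos_iff.mpr hx
  rw [Zon4x.dens x hx φ hφ]
  have h1 := intervalIntegral.integral_deriv_smul_comp (a := Real.pi) (b := 0)
    (f := fun θ : ℝ => ‖x‖ * Real.cos θ) (f' := fun θ : ℝ => ‖x‖ * (-Real.sin θ))
    (g := fun p : ℝ => ((4 * Real.pi / ‖x‖ * √(1 - p ^ 2 / ‖x‖ ^ 2) : ℝ) : ℂ) * φ p)
    (fun θ _ => (Real.hasDerivAt_cos θ).const_mul ‖x‖) (by fun_prop) (by fun_prop)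
  simp only [Real.cos_pi, Real.cos_zero, mul_one, mul_neg] at h1
  rw [← h1, intervalIntegral.integral_symm, ← intervalIntegral.integral_neg,
    ← intervalIntegral.integral_const_mul]
  refine intervalIntegral.integral_congr (fun θ hθ => ?_)
  rw [uIcc_of_le Real.pi_pos.le] at hθ
  have hs : 0 ≤ Real.sin θ := Real.sin_nonneg_of_mem_Icc hθ
  have e1 : √(1 - (‖x‖ * Real.cos θ) ^ 2 / ‖x‖ ^ 2) = Real.sin θ := by
    rw [mul_pow, mul_div_cancel_left₀ _ (by positivity), ← Real.sin_sq, Real.sqrt_sq hs]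
  have hxc : (‖x‖ : ℂ) ≠ 0 := by exact_mod_cast hx0.ne'
  simp only [Function.comp, e1, Complex.real_smul]
  push_cast
  field_simp

end Pool.Agent.SPI
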