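import Pool.Agent.SPI.St
import Pool.Agent.QWE.SL
import Pool.Agent.QWE.SL1

set_option autoImplicit false

/-!
# SPI, Zon5: zonal functions in `ℝ⁵`
-/

open MeasureTheory Filter Topology Set
open scoped ENNReal NNReal RealInnerProductSpace ContDiff

namespace Pool.Agent.SPI

open Pool.Agent.QWL (X)

namespace Zon5x

theorem slice (x : X 5) (hx : x ≠ 0) (φ : ℝ → ℂ) (hφ : Continuous φ) :
    ∫ w : Metric.sphere (0 : X 5) 1, φ (inner ℝ x (w : X 5)) ∂((volume : Measure (X 5)).toSphere) =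
      ∫ p in (-‖x‖)..‖x‖, (2 * Real.pi ^ 2 / ‖x‖ * (1 - p ^ 2 / ‖x‖ ^ 2)) • φ p := by
  have hz0 : 0 < ‖x‖ := norm_pos_iff.2 hx
  have hm : Measurable (fun w : Pool.Agent.QWE.S => inner ℝ x (w : Pool.Agent.QWE.E)) := by
    fun_prop
  have h1 := Pool.Agent.QWE.SL1x.meas Pool.Agent.QWE.thm_SL x hx
  have h2 : ∫ w : Pool.Agent.QWE.S, φ (inner ℝ x (w : Pool.Agent.QWE.E)) ∂Pool.Agent.QWE.sg =
      ∫ p in (-‖x‖)..‖x‖, (2 * Real.pi ^ 2 / ‖x‖ * (1 - p ^ 2 / ‖x‖ ^ 2)) • φ p := by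
    rw [← integral_map hm.aemeasurable hφ.aestronglyMeasurable, h1,
      integral_withDensity_eq_integral_toReal_smul (by fun_prop)
        (Eventually.of_forall fun _ => ENNReal.ofReal_lt_top)]
    rw [intervalIntegral.integral_of_le (by linarith), ← integral_Icc_eq_integral_Ioc]
    refine setIntegral_congr_fun measurableSet_Icc (fun p hp => ?_)
    have h3 : 0 ≤ 2 * Real.pi ^ 2 / ‖x‖ * (1 - p ^ 2 / ‖x‖ ^ 2) := by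
      refine mul_nonneg (by positivity) ?_
      rw [sub_nonneg, div_le_one (by positivity)]
      exact sq_le_sq' hp.1 hp.2
    change (ENNReal.ofReal (2 * Real.pi ^ 2 / ‖x‖ * (1 - p ^ 2 / ‖x‖ ^ 2))).toReal • φ p =
      (2 * Real.pi ^ 2 / ‖x‖ * (1 - p ^ 2 / ‖x‖ ^ 2)) • φ p
    rw [ENNReal.toReal_ofReal h3]
  exact h2

end Zon5x

/-- **Zon5**. -/
theorem thm_Zon5 : St_Zon5 := by
  intro x hx φ hφ
  have hz0 : 0 < ‖x‖ := norm_pos_iff.2 hx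
  have hz1 : ‖x‖ ≠ 0 := hz0.ne'
  rw [Zon5x.slice x hx φ hφ]
  have h1 : ∀ s : ℝ, ((1 - s ^ 2 : ℝ) : ℂ) * φ (‖x‖ * s) =
      (fun p : ℝ => ((1 - p ^ 2 / ‖x‖ ^ 2 : ℝ) : ℂ) * φ p) (s * ‖x‖) := by
    intro s
    have e : 1 - (s * ‖x‖) ^ 2 / ‖x‖ ^ 2 = 1 - s ^ 2 := by
      field_simp
    show _ = ((1 - (s * ‖x‖) ^ 2 / ‖x‖ ^ 2 : ℝ) : ℂ) * φ (s * ‖x‖)
    rw [e, mul_comm s ‖x‖]
  have h2 : ∫ s in (-1 : ℝ)..1, ((1 - s ^ 2 : ℝ) : ℂ) * φ (‖x‖ * s) =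
      ‖x‖⁻¹ • ∫ p in (-1 : ℝ) * ‖x‖..1 * ‖x‖, ((1 - p ^ 2 / ‖x‖ ^ 2 : ℝ) : ℂ) * φ p :=
    (intervalIntegral.integral_congr (fun s _ => h1 s)).trans
      (intervalIntegral.integral_comp_mul_right
        (fun p : ℝ => ((1 - p ^ 2 / ‖x‖ ^ 2 : ℝ) : ℂ) * φ p) hz1)
  rw [h2]
  have e1 : (-1 : ℝ) * ‖x‖ = -‖x‖ := by ring
  rw [e1, one_mul, Complex.real_smul, ← mul_assoc, ← intervalIntegral.integral_const_mul]
  refine intervalIntegral.integral_congr (fun p _ => ?_)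
  show (2 * Real.pi ^ 2 / ‖x‖ * (1 - p ^ 2 / ‖x‖ ^ 2)) • φ p =
    2 * (Real.pi : ℂ) ^ 2 * ((‖x‖⁻¹ : ℝ) : ℂ) * (((1 - p ^ 2 / ‖x‖ ^ 2 : ℝ) : ℂ) * φ p)
  rw [Complex.real_smul]
  push_cast
  ring

end Pool.Agent.SPI
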