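import Pool.Agent.SPI.Sy
import Pool.Agent.SPI.KF
import Pool.Agent.SPI.Zon4
import Pool.Agent.SPI.Zon5
import Pool.Agent.SPI.Osc
import Pool.Agent.SPI.KB4
import Pool.Agent.SPI.KB5
import Pool.Agent.SPI.BL1
import Pool.Agent.SPI.BL2
import Pool.Agent.SPI.Hol
import Pool.Agent.SPI.Fam
import Pool.Agent.SPI.Ana
import Pool.Agent.SPI.L3
import Pool.Agent.SPI.Fix
import Pool.Agent.SPI.Dua
import Pool.Agent.SPI.FixT
import Pool.Agent.SPI.Sca
import Pool.Agent.SPI.Cnt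
import Pool.Agent.SPI.DuI
import Pool.Agent.SPI.Wpt
import Pool.Agent.SPI.Uni
import Pool.Agent.SPI.In4
import Pool.Agent.SPI.In5
import Pool.Agent.SPI.Itp
import Pool.Agent.SPI.Eqv
import Pool.Agent.SPI.Fin

set_option autoImplicit false

/-! # SPI: assembly -/

open MeasureTheory Filter Topology Set
open scoped ENNReal NNReal

namespace Pool.Agent.SPI

open Pool.Agent.QWL (X HN Scatters)

namespace Asm

theorem kf : St_KF := thm_KF thm_Sy

theorem l3 : St_L3 := thm_L3 (thm_BL1 thm_Sy kf) (thm_BL2 thm_Sy) thm_Fam (thm_Ana thm_Sy thm_Hol thm_Fam)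

theorem fixT : St_FixT := thm_FixT (thm_Fix l3) thm_Dua

theorem uni : St_Uni := thm_Uni thm_Sca thm_Cnt (thm_Wpt thm_Dua thm_DuI)

theorem eqv : St_Eqv := thm_Eqv thm_Itp thm_Cnt

/-- The fixed time estimate for `d = 4`. -/
theorem fix4 : FixT 4 := fixT 4 (by norm_num) (thm_KB4 thm_Zon4 thm_Osc) thm_In4.1

/-- The fixed time estimate for `d = 5`. -/
theorem fix5 : FixT 5 := fixT 5 (by norm_num) (thm_KB5 thm_Zon5) thm_In5.1

/-- **The main theorem for every Strichartz space.** -/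
theorem final (d : ℕ) (p q r : ℝ) (h : Adm d p) (hP : Pr d p q r) (I : Set ℝ) (u v : ℝ → X d → ℝ)
    (hu : IsMaxSolnS p q r I u v) (hA : ∃ A : ℝ≥0, ∀ t ∈ I, HN p (u t) (v t) ≤ A) :
    I = univ ∧ Scatters p u v atTop ∧ Scatters p u v atBot := by
  rcases h with ⟨rfl, hp⟩ | ⟨rfl, hp⟩
  · exact thm_Fin eqv 4 p (Or.inl ⟨rfl, hp⟩) (uni 4 p (Or.inl ⟨rfl, hp⟩) thm_In4.1 fix4) (thm_In4.2 p hp).1
      (thm_In4.2 p hp).2 (Pool.Agent.QWF.Asm.final4 p hp) q r hP I u v hu hA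
  · exact thm_Fin eqv 5 p (Or.inr ⟨rfl, hp⟩) (uni 5 p (Or.inr ⟨rfl, hp⟩) thm_In5.1 fix5) (thm_In5.2 p hp).1
      (thm_In5.2 p hp).2 (Pool.Agent.QWP.Asm.final5 p hp) q r hP I u v hu hA

end Asm

end Pool.Agent.SPI
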