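import Pool.Agent.SPI.St

set_option autoImplicit false

/-!
# SPI, module Cnt: measurability and local boundedness of the norms of a continuous curve
-/

open MeasureTheory Filter Topology Set
open scoped ENNReal NNReal

namespace Pool.Agent.SPI

open Pool.Agent.QWL (X)

namespace Cntx

variable {d : ℕ} {m : ℝ} {J : Set ℝ} {u : ℝ → X d → ℝ}

theorem lsc (hm : 1 ≤ m) (hu : Cu m J u) (B : ℝ → Set (X d)) (hB : ∀ r, MeasurableSet (B r))
    (hBo : ∀ r : ℝ, ∀ x ∈ B r, ∀ᶠ s in 𝓝 r, x ∈ B s) (q : ℝ≥0∞) :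
    LowerSemicontinuous (fun r : J => eLpNorm (u r) q (volume.restrict (B r))) := by
  intro r y hy
  by_contra hcon
  rw [Filter.not_eventually] at hcon
  obtain ⟨ns, hns, hle⟩ := Filter.exists_seq_forall_of_frequently hcon
  have hns1 : Tendsto (fun n => ((ns n : J) : ℝ)) atTop (𝓝 (r : ℝ)) :=
    (continuous_subtype_val.tendsto r).comp hns
  have hns2 : Tendsto (fun n => ((ns n : J) : ℝ)) atTop (𝓝[J] (r : ℝ)) :=
    tendsto_nhdsWithin_iff.2 ⟨hns1, Eventually.of_forall fun n => (ns n).2⟩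
  have h1 := (hu.2 r r.2).comp hns2
  have hm0 : ENNReal.ofReal m ≠ 0 := by
    rw [Ne, ENNReal.ofReal_eq_zero, not_le]
    linarith
  have h2 : TendstoInMeasure volume (fun n => u (ns n)) atTop (u r) :=
    tendstoInMeasure_of_tendsto_eLpNorm hm0 (fun n => (hu.1 _ (ns n).2).1) (hu.1 _ r.2).1 h1
  obtain ⟨k, hk, hae⟩ := h2.exists_seq_tendsto_ae
  have h3 : eLpNorm (u r) q (volume.restrict (B r)) ≤
      liminf (fun i => eLpNorm ((B (ns (k i))).indicator (u (ns (k i)))) q
        (volume.restrict (B r))) atTop := by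
    refine Lp.eLpNorm_lim_le_liminf_eLpNorm
      (fun i => ((hu.1 _ (ns (k i)).2).1.indicator (hB _)).restrict) _ ?_
    rw [ae_restrict_iff' (hB _)]
    filter_upwards [hae] with x hx hxB
    have h5 : ∀ᶠ i in atTop, x ∈ B (ns (k i)) :=
      (hns1.comp hk.tendsto_atTop).eventually (hBo r x hxB)
    refine hx.congr' ?_
    filter_upwards [h5] with i hi
    rw [Set.indicator_of_mem hi]
  have h4 : ∀ i, eLpNorm ((B (ns (k i))).indicator (u (ns (k i)))) q
      (volume.restrict (B r)) ≤ y := by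
    intro i
    refine (eLpNorm_mono_measure _ Measure.restrict_le_self).trans ?_
    rw [eLpNorm_indicator_eq_eLpNorm_restrict (hB _)]
    exact not_lt.1 (hle (k i))
  have h6 : liminf (fun i => eLpNorm ((B (ns (k i))).indicator (u (ns (k i)))) q
      (volume.restrict (B r))) atTop ≤ liminf (fun _ : ℕ => y) atTop :=
    liminf_le_liminf (Eventually.of_forall h4)
  rw [liminf_const] at h6
  exact absurd (h3.trans h6) (not_le.2 hy)

theorem bdd (hm : 1 ≤ m) (hJ : J.OrdConnected) (hu : Cu m J u) {a b : ℝ} (ha : a ∈ J)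
    (hb : b ∈ J) : ∃ M : ℝ≥0∞, M < ⊤ ∧ ∀ r ∈ Icc a b, eLpNorm (u r) (ENNReal.ofReal m) volume ≤ M := by
  have hsub : Icc a b ⊆ J := hJ.out ha hb
  have hm1 : (1 : ℝ≥0∞) ≤ ENNReal.ofReal m := by
    rw [← ENNReal.ofReal_one]
    exact ENNReal.ofReal_le_ofReal hm
  refine isCompact_Icc.induction_on
    (p := fun s => ∃ M : ℝ≥0∞, M < ⊤ ∧ ∀ r ∈ s, eLpNorm (u r) (ENNReal.ofReal m) volume ≤ M)
    ⟨0, by simp, fun r hr => absurd hr (by simp)⟩ ?_ ?_ ?_
  · rintro s t hst ⟨M, hM, h⟩
    exact ⟨M, hM, fun r hr => h r (hst hr)⟩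
  · rintro s t ⟨M, hM, h⟩ ⟨M', hM', h'⟩
    refine ⟨max M M', max_lt hM hM', fun r hr => ?_⟩
    rcases hr with hr | hr
    · exact (h r hr).trans (le_max_left _ _)
    · exact (h' r hr).trans (le_max_right _ _)
  · intro t ht
    have htJ := hsub ht
    have h1 : ∀ᶠ s in 𝓝[J] t,
        eLpNorm (fun x => u s x - u t x) (ENNReal.ofReal m) volume < 1 :=
      (hu.2 t htJ).eventually (gt_mem_nhds (by simp))
    have h2 : ∀ᶠ s in 𝓝[Icc a b] t,
        eLpNorm (fun x => u s x - u t x) (ENNReal.ofReal m) volume < 1 :=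
      h1.filter_mono (nhdsWithin_mono t hsub)
    refine ⟨_, inter_mem h2 self_mem_nhdsWithin, eLpNorm (u t) (ENNReal.ofReal m) volume + 1,
      ENNReal.add_lt_top.2 ⟨(hu.1 t htJ).2, by simp⟩, ?_⟩
    rintro s ⟨hs1, hs2⟩
    have h3 : u s = u t + fun x => u s x - u t x := by
      ext x
      simp
    have hs1' : eLpNorm (fun x => u s x - u t x) (ENNReal.ofReal m) volume < 1 := hs1
    calc eLpNorm (u s) (ENNReal.ofReal m) volume
        = eLpNorm (u t + fun x => u s x - u t x) (ENNReal.ofReal m) volume := by rw [← h3]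
      _ ≤ eLpNorm (u t) (ENNReal.ofReal m) volume +
          eLpNorm (fun x => u s x - u t x) (ENNReal.ofReal m) volume :=
        eLpNorm_add_le (hu.1 t htJ).1 ((hu.1 s (hsub hs2)).1.sub (hu.1 t htJ).1) hm1
      _ ≤ _ := by gcongr

end Cntx

/-- **Cnt** -/
theorem thm_Cnt : St_Cnt := by
  intro d m J u hm hJ hu
  have hJm : MeasurableSet J := hJ.measurableSet
  refine ⟨?_, ?_, ?_, ?_⟩
  · intro q hq
    have h := Cntx.lsc hm hu (fun _ => univ) (fun _ => MeasurableSet.univ)
      (fun r x _ => Eventually.of_forall fun s => mem_univ x) (ENNReal.ofReal q)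
    simp only [Measure.restrict_univ] at h
    exact aemeasurable_restrict_of_measurable_subtype hJm h.measurable
  · intro q t0 R hq
    have h := Cntx.lsc hm hu (fun r => Metric.ball (0 : X d) (R - |r - t0|))
      (fun _ => measurableSet_ball) (by
        intro r x hx
        have hc : Continuous fun s : ℝ => R - |s - t0| := by fun_prop
        have h1 : dist x 0 < R - |r - t0| := hx
        exact (hc.tendsto r).eventually (lt_mem_nhds h1)) (ENNReal.ofReal q)
    exact aemeasurable_restrict_of_measurable_subtype hJm h.measurable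
  · intro a ha b hb
    exact Cntx.bdd hm hJ hu ha hb
  · intro q t0 R hq hqm a ha b hb
    obtain ⟨M, hM, hM'⟩ := Cntx.bdd hm hJ hu ha hb
    have hqm' : ENNReal.ofReal q ≤ ENNReal.ofReal m := ENNReal.ofReal_le_ofReal hqm
    have he : 0 ≤ 1 / q - 1 / m := by
      rw [sub_nonneg]
      exact one_div_le_one_div_of_le (by linarith) hqm
    refine ⟨M * volume (Metric.ball (0 : X d) R) ^ (1 / q - 1 / m),
      ENNReal.mul_lt_top hM (ENNReal.rpow_lt_top_of_nonneg he measure_ball_lt_top.ne), ?_⟩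
    intro r hr
    have h1 := eLpNorm_le_eLpNorm_mul_rpow_measure_univ (μ := volume.restrict
      (Metric.ball (0 : X d) (R - |r - t0|))) hqm'
      ((hu.1 r (hJ.out ha hb hr)).1.restrict)
    rw [ENNReal.toReal_ofReal (by linarith), ENNReal.toReal_ofReal (by linarith),
      Measure.restrict_apply_univ] at h1
    refine h1.trans (mul_le_mul' ?_ (ENNReal.rpow_le_rpow (measure_mono
      (Metric.ball_subset_ball ?_)) he))
    · exact (eLpNorm_mono_measure _ Measure.restrict_le_self).trans (hM' r hr)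
    · linarith [abs_nonneg (r - t0)]

end Pool.Agent.SPI
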