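import Pool.Agent.QWL.Defs

set_option autoImplicit false

/-!
# SPI: the Strichartz space in the definition of a solution does not matter (problem MP_9ce95b_an)

`u_tt - Δu + |u|^{p-1} u = 0` in `ℝ^d`, `d = 4`, `p > 5` or `d = 5`, `p > 3`; the literal definitions are in
`Pool/Agent/QWL/Defs.lean` (Strichartz space `L^{p-1}_t L^{d(p-1)}_x`). Here every scale invariant pair `(q,r)`,
`1/q + d/r = 2/(p-1)`, `p-1 ≤ q ≤ (d+1)(p-1)/2`, is allowed (`q = (d+1)(p-1)/2 = r` is the diagonal space); all these classes of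
solutions coincide. The key is local uniqueness in the diagonal space, from the fixed time estimate
`‖(sin(t√-Δ)/√-Δ) φ‖_{L^{qd}} ≤ C |t|^{-(d-1)/(d+1)} ‖φ‖_{L^{qc}}`, `qd = 2(d+1)/(d-1)`, `qc = 2(d+1)/(d+3)` (complex
interpolation of the family `(2π|ξ|)^{-z} e^{± 2πi|ξ|}`), and finite speed of propagation.
-/

open MeasureTheory Filter Topology Set
open scoped ENNReal NNReal RealInnerProductSpace ContDiff

namespace Pool.Agent.SPI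

open Pool.Agent.QWL (X IsTest ft hs HD sc HN mult cosP sinP dcosP IsSoln IsMaxSoln Scatters)

variable {d : ℕ}

/-- The dimension and the power. -/
def Adm (d : ℕ) (p : ℝ) : Prop := (d = 4 ∧ 5 < p) ∨ (d = 5 ∧ 3 < p)

/-- `qd = 2(d+1)/(d-1)`. -/
noncomputable def qd (d : ℕ) : ℝ := 2 * ((d : ℝ) + 1) / ((d : ℝ) - 1)

/-- `qc = 2(d+1)/(d+3)`, the dual exponent of `qd`. -/
noncomputable def qc (d : ℕ) : ℝ := 2 * ((d : ℝ) + 1) / ((d : ℝ) + 3)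

/-- `(d-1)/(d+1)`. -/
noncomputable def gm (d : ℕ) : ℝ := ((d : ℝ) - 1) / ((d : ℝ) + 1)

/-- The diagonal exponent `(d+1)(p-1)/2`. -/
noncomputable def Qd (d : ℕ) (p : ℝ) : ℝ := ((d : ℝ) + 1) * (p - 1) / 2

/-- The Sobolev exponent `d(p-1)/2`. -/
noncomputable def ms (d : ℕ) (p : ℝ) : ℝ := (d : ℝ) * (p - 1) / 2

/-- Complex valued test functions. -/
def TestC (f : X d → ℂ) : Prop := ContDiff ℝ ∞ f ∧ HasCompactSupport f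

/-- Fourier transform of a complex valued function. -/
noncomputable def ftC (f : X d → ℂ) (ξ : X d) : ℂ :=
  ∫ x, f x * Complex.exp (-2 * Real.pi * Complex.I * ((inner ℝ x ξ : ℝ) : ℂ))

/-- The symbol `(2π|ξ|)^{-z} e^{-2π|ξ|(ε - σ i)}`. -/
noncomputable def sy (z : ℂ) (ε σ : ℝ) (ξ : X d) : ℂ :=
  ((2 * Real.pi * ‖ξ‖ : ℝ) : ℂ) ^ (-z) *
    Complex.exp (-((2 * Real.pi * ‖ξ‖ : ℝ) : ℂ) * ((ε : ℂ) - (σ : ℂ) * Complex.I))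

/-- The bilinear form with the symbol `sy z ε σ`. -/
noncomputable def Bf (z : ℂ) (ε σ : ℝ) (f g : X d → ℂ) : ℂ := ∫ ξ, sy z ε σ ξ * ftC f ξ * ftC g (-ξ)

/-- The kernel of the symbol `sy z ε σ`. -/
noncomputable def Kf (z : ℂ) (ε σ : ℝ) (x : X d) : ℂ :=
  ∫ ξ : X d, sy z ε σ ξ * Complex.exp (2 * Real.pi * Complex.I * ((inner ℝ x ξ : ℝ) : ℂ))

/-- The spherical integral `∫_S (ε - i (σ + x·w))^{-a} dw`. -/
noncomputable def Jf (a : ℂ) (ε σ : ℝ) (x : X d) : ℂ :=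
  ∫ w : Metric.sphere (0 : X d) 1, ((ε : ℂ) - Complex.I * ((σ + inner ℝ x (w : X d) : ℝ) : ℂ)) ^ (-a)
    ∂((volume : Measure (X d)).toSphere)

/-- The growth function on vertical lines. -/
noncomputable def gro (y : ℝ) : ℝ := (1 + 1 / |y|) * Real.exp (4 * |y|)

/-- Kernel bound on the line `Re z = (d+1)/2`. -/
def KB (d : ℕ) : Prop := ∃ C : ℝ, 0 < C ∧ ∀ (x : X d) (ε σ y : ℝ), 0 < ε → (σ = 1 ∨ σ = -1) → y ≠ 0 →
  ‖Jf (((((d : ℝ) - 1) / 2 : ℝ) : ℂ) - (y : ℂ) * Complex.I) ε σ x‖ ≤ C * gro y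

/-- The analytic family of functions `φ (φ² + δ²)^{(α(z)-1)/2}`, `α(z) = qc (1/2 + z/(d+1))`. -/
noncomputable def fam (δ : ℝ) (φ : X d → ℝ) (z : ℂ) (x : X d) : ℂ :=
  (φ x : ℂ) * ((φ x ^ 2 + δ ^ 2 : ℝ) : ℂ) ^ (((qc d : ℂ) * (1 / 2 + z / ((d : ℂ) + 1)) - 1) / 2)

/-- The propagators on test functions: test functions again, finite speed. -/
def Prp (d : ℕ) : Prop := ∀ (φ : X d → ℝ), IsTest φ → ∀ t : ℝ, IsTest (cosP t φ) ∧ IsTest (sinP t φ) ∧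
  ∀ x, (∀ y, dist y x ≤ |t| → φ y = 0) → sinP t φ x = 0

/-- The fixed time estimate. -/
def FixT (d : ℕ) : Prop := ∃ C : ℝ, 0 < C ∧ ∀ (φ : X d → ℝ), IsTest φ → ∀ t : ℝ, t ≠ 0 →
  eLpNorm (sinP t φ) (ENNReal.ofReal (qd d)) volume ≤
    ENNReal.ofReal (C * |t| ^ (-gm d)) * eLpNorm φ (ENNReal.ofReal (qc d)) volume

/-- Sobolev embedding of the critical space into `L^{d(p-1)/2}`. -/
def Sob (d : ℕ) (p : ℝ) : Prop := ∃ C : ℝ, 0 < C ∧ ∀ f : X d → ℝ, HD (sc d p) f < ⊤ →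
  MemLp f (ENNReal.ofReal (ms d p)) volume ∧
    eLpNorm f (ENNReal.ofReal (ms d p)) volume ≤ ENNReal.ofReal C * HD (sc d p) f

/-- Local existence in the class `IsSoln`. -/
def LWP (d : ℕ) (p : ℝ) : Prop := ∀ f g : X d → ℝ, HN p f g < ⊤ → ∀ t0 : ℝ, ∃ δ : ℝ, 0 < δ ∧
  ∃ u v : ℝ → X d → ℝ, IsSoln p (Icc (t0 - δ) (t0 + δ)) u v ∧ (u t0 =ᵐ[volume] f) ∧ (v t0 =ᵐ[volume] g)

/-- Continuous curve in `L^m` on `J`. -/
def Cu (m : ℝ) (J : Set ℝ) (u : ℝ → X d → ℝ) : Prop := (∀ t ∈ J, MemLp (u t) (ENNReal.ofReal m) volume) ∧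
  ∀ t ∈ J, Tendsto (fun s => eLpNorm (fun x => u s x - u t x) (ENNReal.ofReal m) volume) (𝓝[J] t) (𝓝 0)

/-- Difference of two Duhamel formulas with the same data at `t0`. -/
def Dh (p : ℝ) (J : Set ℝ) (t0 : ℝ) (u u' : ℝ → X d → ℝ) : Prop := ∀ φ : X d → ℝ, IsTest φ → ∀ t ∈ J,
  (∫ x, u t x * φ x) - (∫ x, u' t x * φ x) =
    -((∫ r in t0..t, ∫ x, |u r x| ^ (p - 1) * u r x * sinP (t - r) φ x) -
      ∫ r in t0..t, ∫ x, |u' r x| ^ (p - 1) * u' r x * sinP (t - r) φ x)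

/-- Local uniqueness in the diagonal space. -/
def Uq (d : ℕ) (p : ℝ) : Prop := ∀ (J : Set ℝ) (t0 : ℝ) (u u' : ℝ → X d → ℝ), J.OrdConnected → t0 ∈ J →
  Cu (ms d p) J u → Cu (ms d p) J u' → Dh p J t0 u u' →
  ∫⁻ r in J, eLpNorm (u r) (ENNReal.ofReal (Qd d p)) volume ^ Qd d p < ⊤ →
  ∫⁻ r in J, eLpNorm (u' r) (ENNReal.ofReal (Qd d p)) volume ^ Qd d p < ⊤ →
  ∃ η : ℝ, 0 < η ∧ ∀ t ∈ J, |t - t0| < η → u t =ᵐ[volume] u' t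

/-! ### The classes of solutions -/

/-- Solutions, with the Strichartz space `L^q_t L^r_x`. -/
def IsSolnS (p q r : ℝ) (I : Set ℝ) (u v : ℝ → X d → ℝ) : Prop :=
  I.OrdConnected ∧ (∀ t ∈ I, HN p (u t) (v t) < ⊤) ∧
  (∀ t ∈ I, Tendsto (fun s => HN p (fun x => u s x - u t x) (fun x => v s x - v t x)) (𝓝[I] t) (𝓝 0)) ∧
  (∀ s ∈ I, ∀ t ∈ I, ∫⁻ τ in Icc s t, eLpNorm (u τ) (ENNReal.ofReal r) volume ^ q < ⊤) ∧
  (∀ φ : X d → ℝ, IsTest φ → ∀ s ∈ I, ∀ t ∈ I,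
    (∫ x, u t x * φ x) - (∫ x, u s x * φ x) = ∫ τ in s..t, ∫ x, v τ x * φ x) ∧
  ∀ φ : X d → ℝ, IsTest φ → ∀ s ∈ I, ∀ t ∈ I,
    ∫ x, u t x * φ x = (∫ x, u s x * cosP (t - s) φ x) + (∫ x, v s x * sinP (t - s) φ x) -
      ∫ τ in s..t, ∫ x, |u τ x| ^ (p - 1) * u τ x * sinP (t - τ) φ x

/-- Maximal solutions, with the Strichartz space `L^q_t L^r_x`. -/
def IsMaxSolnS (p q r : ℝ) (I : Set ℝ) (u v : ℝ → X d → ℝ) : Prop :=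
  IsSolnS p q r I u v ∧ I.Nonempty ∧ ∀ (J : Set ℝ) (u' v' : ℝ → X d → ℝ), IsSolnS p q r J u' v' → I ⊆ J →
    (∀ t ∈ I, u' t =ᵐ[volume] u t ∧ v' t =ᵐ[volume] v t) → J ⊆ I

/-- Scale invariant pairs. -/
def Pr (d : ℕ) (p q r : ℝ) : Prop := p - 1 ≤ q ∧ q ≤ Qd d p ∧ 1 / q + (d : ℝ) / r = 2 / (p - 1)

end Pool.Agent.SPI
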