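import Pool.Agent.SPI.Defs

set_option autoImplicit false

/-!
# SPI: statements of the modules, with proofs on paper

Constants: `qc = 2(d+1)/(d+3) ∈ (1, 2)`, `qd = 2(d+1)/(d-1) > 2`, `1/qc + 1/qd = 1`, `γ = gm d = (d-1)/(d+1)`,
`2/(2-γ) = qc`, `2/γ = qd`, `1/(1-γ) = (d+1)/2`.
-/

open MeasureTheory Filter Topology Set
open scoped ENNReal NNReal RealInnerProductSpace ContDiff

namespace Pool.Agent.SPI

open Pool.Agent.QWL (X IsTest ft hs HD sc HN mult cosP sinP dcosP IsSoln IsMaxSoln Scatters)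

/-! ### The symbol and the kernel -/

/-- **Sy** (the symbol). Proof. `‖s^{-z}‖ = s^{-Re z}` for `s > 0` and `‖exp w‖ = e^{Re w}`. Integrability: polar coordinates (Mathlib `integrable_fun_norm_addHaar`), `∫_0^∞ r^{d-1-a} e^{-2πεr} dr < ∞` for `a < d`
(`Real.GammaIntegral_convergent` and scaling, or `integrableOn_rpow_mul_exp_neg_mul_rpow`). The point `ξ = 0` is a null set (`1 ≤ d`). -/
def St_Sy : Prop := ∀ (d : ℕ), 1 ≤ d → ∀ ε : ℝ, 0 < ε →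
  (∀ a : ℝ, a < d → Integrable (fun ξ : X d => (2 * Real.pi * ‖ξ‖) ^ (-a) * Real.exp (-(ε * (2 * Real.pi * ‖ξ‖)))) volume) ∧
  ∀ (z : ℂ) (σ : ℝ),
    (∀ ξ : X d, ξ ≠ 0 → ‖sy z ε σ ξ‖ = (2 * Real.pi * ‖ξ‖) ^ (-z.re) * Real.exp (-(ε * (2 * Real.pi * ‖ξ‖)))) ∧
    (z.re < d → Integrable (fun ξ : X d => sy z ε σ ξ) volume)

/-- **KF** (the kernel). Proof. Polar coordinates (`MeasureTheory.Measure.measurePreserving_homeomorphUnitSphereProd`; compare `Pool/Agent/QWF/Pol.lean`, `Pool/Agent/QWP/Pol.lean`): for `w` in the sphere and `λ = ε - i(σ + x·w)`, `Re λ = ε > 0`,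
`∫_0^∞ r^{d-1} (2πr)^{-z} e^{-2πr λ} dr = (2π)^{-d} Γ(d-z) λ^{-(d-z)}` (Mathlib `Complex.integral_cpow_mul_exp_neg_mul_Ioi` with exponent `d - z`, real part `> 0`, and `r ↦ 2π r`; `(1/λ)^a = λ^{-a}` since `arg λ ≠ π`). Fubini: `sy z ε σ` is integrable (Sy). -/
def St_KF : Prop := ∀ (d : ℕ), 1 ≤ d → ∀ (z : ℂ) (ε σ : ℝ) (x : X d), z.re < d → 0 < ε →
  Kf z ε σ x = (((2 * Real.pi) ^ (-(d : ℝ)) : ℝ) : ℂ) * Complex.Gamma ((d : ℂ) - z) * Jf ((d : ℂ) - z) ε σ x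

/-- **Zon4** (zonal functions in `ℝ⁴`). Proof: `QWF.St_SL1` (proved: `Pool/Agent/QWF/SL1.lean`, `Pool/Agent/QWF/SL.lean`) says that the image of the surface measure under `w ↦ x·w` has the density
`(4π/|x|) √(1 - s²/|x|²)` on `[-|x|, |x|]`; substitute `s = |x| cos θ`. (Indicator functions give the equality of the measures; then integrate the continuous function `φ` against both.) -/
def St_Zon4 : Prop := ∀ (x : X 4), x ≠ 0 → ∀ (φ : ℝ → ℂ), Continuous φ →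
  ∫ w : Metric.sphere (0 : X 4) 1, φ (inner ℝ x (w : X 4)) ∂((volume : Measure (X 4)).toSphere) =
    4 * Real.pi * ∫ θ in (0 : ℝ)..Real.pi, ((Real.sin θ ^ 2 : ℝ) : ℂ) * φ (‖x‖ * Real.cos θ)

/-- **Zon5** (zonal functions in `ℝ⁵`). Proof: as Zon4, from `QWE.St_SL1` (proved: `Pool/Agent/QWE/SL1.lean`, `Pool/Agent/QWE/SL.lean`): density `(2π²/|x|) (1 - s²/|x|²)`. -/
def St_Zon5 : Prop := ∀ (x : X 5), x ≠ 0 → ∀ (φ : ℝ → ℂ), Continuous φ →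
  ∫ w : Metric.sphere (0 : X 5) 1, φ (inner ℝ x (w : X 5)) ∂((volume : Measure (X 5)).toSphere) =
    2 * Real.pi ^ 2 * ∫ s in (-1 : ℝ)..1, ((1 - s ^ 2 : ℝ) : ℂ) * φ (‖x‖ * s)

/-- **Osc** (the oscillatory integral). Proof. Put `λ(v) = μ - i v²`, `Re λ = Re μ > 0`, so `|λ^{-1/2+iy}| = |λ|^{-1/2} e^{-y arg λ} ≤ |λ|^{-1/2} e^{π|y|/2}`. Let `m = |μ| > 0`, `a = Im μ`, `A = 2√m`.
(1) `v ≤ A`: `|λ(v)| ≥ (1/4) √m |v - √(max a 0)|`. Indeed `|λ|² = (Re μ)² + (a - v²)²`, `m² = (Re μ)² + a²`, `(v - √a⁺)² ≤ 4m`; if `|a| ≤ m/2` then `(Re μ)² ≥ 3m²/4`; if `a > m/2` then `|a - v²| = |√a - v| (√a + v) ≥ |√a - v| √(m/2)`; if `a < -m/2` then `|a - v²| ≥ m/2`. So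
`∫_0^{min V A} |λ|^{-1/2} dv ≤ 2 m^{-1/4} ∫_0^A |v - √a⁺|^{-1/2} dv ≤ 2 m^{-1/4} · 4 A^{1/2}`, an absolute constant.
(2) `V > A`: `d/dv [v λ^{-1/2+iy}] = 2iy λ^{-1/2+iy} + (1 - 2iy) μ λ^{-3/2+iy}` (because `-2iv²/λ = 2 - 2μ/λ`). Integrate from `A` to `V`; for `v ≥ A` we have `|λ| ≥ v² - m ≥ 3v²/4`, so the boundary terms are bounded by `(2/√3) e^{π|y|/2}` each and
`∫_A^∞ m |λ|^{-3/2} dv ≤ m (4/3)^{3/2} /(2A²) ≤ C`. Divide by `|2y|` and use `|1 - 2iy| ≤ e^{2|y|}`. -/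
def St_Osc : Prop := ∃ C : ℝ, 0 < C ∧ ∀ (μ : ℂ) (y V : ℝ), 0 < μ.re → y ≠ 0 → 0 ≤ V →
  ‖∫ v in (0 : ℝ)..V, (μ - Complex.I * ((v ^ 2 : ℝ) : ℂ)) ^ (-1 / 2 + (y : ℂ) * Complex.I)‖ ≤ C * gro y

/-- **KB4** (kernel bound, `d = 4`; exponent `-(3/2 - iy)`). Proof. `ρ = |x|`. If `ρ < 1/2` then `|λ| ≥ |σ + x·w| ≥ 1/2` and `|λ^{-3/2+iy}| ≤ 2^{3/2} e^{π|y|/2}` (`Re λ = ε > 0`; the measure is finite). Let `ρ ≥ 1/2`, `σ = 1`. Zon4 and `θ ↦ π - θ`: `J = 4π ∫_0^π sin²θ λ(θ)^{-3/2+iy} dθ`, `λ(θ) = ε - i(1 - ρ cos θ)`.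
(`σ = -1`: Zon4 gives `4π ∫_0^π sin²θ (ε + i(1 - ρ cos θ))^{-3/2+iy} dθ`, the complex conjugate of the same expression with `-y`, since `conj (λ^a) = (conj λ)^{conj a}`.) `d/dθ λ^{-1/2+iy} = (-1/2+iy)(-iρ sin θ) λ^{-3/2+iy}`; one integration by parts: `J = -(4π/κ) ∫_0^π cos θ λ^{-1/2+iy} dθ`,
`κ = (-1/2+iy)(-iρ)`, `|κ| ≥ ρ/2 ≥ 1/4`. On `[π/2, π]` `|λ| ≥ 1`. On `[0, π/2]` put `H(V) = ∫_0^V (μ - i c v²)^{-1/2+iy} dv`, `μ = ε + i(ρ-1)`, `c = ρ/2`; `λ(θ) = μ - i c (2 sin(θ/2))²`, so `d/dθ H(2 sin(θ/2)) = cos(θ/2) λ(θ)^{-1/2+iy}`, and with `k(θ) = cos θ / cos(θ/2)` (`|k'| ≤ 3` on `[0, π/2]`, `k(π/2) = 0`, `H(0) = 0`)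
`|∫_0^{π/2} cos θ λ^{-1/2+iy} dθ| = |∫ k' H| ≤ (3π/2) sup|H|`; `H(V) = c^{-1/2} ∫_0^{V√c} (μ - iv²)^{-1/2+iy} dv`, Osc. -/
def St_KB4 : Prop := KB 4

/-- **KB5** (kernel bound, `d = 5`; exponent `-(2 - iy)`). Proof. `ρ = |x| < 1/2`: as in KB4. `ρ ≥ 1/2`: Zon5, `J = 2π² ∫_{-1}^1 (1-s²) λ^{-2+iy} ds`, `λ(s) = ε - i(σ + ρ s)`, `λ' = -iρ`, `P1 = λ^{-1+iy}/((-1+iy)(-iρ))`, `P2 = λ^{iy}/((iy)(-1+iy)(-iρ)²)`, `P1' = λ^{-2+iy}`,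
`P2' = P1`. Two integrations by parts: `∫ (1-s²) λ^{-2+iy} = ∫ 2s P1 = [2s P2] - ∫ 2 P2`, and `|P2| ≤ e^{π|y|/2}/(|y| ρ²) ≤ 4 e^{π|y|/2}/|y|`, since `|λ^{iy}| = e^{-y arg λ}`, `Re λ > 0`. -/
def St_KB5 : Prop := KB 5

/-! ### The bilinear form on the two lines -/

/-- **BL1** (the line `Re z = (d+1)/2`). Proof. Fubini (`sy z ε σ` is integrable by Sy, `Re z = (d+1)/2 < d`): `Bf z ε σ f g = ∫∫ f(x) g(x') Kf z ε σ (x' - x) dx dx'`. By KF and KB, `|Kf| ≤ (2π)^{-d} |Γ((d-1)/2 - iy)| C gro y`, and `|Γ(a + ib)| ≤ Γ(a)` for `a > 0`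
(integral formula `Complex.Gamma_eq_integral`). -/
def St_BL1 : Prop := ∀ (d : ℕ), 2 ≤ d → KB d → ∃ C : ℝ, 0 < C ∧ ∀ (f g : X d → ℂ), Integrable f volume → Integrable g volume →
  ∀ (ε σ y : ℝ), 0 < ε → (σ = 1 ∨ σ = -1) → y ≠ 0 →
  ‖Bf (((((d : ℝ) + 1) / 2 : ℝ) : ℂ) + (y : ℂ) * Complex.I) ε σ f g‖ ≤ C * gro y * (∫ x, ‖f x‖) * ∫ x, ‖g x‖

/-- **BL2** (the line `Re z = 0`). Proof. `‖sy (iy) ε σ ξ‖ ≤ 1` for `ξ ≠ 0` (Sy). Cauchy-Schwarz and Plancherel `∫ ‖ftC f‖² = ∫ ‖f‖²` (`ftC f` is the Mathlib Fourier transform `𝓕 f`, `Real.fourier_eq'`; `f` is a Schwartz function, `HasCompactSupport.toSchwartzMap` or by hand); `ξ ↦ -ξ` preserves the integral. -/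
def St_BL2 : Prop := ∀ (d : ℕ), 1 ≤ d → ∀ (f g : X d → ℂ), TestC f → TestC g → ∀ (ε σ y : ℝ), 0 < ε →
  ‖Bf ((y : ℂ) * Complex.I) ε σ f g‖ ≤ (∫ x, ‖f x‖ ^ 2) ^ (1 / 2 : ℝ) * (∫ x, ‖g x‖ ^ 2) ^ (1 / 2 : ℝ)

/-! ### Complex interpolation -/

/-- **Hol** (holomorphic parameter integrals). Proof. At `z0` with `ball z0 r ⊆ U` (shrink `r`), Cauchy's estimate gives `‖∂_z F(z,x)‖ ≤ bd(x)/(r/2)` on `ball z0 (r/2)`; `hasDerivAt_integral_of_dominated_loc_of_deriv_le`. Measurability of `∂_z F(z0,·)`: limit of difference quotients. -/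
def St_Hol : Prop := ∀ (α : Type) [MeasurableSpace α] (μ : Measure α) (F : ℂ → α → ℂ) (U : Set ℂ), IsOpen U →
  (∀ z ∈ U, AEStronglyMeasurable (F z) μ) → (∀ᵐ x ∂μ, DifferentiableOn ℂ (fun z => F z x) U) →
  (∀ z0 ∈ U, ∃ r : ℝ, 0 < r ∧ ∃ bd : α → ℝ, Integrable bd μ ∧ ∀ᵐ x ∂μ, ∀ z ∈ Metric.ball z0 r, ‖F z x‖ ≤ bd x) →
  DifferentiableOn ℂ (fun z => ∫ x, F z x ∂μ) U

/-- **Fam** (the analytic family). `α(z) = qc (1/2 + z/(d+1))`, `α(1) = 1`, `Re α = qc/2 < 1` on `Re z = 0`, `Re α = qc > 1` on `Re z = (d+1)/2`. Proof. `φ² + δ²` is smooth and `≥ δ² > 0`; `‖s^w‖ = s^{Re w}` for `s > 0`. On `Re z = 0`: `‖fam‖² = φ² (φ²+δ²)^{Re α - 1} ≤ φ² (φ²)^{Re α - 1} = |φ|^{qc}` where `φ ≠ 0`.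
The limit: dominated convergence (`0 < δ ≤ 1`; compact support). The last bound: `(φ²+δ²)^e` is bounded above for `e` in a bounded interval. -/
def St_Fam : Prop := ∀ (d : ℕ), 2 ≤ d → ∀ (φ : X d → ℝ), IsTest φ →
  (∀ δ : ℝ, 0 < δ → (∀ z, TestC (fam δ φ z)) ∧ (fam δ φ 1 = fun x => (φ x : ℂ)) ∧
    (∀ z x, ‖fam δ φ z x‖ = |φ x| * (φ x ^ 2 + δ ^ 2) ^ ((qc d * (1 / 2 + z.re / ((d : ℝ) + 1)) - 1) / 2)) ∧
    (∀ x, Differentiable ℂ fun z => fam δ φ z x) ∧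
    (∀ z : ℂ, z.re = 0 → ∫ x, ‖fam δ φ z x‖ ^ 2 ≤ ∫ x, |φ x| ^ qc d) ∧
    (∀ z : ℂ, z.re = ((d : ℝ) + 1) / 2 → ∫ x, ‖fam δ φ z x‖ = ∫ x, |φ x| * (φ x ^ 2 + δ ^ 2) ^ ((qc d - 1) / 2)) ∧
    ∀ r1 r2 : ℝ, ∃ M : ℝ, ∀ z : ℂ, r1 ≤ z.re → z.re ≤ r2 → ∀ x, ‖fam δ φ z x‖ ≤ M * |φ x|) ∧
  Tendsto (fun δ : ℝ => ∫ x, |φ x| * (φ x ^ 2 + δ ^ 2) ^ ((qc d - 1) / 2)) (𝓝[>] 0) (𝓝 (∫ x, |φ x| ^ qc d))

/-- **Ana** (analyticity). Proof. Hol for fixed `ξ`: `z ↦ ftC (fam δ φ z) ξ` is entire and bounded by `M ∫ |φ|` on `r1 ≤ Re z ≤ r2` (Fam). `z ↦ sy z ε σ ξ` is entire for `ξ ≠ 0`. Hol for the integral in `ξ` on `Re z < d`: near `z0` the integrand is bounded by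
`((2π|ξ|)^{-r1} + (2π|ξ|)^{-r2}) e^{-2πε|ξ|} M²`, `r2 < d` (Sy). Measurability: `ftC` of an integrable function is continuous. The bound on the strip: the same majorant with `r1 = 0`, `r2 = (d+1)/2 < d`. -/
def St_Ana : Prop := ∀ (d : ℕ), 2 ≤ d → ∀ (φ ψ : X d → ℝ), IsTest φ → IsTest ψ → ∀ (δ ε σ : ℝ), 0 < δ → 0 < ε →
  DifferentiableOn ℂ (fun z => Bf z ε σ (fam δ φ z) (fam δ ψ z)) {z : ℂ | z.re < d} ∧
  ∃ M : ℝ, ∀ z : ℂ, 0 ≤ z.re → z.re ≤ ((d : ℝ) + 1) / 2 → ‖Bf z ε σ (fam δ φ z) (fam δ ψ z)‖ ≤ M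

/-- **L3** (Stein interpolation). Proof. `Φ(z) = (z - (d+1)/2) e^{z²} Bf z ε σ (fam δ φ z) (fam δ ψ z)` on the strip `0 ≤ Re z ≤ (d+1)/2` (Ana: differentiable on a neighbourhood; bounded, since `|e^{z²}| = e^{(Re z)² - (Im z)²}`). On `Re z = 0`: `|Φ| ≤ C0 (A B)^{1/2}`, `A = ∫|φ|^{qc}`, `B = ∫|ψ|^{qc}` (BL2, Fam).
On `Re z = (d+1)/2`: `Φ = 0` for `y = 0`, and `|y| gro y = (1 + |y|) e^{4|y|}`, so `|Φ| ≤ C1 A_δ B_δ` with `A_δ = ∫ |φ| (φ²+δ²)^{(qc-1)/2} → A` (BL1, Fam). Mathlib `Complex.HadamardThreeLines.norm_le_interp_of_mem_verticalClosedStrip'` (`l = 0`, `u = (d+1)/2`, point `1`, `θ = 2/(d+1)`):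
`((d+1)/2 - 1) e |Bf 1| ≤ (C0 (AB)^{1/2})^{1-θ} (C1 A_δ B_δ)^θ`; `δ → 0` (the left side does not depend on `δ`); `(1-θ)/2 + θ = (1+θ)/2 = 1/qc`. -/
def St_L3 : Prop := ∀ (d : ℕ), 2 ≤ d → KB d → ∃ C : ℝ, 0 < C ∧ ∀ (φ ψ : X d → ℝ), IsTest φ → IsTest ψ →
  ∀ (ε σ : ℝ), 0 < ε → (σ = 1 ∨ σ = -1) →
  ‖Bf 1 ε σ (fun x => (φ x : ℂ)) (fun x => (ψ x : ℂ))‖ ≤
    C * (∫ x, |φ x| ^ qc d) ^ (1 / qc d) * (∫ x, |ψ x| ^ qc d) ^ (1 / qc d)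

/-- **Fix** (time one). Proof. `Bf 1 ε 1 φ ψ - Bf 1 ε (-1) φ ψ = 2i ∫ e^{-2πε|ξ|} sin(2π|ξ|)/(2π|ξ|) ft φ(ξ) ft ψ(-ξ) dξ`; as `ε → 0` the integral tends to the one with `ε = 0` (`ft φ`, `ft ψ` are bounded and integrable: Schwartz functions, `|sin s / s| ≤ 1`), whose real value is `∫ (sinP 1 φ) ψ` (Fubini: `∫ ψ(x) e^{2πi x·ξ} dx = ft ψ (-ξ)`).
L3 for `σ = ± 1`. -/
def St_Fix : Prop := ∀ (d : ℕ), 2 ≤ d → KB d → ∃ C : ℝ, 0 < C ∧ ∀ (φ ψ : X d → ℝ), IsTest φ → IsTest ψ →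
  |∫ x, sinP 1 φ x * ψ x| ≤ C * (∫ x, |φ x| ^ qc d) ^ (1 / qc d) * (∫ x, |ψ x| ^ qc d) ^ (1 / qc d)

/-- **Dua** (duality on an open set). Proof. If `‖f‖ := ‖f‖_{L^q(B)} = 0` there is nothing to prove; otherwise `g = 1_B |f|^{q-2} f / ‖f‖^{q-1}` has `‖g‖_{q'} = 1`, `∫_B f g = ‖f‖`. Test functions with support in `B` are dense in `L^{q'}(B)` (continuous functions with compact support in the open set `B`: `MeasureTheory.MemLp.exists_hasCompactSupport_eLpNorm_sub_le`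
and a cutoff, or inner regularity; then mollify), so there are test functions `φ_n` with `tsupport φ_n ⊆ B`, `φ_n → g` in `L^{q'}`; `∫ f φ_n = ∫_B f φ_n → ‖f‖` by Hoelder, and `‖∫ f φ_n‖ₑ ≤ M ‖φ_n‖_{q'} → M`. If `M = ⊤` there is nothing to prove. -/
def St_Dua : Prop := ∀ (d : ℕ) (q q' : ℝ), 1 < q → 1 / q + 1 / q' = 1 → ∀ (B : Set (X d)), IsOpen B → ∀ (f : X d → ℝ) (M : ℝ≥0∞),
  MemLp f (ENNReal.ofReal q) (volume.restrict B) →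
  (∀ φ : X d → ℝ, IsTest φ → tsupport φ ⊆ B → ‖∫ x, f x * φ x‖ₑ ≤ M * eLpNorm φ (ENNReal.ofReal q') volume) →
  eLpNorm f (ENNReal.ofReal q) (volume.restrict B) ≤ M

/-- **FixT** (all times). Proof. `t > 0`: `sinP t φ (x) = t (sinP 1 (φ(t·))) (x/t)` (change of variables in `mult`, `ft (φ(t·)) ξ = t^{-d} ft φ (ξ/t)`), so for test `ψ` `|∫ (sinP t φ) ψ| = t^{d+1} |∫ (sinP 1 (φ(t·))) ψ(t·)| ≤ C t^{d+1-2d/qc} ‖φ‖_{qc} ‖ψ‖_{qc}` (Fix), `d + 1 - 2d/qc = -γ`;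
`sinP (-t) φ = - sinP t φ`. `sinP t φ` is a test function (`Prp d`), so Dua with `B = univ` gives the bound of the norm. (`eLpNorm φ (ofReal qc) = ofReal ((∫ |φ|^{qc})^{1/qc})`.) -/
def St_FixT : Prop := ∀ (d : ℕ), 2 ≤ d → KB d → Prp d → FixT d

/-! ### Local uniqueness -/

/-- **Sca** (a fractional Gronwall inequality). `0 < γ < 1`, `P = 2/(2-γ)`, `P' = 2/γ`. Proof. Put `f = a^{P'-1}`, `g = V a` (extended by `0` outside `J`; measurable representatives). `∫_J a^{P'} = ∫_J a^{P'-1} a ≤ C ∫∫ f(t) |t-r|^{-γ} g(r) ≤ C C' ‖f‖_P ‖g‖_P` (`QWP.St_HLSP`, proved in `Pool/Agent/QWP/HLSP.lean`), `‖f‖_P = ‖a‖_{P'}^{P'-1}`,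
`‖g‖_P ≤ ‖V‖_{1/(1-γ)} ‖a‖_{P'}` (Hoelder, `1/P = (1-γ) + γ/2`). So `‖a‖^{P'} ≤ C C' ‖V‖ ‖a‖^{P'}`, and `‖a‖_{P'}(J) < ∞` (`a` is bounded and `|J| < ∞`); if `C C' ‖V‖ ≤ 1/2` then `a = 0` a.e. on `J`, and then the inequality gives `a(t) = 0` for every `t ∈ J`. -/
def St_Sca : Prop := ∀ γ : ℝ, 0 < γ → γ < 1 → ∀ C : ℝ, 0 < C → ∃ η : ℝ, 0 < η ∧
  ∀ (t0 : ℝ) (J : Set ℝ) (a V : ℝ → ℝ≥0∞), J.OrdConnected → t0 ∈ J → volume J < ⊤ →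
  AEMeasurable a (volume.restrict J) → AEMeasurable V (volume.restrict J) →
  (∃ M : ℝ≥0∞, M < ⊤ ∧ ∀ t ∈ J, a t ≤ M) → ∫⁻ r in J, V r ^ (1 / (1 - γ)) ≤ ENNReal.ofReal η →
  (∀ t ∈ J, a t ≤ ENNReal.ofReal C * ∫⁻ r in uIoc t0 t, ENNReal.ofReal (|t - r| ^ (-γ)) * V r * a r) →
  ∀ t ∈ J, a t = 0

/-- **Cnt** (measurability). Proof. If `r_n → r` in `J` then `u(r_n) → u(r)` in `L^m`, a subsequence converges a.e., and Fatou gives `‖u(r)‖_q ≤ liminf ‖u(r_n)‖_q`; so `r ↦ ‖u(r)‖_q` is lower semicontinuous on `J` (for the balls: `1_{B(0,R-|r_n-t0|)} → 1_{B(0,R-|r-t0|)}` pointwise on the open ball), hence measurable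
(`{r ∈ J : ‖u(r)‖_q > c}` is relatively open in the interval `J`). Boundedness on `[a,b] ⊆ J`: `r ↦ ‖u(r)‖_m` is continuous on `[a,b]`; Hoelder on the ball of radius `R`, `q ≤ m`. -/
def St_Cnt : Prop := ∀ (d : ℕ) (m : ℝ) (J : Set ℝ) (u : ℝ → X d → ℝ), 1 ≤ m → J.OrdConnected → Cu m J u →
  (∀ q : ℝ, 1 ≤ q → AEMeasurable (fun r => eLpNorm (u r) (ENNReal.ofReal q) volume) (volume.restrict J)) ∧
  (∀ q t0 R : ℝ, 1 ≤ q → AEMeasurable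
    (fun r => eLpNorm (u r) (ENNReal.ofReal q) (volume.restrict (Metric.ball 0 (R - |r - t0|)))) (volume.restrict J)) ∧
  (∀ a ∈ J, ∀ b ∈ J, ∃ M : ℝ≥0∞, M < ⊤ ∧ ∀ r ∈ Icc a b, eLpNorm (u r) (ENNReal.ofReal m) volume ≤ M) ∧
  ∀ q t0 R : ℝ, 1 ≤ q → q ≤ m → ∀ a ∈ J, ∀ b ∈ J, ∃ M : ℝ≥0∞, M < ⊤ ∧ ∀ r ∈ Icc a b,
    eLpNorm (u r) (ENNReal.ofReal q) (volume.restrict (Metric.ball 0 (R - |r - t0|))) ≤ M

/-- **DuI** (the Duhamel integrand). `Adm d p` gives `m = ms d p ≥ p`. Proof. `h_r = sinP (τ - r) φ` is a test function with support in `B(0, R + |τ - r|)` (`Prp d`) and `|h_r(x) - h_{r'}(x)| ≤ |r - r'| ∫ |ft φ|` (`|sin a - sin b| ≤ |a - b|` in `mult`; `ft φ` is integrable). `|u|^{p-1} u ∈ L^{m/p} ⊆ L^1_loc`. Continuity in `r ∈ J`: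
`||u|^{p-1}u - |u'|^{p-1}u'| ≤ p (|u|+|u'|)^{p-1} |u-u'|` and Hoelder on a fixed ball (`‖u(r) - u(r')‖_{L^p(ball)} → 0`). A function continuous on `uIcc s t` is interval integrable. -/
def St_DuI : Prop := ∀ (d : ℕ) (p : ℝ), Adm d p → Prp d → ∀ (J : Set ℝ) (u : ℝ → X d → ℝ), J.OrdConnected →
  Cu (ms d p) J u → ∀ (φ : X d → ℝ) (τ : ℝ), IsTest φ →
  (∀ r ∈ J, Integrable (fun x => |u r x| ^ (p - 1) * u r x * sinP (τ - r) φ x) volume) ∧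
  ∀ s ∈ J, ∀ t ∈ J, IntervalIntegrable (fun r => ∫ x, |u r x| ^ (p - 1) * u r x * sinP (τ - r) φ x) volume s t

/-- **Wpt** (the inequality for the difference in a cone). Proof. `w = u - u'`, `B_r = B(0, R - |r - t0|)`. `w(t) ∈ L^m ⊆ L^{qd}(B_t)` (`m = ms d p ≥ qd`). Dua with `B = B_t` (open; empty if `R ≤ |t - t0|`): let `φ` be a test function with support in `B_t`. For `r` between `t0` and `t`, `sinP (t-r) φ` vanishes outside `B_r` (`Prp d`, `|t-t0| = |t-r| + |r-t0|`).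
`Dh`, DuI and `enorm_integral_le_lintegral_enorm`: `‖∫ w(t) φ‖ₑ ≤ ∫⁻_{r between} ‖∫_{B_r} G(r) sinP (t-r) φ‖ₑ dr`, `G = |u|^{p-1}u - |u'|^{p-1}u'`, `|G| ≤ p (|u|+|u'|)^{p-1} |w|`. Hoelder: `‖∫_{B_r} G(r) sinP(t-r)φ‖ₑ ≤ ‖G(r)‖_{L^{qc}(B_r)} ‖sinP (t-r) φ‖_{qd}`, `‖G(r)‖_{L^{qc}(B_r)} ≤ p ‖(|u|+|u'|)^{p-1}‖_{(d+1)/2} ‖w(r)‖_{L^{qd}(B_r)}`
(`1/qc = 2/(d+1) + 1/qd`), `‖(|u|+|u'|)^{p-1}‖_{(d+1)/2} = ‖|u|+|u'|‖_Q^{p-1} ≤ (‖u‖_Q + ‖u'‖_Q)^{p-1}`, `Q = Qd d p`; `‖sinP (t-r) φ‖_{qd} ≤ C |t-r|^{-γ} ‖φ‖_{qc}` (`FixT d`, `r ≠ t`). -/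
def St_Wpt : Prop := ∀ (d : ℕ) (p : ℝ), Adm d p → Prp d → FixT d → ∃ C : ℝ, 0 < C ∧
  ∀ (J : Set ℝ) (t0 : ℝ) (u u' : ℝ → X d → ℝ), J.OrdConnected → t0 ∈ J → Cu (ms d p) J u → Cu (ms d p) J u' → Dh p J t0 u u' →
  ∀ (R : ℝ), ∀ t ∈ J,
  eLpNorm (fun x => u t x - u' t x) (ENNReal.ofReal (qd d)) (volume.restrict (Metric.ball 0 (R - |t - t0|))) ≤
    ENNReal.ofReal C * ∫⁻ r in uIoc t0 t, ENNReal.ofReal (|t - r| ^ (-gm d)) *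
      (eLpNorm (u r) (ENNReal.ofReal (Qd d p)) volume + eLpNorm (u' r) (ENNReal.ofReal (Qd d p)) volume) ^ (p - 1) *
      eLpNorm (fun x => u r x - u' r x) (ENNReal.ofReal (qd d)) (volume.restrict (Metric.ball 0 (R - |r - t0|)))

/-- **Uni** (local uniqueness). Proof. `V(r) = (‖u(r)‖_Q + ‖u'(r)‖_Q)^{p-1}`, `V^{(d+1)/2} = (‖u‖_Q+‖u'‖_Q)^Q ≤ 2^Q (‖u‖_Q^Q + ‖u'‖_Q^Q)` is integrable on `J`; choose `η` such that `∫_{J ∩ [t0-η, t0+η]} V^{(d+1)/2}` is below the threshold of Sca (with the constant of Wpt, `γ = gm d`; absolute continuity of the integral). For every `R > 0` Sca on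
`J ∩ [t0-η, t0+η]` with `a(r) = ‖w(r)‖_{L^{qd}(B(0,R-|r-t0|))}` (bounded on this set: if `J` is not closed use compact subintervals `[x, y]` of it that contain `t0`, the threshold does not depend on them; measurable: Cnt for the curve `w`, which is `Cu`) gives `w(t) = 0` a.e. on `B(0, R - |t-t0|)`; all `R`. -/
def St_Uni : Prop := ∀ (d : ℕ) (p : ℝ), Adm d p → Prp d → FixT d → Uq d p

/-! ### Conclusion -/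

/-- **In4** (inputs, `d = 4`). Proof. `Prp`: `QWF.Duhx.prop_eq` and its proof (`sinP t φ = f2` of FreX with time `-t`, whose support property is part of FreX; the definitions of QWL and QWF agree by `rfl`). `Sob`: Br1 for the pair `(f, 0)` (`HD (sc - 1) 0 = 0`), FldP (`‖U k‖_{q0} ≤ C ‖k‖`), `q0 (sig b) = 2b`, `b = p - 1`. `LWP`: Br1 gives `k0`, MaxE the maximal
solution with `k(t0) = k0` on an open interval, Br3 and `QWF.IsSolnD_iff` the solution `IsSoln` (the conversions `soln_eq`, `HN_eq` at the end of `Pool/Agent/QWF/Duh.lean`); restrict to `[t0-δ, t0+δ]`. -/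
def St_In4 : Prop := Prp 4 ∧ ∀ p : ℝ, 5 < p → Sob 4 p ∧ LWP 4 p

/-- **In5** (inputs, `d = 5`). Proof: as In4, from QWP (`b = p - 1 > 2`; closed theorems in `Pool/Agent/QWP/All.lean`), `q0 (sig b) = 5b/2`. -/
def St_In5 : Prop := Prp 5 ∧ ∀ p : ℝ, 3 < p → Sob 5 p ∧ LWP 5 p

/-- **Itp** (interpolation in `x`). Proof. `θ = q1/q2 ∈ (0,1]`: `1/r2 = θ/r1 + (1-θ)/m`, `m = ms d p` (`d/m = 2/(p-1)`), so `‖f‖_{r2} ≤ ‖f‖_{r1}^θ ‖f‖_m^{1-θ}` (log-convexity, Hoelder); raise to the power `q2`. (`0 < r1, r2 < ∞` follows from the relations. If a norm on the right is `⊤`: the product is `⊤` unless the other factor is `0`, and then `f = 0` a.e.) -/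
def St_Itp : Prop := ∀ (d : ℕ) (p q1 r1 q2 r2 : ℝ), 1 ≤ d → 2 < p → p - 1 ≤ q1 → q1 ≤ q2 → 1 / q1 + (d : ℝ) / r1 = 2 / (p - 1) →
  1 / q2 + (d : ℝ) / r2 = 2 / (p - 1) → ∀ f : X d → ℝ, AEStronglyMeasurable f volume →
  eLpNorm f (ENNReal.ofReal r2) volume ^ q2 ≤
    eLpNorm f (ENNReal.ofReal r1) volume ^ q1 * eLpNorm f (ENNReal.ofReal (ms d p)) volume ^ (q2 - q1)

/-- **Eqv** (the classes coincide). Proof. The component `u` of a curve that is continuous in `HN p` on an interval `J` is `Cu (ms d p) J` (`Sob d p`; near `t` the quantity `HD (sc d p) (u s - u t)` is finite). (⇐) Itp with `q1 = p-1`, `r1 = d(p-1)` and Cnt (`sup ‖u(τ)‖_m < ∞` on `[s,t]`). (⇒) By Itp and Cnt `∫⁻_{[s,t]} ‖u‖_Q^Q < ∞`, `Q = Qd d p` (the pair `(Q,Q)`).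
Let `[s,t] ⊆ I` and `t0 ∈ [s,t]`. `LWP d p` for the data `(u(t0), v(t0))` gives `δ` and `(ū, v̄)`; on `J = [s,t] ∩ [t0-δ,t0+δ]` the curves `u`, `ū` satisfy `Dh p J t0 u ū` (both Duhamel formulas with base point `t0`, the data terms are equal), `∫⁻_J ‖ū‖_Q^Q < ∞` (Itp), so `Uq d p` gives `η` with `u(τ) = ū(τ)` a.e. for `τ ∈ J`, `|τ - t0| < η`; hence
`∫⁻_{[s,t] ∩ (t0-ρ,t0+ρ)} ‖u‖_{d(p-1)}^{p-1} < ∞`, `ρ = min δ η`. Compactness of `[s,t]` (`IsCompact.induction_on`). -/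
def St_Eqv : Prop := ∀ (d : ℕ) (p : ℝ), Adm d p → Uq d p → Sob d p → LWP d p → ∀ q r : ℝ, Pr d p q r →
  ∀ (I : Set ℝ) (u v : ℝ → X d → ℝ), IsSolnS p q r I u v ↔ IsSoln p I u v

/-- **Fin** (the final theorem for all pairs). Proof. Eqv: `IsMaxSolnS p q r I u v ↔ IsMaxSoln p I u v`. -/
def St_Fin : Prop := ∀ (d : ℕ) (p : ℝ), Adm d p → Uq d p → Sob d p → LWP d p → Pool.Agent.QWL.Final d p → ∀ q r : ℝ, Pr d p q r →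
  ∀ (I : Set ℝ) (u v : ℝ → X d → ℝ), IsMaxSolnS p q r I u v → (∃ A : ℝ≥0, ∀ t ∈ I, HN p (u t) (v t) ≤ A) →
  I = univ ∧ Scatters p u v atTop ∧ Scatters p u v atBot

end Pool.Agent.SPI
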