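import Pool.Agent.SPI.St

set_option autoImplicit false

open MeasureTheory Filter Topology Set
open scoped ENNReal NNReal RealInnerProductSpace ContDiff

namespace Pool.Agent.SPI

open Pool.Agent.QWL (X IsTest ft hs HD sc HN mult cosP sinP dcosP IsSoln IsMaxSoln Scatters)

namespace Syx

theorem radial (d : ℕ) (hd : 1 ≤ d) (ε : ℝ) (hε : 0 < ε) (a : ℝ) (ha : a < d) :
    Integrable (fun ξ : X d => (2 * Real.pi * ‖ξ‖) ^ (-a) * Real.exp (-(ε * (2 * Real.pi * ‖ξ‖)))) volume := by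
  haveI : Nonempty (Fin d) := ⟨⟨0, hd⟩⟩
  have hpi : 0 < 2 * Real.pi := by positivity
  have key : IntegrableOn (fun y : ℝ => y ^ (Module.finrank ℝ (X d) - 1) •
      ((2 * Real.pi * y) ^ (-a) * Real.exp (-(ε * (2 * Real.pi * y))))) (Ioi 0) := by
    have h1 : IntegrableOn (fun x : ℝ => x ^ ((d : ℝ) - 1 - a) * Real.exp (-(2 * Real.pi * ε) * x ^ (1 : ℝ))) (Ioi 0) :=
      integrableOn_rpow_mul_exp_neg_mul_rpow (by linarith) one_pos (by positivity)
    have h2 := Integrable.const_mul h1 ((2 * Real.pi) ^ (-a))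
    refine IntegrableOn.congr_fun h2 ?_ measurableSet_Ioi
    intro y hy
    have hy' : (0 : ℝ) < y := hy
    have hfr : Module.finrank ℝ (X d) = d := by simp
    simp only [smul_eq_mul]
    rw [hfr, Real.mul_rpow hpi.le hy'.le, Real.rpow_one]
    have h3 : y ^ (d - 1) = y ^ ((d : ℝ) - 1) := by
      rw [← Real.rpow_natCast, Nat.cast_sub hd, Nat.cast_one]
    have h4 : y ^ ((d : ℝ) - 1 - a) = y ^ ((d : ℝ) - 1) * y ^ (-a) := by
      rw [← Real.rpow_add hy']
      congr 1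
    rw [h3, h4]
    have h5 : -(2 * Real.pi * ε) * y = -(ε * (2 * Real.pi * y)) := by ring
    rw [h5]
    ring
  exact (integrable_fun_norm_addHaar (μ := (volume : Measure (X d)))
    (f := fun y : ℝ => (2 * Real.pi * y) ^ (-a) * Real.exp (-(ε * (2 * Real.pi * y))))).2 key

theorem norm_sy (d : ℕ) (ε : ℝ) (z : ℂ) (σ : ℝ) (ξ : X d) (hξ : ξ ≠ 0) :
    ‖sy z ε σ ξ‖ = (2 * Real.pi * ‖ξ‖) ^ (-z.re) * Real.exp (-(ε * (2 * Real.pi * ‖ξ‖))) := by
  have h0 : 0 < 2 * Real.pi * ‖ξ‖ := by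
    have := norm_pos_iff.2 hξ
    positivity
  unfold sy
  rw [norm_mul, Complex.norm_cpow_eq_rpow_re_of_pos h0, Complex.norm_exp, Complex.neg_re]
  congr 2
  simp
  ring

theorem meas_sy (d : ℕ) (ε : ℝ) (z : ℂ) (σ : ℝ) : Measurable (fun ξ : X d => sy z ε σ ξ) := by
  unfold sy
  have h1 : Measurable (fun ξ : X d => ((2 * Real.pi * ‖ξ‖ : ℝ) : ℂ)) :=
    Complex.measurable_ofReal.comp (measurable_norm.const_mul _)
  refine (h1.pow_const _).mul (Complex.measurable_exp.comp (h1.neg.mul_const _))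

end Syx

theorem thm_Sy : St_Sy := by
  intro d hd ε hε
  refine ⟨fun a ha => Syx.radial d hd ε hε a ha, fun z σ => ⟨fun ξ hξ => Syx.norm_sy d ε z σ ξ hξ, fun hz => ?_⟩⟩
  haveI : Nonempty (Fin d) := ⟨⟨0, hd⟩⟩
  refine (Syx.radial d hd ε hε z.re hz).mono' (Syx.meas_sy d ε z σ).aestronglyMeasurable ?_
  have h0 : ∀ᵐ ξ : X d ∂(volume : Measure (X d)), ξ ≠ 0 := by
    have : (volume : Measure (X d)) {0} = 0 := measure_singleton _
    exact measure_eq_zero_iff_ae_notMem.1 this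
  filter_upwards [h0] with ξ hξ
  rw [Syx.norm_sy d ε z σ ξ hξ]

end Pool.Agent.SPI
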